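import Pool.Agent.Lib.MP_f2780a_gt.BasicA

/-! Calculus of the mixed area form. -/

set_option autoImplicit false

noncomputable section

namespace Pool.Agent.Lib.MP_f2780a_gt

open Real MeasureTheory Set Filter Topology intervalIntegral

/-! ### Lipschitz functions -/

lemma Lip.continuous {f : ℝ → ℝ} (hf : Lip f) : Continuous f := hf.choose_spec.continuous
lemma Lip.ae_diff {f : ℝ → ℝ} (hf : Lip f) : ∀ᵐ x, DifferentiableAt ℝ f x :=
  hf.choose_spec.ae_differentiableAt_real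
lemma Lip.deriv_bdd {f : ℝ → ℝ} (hf : Lip f) : ∃ C, ∀ x, |deriv f x| ≤ C :=
  ⟨_, fun _ => norm_deriv_le_of_lipschitz hf.choose_spec⟩
lemma Lip.ac {f : ℝ → ℝ} (hf : Lip f) (a b : ℝ) : AbsolutelyContinuousOnInterval f a b :=
  hf.choose_spec.lipschitzOnWith.absolutelyContinuousOnInterval
lemma Lip.add {f g : ℝ → ℝ} (hf : Lip f) (hg : Lip g) : Lip (fun x => f x + g x) :=
  ⟨_, hf.choose_spec.add hg.choose_spec⟩
lemma Lip.neg {f : ℝ → ℝ} (hf : Lip f) : Lip (fun x => -f x) := ⟨_, hf.choose_spec.neg⟩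
lemma Lip.sub {f g : ℝ → ℝ} (hf : Lip f) (hg : Lip g) : Lip (fun x => f x - g x) :=
  ⟨_, hf.choose_spec.sub hg.choose_spec⟩
lemma Lip.const (c : ℝ) : Lip (fun _ => c) := ⟨0, LipschitzWith.const c⟩
lemma Lip.const_mul {f : ℝ → ℝ} (hf : Lip f) (c : ℝ) : Lip (fun x => c * f x) := by
  obtain ⟨C, hC⟩ := hf
  refine ⟨‖c‖₊ * C, LipschitzWith.of_dist_le_mul fun x y => ?_⟩
  rw [Real.dist_eq, ← mul_sub, abs_mul, NNReal.coe_mul, coe_nnnorm, Real.norm_eq_abs, mul_assoc]
  exact mul_le_mul_of_nonneg_left (hC.dist_le_mul x y) (abs_nonneg c)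
lemma Lip.max {f g : ℝ → ℝ} (hf : Lip f) (hg : Lip g) : Lip (fun x => max (f x) (g x)) :=
  ⟨_, hf.choose_spec.max hg.choose_spec⟩
lemma Lip.min {f g : ℝ → ℝ} (hf : Lip f) (hg : Lip g) : Lip (fun x => min (f x) (g x)) :=
  ⟨_, hf.choose_spec.min hg.choose_spec⟩
lemma Lip.abs {f : ℝ → ℝ} (hf : Lip f) : Lip (fun x => |f x|) := by
  simpa only [abs_eq_max_neg] using hf.max hf.neg
lemma Lip.shift {f : ℝ → ℝ} (hf : Lip f) (s : ℝ) : Lip (fun x => f (x + s)) := by
  obtain ⟨C, hC⟩ := hf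
  refine ⟨C, LipschitzWith.of_dist_le_mul fun x y => ?_⟩
  simpa using hC.dist_le_mul (x + s) (y + s)
lemma lip_lin (x : ℂ) : Lip (lin x) := h_singleton x ▸ lip_h (cn_singleton x)
lemma lip_lin' (x : ℂ) : Lip (lin' x) := by
  have : lin' x = fun θ => lin x (θ + π / 2) := funext fun θ => by unfold lin' lin; rw [u'_eq]
  rw [this]; exact (lip_lin x).shift _
lemma lip_hb {K : Set ℂ} (hK : CN K) : Lip (hb K) := (lip_h hK).shift π
/-- a differentiable function with bounded derivative -/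
lemma lip_of_deriv {f f' : ℝ → ℝ} (hf : ∀ x, HasDerivAt f (f' x) x) {C : ℝ}
    (hC : ∀ x, |f' x| ≤ C) : Lip f := by
  refine ⟨⟨C, le_trans (abs_nonneg _) (hC 0)⟩, lipschitzWith_of_nnnorm_deriv_le
    (fun x => (hf x).differentiableAt) fun x => ?_⟩
  rw [(hf x).deriv]; exact hC x
/-- points of differentiability are dense -/
lemma Lip.exists_diff {f : ℝ → ℝ} (hf : Lip f) {a b : ℝ} (hab : a < b) :
    ∃ x ∈ Ioo a b, DifferentiableAt ℝ f x :=
  (Measure.dense_of_ae hf.ae_diff).exists_between hab |>.imp fun _ hx => ⟨hx.2, hx.1⟩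
lemma Lip.ii {f : ℝ → ℝ} (hf : Lip f) (a b : ℝ) : IntervalIntegrable f volume a b :=
  hf.continuous.intervalIntegrable a b
lemma ii_of_bdd {f : ℝ → ℝ} (hm : Measurable f) {C : ℝ} (hC : ∀ x, |f x| ≤ C) (a b : ℝ) :
    IntervalIntegrable f volume a b :=
  (intervalIntegrable_const (c := C)).mono_fun' hm.aestronglyMeasurable
    (Eventually.of_forall hC)
lemma ii_deriv_mul {f g : ℝ → ℝ} (hf : Lip f) (hg : Lip g) (a b : ℝ) :
    IntervalIntegrable (fun x => deriv f x * deriv g x) volume a b := by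
  obtain ⟨C, hC⟩ := hf.deriv_bdd
  obtain ⟨D, hD⟩ := hg.deriv_bdd
  refine ii_of_bdd ((measurable_deriv f).mul (measurable_deriv g)) (C := C * D) (fun x => ?_) a b
  rw [Pi.mul_apply, abs_mul]
  exact mul_le_mul (hC x) (hD x) (abs_nonneg _) (le_trans (abs_nonneg _) (hC x))
lemma ii_V {f g : ℝ → ℝ} (hf : Lip f) (hg : Lip g) (a b : ℝ) :
    IntervalIntegrable (fun x => f x * g x - deriv f x * deriv g x) volume a b :=
  ((hf.continuous.mul hg.continuous).intervalIntegrable a b).sub (ii_deriv_mul hf hg a b)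

/-! ### the form `V` -/

lemma V_symm (a b : ℝ) (f g : ℝ → ℝ) : V a b f g = V a b g f := by
  unfold V; congr 2; funext x; ring
@[simp] lemma V_same (a : ℝ) (f g : ℝ → ℝ) : V a a f g = 0 := by simp [V]
lemma V_split {f g : ℝ → ℝ} (hf : Lip f) (hg : Lip g) (a b c : ℝ) :
    V a b f g + V b c f g = V a c f g := by
  unfold V
  rw [← add_div, integral_add_adjacent_intervals (ii_V hf hg a b) (ii_V hf hg b c)]
lemma V_lincomb {f1 f2 g : ℝ → ℝ} (h1 : Lip f1) (h2 : Lip f2) (hg : Lip g) (s t a b : ℝ) :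
    V a b (fun x => s * f1 x + t * f2 x) g = s * V a b f1 g + t * V a b f2 g := by
  unfold V
  rw [← mul_div_assoc, ← mul_div_assoc, ← add_div, ← intervalIntegral.integral_const_mul,
    ← intervalIntegral.integral_const_mul,
    ← integral_add ((ii_V h1 hg a b).const_mul s) ((ii_V h2 hg a b).const_mul t)]
  congr 1
  apply intervalIntegral.integral_congr_ae
  filter_upwards [h1.ae_diff, h2.ae_diff] with x d1 d2 _
  have := ((d1.hasDerivAt.const_mul s).add (d2.hasDerivAt.const_mul t)).deriv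
  have e : deriv (fun x => s * f1 x + t * f2 x) x = s * deriv f1 x + t * deriv f2 x := this
  rw [e]; ring
lemma V_add {f1 f2 g : ℝ → ℝ} (h1 : Lip f1) (h2 : Lip f2) (hg : Lip g) (a b : ℝ) :
    V a b (fun x => f1 x + f2 x) g = V a b f1 g + V a b f2 g := by
  simpa using V_lincomb h1 h2 hg 1 1 a b
lemma V_sub {f1 f2 g : ℝ → ℝ} (h1 : Lip f1) (h2 : Lip f2) (hg : Lip g) (a b : ℝ) :
    V a b (fun x => f1 x - f2 x) g = V a b f1 g - V a b f2 g := by
  simpa [sub_eq_add_neg] using V_lincomb h1 h2 hg 1 (-1) a b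
lemma V_const_mul {f g : ℝ → ℝ} (hf : Lip f) (hg : Lip g) (s a b : ℝ) :
    V a b (fun x => s * f x) g = s * V a b f g := by
  simpa using V_lincomb hf hf hg s 0 a b
lemma V_add_right {f g1 g2 : ℝ → ℝ} (hf : Lip f) (h1 : Lip g1) (h2 : Lip g2) (a b : ℝ) :
    V a b f (fun x => g1 x + g2 x) = V a b f g1 + V a b f g2 := by
  rw [V_symm, V_add h1 h2 hf, V_symm a b g1, V_symm a b g2]
lemma V_sub_right {f g1 g2 : ℝ → ℝ} (hf : Lip f) (h1 : Lip g1) (h2 : Lip g2) (a b : ℝ) :
    V a b f (fun x => g1 x - g2 x) = V a b f g1 - V a b f g2 := by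
  rw [V_symm, V_sub h1 h2 hf, V_symm a b g1, V_symm a b g2]
lemma V_const_mul_right {f g : ℝ → ℝ} (hf : Lip f) (hg : Lip g) (s a b : ℝ) :
    V a b f (fun x => s * g x) = s * V a b f g := by
  rw [V_symm, V_const_mul hg hf, V_symm]
lemma V_sq_add {f g : ℝ → ℝ} (hf : Lip f) (hg : Lip g) (a b : ℝ) :
    V a b (fun x => f x + g x) (fun x => f x + g x) = V a b f f + 2 * V a b f g + V a b g g := by
  rw [V_add hf hg (hf.add hg), V_add_right hf hf hg, V_add_right hg hf hg, V_symm a b g f]; ring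
lemma V_sq_sub {f g : ℝ → ℝ} (hf : Lip f) (hg : Lip g) (a b : ℝ) :
    V a b (fun x => f x - g x) (fun x => f x - g x) = V a b f f - 2 * V a b f g + V a b g g := by
  rw [V_sub hf hg (hf.sub hg), V_sub_right hf hf hg, V_sub_right hg hf hg, V_symm a b g f]; ring
lemma deriv_congr_Ioo {f f' : ℝ → ℝ} {a b x : ℝ} (e : EqOn f f' (Icc a b)) (hx : x ∈ Ioo a b) :
    deriv f x = deriv f' x :=
  Filter.EventuallyEq.deriv_eq (eventuallyEq_of_mem (Ioo_mem_nhds hx.1 hx.2)
    fun _ hy => e (Ioo_subset_Icc_self hy))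
lemma ae_Ioo {a b : ℝ} (hab : a ≤ b) : ∀ᵐ x, x ∈ uIoc a b → x ∈ Ioo a b := by
  filter_upwards [compl_mem_ae_iff.mpr (Real.volume_singleton (a := b))] with x hx h
  rw [uIoc_of_le hab] at h
  exact ⟨h.1, lt_of_le_of_ne h.2 hx⟩
lemma V_congr {f f' g g' : ℝ → ℝ} {a b : ℝ} (hab : a ≤ b) (e : EqOn f f' (Icc a b))
    (e' : EqOn g g' (Icc a b)) : V a b f g = V a b f' g' := by
  unfold V
  congr 1
  apply intervalIntegral.integral_congr_ae
  filter_upwards [ae_Ioo hab] with x hx hx'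
  have := hx hx'
  rw [deriv_congr_Ioo e this, deriv_congr_Ioo e' this, e (Ioo_subset_Icc_self this),
    e' (Ioo_subset_Icc_self this)]
/-- integration by parts against a twice differentiable function -/
lemma V_ibp {f k k1 k2 : ℝ → ℝ} (hf : Lip f) (h1 : ∀ θ, HasDerivAt k (k1 θ) θ)
    (h2 : ∀ θ, HasDerivAt k1 (k2 θ) θ) (h3 : Continuous k2) (a b : ℝ) :
    V a b f k = ((∫ θ in a..b, f θ * (k θ + k2 θ)) - (f b * k1 b - f a * k1 a)) / 2 := by
  have d1 : deriv k = k1 := funext fun θ => (h1 θ).deriv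
  have d2 : deriv k1 = k2 := funext fun θ => (h2 θ).deriv
  have c1 : Continuous k1 := continuous_iff_continuousAt.mpr fun θ => (h2 θ).continuousAt
  have c0 : Continuous k := continuous_iff_continuousAt.mpr fun θ => (h1 θ).continuousAt
  have hac : AbsolutelyContinuousOnInterval k1 a b := by
    apply ContDiffOn.absolutelyContinuousOnInterval
    apply ContDiff.contDiffOn
    rw [contDiff_one_iff_deriv, d2]
    exact ⟨fun θ => (h2 θ).differentiableAt, h3⟩
  have key := (hf.ac a b).integral_mul_deriv_eq_deriv_mul hac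
  rw [d2] at key
  have i1 : IntervalIntegrable (fun x => deriv f x * k1 x) volume a b :=
    (hf.ac a b).intervalIntegrable_deriv.mul_continuousOn c1.continuousOn
  have i2 : IntervalIntegrable (fun x => f x * k x) volume a b :=
    (hf.continuous.mul c0).intervalIntegrable a b
  have i3 : IntervalIntegrable (fun x => f x * k2 x) volume a b :=
    (hf.continuous.mul h3).intervalIntegrable a b
  unfold V
  rw [d1, integral_sub i2 i1]
  simp only [mul_add]
  rw [integral_add i2 i3, key]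
  ring
lemma V_lin {f : ℝ → ℝ} (hf : Lip f) (c : ℂ) (a b : ℝ) :
    V a b f (lin c) = -(f b * lin' c b - f a * lin' c a) / 2 := by
  rw [V_ibp hf (hasDerivAt_lin c) (hasDerivAt_lin' c) (continuous_lin c).neg]
  simp
lemma V_shift (f g : ℝ → ℝ) (s a b : ℝ) :
    V a b (fun x => f (x + s)) (fun x => g (x + s)) = V (a + s) (b + s) f g := by
  unfold V
  simp only [deriv_comp_add_const]
  rw [← integral_comp_add_right (fun x => f x * g x - deriv f x * deriv g x)]
lemma V_period {f g : ℝ → ℝ} {T : ℝ} (hf : Function.Periodic f T) (hg : Function.Periodic g T)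
    (a b : ℝ) : V a (a + T) f g = V b (b + T) f g := by
  have d : ∀ k : ℝ → ℝ, Function.Periodic k T → Function.Periodic (deriv k) T := by
    intro k hk x
    rw [← deriv_comp_add_const]
    congr 1; funext y; exact hk y
  unfold V
  rw [Function.Periodic.intervalIntegral_add_eq
    (f := fun x => f x * g x - deriv f x * deriv g x) _ a b]
  intro x
  simp only [hf x, hg x, d f hf x, d g hg x]
lemma V_const (c d a b : ℝ) : V a b (fun _ => c) (fun _ => d) = (b - a) * (c * d) / 2 := by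
  simp [V]; ring

/-! ### the length functional -/

@[simp] lemma Ln_same (a : ℝ) (f : ℝ → ℝ) : Ln a a f = 0 := by simp [Ln]
lemma Ln_split {f : ℝ → ℝ} (hf : Continuous f) (a b c : ℝ) : Ln a b f + Ln b c f = Ln a c f :=
  integral_add_adjacent_intervals (hf.intervalIntegrable a b) (hf.intervalIntegrable b c)
lemma Ln_congr {f g : ℝ → ℝ} {a b : ℝ} (hab : a ≤ b) (e : EqOn f g (Icc a b)) :
    Ln a b f = Ln a b g := integral_congr (by rwa [uIcc_of_le hab])
lemma Ln_add {f g : ℝ → ℝ} (hf : Continuous f) (hg : Continuous g) (a b : ℝ) :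
    Ln a b (fun x => f x + g x) = Ln a b f + Ln a b g :=
  integral_add (hf.intervalIntegrable a b) (hg.intervalIntegrable a b)
lemma Ln_sub {f g : ℝ → ℝ} (hf : Continuous f) (hg : Continuous g) (a b : ℝ) :
    Ln a b (fun x => f x - g x) = Ln a b f - Ln a b g :=
  integral_sub (hf.intervalIntegrable a b) (hg.intervalIntegrable a b)
lemma Ln_const_mul (f : ℝ → ℝ) (s a b : ℝ) : Ln a b (fun x => s * f x) = s * Ln a b f :=
  intervalIntegral.integral_const_mul _ _
lemma Ln_const (c a b : ℝ) : Ln a b (fun _ => c) = (b - a) * c := by simp [Ln]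
lemma Ln_mono {f g : ℝ → ℝ} (hf : Continuous f) (hg : Continuous g) {a b : ℝ} (hab : a ≤ b)
    (e : ∀ x ∈ Icc a b, f x ≤ g x) : Ln a b f ≤ Ln a b g :=
  integral_mono_on hab (hf.intervalIntegrable a b) (hg.intervalIntegrable a b) e
/-- equality of lengths forces equality of functions -/
lemma eqOn_of_Ln_le {f g : ℝ → ℝ} (hf : Continuous f) (hg : Continuous g) {a b : ℝ} (hab : a < b)
    (e : ∀ x ∈ Icc a b, f x ≤ g x) (hL : Ln a b g ≤ Ln a b f) : EqOn f g (Icc a b) := by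
  intro x hx
  by_contra hne
  have := integral_lt_integral_of_continuousOn_of_le_of_exists_lt hab hf.continuousOn
    hg.continuousOn (fun y hy => e y ⟨hy.1.le, hy.2⟩) ⟨x, hx, lt_of_le_of_ne (e x hx) hne⟩
  exact absurd hL (not_le.mpr this)
lemma Ln_lin (c : ℂ) (a b : ℝ) : Ln a b (lin c) = lin' c a - lin' c b := by
  unfold Ln
  rw [integral_eq_sub_of_hasDerivAt (f := fun θ => -lin' c θ)
    (fun θ _ => by simpa using (hasDerivAt_lin' c θ).fun_neg) ((continuous_lin c).intervalIntegrable a b)]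
  ring
lemma Ln_shift (f : ℝ → ℝ) (s a b : ℝ) : Ln a b (fun x => f (x + s)) = Ln (a + s) (b + s) f :=
  integral_comp_add_right f s
lemma Ln_period {f : ℝ → ℝ} {T : ℝ} (hf : Function.Periodic f T) (a b : ℝ) :
    Ln a (a + T) f = Ln b (b + T) f := hf.intervalIntegral_add_eq a b

lemma Ar_split {C : Set ℂ} (hC : CN C) (a b c : ℝ) : Ar a b C + Ar b c C = Ar a c C :=
  V_split (lip_h hC) (lip_h hC) a b c
lemma Le_split {C : Set ℂ} (hC : CN C) (a b c : ℝ) : Le a b C + Le b c C = Le a c C :=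
  Ln_split (continuous_h hC) a b c
lemma Ar_congr {C C' : Set ℂ} {a b : ℝ} (hab : a ≤ b) (e : ∀ θ ∈ Icc a b, h C θ = h C' θ) :
    Ar a b C = Ar a b C' := V_congr hab e e
lemma Le_congr {C C' : Set ℂ} {a b : ℝ} (hab : a ≤ b) (e : ∀ θ ∈ Icc a b, h C θ = h C' θ) :
    Le a b C = Le a b C' := Ln_congr hab e
lemma Ar_rot {C : Set ℂ} (hC : CN C) (s a b : ℝ) :
    Ar (a + s) (b + s) ((fun z => u s * z) '' C) = Ar a b C := by
  unfold Ar
  rw [← V_shift]
  simp only [h_rot hC, add_sub_cancel_right]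
lemma Le_rot {C : Set ℂ} (hC : CN C) (s a b : ℝ) :
    Le (a + s) (b + s) ((fun z => u s * z) '' C) = Le a b C := by
  unfold Le
  rw [← Ln_shift]
  simp only [h_rot hC, add_sub_cancel_right]
lemma Ar_tr {C : Set ℂ} (hC : CN C) (c : ℂ) (a b : ℝ) : Ar a b (tr c C) =
    Ar a b C + (h C b * lin' c b - h C a * lin' c a) - (lin c b * lin' c b - lin c a * lin' c a) / 2 := by
  unfold Ar
  rw [show h (tr c C) = fun θ => h C θ - lin c θ from funext (h_tr hC c),
    V_sq_sub (lip_h hC) (lip_lin c), V_lin (lip_h hC), V_lin (lip_lin c)]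
  ring
lemma Le_tr {C : Set ℂ} (hC : CN C) (c : ℂ) (a b : ℝ) :
    Le a b (tr c C) = Le a b C - (lin' c a - lin' c b) := by
  unfold Le
  rw [show h (tr c C) = fun θ => h C θ - lin c θ from funext (h_tr hC c),
    Ln_sub (continuous_h hC) (continuous_lin c), Ln_lin]
lemma Ar_tr_period {C : Set ℂ} (hC : CN C) (c : ℂ) (a : ℝ) :
    Ar a (a + 2 * π) (tr c C) = Ar a (a + 2 * π) C := by
  rw [Ar_tr hC, h_periodic C a, lin'_add_two_pi, lin_add_two_pi]; ring
lemma Le_tr_period {C : Set ℂ} (hC : CN C) (c : ℂ) (a : ℝ) :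
    Le a (a + 2 * π) (tr c C) = Le a (a + 2 * π) C := by
  rw [Le_tr hC, lin'_add_two_pi]; ring

/-! ### one edge -/

lemma two_cross {y z : ℂ} {a b : ℝ} (hab : a < b) (hba : b - a ≤ π) (h1 : lin z a ≤ lin y a)
    (h2 : lin y b ≤ lin z b) (h3 : b - a < π ∨ lin z a < lin y a) :
    ∃ γ ∈ Icc a b, lin y γ = lin z γ ∧ lin' z γ - lin' y γ = ‖z - y‖ ∧
      (∀ θ ∈ Icc a γ, lin z θ ≤ lin y θ) ∧ ∀ θ ∈ Icc γ b, lin y θ ≤ lin z θ := by
  obtain ⟨γ, hγ, e⟩ : ∃ γ ∈ Icc a b, lin (z - y) γ = 0 :=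
    intermediate_value_Icc hab.le (continuous_lin (z - y)).continuousOn
      ⟨by rw [lin_sub]; linarith, by rw [lin_sub]; linarith⟩
  have ex : ∀ θ, lin z θ - lin y θ = lin' (z - y) γ * sin (θ - γ) := fun θ => by
    rw [← lin_sub, lin_expand (z - y) γ θ, e]; ring
  have hn : 0 ≤ lin' (z - y) γ := by
    by_contra hc
    push Not at hc
    have ea := ex a
    have eb := ex b
    have s1 : 0 ≤ sin (γ - a) := sin_nonneg_of_nonneg_of_le_pi (by linarith [hγ.1]) (by linarith [hγ.2])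
    have s2 : 0 ≤ sin (b - γ) := sin_nonneg_of_nonneg_of_le_pi (by linarith [hγ.2]) (by linarith [hγ.1])
    rw [show a - γ = -(γ - a) by ring, sin_neg] at ea
    rcases h3 with h3 | h3
    · rcases hγ.1.eq_or_lt with rfl | hlt
      · have := sin_pos_of_pos_of_lt_pi (x := b - a) (by linarith) h3
        nlinarith
      · have := sin_pos_of_pos_of_lt_pi (x := γ - a) (by linarith) (by linarith [hγ.2])
        nlinarith
    · nlinarith
  have hq := lin_sq_add (z - y) γ
  rw [e] at hq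
  refine ⟨γ, hγ, by rw [lin_sub] at e; linarith, ?_, fun θ hθ => ?_, fun θ hθ => ?_⟩
  · rw [← lin'_sub]
    exact (pow_left_inj₀ hn (norm_nonneg _) two_ne_zero).mp (by linarith)
  · have := ex θ
    have s1 : 0 ≤ sin (γ - θ) :=
      sin_nonneg_of_nonneg_of_le_pi (by linarith [hθ.2]) (by linarith [hθ.1, hγ.2])
    rw [show θ - γ = -(γ - θ) by ring, sin_neg] at this
    nlinarith [mul_nonneg hn s1]
  · have := ex θ
    have s1 : 0 ≤ sin (θ - γ) :=
      sin_nonneg_of_nonneg_of_le_pi (by linarith [hθ.1]) (by linarith [hθ.2, hγ.1])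
    nlinarith [mul_nonneg hn s1]
/-- length and area of the piece given by the edge from `y` to `z` -/
lemma two {F : ℝ → ℝ} {y z : ℂ} {a b : ℝ} (hab : a < b) (hba : b - a ≤ π) (h1 : lin z a ≤ lin y a)
    (h2 : lin y b ≤ lin z b) (h3 : b - a < π ∨ lin z a < lin y a)
    (hF : ∀ θ ∈ Icc a b, F θ = max (lin y θ) (lin z θ)) :
    Ln a b F = lin' y a - lin' z b + ‖z - y‖ ∧
    V a b F F = (lin y a * lin' y a - lin z b * lin' z b + dt y z) / 2 := by
  obtain ⟨γ, hγ, e0, e1, e2, e3⟩ := two_cross hab hba h1 h2 h3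
  have hG : Lip (fun θ => max (lin y θ) (lin z θ)) := (lip_lin y).max (lip_lin z)
  have l : EqOn (fun θ => max (lin y θ) (lin z θ)) (lin y) (Icc a γ) :=
    fun θ hθ => max_eq_left (e2 θ hθ)
  have r : EqOn (fun θ => max (lin y θ) (lin z θ)) (lin z) (Icc γ b) :=
    fun θ hθ => max_eq_right (e3 θ hθ)
  constructor
  · rw [Ln_congr hab.le hF, ← Ln_split hG.continuous a γ b, Ln_congr hγ.1 l, Ln_congr hγ.2 r,
      Ln_lin, Ln_lin]
    linarith
  · rw [V_congr hab.le hF hF, ← V_split hG hG a γ b, V_congr hγ.1 l l, V_congr hγ.2 r r,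
      V_lin (lip_lin y), V_lin (lip_lin z), dt_frame y z γ, e0]
    ring
/-- a chord of the unit circle -/
lemma chord {F : ℝ → ℝ} {a b : ℝ} (hab : a ≤ b) (hba : b - a < π)
    (hF : ∀ θ ∈ Icc a b, F θ = max (cos (θ - a)) (cos (θ - b))) :
    Ln a b F = 2 * sin ((b - a) / 2) ∧ V a b F F = sin (b - a) / 2 := by
  rcases hab.eq_or_lt with rfl | hlt
  · simp
  have := two (F := F) (y := u a) (z := u b) hlt hba.le (by simp [lin_u, cos_le_one])
    (by simp [lin_u, cos_le_one]) (Or.inl hba) (by simpa only [lin_u] using hF)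
  rw [norm_u_sub_u, abs_of_nonneg (sin_nonneg_of_nonneg_of_le_pi (by linarith) (by linarith [pi_pos]))]
    at this
  have e : dt (u a) (u b) = sin (b - a) := by simp [dt, sin_sub]; ring
  simpa [e] using this

/-! ### Poincare inequality -/

lemma poincare {f : ℝ → ℝ} (hf : Lip f) {a b : ℝ} (hab : a < b) (hba : b - a < π) (ha : f a = 0)
    (hb' : f b = 0) (hne : ∃ x ∈ Icc a b, f x ≠ 0) : V a b f f < 0 := by
  obtain ⟨c, hc1, hc2⟩ : ∃ c : ℝ, 1 < c ∧ c * (b - a) < π := by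
    refine ⟨(1 + π / (b - a)) / 2, ?_, ?_⟩
    · have : 1 < π / (b - a) := by rw [lt_div_iff₀ (by linarith)]; linarith
      linarith
    · have : π / (b - a) * (b - a) = π := div_mul_cancel₀ _ (by linarith)
      nlinarith
  set m := (a + b) / 2 with hm
  have hcos : ∀ x ∈ uIcc a b, cos (c * (x - m)) ≠ 0 := by
    intro x hx
    rw [uIcc_of_le hab.le] at hx
    apply ne_of_gt
    apply cos_pos_of_mem_Ioo
    constructor <;> nlinarith [hx.1, hx.2]
  set T : ℝ → ℝ := fun x => c * tan (c * (x - m)) with hT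
  have hTd : ∀ x ∈ uIcc a b, HasDerivAt T (c ^ 2 + T x ^ 2) x := by
    intro x hx
    have h1 : HasDerivAt (fun x => c * (x - m)) c x := by
      simpa using ((hasDerivAt_id x).sub_const m).const_mul c
    have h2 := ((hasDerivAt_tan (hcos x hx)).comp x h1).const_mul c
    have e : c ^ 2 + T x ^ 2 = c * (1 / cos (c * (x - m)) ^ 2 * c) := by
      have := hcos x hx
      simp only [hT, tan_eq_sin_div_cos]
      field_simp
      nlinarith [sin_sq_add_cos_sq (c * (x - m))]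
    rw [e]; exact h2
  have hTc : ContinuousOn T (uIcc a b) := fun x hx => (hTd x hx).continuousAt.continuousWithinAt
  have hTac : AbsolutelyContinuousOnInterval T a b := by
    apply ContDiffOn.absolutelyContinuousOnInterval
    intro x hx
    apply ContDiffAt.contDiffWithinAt
    exact contDiffAt_const.mul (ContDiffAt.comp (g := tan) (f := fun x => c * (x - m)) x
      (contDiffAt_tan.mpr (hcos x hx)) (by fun_prop))
  have hac : AbsolutelyContinuousOnInterval (fun x => f x * f x * T x) a b :=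
    ((hf.ac a b).mul (hf.ac a b)).mul hTac
  have k0 := hac.integral_deriv_eq_sub
  rw [ha, hb'] at k0
  have i1 := ii_deriv_mul hf hf a b
  have i2 : IntervalIntegrable (fun x => f x * f x) volume a b :=
    (hf.continuous.mul hf.continuous).intervalIntegrable a b
  have i3 := hac.intervalIntegrable_deriv
  have k1 : 0 ≤ ∫ x in a..b, (deriv f x * deriv f x - c ^ 2 * (f x * f x)
      + deriv (fun x => f x * f x * T x) x) := by
    apply integral_nonneg_of_ae_restrict hab.le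
    rw [EventuallyLE, ae_restrict_iff' measurableSet_Icc]
    filter_upwards [hf.ae_diff] with x hx hx'
    have hx2 : x ∈ uIcc a b := by rwa [uIcc_of_le hab.le]
    have := ((hx.hasDerivAt.mul hx.hasDerivAt).mul (hTd x hx2)).deriv
    have e : deriv (fun x => f x * f x * T x) x = (deriv f x * f x + f x * deriv f x) * T x
      + f x * f x * (c ^ 2 + T x ^ 2) := this
    rw [e]
    simp only [Pi.zero_apply]
    nlinarith [sq_nonneg (deriv f x + f x * T x)]
  rw [integral_add (i1.sub (i2.const_mul _)) i3, integral_sub i1 (i2.const_mul _), k0,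
    intervalIntegral.integral_const_mul] at k1
  have k2 : 0 < ∫ x in a..b, f x * f x := by
    obtain ⟨x, hx, hx0⟩ := hne
    have := integral_lt_integral_of_continuousOn_of_le_of_exists_lt (f := fun _ => (0 : ℝ))
      (g := fun x => f x * f x) hab continuousOn_const
      (hf.continuous.mul hf.continuous).continuousOn (fun y _ => mul_self_nonneg _)
      ⟨x, hx, mul_self_pos.mpr hx0⟩
    simpa using this
  unfold V
  rw [integral_sub i2 i1]
  have : 1 < c ^ 2 := by nlinarith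
  nlinarith

/-! ### convergence -/

lemma deriv_tendsto {C : ℕ → Set ℂ} {K : Set ℂ} {R : ℝ} (hC : ∀ n, CN (C n))
    (hR : ∀ n, ∀ x ∈ C n, ‖x‖ ≤ R) (hl : ∀ θ, Tendsto (fun n => h (C n) θ) atTop (𝓝 (h K θ)))
    {θ : ℝ} (hd : DifferentiableAt ℝ (h K) θ) (hd' : ∀ n, DifferentiableAt ℝ (h (C n)) θ) :
    Tendsto (fun n => deriv (h (C n)) θ) atTop (𝓝 (deriv (h K) θ)) := by
  choose x hx e using fun n => h_att (hC n) θ
  simp only [fun n => deriv_h (hC n) (hd' n) (hx n) (e n)]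
  apply tendsto_of_subseq_tendsto
  intro ns hns
  obtain ⟨z, -, φ, hφ, hz⟩ := (isCompact_closedBall (0 : ℂ) R).tendsto_subseq
    (x := fun n => x (ns n)) (fun n => by simpa using hR _ _ (hx _))
  refine ⟨φ, ?_⟩
  have t1 : ∀ ψ, Tendsto (fun n => lin (x (ns (φ n))) ψ) atTop (𝓝 (lin z ψ)) := fun ψ =>
    ((continuous_lin_left ψ).tendsto z).comp hz
  have t2 : ∀ ψ, Tendsto (fun n => h (C (ns (φ n))) ψ) atTop (𝓝 (h K ψ)) := fun ψ =>
    (hl ψ).comp (hns.comp hφ.tendsto_atTop)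
  rw [deriv_eq_of_touch (x := z) hd]
  · exact ((continuous_lin'_left θ).tendsto z).comp hz
  · exact tendsto_nhds_unique (t1 θ) (by simpa only [e] using t2 θ)
  · exact Eventually.of_forall fun ψ =>
      le_of_tendsto_of_tendsto' (t1 ψ) (t2 ψ) fun n => lin_le_h (hC _) (hx _) ψ

lemma V_tendsto {C C' : ℕ → ℝ → ℝ} {f f' : ℝ → ℝ} {M : ℝ} (a b : ℝ)
    (hc : ∀ n, Continuous (C n)) (hc' : ∀ n, Continuous (C' n))
    (b1 : ∀ n θ, |C n θ| ≤ M) (b2 : ∀ n θ, |C' n θ| ≤ M) (b3 : ∀ n θ, |deriv (C n) θ| ≤ M)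
    (b4 : ∀ n θ, |deriv (C' n) θ| ≤ M) (t1 : ∀ θ, Tendsto (fun n => C n θ) atTop (𝓝 (f θ)))
    (t2 : ∀ θ, Tendsto (fun n => C' n θ) atTop (𝓝 (f' θ)))
    (t3 : ∀ᵐ θ, Tendsto (fun n => deriv (C n) θ) atTop (𝓝 (deriv f θ)))
    (t4 : ∀ᵐ θ, Tendsto (fun n => deriv (C' n) θ) atTop (𝓝 (deriv f' θ))) :
    Tendsto (fun n => V a b (C n) (C' n)) atTop (𝓝 (V a b f f')) := by
  unfold V
  apply Tendsto.div_const
  apply intervalIntegral.tendsto_integral_filter_of_dominated_convergence (fun _ => M * M + M * M)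
  · exact Eventually.of_forall fun n => (((hc n).measurable.mul (hc' n).measurable).sub
      ((measurable_deriv _).mul (measurable_deriv _))).aestronglyMeasurable
  · refine Eventually.of_forall fun n => Eventually.of_forall fun θ _ => ?_
    have hM : 0 ≤ M := le_trans (abs_nonneg _) (b1 n θ)
    rw [Real.norm_eq_abs]
    refine le_trans (abs_sub _ _) ?_
    rw [abs_mul, abs_mul]
    exact add_le_add (mul_le_mul (b1 n θ) (b2 n θ) (abs_nonneg _) hM)
      (mul_le_mul (b3 n θ) (b4 n θ) (abs_nonneg _) hM)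
  · exact intervalIntegrable_const
  · filter_upwards [t3, t4] with θ h3 h4 _
    exact ((t1 θ).mul (t2 θ)).sub (h3.mul h4)

lemma abs_deriv_h_le {K : Set ℂ} (hK : CN K) {R : ℝ} (hR : ∀ x ∈ K, ‖x‖ ≤ R) (θ : ℝ) :
    |deriv (h K) θ| ≤ R := by
  obtain ⟨x, hx⟩ := hK.2
  exact norm_deriv_le_of_lipschitz
    (h_lipschitz hK (R := ⟨R, le_trans (norm_nonneg _) (hR x hx)⟩) hR)

lemma ae_deriv_tendsto {C : ℕ → Set ℂ} {K : Set ℂ} {R : ℝ} (hK : CN K) (hC : ∀ n, CN (C n))
    (hR : ∀ n, ∀ x ∈ C n, ‖x‖ ≤ R) (hl : ∀ θ, Tendsto (fun n => h (C n) θ) atTop (𝓝 (h K θ))) :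
    ∀ᵐ θ, Tendsto (fun n => deriv (h (C n)) θ) atTop (𝓝 (deriv (h K) θ)) := by
  filter_upwards [(lip_h hK).ae_diff, ae_all_iff.mpr fun n => (lip_h (hC n)).ae_diff] with θ h1 h2
  exact deriv_tendsto hC hR hl h1 h2

/-- continuity of area, mixed area and length along convergent support functions -/
lemma Ar_tendsto {C : ℕ → Set ℂ} {K : Set ℂ} {R : ℝ} (hK : CN K) (hC : ∀ n, CN (C n))
    (hR : ∀ n, ∀ x ∈ C n, ‖x‖ ≤ R) (hl : ∀ θ, Tendsto (fun n => h (C n) θ) atTop (𝓝 (h K θ)))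
    (a b : ℝ) : Tendsto (fun n => Ar a b (C n)) atTop (𝓝 (Ar a b K)) :=
  V_tendsto (M := R) a b (fun n => continuous_h (hC n)) (fun n => continuous_h (hC n))
    (fun n => abs_h_le (hC n) (hR n)) (fun n => abs_h_le (hC n) (hR n))
    (fun n => abs_deriv_h_le (hC n) (hR n)) (fun n => abs_deriv_h_le (hC n) (hR n)) hl hl
    (ae_deriv_tendsto hK hC hR hl) (ae_deriv_tendsto hK hC hR hl)
lemma V_h_tendsto {C : ℕ → Set ℂ} {K : Set ℂ} {R : ℝ} (hK : CN K) (hC : ∀ n, CN (C n))
    (hR : ∀ n, ∀ x ∈ C n, ‖x‖ ≤ R) (hl : ∀ θ, Tendsto (fun n => h (C n) θ) atTop (𝓝 (h K θ)))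
    {f : ℝ → ℝ} (hf : Lip f) {a b : ℝ} (hab : a ≤ b) :
    Tendsto (fun n => V a b f (h (C n))) atTop (𝓝 (V a b f (h K))) := by
  obtain ⟨M, hM⟩ := isCompact_Icc.exists_bound_of_continuousOn
    (hf.continuous.continuousOn (s := Icc a b))
  have hg : Lip (fun x => max (-M) (min (f x) M)) := (Lip.const _).max (hf.min (Lip.const _))
  have e : EqOn f (fun x => max (-M) (min (f x) M)) (Icc a b) := by
    intro x hx
    have := abs_le.mp (hM x hx)
    simp only [min_eq_left this.2, max_eq_right this.1]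
  have hM0 : 0 ≤ M := le_trans (norm_nonneg _) (hM a ⟨le_rfl, hab⟩)
  obtain ⟨D, hD⟩ := hg.deriv_bdd
  simp only [fun g : ℝ → ℝ => V_congr hab e (fun x (_ : x ∈ Icc a b) => (rfl : g x = g x))]
  refine V_tendsto (M := max R (max M D)) a b (fun _ => hg.continuous)
    (fun n => continuous_h (hC n)) (fun n θ => ?_)
    (fun n θ => le_trans (abs_h_le (hC n) (hR n) θ) (le_max_left _ _))
    (fun n θ => le_trans (hD θ) (le_trans (le_max_right _ _) (le_max_right _ _)))
    (fun n θ => le_trans (abs_deriv_h_le (hC n) (hR n) θ) (le_max_left _ _))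
    (fun _ => tendsto_const_nhds) hl (Eventually.of_forall fun _ => tendsto_const_nhds)
    (ae_deriv_tendsto hK hC hR hl)
  refine le_trans ?_ (le_trans (le_max_left M D) (le_max_right _ _))
  exact abs_le.mpr ⟨le_max_left _ _, max_le (by linarith) (min_le_right _ _)⟩
lemma Le_tendsto {C : ℕ → Set ℂ} {K : Set ℂ} {R : ℝ} (hC : ∀ n, CN (C n))
    (hR : ∀ n, ∀ x ∈ C n, ‖x‖ ≤ R) (hl : ∀ θ, Tendsto (fun n => h (C n) θ) atTop (𝓝 (h K θ)))
    (a b : ℝ) : Tendsto (fun n => Le a b (C n)) atTop (𝓝 (Le a b K)) := by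
  apply intervalIntegral.tendsto_integral_filter_of_dominated_convergence (fun _ => R)
  · exact Eventually.of_forall fun n => (continuous_h (hC n)).aestronglyMeasurable
  · exact Eventually.of_forall fun n => Eventually.of_forall fun θ _ => abs_h_le (hC n) (hR n) θ
  · exact intervalIntegrable_const
  · exact Eventually.of_forall fun θ _ => hl θ

end Pool.Agent.Lib.MP_f2780a_gt
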