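import Pool.Agent.Lib.MP_f2780a_gt.Stmts

/-! Algebra of `lin`, support functions. -/

set_option autoImplicit false

noncomputable section

namespace Pool.Agent.Lib.MP_f2780a_gt

open Real MeasureTheory Set Filter Topology

/-! ### algebra -/

@[simp] lemma u_re (θ : ℝ) : (u θ).re = cos θ := rfl
@[simp] lemma u_im (θ : ℝ) : (u θ).im = sin θ := rfl
@[simp] lemma u'_re (θ : ℝ) : (u' θ).re = -sin θ := rfl
@[simp] lemma u'_im (θ : ℝ) : (u' θ).im = cos θ := rfl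

lemma ip_comm (x y : ℂ) : ip x y = ip y x := by unfold ip; ring
lemma ip_add (x y v : ℂ) : ip (x + y) v = ip x v + ip y v := by simp [ip]; ring
lemma ip_sub (x y v : ℂ) : ip (x - y) v = ip x v - ip y v := by simp [ip]; ring
lemma ip_neg (x v : ℂ) : ip (-x) v = -ip x v := by simp [ip]; ring
lemma ip_smul (t : ℝ) (x v : ℂ) : ip (t • x) v = t * ip x v := by simp [ip]; ring
@[simp] lemma ip_zero (v : ℂ) : ip 0 v = 0 := by simp [ip]
lemma ip_self (x : ℂ) : ip x x = ‖x‖ ^ 2 := by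
  rw [Complex.sq_norm, Complex.normSq_apply]; rfl
lemma ip_sq_add_dt_sq (x y : ℂ) : ip x y ^ 2 + dt x y ^ 2 = ‖x‖ ^ 2 * ‖y‖ ^ 2 := by
  rw [← ip_self, ← ip_self]; unfold ip dt; ring
lemma abs_ip_le (x y : ℂ) : |ip x y| ≤ ‖x‖ * ‖y‖ := by
  apply abs_le_of_sq_le_sq' _ (by positivity) |> abs_le.mpr
  have := ip_sq_add_dt_sq x y
  nlinarith [sq_nonneg (dt x y)]
lemma abs_dt_le (x y : ℂ) : |dt x y| ≤ ‖x‖ * ‖y‖ := by
  apply abs_le_of_sq_le_sq' _ (by positivity) |> abs_le.mpr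
  have := ip_sq_add_dt_sq x y
  nlinarith [sq_nonneg (ip x y)]
lemma continuous_ip : Continuous (fun p : ℂ × ℂ => ip p.1 p.2) := by unfold ip; fun_prop
lemma continuous_dt : Continuous (fun p : ℂ × ℂ => dt p.1 p.2) := by unfold dt; fun_prop

@[simp] lemma norm_u (θ : ℝ) : ‖u θ‖ = 1 := by
  have : ‖u θ‖ ^ 2 = 1 := by rw [← ip_self]; simp [ip]; nlinarith [sin_sq_add_cos_sq θ]
  nlinarith [norm_nonneg (u θ)]
@[simp] lemma norm_u' (θ : ℝ) : ‖u' θ‖ = 1 := by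
  have : ‖u' θ‖ ^ 2 = 1 := by rw [← ip_self]; simp [ip]; nlinarith [sin_sq_add_cos_sq θ]
  nlinarith [norm_nonneg (u' θ)]
lemma u_ne_zero (θ : ℝ) : u θ ≠ 0 := by
  intro h; have := norm_u θ; rw [h] at this; simp at this
lemma u_add (a b : ℝ) : u (a + b) = u a * u b := by
  apply Complex.ext <;> simp [cos_add, sin_add]; ring
@[simp] lemma u_zero : u 0 = 1 := by apply Complex.ext <;> simp
lemma u_mul_neg (a : ℝ) : u a * u (-a) = 1 := by rw [← u_add]; simp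
lemma u_add_pi (θ : ℝ) : u (θ + π) = -u θ := by apply Complex.ext <;> simp
lemma u'_add_pi (θ : ℝ) : u' (θ + π) = -u' θ := by apply Complex.ext <;> simp
lemma u_add_two_pi (θ : ℝ) : u (θ + 2 * π) = u θ := by apply Complex.ext <;> simp
lemma u'_add_two_pi (θ : ℝ) : u' (θ + 2 * π) = u' θ := by apply Complex.ext <;> simp
lemma u'_eq (θ : ℝ) : u' θ = u (θ + π / 2) := by
  apply Complex.ext <;> simp [cos_add_pi_div_two, sin_add_pi_div_two]
lemma u_eq_exp (θ : ℝ) : u θ = Complex.exp (θ * Complex.I) := by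
  apply Complex.ext <;> simp [Complex.exp_ofReal_mul_I_re, Complex.exp_ofReal_mul_I_im]
lemma continuous_u : Continuous u := by
  have : u = fun θ : ℝ => Complex.exp (θ * Complex.I) := funext u_eq_exp
  rw [this]; fun_prop
lemma continuous_u' : Continuous u' := by
  have : u' = fun θ : ℝ => u (θ + π / 2) := funext u'_eq
  rw [this]; exact continuous_u.comp (by fun_prop)
lemma exists_polar (z : ℂ) : ∃ θ, -π < θ ∧ θ ≤ π ∧ z = ‖z‖ • u θ := by
  refine ⟨Complex.arg z, Complex.neg_pi_lt_arg z, Complex.arg_le_pi z, ?_⟩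
  rw [u_eq_exp, Complex.real_smul]
  exact (Complex.norm_mul_exp_arg_mul_I z).symm
lemma norm_u_sub_u (a b : ℝ) : ‖u a - u b‖ = 2 * |sin ((a - b) / 2)| := by
  have h1 : ‖u a - u b‖ ^ 2 = (2 * |sin ((a - b) / 2)|) ^ 2 := by
    rw [← ip_self, mul_pow, sq_abs]
    have h2 : cos (a - b) = 1 - 2 * sin ((a - b) / 2) ^ 2 := by
      have e : a - b = 2 * ((a - b) / 2) := by ring
      have := cos_two_mul ((a - b) / 2)
      rw [← e] at this
      nlinarith [sin_sq_add_cos_sq ((a - b) / 2)]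
    rw [cos_sub] at h2
    simp only [ip, Complex.sub_re, Complex.sub_im, u_re, u_im]
    nlinarith [sin_sq_add_cos_sq a, sin_sq_add_cos_sq b]
  exact (pow_left_inj₀ (norm_nonneg _) (by positivity) two_ne_zero).mp h1
lemma norm_u_sub_le (a b : ℝ) : ‖u a - u b‖ ≤ |a - b| := by
  rw [norm_u_sub_u]
  have := abs_sin_le_abs (x := (a - b) / 2)
  rw [abs_div, abs_two] at this
  linarith

lemma lin_def (x : ℂ) (θ : ℝ) : lin x θ = x.re * cos θ + x.im * sin θ := rfl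
lemma lin'_def (x : ℂ) (θ : ℝ) : lin' x θ = x.re * -sin θ + x.im * cos θ := rfl
lemma lin_add (x y : ℂ) (θ : ℝ) : lin (x + y) θ = lin x θ + lin y θ := ip_add _ _ _
lemma lin_sub (x y : ℂ) (θ : ℝ) : lin (x - y) θ = lin x θ - lin y θ := ip_sub _ _ _
lemma lin_neg (x : ℂ) (θ : ℝ) : lin (-x) θ = -lin x θ := ip_neg _ _
lemma lin_smul (t : ℝ) (x : ℂ) (θ : ℝ) : lin (t • x) θ = t * lin x θ := ip_smul _ _ _
@[simp] lemma lin_zero (θ : ℝ) : lin 0 θ = 0 := ip_zero _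
lemma lin_one (θ : ℝ) : lin 1 θ = cos θ := by simp [lin_def]
lemma lin'_add (x y : ℂ) (θ : ℝ) : lin' (x + y) θ = lin' x θ + lin' y θ := ip_add _ _ _
lemma lin'_sub (x y : ℂ) (θ : ℝ) : lin' (x - y) θ = lin' x θ - lin' y θ := ip_sub _ _ _
lemma lin'_neg (x : ℂ) (θ : ℝ) : lin' (-x) θ = -lin' x θ := ip_neg _ _
lemma lin'_smul (t : ℝ) (x : ℂ) (θ : ℝ) : lin' (t • x) θ = t * lin' x θ := ip_smul _ _ _
@[simp] lemma lin'_zero (θ : ℝ) : lin' 0 θ = 0 := ip_zero _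
lemma lin'_one (θ : ℝ) : lin' 1 θ = -sin θ := by simp [lin'_def]
lemma lin_u (a θ : ℝ) : lin (u a) θ = cos (θ - a) := by simp [lin_def, cos_sub]; ring
lemma lin'_u (a θ : ℝ) : lin' (u a) θ = -sin (θ - a) := by simp [lin'_def, sin_sub]; ring
lemma lin_u' (a θ : ℝ) : lin (u' a) θ = sin (θ - a) := by simp [lin_def, sin_sub]; ring
lemma lin'_u' (a θ : ℝ) : lin' (u' a) θ = cos (θ - a) := by simp [lin'_def, cos_sub]; ring
@[simp] lemma lin_u_self (a : ℝ) : lin (u a) a = 1 := by simp [lin_u]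
@[simp] lemma lin'_u_self (a : ℝ) : lin' (u a) a = 0 := by simp [lin'_u]
lemma lin_add_pi (x : ℂ) (θ : ℝ) : lin x (θ + π) = -lin x θ := by simp [lin_def]; ring
lemma lin'_add_pi (x : ℂ) (θ : ℝ) : lin' x (θ + π) = -lin' x θ := by simp [lin'_def]; ring
lemma lin_add_two_pi (x : ℂ) (θ : ℝ) : lin x (θ + 2 * π) = lin x θ := by simp [lin_def]
lemma lin'_add_two_pi (x : ℂ) (θ : ℝ) : lin' x (θ + 2 * π) = lin' x θ := by simp [lin'_def]
lemma lin_u_mul (s : ℝ) (x : ℂ) (θ : ℝ) : lin (u s * x) θ = lin x (θ - s) := by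
  simp [lin_def, cos_sub, sin_sub]; ring
lemma lin_sq_add (x : ℂ) (θ : ℝ) : lin x θ ^ 2 + lin' x θ ^ 2 = ‖x‖ ^ 2 := by
  rw [← ip_self, lin_def, lin'_def, ip]
  linear_combination (x.re ^ 2 + x.im ^ 2) * sin_sq_add_cos_sq θ
lemma abs_lin_le (x : ℂ) (θ : ℝ) : |lin x θ| ≤ ‖x‖ := by simpa [lin] using abs_ip_le x (u θ)
lemma abs_lin'_le (x : ℂ) (θ : ℝ) : |lin' x θ| ≤ ‖x‖ := by simpa [lin'] using abs_ip_le x (u' θ)
lemma lin_le_norm (x : ℂ) (θ : ℝ) : lin x θ ≤ ‖x‖ := (abs_le.mp (abs_lin_le x θ)).2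
lemma lin_expand (x : ℂ) (θ φ : ℝ) :
    lin x φ = lin x θ * cos (φ - θ) + lin' x θ * sin (φ - θ) := by
  simp only [lin_def, lin'_def, cos_sub, sin_sub]
  linear_combination (-(x.re * cos φ + x.im * sin φ)) * sin_sq_add_cos_sq θ
lemma eq_frame (x : ℂ) (θ : ℝ) : x = lin x θ • u θ + lin' x θ • u' θ := by
  apply Complex.ext
  · simp only [lin_def, lin'_def, Complex.add_re, Complex.smul_re, u_re, u'_re, smul_eq_mul]
    linear_combination (-x.re) * sin_sq_add_cos_sq θ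
  · simp only [lin_def, lin'_def, Complex.add_im, Complex.smul_im, u_im, u'_im, smul_eq_mul]
    linear_combination (-x.im) * sin_sq_add_cos_sq θ
lemma lin_ext {x y : ℂ} {θ : ℝ} (h1 : lin x θ = lin y θ) (h2 : lin' x θ = lin' y θ) : x = y := by
  rw [eq_frame x θ, eq_frame y θ, h1, h2]
/-- a vector of norm at most one with `lin x θ = 1` is `u θ` -/
lemma eq_u_of_lin {x : ℂ} {θ : ℝ} (hx : ‖x‖ ≤ 1) (h1 : lin x θ = 1) : x = u θ := by
  have h := lin_sq_add x θ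
  have h2 : lin' x θ = 0 := by
    have : ‖x‖ ^ 2 ≤ 1 := by nlinarith [norm_nonneg x]
    rw [h1] at h
    nlinarith [sq_nonneg (lin' x θ)]
  exact lin_ext (θ := θ) (by simp [h1]) (by simp [h2])
/-- three-term identity of sinusoids -/
lemma sinus (d : ℂ) (a b c : ℝ) :
    sin (c - a) * lin d b = sin (c - b) * lin d a + sin (b - a) * lin d c := by
  simp only [lin_def, sin_sub]; ring
lemma dt_frame (x y : ℂ) (θ : ℝ) : dt x y = lin x θ * lin' y θ - lin' x θ * lin y θ := by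
  simp only [lin_def, lin'_def, dt]
  linear_combination (-(x.re * y.im - x.im * y.re)) * sin_sq_add_cos_sq θ
lemma dt_sinus (x y : ℂ) (a b : ℝ) :
    lin x a * lin y b - lin x b * lin y a = dt x y * sin (b - a) := by
  simp only [lin_def, dt, sin_sub]; ring
lemma hasDerivAt_lin (x : ℂ) (θ : ℝ) : HasDerivAt (lin x) (lin' x θ) θ :=
  ((hasDerivAt_cos θ).const_mul x.re).add ((hasDerivAt_sin θ).const_mul x.im)
lemma hasDerivAt_lin' (x : ℂ) (θ : ℝ) : HasDerivAt (lin' x) (-lin x θ) θ := by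
  have h := ((hasDerivAt_sin θ).neg.const_mul x.re).add ((hasDerivAt_cos θ).const_mul x.im)
  have e : -lin x θ = x.re * -cos θ + x.im * -sin θ := by rw [lin_def]; ring
  rw [e]; exact h
@[simp] lemma deriv_lin (x : ℂ) : deriv (lin x) = lin' x := funext fun θ => (hasDerivAt_lin x θ).deriv
lemma continuous_lin (x : ℂ) : Continuous (lin x) :=
  continuous_iff_continuousAt.mpr fun θ => (hasDerivAt_lin x θ).continuousAt
lemma continuous_lin' (x : ℂ) : Continuous (lin' x) :=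
  continuous_iff_continuousAt.mpr fun θ => (hasDerivAt_lin' x θ).continuousAt
lemma continuous_lin_left (θ : ℝ) : Continuous (fun x => lin x θ) := by
  simp only [lin_def]; fun_prop
lemma continuous_lin'_left (θ : ℝ) : Continuous (fun x => lin' x θ) := by
  simp only [lin'_def]; fun_prop

/-- sign propagation to the right -/
lemma sinus_right {d : ℂ} {a b c : ℝ} (hab : a < b) (hbc : b ≤ c) (hca : c - a ≤ π)
    (hba : b - a < π) (h1 : 0 ≤ lin d a) (h2 : lin d b ≤ 0) : lin d c ≤ 0 := by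
  have e := sinus d a b c
  have s1 : 0 < sin (b - a) := sin_pos_of_pos_of_lt_pi (by linarith) hba
  have s2 : 0 ≤ sin (c - b) := sin_nonneg_of_nonneg_of_le_pi (by linarith) (by linarith)
  have s3 : 0 ≤ sin (c - a) := sin_nonneg_of_nonneg_of_le_pi (by linarith) hca
  by_contra hc
  push Not at hc
  nlinarith [mul_pos s1 hc, mul_nonneg s2 h1, mul_nonneg_of_nonpos_of_nonpos h2 (neg_nonpos.mpr s3)]
/-- sign propagation to the left -/
lemma sinus_left {d : ℂ} {a b c : ℝ} (hab : a ≤ b) (hbc : b < c) (hca : c - a ≤ π)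
    (hcb : c - b < π) (h1 : 0 ≤ lin d c) (h2 : lin d b ≤ 0) : lin d a ≤ 0 := by
  have e := sinus d a b c
  have s1 : 0 ≤ sin (b - a) := sin_nonneg_of_nonneg_of_le_pi (by linarith) (by linarith)
  have s2 : 0 < sin (c - b) := sin_pos_of_pos_of_lt_pi (by linarith) hcb
  have s3 : 0 ≤ sin (c - a) := sin_nonneg_of_nonneg_of_le_pi (by linarith) hca
  by_contra hc
  push Not at hc
  nlinarith [mul_pos s2 hc, mul_nonneg s1 h1, mul_nonneg_of_nonpos_of_nonpos h2 (neg_nonpos.mpr s3)]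
/-- nonpositive at both ends of a short interval -/
lemma sinus_mid {d : ℂ} {a b c : ℝ} (hab : a ≤ b) (hbc : b ≤ c) (hac : a < c) (hca : c - a < π)
    (h1 : lin d a ≤ 0) (h2 : lin d c ≤ 0) : lin d b ≤ 0 := by
  have e := sinus d a b c
  have s1 : 0 ≤ sin (b - a) := sin_nonneg_of_nonneg_of_le_pi (by linarith) (by linarith)
  have s2 : 0 ≤ sin (c - b) := sin_nonneg_of_nonneg_of_le_pi (by linarith) (by linarith)
  have s3 : 0 < sin (c - a) := sin_pos_of_pos_of_lt_pi (by linarith) hca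
  by_contra hc
  push Not at hc
  nlinarith [mul_pos s3 hc, mul_nonneg s2 (neg_nonneg.mpr h1), mul_nonneg s1 (neg_nonneg.mpr h2)]

/-! ### support functions -/

lemma CN.bdd {K : Set ℂ} (hK : CN K) : ∃ R : ℝ, 0 ≤ R ∧ ∀ x ∈ K, ‖x‖ ≤ R := by
  obtain ⟨R, hR⟩ := hK.1.isBounded.exists_norm_le
  obtain ⟨x, hx⟩ := hK.2
  exact ⟨R, le_trans (norm_nonneg _) (hR x hx), hR⟩
lemma IsFigure.cn {K : Set ℂ} (hK : IsFigure K) : CN K :=
  ⟨hK.1, hK.2.2.mono interior_subset⟩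
lemma cn_finite {K : Set ℂ} (hK : K.Finite) (hne : K.Nonempty) : CN K := ⟨hK.isCompact, hne⟩
lemma CN.insert {K : Set ℂ} (hK : CN K) (x : ℂ) : CN (insert x K) :=
  ⟨hK.1.insert x, insert_nonempty _ _⟩

lemma H_isGreatest {K : Set ℂ} (hK : CN K) (v : ℂ) :
    IsGreatest ((fun x => ip x v) '' K) (H K v) := by
  have hc : Continuous (fun x => ip x v) := by unfold ip; fun_prop
  exact (hK.1.image hc).isGreatest_sSup (hK.2.image _)
lemma H_att {K : Set ℂ} (hK : CN K) (v : ℂ) : ∃ x ∈ K, ip x v = H K v := (H_isGreatest hK v).1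
lemma le_H {K : Set ℂ} (hK : CN K) {x : ℂ} (hx : x ∈ K) (v : ℂ) : ip x v ≤ H K v :=
  (H_isGreatest hK v).2 ⟨x, hx, rfl⟩
lemma H_eq_of {K : Set ℂ} {x v : ℂ} (hx : x ∈ K) (h : ∀ y ∈ K, ip y v ≤ ip x v) :
    H K v = ip x v := by
  apply IsGreatest.csSup_eq
  exact ⟨⟨x, hx, rfl⟩, by rintro _ ⟨y, hy, rfl⟩; exact h y hy⟩
lemma H_sub_le {K : Set ℂ} (hK : CN K) {R : ℝ} (hR : ∀ x ∈ K, ‖x‖ ≤ R) (v w : ℂ) :
    H K v - H K w ≤ R * ‖v - w‖ := by
  obtain ⟨x, hx, e⟩ := H_att hK v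
  have h1 := le_H hK hx w
  have h2 : ip x v - ip x w = ip x (v - w) := by simp [ip]; ring
  have h3 := (abs_le.mp (abs_ip_le x (v - w))).2
  have h4 := mul_le_mul_of_nonneg_right (hR x hx) (norm_nonneg (v - w))
  linarith
lemma H_lipschitz {K : Set ℂ} (hK : CN K) {R : NNReal} (hR : ∀ x ∈ K, ‖x‖ ≤ R) :
    LipschitzWith R (H K) := by
  apply LipschitzWith.of_le_add_mul
  intro v w
  have := H_sub_le hK hR v w
  rw [dist_eq_norm]; linarith
lemma continuous_H {K : Set ℂ} (hK : CN K) : Continuous (H K) := by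
  obtain ⟨R, h0, hR⟩ := hK.bdd
  exact (H_lipschitz hK (R := ⟨R, h0⟩) hR).continuous
lemma H_smul {K : Set ℂ} (hK : CN K) {t : ℝ} (ht : 0 ≤ t) (v : ℂ) : H K (t • v) = t * H K v := by
  obtain ⟨x, hx, e⟩ := H_att hK v
  have e2 : ∀ y : ℂ, ip y (t • v) = t * ip y v := fun y => by simp [ip]; ring
  rw [H_eq_of hx (v := t • v), e2, e]
  intro y hy
  rw [e2, e2, e]
  exact mul_le_mul_of_nonneg_left (le_H hK hy v) ht

lemma h_att {K : Set ℂ} (hK : CN K) (θ : ℝ) : ∃ x ∈ K, lin x θ = h K θ := H_att hK _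
lemma lin_le_h {K : Set ℂ} (hK : CN K) {x : ℂ} (hx : x ∈ K) (θ : ℝ) : lin x θ ≤ h K θ :=
  le_H hK hx _
lemma h_eq_of {K : Set ℂ} {x : ℂ} {θ : ℝ} (hx : x ∈ K) (hy : ∀ y ∈ K, lin y θ ≤ lin x θ) :
    h K θ = lin x θ := H_eq_of hx hy
lemma h_le {K : Set ℂ} (hK : CN K) {θ c : ℝ} (hy : ∀ y ∈ K, lin y θ ≤ c) : h K θ ≤ c := by
  obtain ⟨x, hx, e⟩ := h_att hK θ
  rw [← e]; exact hy x hx
lemma h_mono {K K' : Set ℂ} (hK : CN K) (hK' : CN K') (hs : K ⊆ K') (θ : ℝ) : h K θ ≤ h K' θ :=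
  h_le hK fun _ hy => lin_le_h hK' (hs hy) θ
lemma abs_h_le {K : Set ℂ} (hK : CN K) {R : ℝ} (hR : ∀ x ∈ K, ‖x‖ ≤ R) (θ : ℝ) : |h K θ| ≤ R := by
  obtain ⟨x, hx, e⟩ := h_att hK θ
  rw [← e]; exact le_trans (abs_lin_le x θ) (hR x hx)
lemma h_lipschitz {K : Set ℂ} (hK : CN K) {R : NNReal} (hR : ∀ x ∈ K, ‖x‖ ≤ R) :
    LipschitzWith R (h K) := by
  apply LipschitzWith.of_le_add_mul
  intro a b
  have h1 := H_sub_le hK hR (u a) (u b)
  have h2 := mul_le_mul_of_nonneg_left (norm_u_sub_le a b) (NNReal.coe_nonneg R)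
  rw [Real.dist_eq]
  change H K (u a) ≤ H K (u b) + _
  linarith
lemma lip_h {K : Set ℂ} (hK : CN K) : Lip (h K) := by
  obtain ⟨R, h0, hR⟩ := hK.bdd
  exact ⟨⟨R, h0⟩, h_lipschitz hK hR⟩
lemma continuous_h {K : Set ℂ} (hK : CN K) : Continuous (h K) := (lip_h hK).choose_spec.continuous
lemma h_periodic (K : Set ℂ) : Function.Periodic (h K) (2 * π) := fun θ => by
  unfold h; rw [u_add_two_pi]
lemma hb_periodic (K : Set ℂ) : Function.Periodic (hb K) (2 * π) := fun θ => by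
  unfold hb; rw [add_right_comm, h_periodic K]
lemma h_singleton (x : ℂ) : h {x} = lin x := funext fun _ =>
  h_eq_of rfl (by rintro y rfl; exact le_rfl)
lemma h_insert {K : Set ℂ} (hK : CN K) (x : ℂ) (θ : ℝ) :
    h (insert x K) θ = max (lin x θ) (h K θ) := by
  apply le_antisymm
  · apply h_le (hK.insert x)
    rintro y (rfl | hy)
    · exact le_max_left _ _
    · exact le_trans (lin_le_h hK hy θ) (le_max_right _ _)
  · exact max_le (lin_le_h (hK.insert x) (mem_insert _ _) θ)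
      (h_mono hK (hK.insert x) (subset_insert _ _) θ)
lemma cn_singleton (x : ℂ) : CN {x} := cn_finite (finite_singleton x) (singleton_nonempty x)
lemma h_pair (x y : ℂ) (θ : ℝ) : h {x, y} θ = max (lin x θ) (lin y θ) := by
  rw [h_insert (cn_singleton y), h_singleton]
lemma h_triple (x y z : ℂ) (θ : ℝ) : h {x, y, z} θ = max (lin x θ) (max (lin y θ) (lin z θ)) := by
  rw [h_insert ((cn_singleton z).insert y), h_pair]
lemma convex_lin_le (θ c : ℝ) : Convex ℝ {x : ℂ | lin x θ ≤ c} := by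
  intro x hx y hy a b ha hb hab
  simp only [mem_ofPred_eq, lin_add, lin_smul] at *
  have := mul_le_mul_of_nonneg_left hx ha
  have := mul_le_mul_of_nonneg_left hy hb
  have : a * c + b * c = c := by rw [← add_mul, hab, one_mul]
  linarith
lemma h_convexHull {K : Set ℂ} (hK : CN K) : h (convexHull ℝ K) = h K := by
  funext θ
  obtain ⟨x, hx, e⟩ := h_att hK θ
  rw [← e]
  apply h_eq_of (subset_convexHull ℝ K hx)
  intro y hy
  exact convexHull_min (fun z hz => by rw [mem_ofPred_eq, e]; exact lin_le_h hK hz θ)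
    (convex_lin_le θ (lin x θ)) hy
lemma CN.image {K : Set ℂ} (hK : CN K) {f : ℂ → ℂ} (hf : Continuous f) : CN (f '' K) :=
  ⟨hK.1.image hf, hK.2.image f⟩
lemma CN.tr {K : Set ℂ} (hK : CN K) (c : ℂ) : CN (tr c K) := hK.image (by fun_prop)
lemma h_tr {K : Set ℂ} (hK : CN K) (c : ℂ) (θ : ℝ) : h (tr c K) θ = h K θ - lin c θ := by
  obtain ⟨x, hx, e⟩ := h_att hK θ
  rw [← e, ← lin_sub]
  apply h_eq_of (K := tr c K) ⟨x, hx, rfl⟩
  rintro _ ⟨y, hy, rfl⟩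
  simp only [lin_sub, e]
  linarith [lin_le_h hK hy θ]
lemma h_rot {K : Set ℂ} (hK : CN K) (s θ : ℝ) :
    h ((fun z => u s * z) '' K) θ = h K (θ - s) := by
  obtain ⟨x, hx, e⟩ := h_att hK (θ - s)
  rw [← e, ← lin_u_mul]
  apply h_eq_of (mem_image_of_mem _ hx)
  rintro _ ⟨y, hy, rfl⟩
  simp only [lin_u_mul, e]
  exact lin_le_h hK hy _
lemma h_neg {K : Set ℂ} (hK : CN K) : h ((fun z => -z) '' K) = hb K := by
  funext θ
  obtain ⟨x, hx, e⟩ := h_att hK (θ + π)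
  unfold hb
  rw [← e, lin_add_pi, ← lin_neg]
  apply h_eq_of (mem_image_of_mem _ hx)
  rintro _ ⟨y, hy, rfl⟩
  have := lin_le_h hK hy (θ + π)
  rw [← e, lin_add_pi, lin_add_pi] at this
  simp only [lin_neg]; exact this
lemma Dif_eq (K : Set ℂ) : Dif K = (fun p : ℂ × ℂ => p.1 - p.2) '' (K ×ˢ K) := by
  ext z; constructor
  · rintro ⟨x, hx, y, hy, rfl⟩; exact ⟨(x, y), ⟨hx, hy⟩, rfl⟩
  · rintro ⟨⟨x, y⟩, ⟨hx, hy⟩, rfl⟩; exact ⟨x, hx, y, hy, rfl⟩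
lemma CN.dif {K : Set ℂ} (hK : CN K) : CN (Dif K) := by
  rw [Dif_eq]
  exact ⟨(hK.1.prod hK.1).image (by fun_prop), (hK.2.prod hK.2).image _⟩
lemma neg_mem_Dif {K : Set ℂ} {z : ℂ} (hz : z ∈ Dif K) : -z ∈ Dif K := by
  obtain ⟨x, hx, y, hy, rfl⟩ := hz
  exact ⟨y, hy, x, hx, by ring⟩
lemma convex_Dif {K : Set ℂ} (hK : Convex ℝ K) : Convex ℝ (Dif K) := by
  rintro _ ⟨x, hx, y, hy, rfl⟩ _ ⟨x', hx', y', hy', rfl⟩ a b ha hb hab
  exact ⟨_, hK hx hx' ha hb hab, _, hK hy hy' ha hb hab, by simp only [smul_sub]; ring⟩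
lemma H_Dif {K : Set ℂ} (hK : CN K) (v : ℂ) : H (Dif K) v = H K v + H K (-v) := by
  obtain ⟨x, hx, e⟩ := H_att hK v
  obtain ⟨y, hy, e'⟩ := H_att hK (-v)
  have n : ∀ z : ℂ, ip z (-v) = -ip z v := fun z => by simp [ip]; ring
  rw [H_eq_of (K := Dif K) (x := x - y) ⟨x, hx, y, hy, rfl⟩, ip_sub, ← e, ← e', n]
  · ring
  · rintro _ ⟨x', hx', y', hy', rfl⟩
    have h1 := le_H hK hx' v
    have h2 := le_H hK hy' (-v)
    rw [← e', n, n] at h2
    rw [ip_sub, ip_sub]; linarith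
lemma h_Dif {K : Set ℂ} (hK : CN K) (θ : ℝ) : h (Dif K) θ = h K θ + hb K θ := by
  unfold hb h; rw [H_Dif hK, u_add_pi]

/-- every continuous functional is `ip · v` -/
lemma exists_ip (f : ℂ →L[ℝ] ℝ) : ∃ v : ℂ, ∀ x, f x = ip x v := by
  refine ⟨⟨f 1, f Complex.I⟩, fun x => ?_⟩
  have : x = x.re • (1 : ℂ) + x.im • Complex.I := by apply Complex.ext <;> simp
  conv_lhs => rw [this]
  simp only [map_add, map_smul, smul_eq_mul, ip]
lemma mem_of_lin_le_h {K : Set ℂ} (hK : CN K) (hc : Convex ℝ K) {x : ℂ}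
    (hx : ∀ θ, lin x θ ≤ h K θ) : x ∈ K := by
  by_contra hn
  obtain ⟨f, c, h1, h2⟩ := geometric_hahn_banach_closed_point hc hK.1.isClosed hn
  obtain ⟨v, hv⟩ := exists_ip f
  obtain ⟨θ, -, -, e⟩ := exists_polar v
  obtain ⟨y, hy, ey⟩ := h_att hK θ
  have e2 : ∀ z : ℂ, ip z v = ‖v‖ * lin z θ := fun z => by
    conv_lhs => rw [e]
    simp [ip, lin_def]; ring
  have h3 := h1 y hy
  rw [hv, e2] at h2 h3
  have h4 := mul_le_mul_of_nonneg_left (hx θ) (norm_nonneg v)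
  rw [← ey] at h4
  linarith
lemma eq_of_h_eq {K K' : Set ℂ} (hK : CN K) (hc : Convex ℝ K) (hK' : CN K') (hc' : Convex ℝ K')
    (e : ∀ θ, h K θ = h K' θ) : K = K' := by
  apply Subset.antisymm
  · intro x hx
    exact mem_of_lin_le_h hK' hc' fun θ => e θ ▸ lin_le_h hK hx θ
  · intro x hx
    exact mem_of_lin_le_h hK hc fun θ => (e θ).symm ▸ lin_le_h hK' hx θ
/-- a periodic property needs checking on one period only -/
lemma forall_of_period {P : ℝ → Prop} (a : ℝ) (hP : ∀ θ, P (θ + 2 * π) ↔ P θ)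
    (h0 : ∀ θ ∈ Icc a (a + 2 * π), P θ) (θ : ℝ) : P θ := by
  have key : ∀ (n : ℤ) (θ : ℝ), P (θ + n * (2 * π)) ↔ P θ := by
    intro n
    induction n using Int.induction_on with
    | zero => simp
    | succ n ih => intro θ; rw [← ih θ, ← hP (θ + (n : ℤ) * (2 * π))]; push_cast; ring_nf
    | pred n ih =>
      intro θ; rw [← ih θ, ← hP (θ + (-(n : ℤ) - 1 : ℤ) * (2 * π))]; push_cast; ring_nf
  have hp : 0 < 2 * π := by positivity
  have hm := toIcoMod_mem_Ico hp a θ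
  have e := toIcoMod_add_toIcoDiv_zsmul hp a θ
  rw [← e, zsmul_eq_mul, key]
  exact h0 _ ⟨hm.1, hm.2.le⟩
/-- a boundary point of a convex figure has an outer normal direction -/
lemma exists_normal {K : Set ℂ} (hK : IsFigure K) {x : ℂ} (hx : x ∉ interior K) :
    ∃ θ, ∀ y ∈ K, lin y θ ≤ lin x θ := by
  obtain ⟨f, hf⟩ := geometric_hahn_banach_open_point hK.2.1.interior isOpen_interior hx
  obtain ⟨v, hv⟩ := exists_ip f
  obtain ⟨θ, -, -, e⟩ := exists_polar v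
  have e2 : ∀ z : ℂ, ip z v = ‖v‖ * lin z θ := fun z => by
    conv_lhs => rw [e]
    simp [ip, lin_def]; ring
  have h1 : ∀ y ∈ interior K, lin y θ < lin x θ := by
    intro y hy
    have := hf y hy
    rw [hv, hv, e2, e2] at this
    exact lt_of_mul_lt_mul_left this (norm_nonneg v)
  refine ⟨θ, fun y hy => ?_⟩
  have hcl : y ∈ closure (interior K) := by
    rw [hK.2.1.closure_interior_eq_closure_of_nonempty_interior hK.2.2]
    exact subset_closure hy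
  exact closure_minimal (t := {z | lin z θ ≤ lin x θ}) (fun z hz => (h1 z hz).le)
    (isClosed_le (continuous_lin_left θ) continuous_const) hcl

/-! ### derivatives -/

lemma deriv_eq_of_touch {F : ℝ → ℝ} {x : ℂ} {θ : ℝ} (hF : DifferentiableAt ℝ F θ)
    (h1 : lin x θ = F θ) (h2 : ∀ᶠ φ in 𝓝 θ, lin x φ ≤ F φ) : deriv F θ = lin' x θ := by
  have hm : IsLocalMin (fun φ => F φ - lin x φ) θ := by
    filter_upwards [h2] with φ hφ
    simp only [h1]; linarith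
  have := hm.hasDerivAt_eq_zero (hF.hasDerivAt.sub (hasDerivAt_lin x θ))
  linarith
lemma deriv_h {K : Set ℂ} (hK : CN K) {x : ℂ} {θ : ℝ} (hd : DifferentiableAt ℝ (h K) θ)
    (hx : x ∈ K) (e : lin x θ = h K θ) : deriv (h K) θ = lin' x θ :=
  deriv_eq_of_touch hd e (Eventually.of_forall fun φ => lin_le_h hK hx φ)
lemma support_unique {K : Set ℂ} (hK : CN K) {x y : ℂ} {θ : ℝ} (hd : DifferentiableAt ℝ (h K) θ)
    (hx : x ∈ K) (e : lin x θ = h K θ) (hy : y ∈ K) (e' : lin y θ = h K θ) : x = y :=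
  lin_ext (e.trans e'.symm) ((deriv_h hK hd hx e).symm.trans (deriv_h hK hd hy e'))

/-! ### local support points -/

lemma sup_h {K : Set ℂ} (hK : CN K) (a b : ℝ) {x : ℂ} {θ : ℝ} (hx : x ∈ K)
    (e : lin x θ = h K θ) : Sup a b (h K) x θ := ⟨e, fun φ _ => lin_le_h hK hx φ⟩
lemma tc_h {K : Set ℂ} (hK : CN K) (a b : ℝ) : TC a b (h K) := by
  obtain ⟨R, -, hR⟩ := hK.bdd
  refine ⟨R, fun θ _ => ?_⟩
  obtain ⟨x, hx, e⟩ := h_att hK θ
  exact ⟨x, hR x hx, sup_h hK a b hx e⟩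
/-- a function with local support points is a support function -/
lemma realize {a b : ℝ} {F : ℝ → ℝ} (hF : TC a b F) (p q : ℂ) (hp : ∀ φ ∈ Icc a b, lin p φ ≤ F φ)
    (hq : ∀ φ ∈ Icc a b, lin q φ ≤ F φ) :
    ∃ C, CN C ∧ p ∈ C ∧ q ∈ C ∧ ∀ θ ∈ Icc a b, h C θ = F θ := by
  obtain ⟨R, hR⟩ := hF
  set R' := max R (max ‖p‖ ‖q‖)
  have hc : IsCompact {x : ℂ | ‖x‖ ≤ R' ∧ ∀ φ ∈ Icc a b, lin x φ ≤ F φ} := by
    apply (isCompact_closedBall (0 : ℂ) R').of_isClosed_subset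
    · have e : {x : ℂ | ‖x‖ ≤ R' ∧ ∀ φ ∈ Icc a b, lin x φ ≤ F φ} =
          {x : ℂ | ‖x‖ ≤ R'} ∩ ⋂ φ ∈ Icc a b, {x | lin x φ ≤ F φ} := by
        ext x; simp
      rw [e]
      exact (isClosed_le continuous_norm continuous_const).inter
        (isClosed_biInter fun φ _ => isClosed_le (continuous_lin_left φ) continuous_const)
    · intro x hx; simpa using hx.1
  have hp' : p ∈ {x : ℂ | ‖x‖ ≤ R' ∧ ∀ φ ∈ Icc a b, lin x φ ≤ F φ} :=
    ⟨le_trans (le_max_left _ _) (le_max_right _ _), hp⟩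
  refine ⟨_, ⟨hc, p, hp'⟩, hp', ⟨le_trans (le_max_right _ _) (le_max_right _ _), hq⟩, ?_⟩
  intro θ hθ
  obtain ⟨x, hx, e, hs⟩ := hR θ hθ
  rw [← e]
  refine h_eq_of (K := {x : ℂ | ‖x‖ ≤ R' ∧ ∀ φ ∈ Icc a b, lin x φ ≤ F φ})
    ⟨le_trans hx (le_max_left _ _), hs⟩ ?_
  intro y hy
  rw [e]; exact hy.2 θ hθ
/-- local to global, to the right: `z` supports at `γ`, `x` lies above `z` at `θ < γ` -/
lemma loc_right {a b : ℝ} {F : ℝ → ℝ} {x z : ℂ} {θ γ φ : ℝ} (hba : b - a ≤ π) (hθ : a ≤ θ)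
    (hθγ : θ < γ) (hγφ : γ ≤ φ) (hφ : φ ≤ b) (hz : Sup a b F z γ) (h1 : lin z θ ≤ lin x θ)
    (h2 : lin x γ ≤ F γ) : lin x φ ≤ F φ := by
  rcases hγφ.eq_or_lt with rfl | hlt
  · exact h2
  have := sinus_right (d := x - z) hθγ hγφ (by linarith) (by linarith)
    (by rw [lin_sub]; linarith) (by rw [lin_sub, hz.1]; linarith)
  rw [lin_sub] at this
  linarith [hz.2 φ ⟨by linarith, hφ⟩]
/-- local to global, to the left -/
lemma loc_left {a b : ℝ} {F : ℝ → ℝ} {x z : ℂ} {θ γ φ : ℝ} (hba : b - a ≤ π) (hθ : θ ≤ b)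
    (hθγ : γ < θ) (hγφ : φ ≤ γ) (hφ : a ≤ φ) (hz : Sup a b F z γ) (h1 : lin z θ ≤ lin x θ)
    (h2 : lin x γ ≤ F γ) : lin x φ ≤ F φ := by
  rcases hγφ.eq_or_lt with rfl | hlt
  · exact h2
  have := sinus_left (d := x - z) hγφ hθγ (by linarith) (by linarith)
    (by rw [lin_sub]; linarith) (by rw [lin_sub, hz.1]; linarith)
  rw [lin_sub] at this
  linarith [hz.2 φ ⟨hφ, by linarith⟩]

/-- gluing two functions at `γ` -/
def glue (F G : ℝ → ℝ) (γ θ : ℝ) : ℝ := if θ ≤ γ then F θ else G θ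
lemma glue_left {F G : ℝ → ℝ} {γ θ : ℝ} (hθ : θ ≤ γ) : glue F G γ θ = F θ := if_pos hθ
lemma glue_right {F G : ℝ → ℝ} {γ θ : ℝ} (e : F γ = G γ) (hθ : γ ≤ θ) : glue F G γ θ = G θ := by
  rcases hθ.eq_or_lt with rfl | hlt
  · rw [glue_left le_rfl, e]
  · exact if_neg (not_le.mpr hlt)
lemma sup_glue_mid {a b : ℝ} {F G : ℝ → ℝ} {z : ℂ} {γ : ℝ} (hF : Sup a b F z γ)
    (hG : Sup a b G z γ) : Sup a b (glue F G γ) z γ := by
  refine ⟨by rw [glue_left le_rfl, hF.1], fun φ hφ => ?_⟩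
  unfold glue
  split_ifs
  · exact hF.2 φ hφ
  · exact hG.2 φ hφ
lemma sup_glue_left {a b : ℝ} {F G : ℝ → ℝ} {x z : ℂ} {γ θ : ℝ} (hba : b - a ≤ π)
    (hγ : γ ∈ Icc a b) (hF : Sup a b F z γ) (hG : Sup a b G z γ) (hθ : a ≤ θ) (hθγ : θ < γ)
    (hx : Sup a b F x θ) : Sup a b (glue F G γ) x θ := by
  refine ⟨by rw [glue_left hθγ.le, hx.1], fun φ hφ => ?_⟩
  unfold glue
  split_ifs with hc
  · exact hx.2 φ hφ
  · refine loc_right hba hθ hθγ (not_le.mp hc).le hφ.2 hG ?_ ?_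
    · rw [hx.1]; exact hF.2 θ ⟨hθ, by linarith [hγ.2]⟩
    · rw [← hG.1, hF.1]; exact hx.2 γ hγ
lemma sup_glue_right {a b : ℝ} {F G : ℝ → ℝ} {x z : ℂ} {γ θ : ℝ} (hba : b - a ≤ π)
    (hγ : γ ∈ Icc a b) (hF : Sup a b F z γ) (hG : Sup a b G z γ) (hθ : θ ≤ b) (hθγ : γ < θ)
    (hx : Sup a b G x θ) : Sup a b (glue F G γ) x θ := by
  refine ⟨by rw [glue_right (hF.1.symm.trans hG.1) hθγ.le, hx.1], fun φ hφ => ?_⟩
  unfold glue
  split_ifs with hc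
  · refine loc_left hba hθ hθγ hc hφ.1 hF ?_ ?_
    · rw [hx.1]; exact hG.2 θ ⟨by linarith [hγ.1], hθ⟩
    · rw [← hF.1, hG.1]; exact hx.2 γ hγ
  · exact hx.2 φ hφ
lemma TC.glue {a b : ℝ} {F G : ℝ → ℝ} {z : ℂ} {γ : ℝ} (hba : b - a ≤ π) (hγ : γ ∈ Icc a b)
    (h1 : TC a b F) (h2 : TC a b G) (hF : Sup a b F z γ) (hG : Sup a b G z γ) :
    TC a b (glue F G γ) := by
  obtain ⟨R1, h1⟩ := h1
  obtain ⟨R2, h2⟩ := h2
  refine ⟨max ‖z‖ (max R1 R2), fun θ hθ => ?_⟩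
  rcases lt_trichotomy θ γ with hlt | rfl | hlt
  · obtain ⟨x, hx, hs⟩ := h1 θ hθ
    exact ⟨x, le_trans hx (le_trans (le_max_left _ _) (le_max_right _ _)),
      sup_glue_left hba hγ hF hG hθ.1 hlt hs⟩
  · exact ⟨z, le_max_left _ _, sup_glue_mid hF hG⟩
  · obtain ⟨x, hx, hs⟩ := h2 θ hθ
    exact ⟨x, le_trans hx (le_trans (le_max_right _ _) (le_max_right _ _)),
      sup_glue_right hba hγ hF hG hθ.2 hlt hs⟩
lemma Sup.affine {a b : ℝ} {F : ℝ → ℝ} {x : ℂ} {θ : ℝ} (hx : Sup a b F x θ) {t : ℝ} (ht : 0 ≤ t)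
    (y : ℂ) : Sup a b (fun φ => t * F φ + lin y φ) (t • x + y) θ := by
  refine ⟨by rw [lin_add, lin_smul, hx.1], fun φ hφ => ?_⟩
  rw [lin_add, lin_smul]
  linarith [mul_le_mul_of_nonneg_left (hx.2 φ hφ) ht]
lemma TC.affine {a b : ℝ} {F : ℝ → ℝ} (hF : TC a b F) {t : ℝ} (ht : 0 ≤ t) (y : ℂ) :
    TC a b (fun φ => t * F φ + lin y φ) := by
  obtain ⟨R, hR⟩ := hF
  refine ⟨t * R + ‖y‖, fun θ hθ => ?_⟩
  obtain ⟨x, hx, hs⟩ := hR θ hθ
  refine ⟨_, ?_, hs.affine ht y⟩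
  refine le_trans (norm_add_le _ _) ?_
  rw [norm_smul, Real.norm_of_nonneg ht]
  linarith [mul_le_mul_of_nonneg_left hx ht]

/-- modification of a cap on `[t0, t1]` -/
lemma Cl.modify {a b : ℝ} {B : ℝ → ℝ} {p q : ℂ} {C : Set ℂ} (hC : Cl a b B p q C)
    (hba : b - a ≤ π) {F : ℝ → ℝ} (hF : TC a b F) {t0 t1 : ℝ} (h0 : a < t0) (h01 : t0 ≤ t1)
    (h1 : t1 < b) (hl : ∀ θ ∈ Icc a t0, F θ = h C θ) (hr : ∀ θ ∈ Icc t1 b, F θ = h C θ)
    (hm : ∀ θ ∈ Icc t0 t1, F θ ≤ B θ) :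
    ∃ C', Cl a b B p q C' ∧ ∀ θ ∈ Icc a b, h C' θ = F θ := by
  obtain ⟨hcn, hp, hq, hB, ea, eb⟩ := hC
  have hF' := hF
  obtain ⟨R, hR⟩ := hF'
  have hab : a ≤ b := by linarith
  have hpa : ∀ φ ∈ Icc a b, lin p φ ≤ F φ := by
    intro φ hφ
    rcases le_total φ t0 with hc | hc
    · rw [hl φ ⟨hφ.1, hc⟩]; exact lin_le_h hcn hp φ
    · obtain ⟨z, -, hz⟩ := hR t0 ⟨h0.le, by linarith⟩
      refine loc_right hba le_rfl h0 hc hφ.2 hz ?_ ?_
      · have := hz.2 a ⟨le_rfl, hab⟩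
        rw [hl a ⟨le_rfl, h0.le⟩] at this
        linarith [hB a ⟨le_rfl, hab⟩]
      · rw [hl t0 ⟨h0.le, le_rfl⟩]; exact lin_le_h hcn hp t0
  have hqa : ∀ φ ∈ Icc a b, lin q φ ≤ F φ := by
    intro φ hφ
    rcases le_total t1 φ with hc | hc
    · rw [hr φ ⟨hc, hφ.2⟩]; exact lin_le_h hcn hq φ
    · obtain ⟨z, -, hz⟩ := hR t1 ⟨by linarith, h1.le⟩
      refine loc_left hba le_rfl h1 hc hφ.1 hz ?_ ?_
      · have := hz.2 b ⟨hab, le_rfl⟩
        rw [hr b ⟨h1.le, le_rfl⟩] at this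
        linarith [hB b ⟨hab, le_rfl⟩]
      · rw [hr t1 ⟨le_rfl, h1.le⟩]; exact lin_le_h hcn hq t1
  obtain ⟨C', hcn', hp', hq', e⟩ := realize hF p q hpa hqa
  refine ⟨C', ⟨hcn', hp', hq', fun θ hθ => ?_, ea, eb⟩, e⟩
  rw [e θ hθ]
  rcases le_total θ t0 with hc | hc
  · rw [hl θ ⟨hθ.1, hc⟩]; exact hB θ hθ
  · rcases le_total θ t1 with hc' | hc'
    · exact hm θ ⟨hc, hc'⟩
    · rw [hr θ ⟨hc', hθ.2⟩]; exact hB θ hθ
lemma Cl.left {a b : ℝ} {B : ℝ → ℝ} {p q : ℂ} {C : Set ℂ} (hC : Cl a b B p q C) (hab : a ≤ b) :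
    h C a = B a :=
  le_antisymm (hC.2.2.2.1 a ⟨le_rfl, hab⟩) (hC.2.2.2.2.1 ▸ lin_le_h hC.1 hC.2.1 a)
lemma Cl.right {a b : ℝ} {B : ℝ → ℝ} {p q : ℂ} {C : Set ℂ} (hC : Cl a b B p q C) (hab : a ≤ b) :
    h C b = B b :=
  le_antisymm (hC.2.2.2.1 b ⟨hab, le_rfl⟩) (hC.2.2.2.2.2 ▸ lin_le_h hC.1 hC.2.2.1 b)

end Pool.Agent.Lib.MP_f2780a_gt
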