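import Pool.Agent.Lib.MP_f2780a_gt.Pub

/-! Internal definitions: support functions, mixed areas, classes of caps. -/

set_option autoImplicit false

noncomputable section

namespace Pool.Agent.Lib.MP_f2780a_gt

open Real MeasureTheory Set

def ip (x y : ℂ) : ℝ := x.re * y.re + x.im * y.im
def dt (x y : ℂ) : ℝ := x.re * y.im - x.im * y.re
def u' (θ : ℝ) : ℂ := ⟨-sin θ, cos θ⟩
/-- `θ ↦ x · u θ` -/
def lin (x : ℂ) (θ : ℝ) : ℝ := ip x (u θ)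
/-- derivative of `lin x` -/
def lin' (x : ℂ) (θ : ℝ) : ℝ := ip x (u' θ)
/-- support function on vectors -/
def H (K : Set ℂ) (v : ℂ) : ℝ := sSup ((fun x => ip x v) '' K)
/-- support function on angles -/
def h (K : Set ℂ) (θ : ℝ) : ℝ := H K (u θ)
/-- support function of `-K` -/
def hb (K : Set ℂ) (θ : ℝ) : ℝ := h K (θ + π)
def CN (K : Set ℂ) : Prop := IsCompact K ∧ K.Nonempty
def Lip (f : ℝ → ℝ) : Prop := ∃ C : NNReal, LipschitzWith C f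
/-- mixed area form on `[a, b]` -/
def V (a b : ℝ) (f g : ℝ → ℝ) : ℝ := (∫ θ in a..b, (f θ * g θ - deriv f θ * deriv g θ)) / 2
def Ln (a b : ℝ) (f : ℝ → ℝ) : ℝ := ∫ θ in a..b, f θ
/-- area functional of a set on `[a, b]` -/
def Ar (a b : ℝ) (C : Set ℂ) : ℝ := V a b (h C) (h C)
/-- length functional of a set on `[a, b]` -/
def Le (a b : ℝ) (C : Set ℂ) : ℝ := Ln a b (h C)
/-- `x` is a support point of `F` at `θ` on `[a, b]` -/
def Sup (a b : ℝ) (F : ℝ → ℝ) (x : ℂ) (θ : ℝ) : Prop :=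
  lin x θ = F θ ∧ ∀ φ ∈ Icc a b, lin x φ ≤ F φ
def TC (a b : ℝ) (F : ℝ → ℝ) : Prop := ∃ R : ℝ, ∀ θ ∈ Icc a b, ∃ x, ‖x‖ ≤ R ∧ Sup a b F x θ
/-- difference set -/
def Dif (K : Set ℂ) : Set ℂ := {z | ∃ x ∈ K, ∃ y ∈ K, z = x - y}
def Diam1 (K : Set ℂ) : Prop := ∀ x ∈ K, ∀ y ∈ K, ‖x - y‖ ≤ 1
/-- the set cut out by a function of the angle -/
def Body (k : ℝ → ℝ) : Set ℂ := {x | ∀ θ, lin x θ ≤ k θ}

/-- caps pinned at `p`, `q` below the obstacle `B` -/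
def Cl (a b : ℝ) (B : ℝ → ℝ) (p q : ℂ) (C : Set ℂ) : Prop :=
  CN C ∧ p ∈ C ∧ q ∈ C ∧ (∀ θ ∈ Icc a b, h C θ ≤ B θ) ∧ lin p a = B a ∧ lin q b = B b
/-- least area among caps that are at least as long -/
def MinCl (a b : ℝ) (B : ℝ → ℝ) (p q : ℂ) (C : Set ℂ) : Prop :=
  Cl a b B p q C ∧ ∀ C', Cl a b B p q C' → Le a b C ≤ Le a b C' → Ar a b C ≤ Ar a b C'
/-- caps in an arc of the unit circle -/
def Arc (a b : ℝ) (C : Set ℂ) : Prop := Cl a b (fun _ => 1) (u a) (u b) C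

def lenI (a : ℝ) : ℝ := if a = 0 then π / 3 else arcLen a
def arI (a : ℝ) : ℝ := if a = 0 then π / 6 else arcArea a
def sig : ℝ := 1 + √3 / 2
def ParI (l : ℝ) : Set (Fin 3 → ℝ) := {a | (∀ i, a i ∈ Icc 0 (π / 6)) ∧ ∑ i, lenI (a i) = l}
def valI (a : Fin 3 → ℝ) : ℝ := ∑ i, arI (a i) - √3 / 2
/-- the division points on the arc starting at angle `a0` -/
def pts (a0 a : ℝ) (k : ℕ) : Set ℂ := (fun t => u (a0 + t)) '' angles a k
/-- area of the isosceles triangle with sides `1, 1, t` -/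
def iso (t : ℝ) : ℝ := t * √(4 - t ^ 2) / 4
/-- translate -/
def tr (c : ℂ) (K : Set ℂ) : Set ℂ := (fun z => z - c) '' K

end Pool.Agent.Lib.MP_f2780a_gt
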