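import Pool.Agent.Lib.MP_f2780a_gt.Pub

/-! The finite list of candidates. -/

set_option autoImplicit false

noncomputable section

namespace Pool.Agent.Lib.MP_f2780a_gt

open Real Set

/-- perimeter of the polygon with `n` equal chords on each of the three arcs -/
def per (n : ℕ) : ℝ := 6 * n * sin (π / (6 * n))

/-- candidates of level `n` and perimeter `l`: every arc has `n` equal chords, or `n + 1` equal
chords, or the common parameter `t` -/
def Cand (n : ℕ) (l : ℝ) : Set (Fin 3 → ℝ) :=
  {a | (∃ t ∈ Icc (π / (6 * (n + 1))) (π / (6 * n)),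
    ∀ i, a i = π / (6 * n) ∨ a i = π / (6 * (n + 1)) ∨ a i = t) ∧ ∑ i, arcLen (a i) = l}

end Pool.Agent.Lib.MP_f2780a_gt
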