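import Pool.Agent.Lib.MP_f2780a_gt.StmtsB
import Pool.Agent.Lib.MP_f2780a_gt.Pub2

/-! Statements on the finite dimensional problem. -/

set_option autoImplicit false

noncomputable section

namespace Pool.Agent.Lib.MP_f2780a_gt

open Real MeasureTheory Set

/-- the pair of arcs with parameters `a1`, `a2` can be improved -/
def Better (a1 a2 : ℝ) : Prop :=
  ∃ b1 b2 : ℝ, 0 < b1 ∧ b1 ≤ π / 6 ∧ 0 < b2 ∧ b2 ≤ π / 6 ∧
    arcLen a1 + arcLen a2 ≤ arcLen b1 + arcLen b2 ∧ arcArea b1 + arcArea b2 < arcArea a1 + arcArea a2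

/-- two arcs separated by a regular value -/
def sep_stmt : Prop :=
  ∀ (a1 a2 : ℝ) (m : ℕ), 1 ≤ m → 0 < a2 → a2 < π / (6 * m) → π / (6 * m) < a1 → a1 ≤ π / 6 →
    Better a1 a2

/-- two different arcs inside one piece -/
def cong_stmt : Prop :=
  ∀ (a1 a2 : ℝ) (n : ℕ), 1 ≤ n → π / (6 * (n + 1)) < a2 → a2 < a1 → a1 < π / (6 * n) → Better a1 a2

def cand_stmt : Prop :=
  (∀ l : ℝ, 3 ≤ l → l < π → ∃ n : ℕ, 1 ≤ n ∧ per n ≤ l ∧ l < per (n + 1)) ∧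
  (∀ n : ℕ, 1 ≤ n → 3 ≤ per n ∧ per n < π) ∧
  ∀ (n : ℕ) (l : ℝ), 1 ≤ n → per n ≤ l → l ≤ per (n + 1) → (Cand n l).Finite ∧ Cand n l ⊆ Par l ∧
    ∃ μ, IsLeast (valI '' ParI l) μ ∧ IsLeast (val '' Cand n l) μ ∧
      ∀ a ∈ ParI l, valI a = μ → a ∈ Cand n l

/-- the first level in closed form -/
def first_stmt : Prop :=
  ∀ l μ : ℝ, 3 ≤ l → l ≤ per 2 → IsLeast (val '' Cand 1 l) μ →
    μ = (2 + √3) * l ^ 2 / 12 - (3 + √3) / 2 ∧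
    ∀ a ∈ Cand 1 l, val a = μ ↔ ∀ i, a i = π / 12 + arccos (l / per 2)

end Pool.Agent.Lib.MP_f2780a_gt
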