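import Pool.Agent.Lib.MP_f2780a_gt.Basic
import Pool.Agent.Lib.MP_f2780a_gt.StmtsC

/-! Assembly, from the statements of the lemmas. -/

set_option autoImplicit false

noncomputable section

namespace Pool.Agent.Lib.MP_f2780a_gt

open Real MeasureTheory Set

lemma place_place (c c' : ℂ) (φ φ' D D' : ℝ) (K : Set ℂ) :
    place c φ D (place c' φ' D' K) = place (c + D * u φ * c') (φ + φ') (D * D') K := by
  unfold place
  rw [image_image]
  congr 1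
  funext z
  rw [u_add]; push_cast; ring
lemma place_id (K : Set ℂ) : place 0 0 1 K = K := by simp [place]
lemma place_back (c : ℂ) (φ : ℝ) (K : Set ℂ) :
    place c φ 1 (place (-(u (-φ) * c)) (-φ) 1 K) = K := by
  rw [place_place]
  have : c + (1 : ℝ) * u φ * -(u (-φ) * c) = 0 := by
    have := u_mul_neg φ
    push_cast
    linear_combination (-c) * this
  rw [this, add_neg_cancel, mul_one, place_id]
lemma place_scale {D : ℝ} (hD : 0 < D) (K : Set ℂ) : place 0 0 D (place 0 0 D⁻¹ K) = K := by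
  rw [place_place, mul_inv_cancel₀ hD.ne']; simp [place]
lemma place_scale' {D : ℝ} (hD : 0 < D) (K : Set ℂ) : place 0 0 D⁻¹ (place 0 0 D K) = K := by
  rw [place_place, inv_mul_cancel₀ hD.ne']; simp [place]

/-- the least area is `m`, attained exactly by the sets with property `F` -/
def Sol (L D m : ℝ) (F : Set ℂ → Prop) : Prop :=
  IsLeast (area '' {K | Adm L D K}) m ∧ ∀ K, (Adm L D K ∧ area K = m) ↔ F K

lemma adm_place (hp : place_stmt) {l d D : ℝ} (hD : 0 < D) {K : Set ℂ} (hK : Adm l d K) (c : ℂ)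
    (φ : ℝ) : Adm (D * l) (D * d) (place c φ D K) ∧ area (place c φ D K) = D ^ 2 * area K := by
  obtain ⟨h1, h2, h3, h4⟩ := hp c φ D K hD hK.1
  exact ⟨⟨h1, by rw [h3, hK.2.1], by rw [h4, hK.2.2]⟩, h2⟩

lemma Sol.mk' {l m : ℝ} {F : Set ℂ → Prop} (h0 : ∃ K, F K)
    (h1 : ∀ K, F K → Adm l 1 K ∧ area K = m)
    (h2 : ∀ K, Adm l 1 K → m ≤ area K ∧ (area K ≤ m → F K)) : Sol l 1 m F := by
  obtain ⟨K0, hK0⟩ := h0
  refine ⟨⟨⟨K0, (h1 K0 hK0).1, (h1 K0 hK0).2⟩, ?_⟩, fun K => ⟨fun h => (h2 K h.1).2 h.2.le, h1 K⟩⟩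
  rintro _ ⟨K, hK, rfl⟩
  exact (h2 K hK).1

lemma Sol.scale (hp : place_stmt) {L D m : ℝ} (hD : 0 < D) {F G : Set ℂ → Prop}
    (h : Sol (L / D) 1 m F) (e : ∀ K, F K ↔ G (place 0 0 D K)) : Sol L D (D ^ 2 * m) G := by
  have up : ∀ K, Adm (L / D) 1 K → Adm L D (place 0 0 D K) ∧ area (place 0 0 D K) = D ^ 2 * area K := by
    intro K hK
    have := adm_place hp hD hK 0 0
    rwa [mul_one, mul_div_cancel₀ _ hD.ne'] at this
  have down : ∀ K, Adm L D K → Adm (L / D) 1 (place 0 0 D⁻¹ K) := by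
    intro K hK
    have := (adm_place hp (inv_pos.mpr hD) hK 0 0).1
    rwa [inv_mul_cancel₀ hD.ne', inv_mul_eq_div] at this
  refine ⟨⟨?_, ?_⟩, fun K => ⟨fun hK => ?_, fun hK => ?_⟩⟩
  · obtain ⟨K, hK, e1⟩ := h.1.1
    exact ⟨_, (up K hK).1, by rw [(up K hK).2, e1]⟩
  · rintro _ ⟨K, hK, rfl⟩
    have h1 := (up _ (down K hK)).2
    rw [place_scale hD] at h1
    rw [h1]
    exact mul_le_mul_of_nonneg_left (h.1.2 ⟨_, down K hK, rfl⟩) (sq_nonneg D)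
  · have h1 := (up _ (down K hK.1)).2
    rw [place_scale hD, hK.2] at h1
    have h2 := (e _).mp ((h.2 _).mp ⟨down K hK.1, (mul_left_cancel₀ (by positivity) h1).symm⟩)
    rwa [place_scale hD] at h2
  · rw [← place_scale hD K] at hK ⊢
    have h1 := (h.2 _).mpr ((e _).mpr hK)
    exact ⟨(up _ h1.1).1, by rw [(up _ h1.1).2, h1.2]⟩

lemma place_iff {D : ℝ} (hD : 0 < D) (K S : Set ℂ) :
    (∃ c φ, K = place c φ 1 S) ↔ ∃ c φ, place 0 0 D K = place c φ D S := by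
  constructor
  · rintro ⟨c, φ, rfl⟩
    exact ⟨_, _, by rw [place_place, mul_one]⟩
  · rintro ⟨c, φ, e⟩
    refine ⟨0 + (D⁻¹ : ℝ) * u 0 * c, 0 + φ, ?_⟩
    rw [← place_scale' hD K, e, place_place, inv_mul_cancel₀ hD.ne']

lemma diam1_of_diam {K : Set ℂ} (hK : IsFigure K) (hd : Metric.diam K = 1) : Diam1 K := by
  intro x hx y hy
  rw [← dist_eq_norm, ← hd]
  exact Metric.dist_le_diam_of_mem hK.1.isBounded hx hy

lemma diam_eq_one {K : Set ℂ} (hK : IsCompact K) (h1 : Diam1 K) (hc : ∀ i, ctr i ∈ K) :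
    Metric.diam K = 1 := by
  apply le_antisymm
  · exact Metric.diam_le_of_forall_dist_le zero_le_one fun x hx y hy => by
      rw [dist_eq_norm]; exact h1 x hx y hy
  · have := Metric.dist_le_diam_of_mem hK.isBounded (hc 0) (hc 1)
    simpa [ctr] using this

/-- lower bound, and normal position of the extremal figures -/
lemma core1 (hb : bridge_stmt) (hp : place_stmt) (hm : main_stmt) (hl : pal_stmt) {l μ : ℝ}
    (h3 : 3 ≤ l) (hμ : IsLeast (valI '' ParI l) μ) {K : Set ℂ} (hK : Adm l 1 K) :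
    μ ≤ area K ∧ (area K ≤ μ → ∃ c φ K1, K = place c φ 1 K1 ∧ Adm l 1 K1 ∧ area K1 = area K ∧
      (∀ i, ctr i ∈ K1) ∧ K1 ⊆ reuleaux) := by
  obtain ⟨b1, b2⟩ := hb K hK.1
  have d1 := diam1_of_diam hK.1 hK.2.2
  have e : Le 0 (2 * π) K = l := by rw [← b2, hK.2.1]
  obtain ⟨m1, m2⟩ := (hm K hK.1 d1 (by rw [e]; exact h3)).2 μ (by rw [e]; exact hμ)
  rw [← b1] at m1 m2
  refine ⟨m1, fun h => ?_⟩
  obtain ⟨c, φ, c0, c1, c2⟩ := hl K hK.1.cn d1 (m2 h)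
  have h1 := adm_place hp one_pos hK (-(u (-φ) * c)) (-φ)
  simp only [one_mul, one_pow] at h1
  have hc : ∀ i, ctr i ∈ place (-(u (-φ) * c)) (-φ) 1 K := by
    have k1 : u (-φ) * u φ = 1 := by rw [mul_comm]; exact u_mul_neg φ
    have k2 : u (-φ) * u (φ + π / 3) = u (π / 3) := by rw [← u_add]; congr 1; ring
    intro i
    fin_cases i
    · exact ⟨c, c0, by simp [ctr]⟩
    · exact ⟨_, c1, by simp [ctr]; linear_combination k1⟩
    · exact ⟨_, c2, by simp [ctr]; linear_combination k2⟩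
  refine ⟨c, φ, _, (place_back c φ K).symm, h1.1, h1.2, hc, fun x hx => mem_iInter.mpr fun i => ?_⟩
  rw [Metric.mem_closedBall, dist_eq_norm]
  exact diam1_of_diam h1.1.1 h1.1.2.2 x hx _ (hc i)

/-- the arcs of an extremal figure in normal position -/
lemma core2 (hb : bridge_stmt) (hr : reul_stmt) (ha : arc_stmt) {l μ : ℝ}
    (hμ : IsLeast (valI '' ParI l) μ) {K : Set ℂ} (hK : Adm l 1 K) (hA : area K ≤ μ)
    (hc : ∀ i, ctr i ∈ K) (hs : K ⊆ reuleaux) : ∃ a ∈ ParI l, valI a = μ ∧ ∀ i : Fin 3,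
      (a i = 0 ∧ ∀ θ ∈ Icc (2 * π * (i : ℕ) / 3) (2 * π * (i : ℕ) / 3 + π / 3),
        h (tr (ctr i) K) θ = 1) ∨
      (0 < a i ∧ ∃ k ≤ nn (a i), ∀ θ ∈ Icc (2 * π * (i : ℕ) / 3) (2 * π * (i : ℕ) / 3 + π / 3),
        h (tr (ctr i) K) θ = h (pts (2 * π * (i : ℕ) / 3) (a i) k) θ) := by
  obtain ⟨b1, b2⟩ := hb K hK.1
  obtain ⟨-, r1, r2, r3, -⟩ := hr K hK.1.1 hc hs
  choose a a1 a2 a3 a4 using fun i : Fin 3 => ha _ _ (r1 i)
  have hP : a ∈ ParI l := ⟨a1, by simp only [a2]; rw [← r3, ← b2, hK.2.1]⟩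
  have h1 := hμ.2 ⟨a, hP, rfl⟩
  rw [b1, r2] at hA
  have h2 := Finset.sum_le_sum (s := Finset.univ) fun i _ => a3 i
  have h3 : valI a = μ := le_antisymm (by unfold valI; linarith) h1
  refine ⟨a, hP, h3, fun i => a4 i (le_of_eq ?_)⟩
  exact ((Finset.sum_eq_sum_iff_of_le fun i _ => a3 i).mp
    (le_antisymm h2 (by unfold valI at h3; linarith)) i (Finset.mem_univ i)).symm

lemma core3 (hb : bridge_stmt) (hr : reul_stmt) (hs : shape_stmt) (hp : polyarc_stmt) {l : ℝ}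
    {a : Fin 3 → ℝ} (ha : a ∈ Par l) {k : Fin 3 → ℕ} (hk : ∀ i, k i ≤ nn (a i)) :
    Adm l 1 (poly a k) ∧ area (poly a k) = val a := by
  obtain ⟨s1, s2, s3, s4⟩ := hs.1 a k ha.1 hk
  obtain ⟨b1, b2⟩ := hb _ s1
  obtain ⟨r0, -, r2, r3, -⟩ := hr _ s1.1 s2 s3
  have hle : ∀ x : ℝ, x ≤ x + π / 3 := fun x => by linarith [pi_pos]
  have q := fun i : Fin 3 => hp (2 * π * (i : ℕ) / 3) (a i) (k i) (ha.1 i).1 (ha.1 i).2 (hk i)
  refine ⟨⟨s1, ?_, diam_eq_one s1.1 r0 s2⟩, ?_⟩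
  · rw [b2, r3, ← ha.2]
    exact Finset.sum_congr rfl fun i _ => by rw [Le_congr (hle _) (s4 i), (q i).2.2.2.1]
  · rw [b1, r2]
    unfold val
    congr 1
    exact Finset.sum_congr rfl fun i _ => by rw [Ar_congr (hle _) (s4 i), (q i).2.2.2.2]

lemma core4 (hb : bridge_stmt) (hr : reul_stmt) (hs : shape_stmt) :
    Adm π 1 reuleaux ∧ area reuleaux = (π - √3) / 2 := by
  obtain ⟨s1, s2, s4⟩ := hs.2
  obtain ⟨b1, b2⟩ := hb _ s1
  obtain ⟨r0, -, r2, r3, -⟩ := hr _ s1.1 s2 Subset.rfl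
  have hle : ∀ x : ℝ, x ≤ x + π / 3 := fun x => by linarith [pi_pos]
  refine ⟨⟨s1, ?_, diam_eq_one s1.1 r0 s2⟩, ?_⟩
  · rw [b2, r3, Finset.sum_congr rfl (g := fun _ => π / 3)]
    · simp; ring
    · intro i _
      unfold Le
      rw [Ln_congr (hle _) (s4 i), Ln_const]; ring
  · rw [b1, r2, Finset.sum_congr rfl (g := fun _ => π / 6)]
    · simp; ring
    · intro i _
      unfold Ar
      rw [V_congr (hle _) (s4 i) (s4 i), V_const]; ring

lemma valI_eq {l : ℝ} {a : Fin 3 → ℝ} (ha : a ∈ Par l) : valI a = val a := by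
  unfold valI val
  congr 1
  exact Finset.sum_congr rfl fun i _ => if_neg (ha.1 i).1.ne'

lemma sol_poly (hb : bridge_stmt) (hp : place_stmt) (hm : main_stmt) (hl : pal_stmt)
    (hr : reul_stmt) (ha : arc_stmt) (hs : shape_stmt) (hq : polyarc_stmt) {l μ : ℝ} (h3 : 3 ≤ l)
    {X : Set (Fin 3 → ℝ)} (hX : X ⊆ Par l) (hμ : IsLeast (valI '' ParI l) μ)
    (hμ' : μ ∈ val '' X) (hc : ∀ a ∈ ParI l, valI a = μ → a ∈ X) :
    Sol l 1 μ fun K => ∃ a ∈ X, val a = μ ∧ ∃ k : Fin 3 → ℕ, (∀ i, k i ≤ nn (a i)) ∧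
      ∃ c φ, K = place c φ 1 (poly a k) := by
  apply Sol.mk'
  · obtain ⟨a, h1, h2⟩ := hμ'
    exact ⟨_, a, h1, h2, 0, fun i => Nat.zero_le _, 0, 0, rfl⟩
  · rintro K ⟨a, h1, h2, k, hk, c, φ, rfl⟩
    obtain ⟨p1, p2⟩ := core3 hb hr hs hq (hX h1) hk
    have := adm_place hp one_pos p1 c φ
    simpa only [one_mul, one_pow, p2, h2] using this
  · intro K hK
    obtain ⟨c1, c2⟩ := core1 hb hp hm hl h3 hμ hK
    refine ⟨c1, fun hA => ?_⟩
    obtain ⟨c, φ, K1, e, k1, k2, k3, k4⟩ := c2 hA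
    obtain ⟨a, a1, a2, a3⟩ := core2 hb hr ha hμ k1 (k2 ▸ hA) k3 k4
    have hx := hc a a1 a2
    have hP := hX hx
    choose k hk using fun i => ((a3 i).resolve_left fun h => (hP.1 i).1.ne' h.1).2
    refine ⟨a, hx, by rw [← valI_eq hP, a2], k, fun i => (hk i).1, c, φ, ?_⟩
    obtain ⟨s1, s2, s3, s4⟩ := hs.1 a k hP.1 fun i => (hk i).1
    rw [e, (hr K1 k1.1.1 k3 k4).2.2.2.2 _ s1.1 s2 s3 k1.1.2.1 s1.2.1
      fun i θ hθ => ((hk i).2 θ hθ).trans (s4 i θ hθ).symm]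

lemma sol_reul (hb : bridge_stmt) (hp : place_stmt) (hm : main_stmt) (hl : pal_stmt)
    (hr : reul_stmt) (ha : arc_stmt) (hs : shape_stmt) (hf : fin_stmt) :
    Sol π 1 ((π - √3) / 2) fun K => ∃ c φ, K = place c φ 1 reuleaux := by
  obtain ⟨μ, hμ, -, -, f4⟩ := hf π ⟨pi_gt_three.le, le_rfl⟩
  have e : μ = (π - √3) / 2 := by
    obtain ⟨a, a1, a2⟩ := hμ.1
    rw [← a2, f4 rfl a a1]
    simp [valI, arI]; ring
  obtain ⟨p1, p2⟩ := core4 hb hr hs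
  apply Sol.mk'
  · exact ⟨_, 0, 0, rfl⟩
  · rintro K ⟨c, φ, rfl⟩
    have := adm_place hp one_pos p1 c φ
    simpa only [one_mul, one_pow, p2] using this
  · intro K hK
    rw [← e]
    obtain ⟨c1, c2⟩ := core1 hb hp hm hl pi_gt_three.le hμ hK
    refine ⟨c1, fun hA => ?_⟩
    obtain ⟨c, φ, K1, e, k1, k2, k3, k4⟩ := c2 hA
    obtain ⟨a, a1, a2, a3⟩ := core2 hb hr ha hμ k1 (k2 ▸ hA) k3 k4
    have a0 := f4 rfl a a1
    obtain ⟨s1, s2, s4⟩ := hs.2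
    refine ⟨c, φ, ?_⟩
    rw [e, (hr K1 k1.1.1 k3 k4).2.2.2.2 _ s1.1 s2 Subset.rfl k1.1.2.1 s1.2.1 fun i θ hθ =>
      (((a3 i).resolve_right fun h => by simp [a0] at h).2 θ hθ).trans (s4 i θ hθ).symm]

lemma sol_tri (hk : kubota_stmt) (hi : isotri_stmt) {l : ℝ} (h2 : 2 < l) (h3 : l ≤ 3) :
    Sol l 1 (iso (l - 2)) fun K => ∃ A B C : ℂ, dist A B = 1 ∧ dist A C = 1 ∧ dist B C = l - 2 ∧
      K = convexHull ℝ {A, B, C} := by
  apply Sol.mk'
  · refine ⟨_, 0, 1, u (2 * arcsin ((l - 2) / 2)), by simp, by simp, ?_, rfl⟩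
    rw [dist_eq_norm, ← u_zero, norm_u_sub_u, show (0 - 2 * arcsin ((l - 2) / 2)) / 2 =
      -arcsin ((l - 2) / 2) by ring, sin_neg, sin_arcsin (by linarith) (by linarith), abs_neg,
      abs_of_pos (by linarith)]
    ring
  · rintro K ⟨A, B, C, h1, h2', h3', rfl⟩
    simpa using hi A B C (l - 2) (by linarith) (by linarith) h1 h2' h3'
  · intro K hK
    have := hk K hK.1 hK.2.2 (by rw [hK.2.1]; exact h3)
    rwa [hK.2.1] at this

end Pool.Agent.Lib.MP_f2780a_gt
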