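import Pool.Agent.Lib.MP_f2780a_gt.FinalA

/-! Scaling to an arbitrary diameter. -/

set_option autoImplicit false

noncomputable section

namespace Pool.Agent.Lib.MP_f2780a_gt

open Real MeasureTheory Set

lemma place_hull (D : ℝ) (A B C : ℂ) :
    place 0 0 D (convexHull ℝ {A, B, C}) = convexHull ℝ {D • A, D • B, D • C} := by
  have : place 0 0 D (convexHull ℝ {A, B, C}) = (LinearMap.lsmul ℝ ℂ D) '' convexHull ℝ {A, B, C} := by
    unfold place; congr 1; funext z; simp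
  rw [this, LinearMap.image_convexHull]
  simp [image_insert_eq]

lemma fin_tri (hp : place_stmt) (hk : kubota_stmt) (hi : isotri_stmt) {L D : ℝ} (hD : 0 < D)
    (h2 : 2 * D < L) (h3 : L ≤ 3 * D) :
    Sol L D ((L - 2 * D) * √(4 * L * D - L ^ 2) / 4) fun K => ∃ A B C : ℂ, dist A B = D ∧
      dist A C = D ∧ dist B C = L - 2 * D ∧ K = convexHull ℝ {A, B, C} := by
  have e : (L - 2 * D) * √(4 * L * D - L ^ 2) / 4 = D ^ 2 * iso (L / D - 2) := by
    have : 4 * L * D - L ^ 2 = D ^ 2 * (4 - (L / D - 2) ^ 2) := by field_simp; ring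
    rw [this, sqrt_mul (sq_nonneg D), sqrt_sq hD.le, iso]
    field_simp
  rw [e]
  refine (sol_tri hk hi (by rw [lt_div_iff₀ hD]; linarith) (by rw [div_le_iff₀ hD]; linarith)).scale
    hp hD fun K => ⟨?_, ?_⟩
  · rintro ⟨A, B, C, h1, h1', h1'', rfl⟩
    refine ⟨_, _, _, ?_, ?_, ?_, place_hull D A B C⟩ <;>
      rw [dist_smul₀, Real.norm_of_nonneg hD.le]
    · rw [h1, mul_one]
    · rw [h1', mul_one]
    · rw [h1'']; field_simp
  · rintro ⟨A, B, C, h1, h1', h1'', e⟩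
    refine ⟨D⁻¹ • A, D⁻¹ • B, D⁻¹ • C, ?_, ?_, ?_, by rw [← place_hull, ← e, place_scale' hD]⟩ <;>
      rw [dist_smul₀, Real.norm_of_nonneg (inv_pos.mpr hD).le]
    · rw [h1]; field_simp
    · rw [h1']; field_simp
    · rw [h1'']; field_simp

lemma fin_poly (hb : bridge_stmt) (hp : place_stmt) (hm : main_stmt) (hl : pal_stmt)
    (hr : reul_stmt) (ha : arc_stmt) (hs : shape_stmt) (hq : polyarc_stmt) (hc : cand_stmt)
    {L D : ℝ} (hD : 0 < D) {n : ℕ} (hn : 1 ≤ n) (h1 : per n * D ≤ L) (h2 : L ≤ per (n + 1) * D) :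
    (Cand n (L / D)).Finite ∧ ∃ μ, IsLeast (val '' Cand n (L / D)) μ ∧
      Sol L D (D ^ 2 * μ) fun K => ∃ a ∈ Cand n (L / D), val a = μ ∧ ∃ k : Fin 3 → ℕ,
        (∀ i, k i ≤ nn (a i)) ∧ ∃ c φ, K = place c φ D (poly a k) := by
  have l1 : per n ≤ L / D := by rwa [le_div_iff₀ hD]
  obtain ⟨c1, c2, μ, c3, c4, c5⟩ := hc.2.2 n (L / D) hn l1 (by rwa [div_le_iff₀ hD])
  refine ⟨c1, μ, c4, (sol_poly hb hp hm hl hr ha hs hq ((hc.2.1 n hn).1.trans l1) c2 c3 c4.1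
    c5).scale hp hD fun K => ?_⟩
  simp only [place_iff hD]

lemma fin_first (hb : bridge_stmt) (hp : place_stmt) (hm : main_stmt) (hl : pal_stmt)
    (hr : reul_stmt) (ha : arc_stmt) (hs : shape_stmt) (hq : polyarc_stmt) (hc : cand_stmt)
    (hf : first_stmt) {L D : ℝ} (hD : 0 < D) (h1 : 3 * D ≤ L) (h2 : L ≤ per 2 * D) :
    IsLeast (area '' {K | Adm L D K}) ((2 + √3) * L ^ 2 / 12 - (3 + √3) * D ^ 2 / 2) := by
  have p1 : per 1 = 3 := by simp [per]; norm_num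
  obtain ⟨-, μ, f1, f2⟩ := fin_poly hb hp hm hl hr ha hs hq hc hD le_rfl (by rwa [p1]) h2
  have e := (hf _ μ (by rwa [le_div_iff₀ hD]) (by rwa [div_le_iff₀ hD]) f1).1
  have e2 : (2 + √3) * L ^ 2 / 12 - (3 + √3) * D ^ 2 / 2 = D ^ 2 * μ := by rw [e]; field_simp
  rw [e2]; exact f2.1

lemma fin_reul (hb : bridge_stmt) (hp : place_stmt) (hm : main_stmt) (hl : pal_stmt)
    (hr : reul_stmt) (ha : arc_stmt) (hs : shape_stmt) (hf : fin_stmt) {D : ℝ} (hD : 0 < D) :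
    Sol (π * D) D ((π - √3) / 2 * D ^ 2) fun K => ∃ c φ, K = place c φ D reuleaux := by
  rw [mul_comm _ (D ^ 2)]
  refine Sol.scale hp hD (F := fun K => ∃ c φ, K = place c φ 1 reuleaux) ?_ fun K => place_iff hD K _
  rw [mul_div_cancel_right₀ _ hD.ne']
  exact sol_reul hb hp hm hl hr ha hs hf

end Pool.Agent.Lib.MP_f2780a_gt
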