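import Pool.Agent.Lib.MP_f2780a_gt.Stmts

/-! Statements of further lemmas (parts of `hex`, `arcmin`, `lens`). -/

set_option autoImplicit false

noncomputable section

namespace Pool.Agent.Lib.MP_f2780a_gt

open Real MeasureTheory Set

/-- an affine regular hexagon inscribed in the difference body, with three strips around `K` -/
def HexData (K : Set ℂ) (s a n1 n2 n3 c : ℂ) : Prop :=
  s ∈ Dif K ∧ a ∈ Dif K ∧ s + a ∈ Dif K ∧ 0 < dt s a ∧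
    ip s n1 = 1 ∧ ip (s + a) n2 = 1 ∧ ip a n3 = 1 ∧
    (∀ x ∈ Dif K, ip x n1 ≤ 1 ∧ ip x n2 ≤ 1 ∧ ip x n3 ≤ 1) ∧
    ∀ x ∈ K, |ip (x - c) n1| ≤ 1 / 2 ∧ |ip (x - c) n2| ≤ 1 / 2 ∧ |ip (x - c) n3| ≤ 1 / 2

def hexA_stmt : Prop :=
  ∀ K : Set ℂ, IsFigure K → ∃ s a n1 n2 n3 c : ℂ, HexData K s a n1 n2 n3 c

def hexB_stmt : Prop :=
  ∀ (K : Set ℂ) (s a n1 n2 n3 c : ℂ), CN K → HexData K s a n1 n2 n3 c →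
    V 0 (2 * π) (h K) (hb K) ≤ dt s a

/-- a gap of a set of reals -/
def Gap (T : Set ℝ) (α β : ℝ) : Prop := α < β ∧ α ∈ T ∧ β ∈ T ∧ ∀ t ∈ Ioo α β, t ∉ T
/-- no gap together with an interval -/
def NoArc (T : Set ℝ) : Prop := ∀ α β γ γ' : ℝ, Gap T α β → γ < γ' → ¬Icc γ γ' ⊆ T
/-- among three gaps the longest two are equal -/
def NoThree (T : Set ℝ) : Prop :=
  ∀ α β α' β' α'' β'' : ℝ, Gap T α β → Gap T α' β' → Gap T α'' β'' → α ≠ α' →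
    β - α ≤ β' - α' → ¬β' - α' < β'' - α''

def gaps_stmt : Prop :=
  ∀ T : Set ℝ, IsClosed T → T ⊆ Icc 0 (π / 3) → (0 : ℝ) ∈ T → π / 3 ∈ T → T ≠ Icc 0 (π / 3) →
    NoArc T → NoThree T → ∃ (a : ℝ) (k : ℕ), 0 < a ∧ a ≤ π / 6 ∧ k ≤ nn a ∧ T = angles a k

/-- achievable length and area over an arc of angle `ω` -/
def Ach (ω l A : ℝ) : Prop := ∃ C, Arc 0 ω C ∧ Le 0 ω C = l ∧ Ar 0 ω C = A

def ach_stmt : Prop :=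
  (∀ (a b : ℝ) (C : Set ℂ), Arc a b C → Ach (b - a) (Le a b C) (Ar a b C)) ∧
  (∀ a ω l A : ℝ, Ach ω l A →
    ∃ C, Arc a (a + ω) C ∧ Le a (a + ω) C = l ∧ Ar a (a + ω) C = A) ∧
  (∀ ω l A ω' l' A' : ℝ, 0 ≤ ω → 0 ≤ ω' → ω + ω' ≤ π → Ach ω l A → Ach ω' l' A' →
    Ach (ω + ω') (l + l') (A + A')) ∧
  (∀ x : ℝ, 0 ≤ x → x < π / 2 → Ach (2 * x) (2 * sin x) (sin (2 * x) / 2)) ∧
  (∀ b : ℝ, Ach (2 * b) (2 * b) b) ∧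
  (∀ (a b γ : ℝ) (C : Set ℂ), Arc a b C → γ ∈ Icc a b → h C γ = 1 → u γ ∈ C) ∧
  ∀ (a b γ γ' : ℝ) (C : Set ℂ), Arc a b C → γ ∈ Icc a b → γ' ∈ Icc a b → h C γ = 1 →
    h C γ' = 1 → Arc γ γ' C

/-- contact points -/
def cont (a0 : ℝ) (C : Set ℂ) : Set ℝ := {t | t ∈ Icc 0 (π / 3) ∧ h C (a0 + t) = 1}

def arcwin_stmt : Prop :=
  ∀ (a0 : ℝ) (C : Set ℂ), MinCl a0 (a0 + π / 3) (fun _ => 1) (u a0) (u (a0 + π / 3)) C →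
    (∀ α β, Gap (cont a0 C) α β → ∀ θ ∈ Icc (a0 + α) (a0 + β),
      h C θ = max (cos (θ - (a0 + α))) (cos (θ - (a0 + β)))) ∧
    NoArc (cont a0 C) ∧ NoThree (cont a0 C)

/-- structure of the minimal caps in the half lens -/
def LensData (C : Set ℂ) (α β : ℝ) : Prop :=
  α ∈ Icc 0 (π / 3) ∧ β ∈ Icc (2 * π / 3) π ∧ u α ∈ C ∧ 1 + u β ∈ C ∧
    ∀ θ ∈ Icc α β, h C θ = max (lin (u α) θ) (lin (1 + u β) θ)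

def lensA_stmt : Prop := ∀ C : Set ℂ, MinCl 0 π lensB 1 0 C → ∃ α β, LensData C α β

def lensC_stmt : Prop :=
  ∀ (C : Set ℂ) (α β : ℝ), Cl 0 π lensB 1 0 C → LensData C α β →
    (∀ T : ℝ, 0 ≤ T → T ≤ 1 → T ≤ Le 0 π C - 1 → iso T ≤ Ar 0 π C) ∧
    (Le 0 π C ≤ 2 → Ar 0 π C ≤ iso (Le 0 π C - 1) → ∃ z : ℂ, 0 ≤ z.im ∧
      ((‖z‖ = 1 ∧ ‖z - 1‖ = Le 0 π C - 1) ∨ (‖z - 1‖ = 1 ∧ ‖z‖ = Le 0 π C - 1)) ∧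
      ∀ θ ∈ Icc 0 π, h C θ = h {0, 1, z} θ)

end Pool.Agent.Lib.MP_f2780a_gt
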