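import Pool.Agent.Lib.MP_f2780a_gt.Basic
import Pool.Agent.Lib.MP_f2780a_gt.StmtsB

set_option autoImplicit false

noncomputable section

namespace Pool.Agent.Lib.MP_f2780a_gt

open Real Set

namespace Ac

/-- area defect minus `k` times the length defect -/
def q (k x : ℝ) : ℝ := 2 * x - sin (2 * x) - k * (x - sin x)

lemma q_deriv (k x : ℝ) : HasDerivAt (q k) ((1 - cos x) * (4 * (1 + cos x) - k)) x := by
  have h1 : HasDerivAt (fun x : ℝ => 2 * x) 2 x := by simpa using (hasDerivAt_id x).const_mul 2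
  have h2 := (h1.sub h1.sin).sub (((hasDerivAt_id x).sub (hasDerivAt_sin x)).const_mul k)
  refine h2.congr_deriv ?_
  rw [cos_two_mul]
  ring

lemma q_cont (k : ℝ) : Continuous (q k) :=
  continuous_iff_continuousAt.2 fun x => (q_deriv k x).continuousAt

lemma e_mono : Monotone fun x : ℝ => x - sin x := by
  refine monotone_of_deriv_nonneg (by fun_prop) fun x => ?_
  have h : HasDerivAt (fun x : ℝ => x - sin x) (1 - cos x) x :=
    (hasDerivAt_id x).sub (hasDerivAt_sin x)
  rw [h.deriv]
  linarith [cos_le_one x]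

lemma q_left {t : ℝ} (h0 : 0 ≤ t) (h1 : t ≤ π) : 0 ≤ q (4 * (1 + cos t)) t := by
  have h : MonotoneOn (q (4 * (1 + cos t))) (Icc 0 t) := by
    refine monotoneOn_of_deriv_nonneg (convex_Icc _ _) (q_cont _).continuousOn
      (fun x _ => (q_deriv _ x).differentiableAt.differentiableWithinAt) fun x hx => ?_
    rw [interior_Icc] at hx
    rw [(q_deriv _ x).deriv]
    have := cos_le_cos_of_nonneg_of_le_pi hx.1.le h1 hx.2.le
    exact mul_nonneg (by linarith [cos_le_one x]) (by linarith)
  have h2 := h (left_mem_Icc.2 h0) (right_mem_Icc.2 h0) h0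
  simpa [q] using h2

lemma q_right {s c : ℝ} (h0 : 0 ≤ s) (h1 : s ≤ c) (h2 : c ≤ π) :
    q (4 * (1 + cos s)) c ≤ q (4 * (1 + cos s)) s := by
  have h : AntitoneOn (q (4 * (1 + cos s))) (Icc s c) := by
    refine antitoneOn_of_deriv_nonpos (convex_Icc _ _) (q_cont _).continuousOn
      (fun x _ => (q_deriv _ x).differentiableAt.differentiableWithinAt) fun x hx => ?_
    rw [interior_Icc] at hx
    rw [(q_deriv _ x).deriv]
    have := cos_le_cos_of_nonneg_of_le_pi h0 (hx.2.le.trans h2) hx.1.le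
    exact mul_nonpos_of_nonneg_of_nonpos (by linarith [cos_le_one x]) (by linarith)
  exact h (left_mem_Icc.2 h1) (right_mem_Icc.2 h1) h1

end Ac

open Ac in
theorem ac_proof : ac_stmt := by
  intro c b hc hc' hb
  have hπ := pi_pos
  have ec : 0 < c - sin c := sub_pos.2 (sin_lt hc)
  have sc : 0 ≤ sin c := sin_nonneg_of_nonneg_of_le_pi hc.le (by linarith)
  obtain ⟨t, t0, tb, tc⟩ : ∃ t, 0 < t ∧ t ≤ b ∧ t ≤ (c - sin c) / 3 :=
    ⟨min b ((c - sin c) / 3), lt_min hb (by linarith), min_le_left _ _, min_le_right _ _⟩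
  have et : 0 < t - sin t := sub_pos.2 (sin_lt t0)
  have st : 0 ≤ sin t := sin_nonneg_of_nonneg_of_le_pi t0.le (by linarith)
  obtain ⟨s, hs, es⟩ : c - sin c - (t - sin t) ∈ (fun x : ℝ => x - sin x) '' Icc 0 c := by
    refine intermediate_value_Icc hc.le (by fun_prop) ⟨?_, ?_⟩
    · simp only [sin_zero, sub_zero]
      linarith
    · show _ ≤ c - sin c
      linarith
  have es' : s - sin s = c - sin c - (t - sin t) := es
  have ts : t < s := by
    by_contra h
    have h1 : s - sin s ≤ t - sin t := e_mono (not_lt.1 h)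
    linarith
  have h1 := q_left t0.le (show t ≤ π by linarith)
  have h2 := q_right hs.1 hs.2 (show c ≤ π by linarith)
  have h3 : cos s < cos t := cos_lt_cos_of_nonneg_of_le_pi t0.le (by linarith [hs.2]) ts
  refine ⟨s, t, c + b - s - t, t0.trans ts, t0, by linarith [hs.2], by ring, by linarith, ?_⟩
  simp only [q] at h1 h2
  rw [es'] at h2
  nlinarith [mul_pos (sub_pos.2 h3) et]

end Pool.Agent.Lib.MP_f2780a_gt
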