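import Pool.Agent.Lib.MP_f2780a_gt.Basic
import Pool.Agent.Lib.MP_f2780a_gt.StmtsB

/-! Achievable pairs of length and area over an arc. -/

set_option autoImplicit false

noncomputable section

namespace Pool.Agent.Lib.MP_f2780a_gt

open Real MeasureTheory Set

namespace ach

lemma rot {a b : ℝ} {C : Set ℂ} (hC : Arc a b C) (s : ℝ) {a' b' : ℝ} (ha : a' = a + s)
    (hb : b' = b + s) : ∃ C', Arc a' b' C' ∧ Le a' b' C' = Le a b C ∧ Ar a' b' C' = Ar a b C := by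
  subst ha hb
  obtain ⟨h1, h2, h3, h4, -, -⟩ := hC
  refine ⟨(fun z => u s * z) '' C, ⟨h1.image (by fun_prop), ⟨_, h2, ?_⟩, ⟨_, h3, ?_⟩,
    fun θ hθ => ?_, lin_u_self _, lin_u_self _⟩, Le_rot h1 s a b, Ar_rot h1 s a b⟩
  · rw [u_add, mul_comm]
  · rw [u_add, mul_comm]
  · rw [h_rot h1]
    exact h4 _ ⟨by linarith [hθ.1], by linarith [hθ.2]⟩

lemma cat {b c : ℝ} {C1 C2 : Set ℂ} (hb : 0 ≤ b) (hc : b ≤ c) (hπ : c ≤ π) (h1 : Arc 0 b C1)
    (h2 : Arc b c C2) : Ach c (Le 0 b C1 + Le b c C2) (Ar 0 b C1 + Ar b c C2) := by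
  have s1 := sup_h h1.1 0 c h1.2.2.1 ((lin_u_self b).trans (h1.right hb).symm)
  have s2 := sup_h h2.1 0 c h2.2.1 ((lin_u_self b).trans (h2.left hc).symm)
  have hπ' : c - 0 ≤ π := by linarith
  have e : h C1 b = h C2 b := s1.1.symm.trans s2.1
  obtain ⟨C, c1, c2, c3, c4⟩ := realize (TC.glue hπ' ⟨hb, hc⟩ (tc_h h1.1 0 c) (tc_h h2.1 0 c) s1 s2)
    (u 0) (u c) (by
      rcases hb.eq_or_lt with rfl | hlt
      · exact (sup_glue_mid s1 s2).2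
      · exact (sup_glue_left hπ' ⟨hb, hc⟩ s1 s2 le_rfl hlt
          (sup_h h1.1 0 c h1.2.1 ((lin_u_self 0).trans (h1.left hb).symm))).2) (by
      rcases hc.eq_or_lt with rfl | hlt
      · exact (sup_glue_mid s1 s2).2
      · exact (sup_glue_right hπ' ⟨hb, hc⟩ s1 s2 le_rfl hlt
          (sup_h h2.1 0 c h2.2.2.1 ((lin_u_self c).trans (h2.right hc).symm))).2)
  have l1 : ∀ θ ∈ Icc 0 b, h C θ = h C1 θ := fun θ hθ =>
    (c4 θ ⟨hθ.1, hθ.2.trans hc⟩).trans (glue_left hθ.2)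
  have l2 : ∀ θ ∈ Icc b c, h C θ = h C2 θ := fun θ hθ =>
    (c4 θ ⟨hb.trans hθ.1, hθ.2⟩).trans (glue_right e hθ.1)
  refine ⟨C, ⟨c1, c2, c3, fun θ hθ => ?_, lin_u_self _, lin_u_self _⟩, ?_, ?_⟩
  · rcases le_total θ b with h3 | h3
    · exact (l1 θ ⟨hθ.1, h3⟩).trans_le (h1.2.2.2.1 θ ⟨hθ.1, h3⟩)
    · exact (l2 θ ⟨h3, hθ.2⟩).trans_le (h2.2.2.2.1 θ ⟨h3, hθ.2⟩)
  · rw [← Le_split c1 0 b c, Le_congr hb l1, Le_congr hc l2]
  · rw [← Ar_split c1 0 b c, Ar_congr hb l1, Ar_congr hc l2]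

lemma mem {a b γ : ℝ} {C : Set ℂ} (hC : Arc a b C) (hγ : γ ∈ Icc a b) (e : h C γ = 1) :
    u γ ∈ C := by
  rcases hγ.1.eq_or_lt with rfl | h1
  · exact hC.2.1
  rcases hγ.2.eq_or_lt with rfl | h2
  · exact hC.2.2.1
  obtain ⟨x, hx, e'⟩ := h_att hC.1 γ
  have h3 := deriv_eq_of_touch (F := fun _ => 1) (differentiableAt_const _) (e'.trans e)
    (Filter.mem_of_superset (Icc_mem_nhds h1 h2) fun φ hφ =>
      (lin_le_h hC.1 hx φ).trans (hC.2.2.2.1 φ hφ))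
  rw [deriv_const] at h3
  rw [← lin_ext ((e'.trans e).trans (lin_u_self γ).symm) (h3.symm.trans (lin'_u_self γ).symm)]
  exact hx

lemma ball : h (Metric.closedBall (0 : ℂ) 1) = fun _ => 1 := funext fun θ =>
  (h_eq_of (x := u θ) (by simp) fun y hy =>
    ((lin_le_norm y θ).trans (mem_closedBall_zero_iff.1 hy)).trans_eq (lin_u_self θ).symm).trans
    (lin_u_self θ)

end ach

theorem ach_proof : ach_stmt := by
  refine ⟨fun a b C hC => ach.rot hC (-a) (by ring) (by ring), fun a ω l A ⟨C, hC, e1, e2⟩ => ?_,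
    fun ω l A ω' l' A' h1 h2 h3 ⟨C, hC, e1, e2⟩ ⟨C', hC', e1', e2'⟩ => ?_, fun x h1 h2 => ?_,
    fun b => ?_, fun a b γ C hC => ach.mem hC, fun a b γ γ' C hC h1 h2 e1 e2 =>
      ⟨hC.1, ach.mem hC h1 e1, ach.mem hC h2 e2, fun θ hθ =>
        hC.2.2.2.1 θ ⟨h1.1.trans hθ.1, hθ.2.trans h2.2⟩, lin_u_self _, lin_u_self _⟩⟩
  · exact e1 ▸ e2 ▸ ach.rot hC a (by ring) (by ring)
  · obtain ⟨C2, c1, c2, c3⟩ := ach.rot hC' ω (a' := ω) (b' := ω + ω') (by ring) (by ring)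
    rw [← e1, ← e2, ← e1', ← e2', ← c2, ← c3]
    exact ach.cat h1 (by linarith) h3 hC c1
  · have e : ∀ θ, h {u 0, u (2 * x)} θ = max (cos (θ - 0)) (cos (θ - 2 * x)) := fun θ => by
      rw [h_pair, lin_u, lin_u]
    obtain ⟨c1, c2⟩ := chord (a := 0) (b := 2 * x) (by linarith) (by linarith) fun θ _ => e θ
    refine ⟨{u 0, u (2 * x)}, ⟨(cn_singleton _).insert _, by simp, by simp, fun θ _ => ?_,
      lin_u_self _, lin_u_self _⟩, c1.trans ?_, c2.trans (by rw [sub_zero])⟩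
    · rw [e]
      exact max_le (cos_le_one _) (cos_le_one _)
    · rw [show (2 * x - 0) / 2 = x by ring]
  · refine ⟨Metric.closedBall 0 1, ⟨⟨isCompact_closedBall _ _, 0, by simp⟩, by simp, by simp,
      fun θ _ => by rw [ach.ball], lin_u_self _, lin_u_self _⟩, ?_, ?_⟩
    · rw [Le, ach.ball, Ln_const]; ring
    · rw [Ar, ach.ball, V_const]; ring

end Pool.Agent.Lib.MP_f2780a_gt
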