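import Pool.Agent.Lib.MP_f2780a_gt.Basic
import Pool.Agent.Lib.MP_f2780a_gt.StmtsB

set_option autoImplicit false

noncomputable section

namespace Pool.Agent.Lib.MP_f2780a_gt

open Real MeasureTheory Set

namespace arc

lemma data (hm : arcmin_stmt) (hp : polyarc_stmt) {a0 : ℝ} {C : Set ℂ}
    (hC : MinCl a0 (a0 + π / 3) (fun _ => 1) (u a0) (u (a0 + π / 3)) C) :
    ∃ a ∈ Icc 0 (π / 6), Le a0 (a0 + π / 3) C = lenI a ∧ Ar a0 (a0 + π / 3) C = arI a ∧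
      ((a = 0 ∧ ∀ θ ∈ Icc a0 (a0 + π / 3), h C θ = 1) ∨
      (0 < a ∧ ∃ k ≤ nn a, ∀ θ ∈ Icc a0 (a0 + π / 3), h C θ = h (pts a0 a k) θ)) := by
  have hab : a0 ≤ a0 + π / 3 := by linarith [pi_pos]
  rcases hm a0 C hC with e | ⟨a, k, h0, h1, hk, e⟩
  · refine ⟨0, ⟨le_rfl, by positivity⟩, ?_, ?_, .inl ⟨rfl, e⟩⟩
    · rw [Le, Ln_congr (g := fun _ => 1) hab e, Ln_const, lenI, if_pos rfl]; ring
    · rw [Ar, V_congr (f' := fun _ => 1) (g' := fun _ => 1) hab e e, V_const, arI, if_pos rfl]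
      ring
  · obtain ⟨-, -, -, e1, e2⟩ := hp a0 a k h0 h1 hk
    refine ⟨a, ⟨h0.le, h1⟩, ?_, ?_, .inr ⟨h0, k, hk, e⟩⟩
    · rw [Le_congr hab e, e1, lenI, if_neg h0.ne']
    · rw [Ar_congr hab e, e2, arI, if_neg h0.ne']

lemma bound {a0 : ℝ} (x : ℂ) (θ : ℝ) (hθ : θ ∈ Ioo a0 (a0 + π / 3))
    (h1 : ∀ φ ∈ Icc a0 (a0 + π / 3), lin x φ ≤ 1) (h2 : lin (u a0) θ ≤ lin x θ)
    (h3 : lin (u (a0 + π / 3)) θ ≤ lin x θ) : ‖x‖ ≤ 2 := by
  have hp := pi_pos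
  rw [lin_u] at h2 h3
  have e1 := h1 θ (Ioo_subset_Icc_self hθ)
  have e2 := h1 a0 ⟨le_rfl, by linarith⟩
  have e3 := h1 (a0 + π / 3) ⟨by linarith, le_rfl⟩
  rw [lin_expand x θ] at e2 e3
  rw [← neg_sub θ, cos_neg, sin_neg] at e2
  rw [← neg_sub, cos_neg] at h3
  have c1 : 0 < cos (θ - a0) := cos_pos_of_mem_Ioo ⟨by linarith [hθ.1], by linarith [hθ.2]⟩
  have s1 : 0 < sin (θ - a0) := sin_pos_of_pos_of_lt_pi (by linarith [hθ.1]) (by linarith [hθ.2])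
  have c2 : 0 < cos (a0 + π / 3 - θ) :=
    cos_pos_of_mem_Ioo ⟨by linarith [hθ.2], by linarith [hθ.1]⟩
  have s2 : 0 < sin (a0 + π / 3 - θ) :=
    sin_pos_of_pos_of_lt_pi (by linarith [hθ.2]) (by linarith [hθ.1])
  have b1 : -1 ≤ lin' x θ := by
    have := sin_le_one (θ - a0)
    by_contra hn
    nlinarith [sin_sq_add_cos_sq (θ - a0), mul_le_mul_of_nonneg_right h2 c1.le]
  have b2 : lin' x θ ≤ 1 := by
    have := sin_le_one (a0 + π / 3 - θ)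
    by_contra hn
    nlinarith [sin_sq_add_cos_sq (a0 + π / 3 - θ), mul_le_mul_of_nonneg_right h3 c2.le]
  have := lin_sq_add x θ
  nlinarith [norm_nonneg x]

lemma len {a0 : ℝ} {C : Set ℂ} (hC : Arc a0 (a0 + π / 3) C) :
    Le a0 (a0 + π / 3) C ∈ Icc 1 (π / 3) := by
  have hp := pi_pos
  have hab : a0 ≤ a0 + π / 3 := by linarith
  constructor
  · have e := (chord (F := fun θ => max (cos (θ - a0)) (cos (θ - (a0 + π / 3)))) hab
      (by linarith) fun _ _ => rfl).1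
    rw [show (a0 + π / 3 - a0) / 2 = π / 6 by ring, sin_pi_div_six] at e
    refine le_trans (by rw [e]; norm_num) (Ln_mono (by fun_prop) (continuous_h hC.1) hab
      fun θ _ => max_le ?_ ?_)
    · rw [← lin_u]; exact lin_le_h hC.1 hC.2.1 θ
    · rw [← lin_u]; exact lin_le_h hC.1 hC.2.2.1 θ
  · refine (Ln_mono (continuous_h hC.1) continuous_const hab hC.2.2.2.1).trans ?_
    rw [Ln_const]; linarith

lemma low (hx : exmin_stmt) (hm : arcmin_stmt) (hp : polyarc_stmt) (hs : slope_stmt) {a0 a : ℝ}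
    {C : Set ℂ} (hC : Arc a0 (a0 + π / 3) C) (ha : a ∈ Icc 0 (π / 6))
    (hl : lenI a ≤ Le a0 (a0 + π / 3) C) : arI a ≤ Ar a0 (a0 + π / 3) C := by
  have n : ∀ t, ‖u t‖ ≤ 2 := fun t => by
    have := lin_sq_add (u t) t
    rw [lin_u, lin'_u, sub_self, cos_zero, sin_zero] at this
    nlinarith [norm_nonneg (u t)]
  obtain ⟨M, hM, l1, mn⟩ := hx a0 (a0 + π / 3) (fun _ => 1) _ _ 2 (lenI a) C
    (by linarith [pi_pos]) (n _) (n _) bound hC hl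
  obtain ⟨a', ha', e1, e2, -⟩ := data hm hp ⟨hM, fun C' h1 h2 => mn C' h1 (l1.trans h2)⟩
  rw [e1] at l1
  have le : a' ≤ a := by
    by_contra hn
    exact absurd (hs.1 ha ha' (not_le.1 hn)) (not_lt.2 l1)
  have := (hs.2.2.2 a' a ha'.1 le ha.2).1
  have sg : 0 ≤ sig := by unfold sig; positivity
  have := mul_nonneg sg (sub_nonneg.2 l1)
  linarith [mn C hC hl]

end arc

theorem arc_proof (hx : exmin_stmt) (hm : arcmin_stmt) (hp : polyarc_stmt) (hs : slope_stmt) :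
    arc_stmt := by
  intro a0 C hC
  obtain ⟨a, ha, e⟩ := hs.2.2.1 _ (arc.len hC)
  refine ⟨a, ha, e, arc.low hx hm hp hs hC ha e.le, fun hA => ?_⟩
  obtain ⟨a', ha', e1, -, H⟩ := arc.data hm hp
    ⟨hC, fun C' h1 h2 => hA.trans (arc.low hx hm hp hs h1 ha (e.le.trans h2))⟩
  rwa [hs.1.injOn ha ha' (e.trans e1)]

end Pool.Agent.Lib.MP_f2780a_gt
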