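import Pool.Agent.Lib.MP_f2780a_gt.Basic
import Pool.Agent.Lib.MP_f2780a_gt.StmtsB

/-! Structure of the minimal caps in an arc. -/

set_option autoImplicit false

noncomputable section

namespace Pool.Agent.Lib.MP_f2780a_gt

open Real MeasureTheory Set

namespace arcmin

lemma exists_gap {T : Set ℝ} (hT : IsClosed T) {a b t : ℝ} (ha : a ∈ T) (hb : b ∈ T)
    (ht : t ∈ Icc a b) (hn : t ∉ T) : ∃ α β, Gap T α β ∧ α ≤ t ∧ t ≤ β := by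
  obtain ⟨α, hα, hα'⟩ := (isCompact_Icc.inter_left hT : IsCompact (T ∩ Icc a t)).exists_isGreatest
    ⟨a, ha, le_rfl, ht.1⟩
  obtain ⟨β, hβ, hβ'⟩ := (isCompact_Icc.inter_left hT : IsCompact (T ∩ Icc t b)).exists_isLeast
    ⟨b, hb, ht.2, le_rfl⟩
  have h1 : α < t := lt_of_le_of_ne hα.2.2 fun e => hn (e ▸ hα.1)
  refine ⟨α, β, ⟨h1.trans_le hβ.2.1, hα.1, hβ.1, fun x hx hxT => ?_⟩, hα.2.2, hβ.2.1⟩
  rcases le_total x t with h2 | h2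
  · exact absurd (hα' ⟨hxT, hα.2.1.trans hx.1.le, h2⟩) (not_le.2 hx.1)
  · exact absurd (hβ' ⟨hxT, h2, hx.2.le.trans hβ.2.2⟩) (not_le.2 hx.2)

end arcmin

theorem arcmin_proof (hw : arcwin_stmt) (hg : gaps_stmt) (hc : ach_stmt) (hp : polyarc_stmt) :
    arcmin_stmt := by
  intro a0 C hC
  obtain ⟨hgap, hna, hn3⟩ := hw a0 C hC
  have hA : Arc a0 (a0 + π / 3) C := hC.1
  have hπ : 0 ≤ π / 3 := by positivity
  have hcl : IsClosed (cont a0 C) :=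
    isClosed_Icc.inter (isClosed_eq ((continuous_h hA.1).comp (continuous_const.add continuous_id))
      continuous_const)
  have h0 : (0 : ℝ) ∈ cont a0 C :=
    ⟨⟨le_rfl, hπ⟩, by rw [add_zero]; exact Cl.left hA (by linarith)⟩
  have h1 : π / 3 ∈ cont a0 C := ⟨⟨hπ, le_rfl⟩, Cl.right hA (by linarith)⟩
  have hsh : ∀ θ ∈ Icc a0 (a0 + π / 3), θ - a0 ∈ Icc 0 (π / 3) := fun θ hθ =>
    ⟨by linarith [hθ.1], by linarith [hθ.2]⟩
  by_cases hT : cont a0 C = Icc 0 (π / 3)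
  · refine Or.inl fun θ hθ => ?_
    have h2 : θ - a0 ∈ cont a0 C := hT ▸ hsh θ hθ
    simpa using h2.2
  obtain ⟨a, k, ha, ha', hk, he⟩ := hg _ hcl (fun t ht => ht.1) h0 h1 hT hna hn3
  obtain ⟨-, -, hP, -, -⟩ := hp a0 a k ha ha' hk
  have hmem : ∀ t ∈ cont a0 C, u (a0 + t) ∈ pts a0 a k := fun t ht => ⟨t, he ▸ ht, rfl⟩
  have hsub : pts a0 a k ⊆ C := by
    rintro _ ⟨t, ht, rfl⟩
    rw [← he] at ht
    exact hc.2.2.2.2.2.1 a0 _ _ C hA ⟨by linarith [ht.1.1], by linarith [ht.1.2]⟩ ht.2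
  refine Or.inr ⟨a, k, ha, ha', hk, fun θ hθ => le_antisymm ?_ (h_mono hP.1 hA.1 hsub θ)⟩
  by_cases h2 : θ - a0 ∈ cont a0 C
  · have h3 := lin_le_h hP.1 (hmem _ h2) θ
    have h4 := h2.2
    rw [add_sub_cancel] at h3 h4
    rw [lin_u, sub_self, cos_zero] at h3
    rw [h4]; exact h3
  · obtain ⟨α, β, hG, h3, h4⟩ := arcmin.exists_gap hcl h0 h1 (hsh θ hθ) h2
    rw [hgap α β hG θ ⟨by linarith, by linarith⟩, ← lin_u, ← lin_u]
    exact max_le (lin_le_h hP.1 (hmem _ hG.2.1) θ) (lin_le_h hP.1 (hmem _ hG.2.2.1) θ)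

end Pool.Agent.Lib.MP_f2780a_gt
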