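import Pool.Agent.Lib.MP_f2780a_gt.Basic
import Pool.Agent.Lib.MP_f2780a_gt.StmtsB

/-! Windows, arcs and chords of a minimal cap in an arc. -/

set_option autoImplicit false

noncomputable section

namespace Pool.Agent.Lib.MP_f2780a_gt

open Real MeasureTheory Set

namespace Arcwin

lemma tau_nonpos {τ δ : ℝ} (h0 : 0 < δ) (h1 : δ ≤ π / 2)
    (H : ∀ s ∈ Icc 0 δ, cos s + τ * sin s ≤ 1) : τ ≤ 0 := by
  by_contra hn
  have hτ : 0 < τ := not_le.mp hn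
  set s := min δ (τ / 2) with hs
  have s0 : 0 < s := lt_min h0 (by linarith)
  have s1 : s ≤ δ := min_le_left _ _
  have s2 : s ≤ τ / 2 := min_le_right _ _
  have a1 := H s ⟨s0.le, s1⟩
  have a2 : 1 - s ^ 2 / 2 ≤ cos s := one_sub_sq_div_two_le_cos
  have a3 : 2 / π * s ≤ sin s := mul_le_sin s0.le (by linarith)
  have a4 : (1 : ℝ) / 2 ≤ 2 / π := by
    rw [div_le_div_iff₀ (by norm_num) pi_pos]
    linarith [pi_lt_four]
  have a5 : s / 2 ≤ sin s := by nlinarith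
  have a6 : τ * (s / 2) ≤ τ * sin s := mul_le_mul_of_nonneg_left a5 hτ.le
  nlinarith

variable {a0 : ℝ} {C : Set ℂ}

lemma arc_of (hm : MinCl a0 (a0 + π / 3) (fun _ => 1) (u a0) (u (a0 + π / 3)) C) :
    Arc a0 (a0 + π / 3) C := hm.1

lemma mem_I {t : ℝ} (ht : t ∈ cont a0 C) : a0 + t ∈ Icc a0 (a0 + π / 3) :=
  ⟨by linarith [ht.1.1], by linarith [ht.1.2]⟩

lemma window (hg : gen_stmt) (hc : ach_stmt)
    (hm : MinCl a0 (a0 + π / 3) (fun _ => 1) (u a0) (u (a0 + π / 3)) C) {α β : ℝ}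
    (hG : Gap (cont a0 C) α β) : ∀ θ ∈ Icc (a0 + α) (a0 + β),
      h C θ = max (cos (θ - (a0 + α))) (cos (θ - (a0 + β))) := by
  obtain ⟨hlt, hα, hβ, hno⟩ := hG
  have hA := arc_of hm
  have hle : ∀ θ ∈ Icc a0 (a0 + π / 3), h C θ ≤ 1 := hA.2.2.2.1
  have p1 := hα.1.1
  have p2 := hβ.1.2
  have hsub : ∀ θ ∈ Icc (a0 + α) (a0 + β), θ ∈ Icc a0 (a0 + π / 3) := fun θ hθ =>
    ⟨by linarith [hθ.1], by linarith [hθ.2]⟩
  obtain ⟨y, hy, y', hy', e1, e2, e3⟩ := hg a0 (a0 + π / 3) (fun _ => 1) (u a0) (u (a0 + π / 3)) C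
    (a0 + α) (a0 + β) (by linarith [pi_pos]) continuousOn_const hm (by linarith) (by linarith)
    (by linarith) (by
      intro θ hθ
      have h1 := hle θ (hsub θ (Ioo_subset_Icc_self hθ))
      refine lt_of_le_of_ne h1 fun h2 => hno (θ - a0) ⟨by linarith [hθ.1], by linarith [hθ.2]⟩ ?_
      refine ⟨⟨by linarith [hθ.1], by linarith [hθ.2]⟩, ?_⟩
      rw [add_sub_cancel]
      exact h2)
  rw [hα.2] at e1
  rw [hβ.2] at e2
  have t1 : lin' y (a0 + α) ≤ 0 := by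
    refine tau_nonpos (δ := β - α) (by linarith) (by linarith [pi_pos]) fun s hs => ?_
    have h1 := lin_expand y (a0 + α) (a0 + α + s)
    have h2 := le_trans (lin_le_h hA.1 hy (a0 + α + s))
      (hle _ (hsub _ ⟨by linarith [hs.1], by linarith [hs.2]⟩))
    rw [e1, add_sub_cancel_left] at h1
    linarith
  have t2 : -lin' y' (a0 + β) ≤ 0 := by
    refine tau_nonpos (δ := β - α) (by linarith) (by linarith [pi_pos]) fun s hs => ?_
    have h1 := lin_expand y' (a0 + β) (a0 + β - s)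
    have h2 := le_trans (lin_le_h hA.1 hy' (a0 + β - s))
      (hle _ (hsub _ ⟨by linarith [hs.2], by linarith [hs.1]⟩))
    rw [e2, show a0 + β - s - (a0 + β) = -s by ring, cos_neg, sin_neg] at h1
    linarith
  intro θ hθ
  have u1 := lin_le_h hA.1 (hc.2.2.2.2.2.1 _ _ _ C hA (mem_I hα) hα.2) θ
  have u2 := lin_le_h hA.1 (hc.2.2.2.2.2.1 _ _ _ C hA (mem_I hβ) hβ.2) θ
  rw [lin_u] at u1 u2
  refine le_antisymm ?_ (max_le u1 u2)
  rw [e3 θ hθ]
  apply max_le_max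
  · have h1 := lin_expand y (a0 + α) θ
    have h2 : 0 ≤ sin (θ - (a0 + α)) :=
      sin_nonneg_of_nonneg_of_le_pi (by linarith [hθ.1]) (by linarith [hθ.2, pi_pos])
    rw [e1] at h1
    nlinarith
  · have h1 := lin_expand y' (a0 + β) θ
    have h2 : sin (θ - (a0 + β)) ≤ 0 :=
      sin_nonpos_of_nonpos_of_neg_pi_le (by linarith [hθ.2]) (by linarith [hθ.1, pi_pos])
    rw [e2] at h1
    nlinarith

lemma piece (hc : ach_stmt) (hA : Arc a0 (a0 + π / 3) C) {s t : ℝ} (hs : s ∈ cont a0 C)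
    (ht : t ∈ cont a0 C) : Ach (t - s) (Le (a0 + s) (a0 + t) C) (Ar (a0 + s) (a0 + t) C) := by
  have h1 := hc.1 _ _ C (hc.2.2.2.2.2.2 _ _ _ _ C hA (mem_I hs) (mem_I ht) hs.2 ht.2)
  rwa [show a0 + t - (a0 + s) = t - s by ring] at h1

lemma zero_mem (hA : Arc a0 (a0 + π / 3) C) : (0 : ℝ) ∈ cont a0 C :=
  ⟨⟨le_rfl, by linarith [pi_pos]⟩, by
    rw [add_zero]; exact Cl.left hA (by linarith [pi_pos])⟩

lemma end_mem (hA : Arc a0 (a0 + π / 3) C) : π / 3 ∈ cont a0 C :=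
  ⟨⟨by linarith [pi_pos], le_rfl⟩, Cl.right hA (by linarith [pi_pos])⟩

/-- three sorted pieces cannot be replaced by something longer of smaller area -/
lemma sorted (hc : ach_stmt)
    (hm : MinCl a0 (a0 + π / 3) (fun _ => 1) (u a0) (u (a0 + π / 3)) C)
    {s1 t1 s2 t2 s3 t3 w l A : ℝ} (m1 : s1 ∈ cont a0 C) (n1 : t1 ∈ cont a0 C)
    (m2 : s2 ∈ cont a0 C) (n2 : t2 ∈ cont a0 C) (m3 : s3 ∈ cont a0 C) (n3 : t3 ∈ cont a0 C)
    (o1 : s1 ≤ t1) (o2 : s2 ≤ t2) (o3 : s3 ≤ t3) (q1 : t1 ≤ s2) (q2 : t2 ≤ s3)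
    (hw : w = (t1 - s1) + (t2 - s2) + (t3 - s3)) (hA : Ach w l A)
    (hl : Le (a0 + s1) (a0 + t1) C + Le (a0 + s2) (a0 + t2) C + Le (a0 + s3) (a0 + t3) C ≤ l)
    (ha : A < Ar (a0 + s1) (a0 + t1) C + Ar (a0 + s2) (a0 + t2) C + Ar (a0 + s3) (a0 + t3) C) :
    False := by
  have hArc := arc_of hm
  have cn : CN C := hArc.1
  have b0 := m1.1.1
  have b1 := n3.1.2
  have pp := pi_pos
  have r0 := piece hc hArc (zero_mem hArc) m1
  have r1 := piece hc hArc n1 m2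
  have r2 := piece hc hArc n2 m3
  have r3 := piece hc hArc n3 (end_mem hArc)
  have c1 := hc.2.2.1 _ _ _ _ _ _ (by linarith) (by linarith) (by linarith) r0 r1
  have c2 := hc.2.2.1 _ _ _ _ _ _ (by linarith) (by linarith) (by linarith) c1 r2
  have c3 := hc.2.2.1 _ _ _ _ _ _ (by linarith) (by linarith) (by linarith) c2 r3
  have c4 := hc.2.2.1 _ _ _ _ _ _ (by linarith) (by linarith) (by linarith) c3 hA
  rw [show s1 - 0 + (s2 - t1) + (s3 - t2) + (π / 3 - t3) + w = π / 3 by rw [hw]; ring] at c4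
  obtain ⟨C', hC', e1, e2⟩ := hc.2.1 a0 _ _ _ c4
  have L1 := Le_split cn (a0 + 0) (a0 + s1) (a0 + t1)
  have L2 := Le_split cn (a0 + 0) (a0 + t1) (a0 + s2)
  have L3 := Le_split cn (a0 + 0) (a0 + s2) (a0 + t2)
  have L4 := Le_split cn (a0 + 0) (a0 + t2) (a0 + s3)
  have L5 := Le_split cn (a0 + 0) (a0 + s3) (a0 + t3)
  have L6 := Le_split cn (a0 + 0) (a0 + t3) (a0 + π / 3)
  have A1 := Ar_split cn (a0 + 0) (a0 + s1) (a0 + t1)
  have A2 := Ar_split cn (a0 + 0) (a0 + t1) (a0 + s2)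
  have A3 := Ar_split cn (a0 + 0) (a0 + s2) (a0 + t2)
  have A4 := Ar_split cn (a0 + 0) (a0 + t2) (a0 + s3)
  have A5 := Ar_split cn (a0 + 0) (a0 + s3) (a0 + t3)
  have A6 := Ar_split cn (a0 + 0) (a0 + t3) (a0 + π / 3)
  have z1 : Le (a0 + 0) (a0 + π / 3) C = Le a0 (a0 + π / 3) C := by rw [add_zero]
  have z2 : Ar (a0 + 0) (a0 + π / 3) C = Ar a0 (a0 + π / 3) C := by rw [add_zero]
  have := hm.2 C' hC' (by linarith)
  linarith

/-- the same for three pairwise non overlapping pieces -/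
lemma unsorted (hc : ach_stmt)
    (hm : MinCl a0 (a0 + π / 3) (fun _ => 1) (u a0) (u (a0 + π / 3)) C)
    {s1 t1 s2 t2 s3 t3 w l A : ℝ} (m1 : s1 ∈ cont a0 C) (n1 : t1 ∈ cont a0 C)
    (m2 : s2 ∈ cont a0 C) (n2 : t2 ∈ cont a0 C) (m3 : s3 ∈ cont a0 C) (n3 : t3 ∈ cont a0 C)
    (o1 : s1 ≤ t1) (o2 : s2 ≤ t2) (o3 : s3 ≤ t3) (q12 : t1 ≤ s2 ∨ t2 ≤ s1)
    (q13 : t1 ≤ s3 ∨ t3 ≤ s1) (q23 : t2 ≤ s3 ∨ t3 ≤ s2)
    (hw : w = (t1 - s1) + (t2 - s2) + (t3 - s3)) (hA : Ach w l A)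
    (hl : Le (a0 + s1) (a0 + t1) C + Le (a0 + s2) (a0 + t2) C + Le (a0 + s3) (a0 + t3) C ≤ l)
    (ha : A < Ar (a0 + s1) (a0 + t1) C + Ar (a0 + s2) (a0 + t2) C + Ar (a0 + s3) (a0 + t3) C) :
    False := by
  rcases q12 with q12 | q12 <;> rcases q13 with q13 | q13 <;> rcases q23 with q23 | q23
  · exact sorted hc hm m1 n1 m2 n2 m3 n3 o1 o2 o3 q12 q23 hw hA hl ha
  · exact sorted hc hm m1 n1 m3 n3 m2 n2 o1 o3 o2 q13 q23 (by linarith) hA (by linarith) (by linarith)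
  · exact sorted hc hm m1 n1 m2 n2 m3 n3 o1 o2 o3 q12 q23 hw hA hl ha
  · exact sorted hc hm m3 n3 m1 n1 m2 n2 o3 o1 o2 q13 q12 (by linarith) hA (by linarith) (by linarith)
  · exact sorted hc hm m2 n2 m1 n1 m3 n3 o2 o1 o3 q12 q13 (by linarith) hA (by linarith) (by linarith)
  · exact sorted hc hm m2 n2 m1 n1 m3 n3 o2 o1 o3 q12 q13 (by linarith) hA (by linarith) (by linarith)
  · exact sorted hc hm m2 n2 m3 n3 m1 n1 o2 o3 o1 q23 q13 (by linarith) hA (by linarith) (by linarith)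
  · exact sorted hc hm m3 n3 m2 n2 m1 n1 o3 o2 o1 q23 q12 (by linarith) hA (by linarith) (by linarith)

lemma gap_val (hg : gen_stmt) (hc : ach_stmt)
    (hm : MinCl a0 (a0 + π / 3) (fun _ => 1) (u a0) (u (a0 + π / 3)) C) {α β : ℝ}
    (hG : Gap (cont a0 C) α β) : Le (a0 + α) (a0 + β) C = 2 * sin ((β - α) / 2) ∧
      Ar (a0 + α) (a0 + β) C = sin (2 * ((β - α) / 2)) / 2 := by
  have h1 := chord (F := h C) (a := a0 + α) (b := a0 + β) (by linarith [hG.1])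
    (by linarith [hG.2.1.1.1, hG.2.2.1.1.2, pi_pos]) (window hg hc hm hG)
  rw [show a0 + β - (a0 + α) = β - α by ring] at h1
  rw [show 2 * ((β - α) / 2) = β - α by ring]
  exact h1

lemma gap_disj {T : Set ℝ} {α β α' β' : ℝ} (h1 : Gap T α β) (h2 : Gap T α' β') (hne : α ≠ α') :
    β ≤ α' ∨ β' ≤ α := by
  rcases lt_or_gt_of_ne hne with h | h
  · left
    by_contra hn
    exact h1.2.2.2 α' ⟨h, not_le.mp hn⟩ h2.2.1
  · right
    by_contra hn
    exact h2.2.2.2 α ⟨h, not_le.mp hn⟩ h1.2.1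

lemma gap_eq {T : Set ℝ} {α β β' : ℝ} (h1 : Gap T α β) (h2 : Gap T α β') : β = β' := by
  rcases lt_trichotomy β β' with h | h | h
  · exact absurd h1.2.2.1 (h2.2.2.2 β ⟨h1.1, h⟩)
  · exact h
  · exact absurd h2.2.2.1 (h1.2.2.2 β' ⟨h2.1, h⟩)

lemma noArc (hg : gen_stmt) (ha : ac_stmt) (hc : ach_stmt)
    (hm : MinCl a0 (a0 + π / 3) (fun _ => 1) (u a0) (u (a0 + π / 3)) C) : NoArc (cont a0 C) := by
  intro α β γ γ' hG hlt hsub
  have hArc := arc_of hm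
  have g1 : γ ∈ cont a0 C := hsub ⟨le_rfl, hlt.le⟩
  have g2 : γ' ∈ cont a0 C := hsub ⟨hlt.le, le_rfl⟩
  have pp := pi_pos
  have b1 := hG.2.1.1.1
  have b2 := hG.2.2.1.1.2
  have b3 := g1.1.1
  have b4 := g2.1.2
  have b5 := hG.1
  have hd : β ≤ γ ∨ γ' ≤ α := by
    by_contra hn
    push Not at hn
    have k1 : max α γ < min β γ' := by
      rw [max_lt_iff, lt_min_iff, lt_min_iff]
      exact ⟨⟨b5, hn.2⟩, hn.1, hlt⟩
    have k2 := le_max_left α γ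
    have k3 := le_max_right α γ
    have k4 := min_le_left β γ'
    have k5 := min_le_right β γ'
    exact hG.2.2.2 ((max α γ + min β γ') / 2) ⟨by linarith, by linarith⟩
      (hsub ⟨by linarith, by linarith⟩)
  have e : EqOn (h C) (fun _ => 1) (Icc (a0 + γ) (a0 + γ')) := fun θ hθ => by
    have := (hsub (a := θ - a0) ⟨by linarith [hθ.1], by linarith [hθ.2]⟩).2
    rwa [add_sub_cancel] at this
  have v1 : Le (a0 + γ) (a0 + γ') C = γ' - γ := by
    unfold Le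
    rw [Ln_congr (by linarith) e, Ln_const]; ring
  have v2 : Ar (a0 + γ) (a0 + γ') C = (γ' - γ) / 2 := by
    unfold Ar
    rw [V_congr (by linarith) e e, V_const]; ring
  obtain ⟨v3, v4⟩ := gap_val hg hc hm hG
  obtain ⟨c', t, b', p1, p2, p3, p4, p5, p6⟩ := ha ((β - α) / 2) ((γ' - γ) / 2) (by linarith)
    (by linarith) (by linarith)
  have r1 := hc.2.2.2.1 c' p1.le (by linarith)
  have r2 := hc.2.2.2.1 t p2.le (by linarith)
  have r3 := hc.2.2.2.2.1 b'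
  have c1 := hc.2.2.1 _ _ _ _ _ _ (by linarith) (by linarith) (by linarith) r1 r2
  have c2 := hc.2.2.1 _ _ _ _ _ _ (by linarith) (by linarith) (by linarith) c1 r3
  have z1 : Le (a0 + π / 3) (a0 + π / 3) C = 0 := by simp [Le, Ln]
  have z2 : Ar (a0 + π / 3) (a0 + π / 3) C = 0 := by simp [Ar]
  exact unsorted hc hm hG.2.1 hG.2.2.1 g1 g2 (end_mem hArc) (end_mem hArc) b5.le hlt.le le_rfl hd
    (Or.inl b2) (Or.inl b4) (by linarith) c2 (by linarith) (by linarith)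

lemma noThree (hg : gen_stmt) (he : ev_stmt) (hc : ach_stmt)
    (hm : MinCl a0 (a0 + π / 3) (fun _ => 1) (u a0) (u (a0 + π / 3)) C) :
    NoThree (cont a0 C) := by
  intro α β α' β' α'' β'' G1 G2 G3 hne hle hlt
  have n13 : α ≠ α'' := by
    rintro rfl
    have := gap_eq G1 G3
    linarith
  have n23 : α' ≠ α'' := by
    rintro rfl
    have := gap_eq G2 G3
    linarith
  have d12 := gap_disj G1 G2 hne
  have d13 := gap_disj G1 G3 n13
  have d23 := gap_disj G2 G3 n23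
  have pp := pi_pos
  have b1 := G1.2.1.1.1
  have b2 := G1.2.2.1.1.2
  have b3 := G2.2.1.1.1
  have b4 := G2.2.2.1.1.2
  have b5 := G3.2.1.1.1
  have b6 := G3.2.2.1.1.2
  have l1 := G1.1
  have l2 := G2.1
  have l3 := G3.1
  have hs : (β - α) / 2 + (β' - α') / 2 + (β'' - α'') / 2 ≤ π / 6 := by
    rcases d12 with d12 | d12 <;> rcases d13 with d13 | d13 <;> rcases d23 with d23 | d23 <;>
      linarith
  obtain ⟨x, y, z, p1, p2, p3, p4, p5, p6⟩ := he _ _ _ (by linarith) (by linarith) (by linarith) hs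
  obtain ⟨v1, w1⟩ := gap_val hg hc hm G1
  obtain ⟨v2, w2⟩ := gap_val hg hc hm G2
  obtain ⟨v3, w3⟩ := gap_val hg hc hm G3
  have r1 := hc.2.2.2.1 x p1.le (by linarith)
  have r2 := hc.2.2.2.1 y p2.le (by linarith)
  have r3 := hc.2.2.2.1 z p3.le (by linarith)
  have c1 := hc.2.2.1 _ _ _ _ _ _ (by linarith) (by linarith) (by linarith) r1 r2
  have c2 := hc.2.2.1 _ _ _ _ _ _ (by linarith) (by linarith) (by linarith) c1 r3
  exact unsorted hc hm G1.2.1 G1.2.2.1 G2.2.1 G2.2.2.1 G3.2.1 G3.2.2.1 l1.le l2.le l3.le d12 d13 d23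
    (by linarith) c2 (by linarith) (by linarith)

end Arcwin

theorem arcwin_proof (hg : gen_stmt) (he : ev_stmt) (ha : ac_stmt) (hc : ach_stmt) :
    arcwin_stmt := fun _ _ hm =>
  ⟨fun _ _ hG => Arcwin.window hg hc hm hG, Arcwin.noArc hg ha hc hm, Arcwin.noThree hg he hc hm⟩

end Pool.Agent.Lib.MP_f2780a_gt
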