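import Pool.Agent.Lib.MP_f2780a_gt.Basic
import Pool.Agent.Lib.MP_f2780a_gt.StmtsB

/-! The area of a smooth strictly convex body. -/

set_option autoImplicit false

noncomputable section

namespace Pool.Agent.Lib.MP_f2780a_gt

open Real MeasureTheory Set

namespace areaS

/-- the area swept by the radius vector -/
lemma sweep {a b a' b' : ℝ → ℝ} (ha : ∀ θ, HasDerivAt a (a' θ) θ) (hb : ∀ θ, HasDerivAt b (b' θ) θ)
    {T : Set ℝ} (hT : MeasurableSet T) (hp : ∀ θ, 0 ≤ a θ * b' θ - a' θ * b θ)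
    (hi : InjOn (fun p : ℝ × ℝ => (p.1 * a p.2, p.1 * b p.2)) (Ioc 0 1 ×ˢ T)) :
    (volume ((fun p : ℝ × ℝ => (p.1 * a p.2, p.1 * b p.2)) '' (Ioc 0 1 ×ˢ T))).toReal
      = (∫ θ in T, (a θ * b' θ - a' θ * b θ)) / 2 := by
  have hd : ∀ p : ℝ × ℝ, HasFDerivAt (fun p : ℝ × ℝ => (p.1 * a p.2, p.1 * b p.2))
      (Matrix.toLin (.finTwoProd ℝ) (.finTwoProd ℝ)
        !![a p.2, p.1 * a' p.2; b p.2, p.1 * b' p.2]).toContinuousLinearMap p := fun p => by
    rw [Matrix.toLin_finTwoProd_toContinuousLinearMap]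
    refine (HasFDerivAt.prodMk (𝕜 := ℝ)
      (hasFDerivAt_fst.mul ((ha p.2).comp_hasFDerivAt p hasFDerivAt_snd))
      (hasFDerivAt_fst.mul ((hb p.2).comp_hasFDerivAt p hasFDerivAt_snd))).congr_fderiv ?_
    ext <;> simp
  have h1 := integral_image_eq_integral_abs_det_fderiv_smul volume (measurableSet_Ioc.prod hT)
    (fun p _ => (hd p).hasFDerivWithinAt) hi (fun _ => (1 : ℝ))
  rw [setIntegral_const, smul_eq_mul, mul_one, Measure.real] at h1
  rw [h1, setIntegral_congr_fun (measurableSet_Ioc.prod hT)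
    (g := fun p : ℝ × ℝ => p.1 * (a p.2 * b' p.2 - a' p.2 * b p.2)) fun p hp' => ?_]
  · rw [Measure.volume_eq_prod, setIntegral_prod_mul (fun t : ℝ => t)
      (fun θ => a θ * b' θ - a' θ * b θ), ← intervalIntegral.integral_of_le zero_le_one,
      integral_id]
    ring
  · simp only [LinearMap.det_toContinuousLinearMap, LinearMap.det_toLin, Matrix.det_fin_two_of,
      smul_eq_mul, mul_one]
    rw [← abs_of_nonneg (mul_nonneg hp'.1.1.le (hp p.2))]
    congr 1
    ring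

/-- every nonzero point of the body lies on a radius -/
lemma radius {k k1 : ℝ → ℝ} (h1 : ∀ θ, HasDerivAt k (k1 θ) θ) (hp : Function.Periodic k (2 * π))
    (h0 : ∀ θ, 0 < k θ) {x : ℂ} (hx : x ∈ Body k) (hne : x ≠ 0) :
    ∃ t ∈ Ioc (0 : ℝ) 1, ∃ θ ∈ Ioc 0 (2 * π), x = t • (k θ • u θ + k1 θ • u' θ) := by
  have hc : Continuous k := continuous_iff_continuousAt.2 fun θ => (h1 θ).continuousAt
  have gp : Function.Periodic (fun θ => lin x θ / k θ) (2 * π) := fun θ => by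
    simp only [lin_add_two_pi, hp θ]
  obtain ⟨θ0, -, hm⟩ := isCompact_Icc.exists_isMaxOn (nonempty_Icc.2 two_pi_pos.le)
    ((continuous_lin x).div hc fun θ => (h0 θ).ne').continuousOn
  obtain ⟨θ, hθ, e⟩ := gp.exists_mem_Ioc two_pi_pos θ0 0
  rw [zero_add] at hθ
  have hle : ∀ φ, lin x φ ≤ lin x θ / k θ * k φ := fun φ => by
    obtain ⟨φ', hφ, e'⟩ := gp.exists_mem_Ioc two_pi_pos φ 0
    rw [zero_add] at hφ
    rw [← div_le_iff₀ (h0 φ), e', ← e]
    exact hm (Ioc_subset_Icc_self hφ)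
  have ht : lin x θ = lin x θ / k θ * k θ := (div_mul_cancel₀ _ (h0 θ).ne').symm
  refine ⟨lin x θ / k θ, ⟨?_, (div_le_one (h0 θ)).2 (hx θ)⟩, θ, hθ, ?_⟩
  · obtain ⟨φ, -, -, hφ⟩ := exists_polar x
    have h2 : lin x φ = ‖x‖ := by rw [hφ, lin_smul, lin_u_self, mul_one, ← hφ]
    exact (mul_pos_iff_of_pos_right (h0 φ)).1 ((norm_pos_iff.2 hne).trans_le (h2 ▸ hle φ))
  · have hd := (h1 θ).const_mul (lin x θ / k θ)
    have h2 := deriv_eq_of_touch hd.differentiableAt ht (Filter.Eventually.of_forall hle)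
    rw [hd.deriv] at h2
    rw [smul_add, smul_smul, smul_smul, ← ht, h2]
    exact eq_frame x θ

end areaS

theorem areaS_proof (hb : body_stmt) : areaS_stmt := by
  intro k k1 k2 h1 h2 h3 h4 hp h0
  obtain ⟨-, -, -, b1, b2⟩ := hb k k1 k2 h1 h2 h3 h4 hp
  have c1 : Continuous k1 := continuous_iff_continuousAt.2 fun θ => (h2 θ).continuousAt
  have p1 : Function.Periodic k1 (2 * π) := fun θ => by
    have h5 := (h1 (θ + 2 * π)).comp_add_const θ (2 * π)
    rw [show (fun x => k (x + 2 * π)) = k from funext hp] at h5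
    exact h5.unique (h1 θ)
  obtain ⟨C, hC⟩ := (p1.isBounded_of_continuous two_pi_pos.ne' c1).exists_norm_le
  have hV := V_ibp (lip_of_deriv h1 fun x => hC _ (mem_range_self x)) h1 h2 h3 0 (2 * π)
  rw [← p1 0, ← hp 0, zero_add, sub_self, sub_zero,
    intervalIntegral.integral_of_le two_pi_pos.le] at hV
  have b3 : ∀ θ φ, lin (k θ • u θ + k1 θ • u' θ) φ ≤ k φ := fun θ φ => by
    have gp : Function.Periodic (fun φ => k φ - lin (k θ • u θ + k1 θ • u' θ) φ) (2 * π) :=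
      fun φ => by simp only [lin_add_two_pi, hp φ]
    obtain ⟨φ', hφ, e⟩ := gp.exists_mem_Ico two_pi_pos φ θ
    rw [← sub_nonneg, e, sub_nonneg]
    rcases hφ.1.eq_or_lt with rfl | hlt
    · exact (b1 _).le
    · refine (b2 θ φ' ?_ ?_).le <;> rw [abs_of_pos (sub_pos.2 hlt)] <;> linarith [hφ.2]
  have ha : ∀ θ, HasDerivAt (fun θ => k θ * cos θ - k1 θ * sin θ) (-((k θ + k2 θ) * sin θ)) θ :=
    fun θ => (((h1 θ).mul (hasDerivAt_cos θ)).sub ((h2 θ).mul (hasDerivAt_sin θ))).congr_deriv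
      (by ring)
  have hb' : ∀ θ, HasDerivAt (fun θ => k θ * sin θ + k1 θ * cos θ) ((k θ + k2 θ) * cos θ) θ :=
    fun θ => (((h1 θ).mul (hasDerivAt_sin θ)).add ((h2 θ).mul (hasDerivAt_cos θ))).congr_deriv
      (by ring)
  have e1 : ∀ θ, (k θ * cos θ - k1 θ * sin θ) * ((k θ + k2 θ) * cos θ)
      - -((k θ + k2 θ) * sin θ) * (k θ * sin θ + k1 θ * cos θ) = k θ * (k θ + k2 θ) := fun θ => by
    linear_combination k θ * (k θ + k2 θ) * cos_sq_add_sin_sq θ
  have e2 : ∀ (t θ : ℝ), Complex.measurableEquivRealProd (t • (k θ • u θ + k1 θ • u' θ))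
      = (t * (k θ * cos θ - k1 θ * sin θ), t * (k θ * sin θ + k1 θ * cos θ)) := fun t θ => by
    simp [Complex.measurableEquivRealProd_apply, sub_eq_add_neg, mul_add]
  have key := areaS.sweep ha hb' (T := Ioc 0 (2 * π)) measurableSet_Ioc
    (fun θ => (e1 θ).symm ▸ (mul_pos (h0 θ) (h4 θ)).le) (by
      have le : ∀ {t t' θ θ' : ℝ}, 0 < t' → t • (k θ • u θ + k1 θ • u' θ)
          = t' • (k θ' • u θ' + k1 θ' • u' θ') → t ≤ t' := fun {t t' θ θ'} ht e => by
        have h5 := congrArg (fun z => lin z θ) e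
        simp only [lin_smul, b1] at h5
        exact le_of_mul_le_mul_right (h5.trans_le (mul_le_mul_of_nonneg_left (b3 θ' θ) ht.le))
          (h0 θ)
      rintro ⟨t, θ⟩ ⟨ht, hθ⟩ ⟨t', θ'⟩ ⟨ht', hθ'⟩ e
      simp only [← e2] at e
      have e := Complex.measurableEquivRealProd.injective e
      obtain rfl : t = t' := le_antisymm (le ht'.1 e) (le ht.1 e.symm)
      have e : k θ • u θ + k1 θ • u' θ = k θ' • u θ' + k1 θ' • u' θ' :=
        smul_right_injective ℂ ht.1.ne' e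
      by_contra hne
      have hne : θ - θ' ≠ 0 := fun h => hne (by rw [sub_eq_zero.1 h])
      have h5 := b2 θ' θ (abs_pos.2 hne) (abs_lt.2 ⟨by linarith [hθ.1, hθ'.2], by
        linarith [hθ.2, hθ'.1]⟩)
      rw [← e, b1] at h5
      exact lt_irrefl _ h5)
  simp only [e1] at key
  rw [hV, ← key, ← Complex.volume_preserving_equiv_real_prod.measure_preimage_equiv, area,
    ← measure_sdiff_null (measure_singleton (0 : ℂ))]
  congr 2
  ext x
  constructor
  · rintro ⟨hx, hne⟩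
    obtain ⟨t, ht, θ, hθ, rfl⟩ := areaS.radius h1 hp h0 hx hne
    exact ⟨(t, θ), ⟨ht, hθ⟩, (e2 t θ).symm⟩
  · rintro ⟨⟨t, θ⟩, ⟨ht, -⟩, e⟩
    simp only [← e2] at e
    obtain rfl := Complex.measurableEquivRealProd.injective e
    refine ⟨fun φ => ?_, fun h => ?_⟩
    · rw [lin_smul]
      exact (mul_le_mul_of_nonneg_left (b3 θ φ) ht.1.le).trans
        (mul_le_of_le_one_left (h0 φ).le ht.2)
    · have h5 := congrArg (fun z => lin z θ) (mem_singleton_iff.1 h)
      simp only [lin_smul, b1, lin_zero] at h5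
      exact (mul_pos ht.1 (h0 θ)).ne' h5

end Pool.Agent.Lib.MP_f2780a_gt
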