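import Pool.Agent.Lib.MP_f2780a_gt.Basic
import Pool.Agent.Lib.MP_f2780a_gt.StmtsB

set_option autoImplicit false

noncomputable section

namespace Pool.Agent.Lib.MP_f2780a_gt

open Real MeasureTheory Set

namespace body

def W (k k1 : ℝ → ℝ) (φ s : ℝ) : ℝ := k s * cos (φ - s) + k1 s * sin (φ - s)

lemma lin_eq (k k1 : ℝ → ℝ) (φ s : ℝ) : lin (k s • u s + k1 s • u' s) φ = W k k1 φ s := by
  rw [lin_add, lin_smul, lin_smul, lin_u, lin_u', W]

lemma W_self (k k1 : ℝ → ℝ) (φ : ℝ) : W k k1 φ φ = k φ := by simp [W]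

variable {k k1 k2 : ℝ → ℝ}

lemma W_deriv (h1 : ∀ θ, HasDerivAt k (k1 θ) θ) (h2 : ∀ θ, HasDerivAt k1 (k2 θ) θ) (φ s : ℝ) :
    HasDerivAt (W k k1 φ) ((k s + k2 s) * sin (φ - s)) s := by
  have a0 : HasDerivAt (fun s : ℝ => φ - s) (-1) s := by
    simpa using (hasDerivAt_id s).const_sub φ
  have a1 := ((h1 s).mul a0.cos).add ((h2 s).mul a0.sin)
  refine HasDerivAt.congr_deriv a1 ?_
  ring

lemma k1_periodic (h1 : ∀ θ, HasDerivAt k (k1 θ) θ) (hp : Function.Periodic k (2 * π)) :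
    Function.Periodic k1 (2 * π) := by
  intro θ
  have a1 : HasDerivAt (fun s => k (s + 2 * π)) (k1 (θ + 2 * π)) θ :=
    HasDerivAt.comp_add_const θ (2 * π) (h1 (θ + 2 * π))
  have a2 : (fun s => k (s + 2 * π)) = k := funext hp
  rw [a2] at a1
  exact a1.unique (h1 θ)

lemma W_periodic (h1 : ∀ θ, HasDerivAt k (k1 θ) θ) (hp : Function.Periodic k (2 * π)) (φ : ℝ) :
    Function.Periodic (W k k1 φ) (2 * π) := by
  intro s
  have e : φ - (s + 2 * π) = φ - s - 2 * π := by ring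
  rw [W, W, hp s, k1_periodic h1 hp s, e, cos_sub_two_pi, sin_sub_two_pi]

lemma W_left (h1 : ∀ θ, HasDerivAt k (k1 θ) θ) (h2 : ∀ θ, HasDerivAt k1 (k2 θ) θ)
    (h3 : ∀ θ, 0 < k θ + k2 θ) {φ s : ℝ} (a : φ - π ≤ s) (b : s < φ) : W k k1 φ s < k φ := by
  have hm : StrictMonoOn (W k k1 φ) (Icc (φ - π) φ) := by
    apply strictMonoOn_of_deriv_pos (convex_Icc _ _)
    · exact fun x _ => (W_deriv h1 h2 φ x).continuousAt.continuousWithinAt
    · intro x hx
      rw [interior_Icc] at hx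
      rw [(W_deriv h1 h2 φ x).deriv]
      exact mul_pos (h3 x) (sin_pos_of_pos_of_lt_pi (by linarith [hx.2]) (by linarith [hx.1]))
  rw [← W_self k k1 φ]
  exact hm ⟨a, b.le⟩ ⟨by linarith [pi_pos], le_rfl⟩ b

lemma W_right (h1 : ∀ θ, HasDerivAt k (k1 θ) θ) (h2 : ∀ θ, HasDerivAt k1 (k2 θ) θ)
    (h3 : ∀ θ, 0 < k θ + k2 θ) {φ s : ℝ} (a : φ < s) (b : s ≤ φ + π) : W k k1 φ s < k φ := by
  have hm : StrictAntiOn (W k k1 φ) (Icc φ (φ + π)) := by
    apply strictAntiOn_of_deriv_neg (convex_Icc _ _)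
    · exact fun x _ => (W_deriv h1 h2 φ x).continuousAt.continuousWithinAt
    · intro x hx
      rw [interior_Icc] at hx
      rw [(W_deriv h1 h2 φ x).deriv]
      exact mul_neg_of_pos_of_neg (h3 x)
        (sin_neg_of_neg_of_neg_pi_lt (by linarith [hx.1]) (by linarith [hx.2]))
  rw [← W_self k k1 φ]
  exact hm ⟨le_rfl, by linarith [pi_pos]⟩ ⟨a.le, b⟩ a

lemma W_lt (h1 : ∀ θ, HasDerivAt k (k1 θ) θ) (h2 : ∀ θ, HasDerivAt k1 (k2 θ) θ)
    (h3 : ∀ θ, 0 < k θ + k2 θ) (hp : Function.Periodic k (2 * π)) {φ s : ℝ} (a : 0 < |φ - s|)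
    (b : |φ - s| < 2 * π) : W k k1 φ s < k φ := by
  rw [abs_lt] at b
  rw [abs_pos] at a
  rcases lt_or_gt_of_ne a with c | c
  · rcases le_or_gt s (φ + π) with d | d
    · exact W_right h1 h2 h3 (by linarith) d
    · rw [← (W_periodic h1 hp φ).sub_eq s]
      exact W_left h1 h2 h3 (by linarith) (by linarith)
  · rcases le_or_gt (φ - π) s with d | d
    · exact W_left h1 h2 h3 d (by linarith)
    · rw [← W_periodic h1 hp φ s]
      exact W_right h1 h2 h3 (by linarith) (by linarith)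

lemma W_le (h1 : ∀ θ, HasDerivAt k (k1 θ) θ) (h2 : ∀ θ, HasDerivAt k1 (k2 θ) θ)
    (h3 : ∀ θ, 0 < k θ + k2 θ) (hp : Function.Periodic k (2 * π)) (φ s : ℝ) :
    W k k1 φ s ≤ k φ := by
  refine forall_of_period (P := fun s => W k k1 φ s ≤ k φ) (φ - π)
    (fun θ => by rw [W_periodic h1 hp φ θ]) (fun θ hθ => ?_) s
  rcases lt_trichotomy θ φ with c | c | c
  · exact (W_left h1 h2 h3 hθ.1 c).le
  · rw [c, W_self]
  · exact (W_right h1 h2 h3 c (by linarith [hθ.2])).le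

lemma compact (k : ℝ → ℝ) : IsCompact (Body k) := by
  apply Metric.isCompact_of_isClosed_isBounded
  · have : Body k = ⋂ θ, {x | lin x θ ≤ k θ} := by
      ext x
      simp [Body]
    rw [this]
    exact isClosed_iInter fun θ => isClosed_le (continuous_lin_left θ) continuous_const
  · rw [isBounded_iff_forall_norm_le]
    refine ⟨|k 0| + |k π| + (|k (π / 2)| + |k (π / 2 + π)|), fun x hx => ?_⟩
    have a1 := hx 0
    have a2 := hx π
    have a3 := hx (π / 2)
    have a4 := hx (π / 2 + π)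
    rw [lin_add_pi] at a4
    simp only [lin_def, cos_zero, sin_zero, cos_pi, sin_pi, cos_pi_div_two, sin_pi_div_two] at *
    have b1 := le_abs_self (k 0)
    have b2 := le_abs_self (k π)
    have b3 := le_abs_self (k (π / 2))
    have b4 := le_abs_self (k (π / 2 + π))
    have c1 := abs_nonneg (k 0)
    have c2 := abs_nonneg (k π)
    have c3 := abs_nonneg (k (π / 2))
    have c4 := abs_nonneg (k (π / 2 + π))
    refine (Complex.norm_le_abs_re_add_abs_im x).trans (add_le_add ?_ ?_)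
    · exact abs_le.2 ⟨by linarith, by linarith⟩
    · exact abs_le.2 ⟨by linarith, by linarith⟩

end body

theorem body_proof : body_stmt := by
  intro k k1 k2 h1 h2 _ h3 hp
  have hm : ∀ s, k s • u s + k1 s • u' s ∈ Body k := fun s φ => by
    rw [body.lin_eq]
    exact body.W_le h1 h2 h3 hp φ s
  have he : ∀ θ, lin (k θ • u θ + k1 θ • u' θ) θ = k θ := fun θ => by
    rw [body.lin_eq, body.W_self]
  refine ⟨⟨body.compact k, ⟨_, hm 0⟩⟩, ?_, ?_, he, fun θ φ a b => ?_⟩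
  · have : Body k = ⋂ θ, {x | lin x θ ≤ k θ} := by
      ext x
      simp [Body]
    rw [this]
    exact convex_iInter fun θ => convex_lin_le θ (k θ)
  · funext θ
    rw [h_eq_of (hm θ) (fun y hy => by rw [he]; exact hy θ), he]
  · rw [body.lin_eq]
    exact body.W_lt h1 h2 h3 hp a b

end Pool.Agent.Lib.MP_f2780a_gt
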