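import Pool.Agent.Lib.MP_f2780a_gt.Basic
import Pool.Agent.Lib.MP_f2780a_gt.StmtsB

/-! Area and perimeter of a figure in terms of its support function. -/

set_option autoImplicit false

noncomputable section

namespace Pool.Agent.Lib.MP_f2780a_gt

open Real MeasureTheory Set Filter Topology

namespace bridge

lemma core (hs : smooth_stmt) (hb : body_stmt) (ha : areaS_stmt) (hp : perimS_stmt)
    (hm : perimMono_stmt) {K : Set ℂ} (hK : IsFigure K) {r : ℝ} (hr : 0 < r)
    (hball : Metric.closedBall (0 : ℂ) r ⊆ K) :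
    area K = Ar 0 (2 * π) K ∧ perimeter K = Le 0 (2 * π) K := by
  have hcn := hK.cn
  obtain ⟨R, -, hR⟩ := hcn.bdd
  have hf : ∀ θ, r ≤ h K θ := fun θ => by
    have h1 : r • u θ ∈ K := hball (by simp [abs_of_pos hr])
    have h2 := lin_le_h hcn h1 θ
    rwa [lin_smul, lin_u, sub_self, cos_zero, mul_one] at h2
  have he : ∀ n : ℕ, (0 : ℝ) < 1 / ((n : ℝ) + 1) := fun n => by positivity
  have he1 : ∀ n : ℕ, 1 / ((n : ℝ) + 1) ≤ 1 := fun n =>
    div_le_one_of_le₀ (by linarith [Nat.cast_nonneg (α := ℝ) n]) (by positivity)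
  choose k k1 k2 d1 d2 c2 pos per bd using fun n : ℕ =>
    hs K (1 / ((n : ℝ) + 1)) hcn (hball (Metric.mem_closedBall_self hr.le)) (he n)
  set l : ℕ → ℝ := fun n => r / (r + 1 / ((n : ℝ) + 1)) with hl
  have l0 : ∀ n, 0 < l n := fun n => div_pos hr (by linarith [he n])
  have kr : ∀ n θ, r ≤ k n θ := fun n θ => (hf θ).trans (bd n θ).1
  have kpos : ∀ n θ, 0 < k n θ := fun n θ => hr.trans_le (kr n θ)
  have d1' : ∀ n θ, HasDerivAt (fun θ => l n * k n θ) (l n * k1 n θ) θ := fun n θ =>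
    (d1 n θ).const_mul _
  have d2' : ∀ n θ, HasDerivAt (fun θ => l n * k1 n θ) (l n * k2 n θ) θ := fun n θ =>
    (d2 n θ).const_mul _
  have c2' : ∀ n, Continuous fun θ => l n * k2 n θ := fun n => continuous_const.mul (c2 n)
  have pos' : ∀ n θ, 0 < l n * k n θ + l n * k2 n θ := fun n θ => by
    rw [← mul_add]
    exact mul_pos (l0 n) (pos n θ)
  have per' : ∀ n, Function.Periodic (fun θ => l n * k n θ) (2 * π) := fun n θ => by
    simp only [per n θ]
  have kpos' : ∀ n θ, 0 < l n * k n θ := fun n θ => mul_pos (l0 n) (kpos n θ)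
  have B := fun n => hb _ _ _ (d1 n) (d2 n) (c2 n) (pos n) (per n)
  have B' := fun n => hb _ _ _ (d1' n) (d2' n) (c2' n) (pos' n) (per' n)
  have sub1 : ∀ n, K ⊆ Body (k n) := fun n x hx θ => (lin_le_h hcn hx θ).trans (bd n θ).1
  have sub2 : ∀ n, Body (fun θ => l n * k n θ) ⊆ K := fun n x hx =>
    mem_of_lin_le_h hcn hK.2.1 fun θ => (hx θ).trans <| by
      have h1 := he n
      show r / (r + 1 / ((n : ℝ) + 1)) * k n θ ≤ h K θ
      rw [div_mul_eq_mul_div, div_le_iff₀ (by linarith)]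
      have h2 := mul_le_mul_of_nonneg_left (bd n θ).2 hr.le
      have h3 := mul_le_mul_of_nonneg_right (hf θ) h1.le
      linarith
  have fig : ∀ n, IsFigure (Body fun θ => l n * k n θ) := fun n =>
    ⟨(B' n).1.1, (B' n).2.1, 0, mem_interior_iff_mem_nhds.2
      (mem_of_superset (Metric.closedBall_mem_nhds 0 (mul_pos (l0 n) hr)) fun x hx θ =>
        (lin_le_norm x θ).trans ((mem_closedBall_zero_iff.1 hx).trans
          (mul_le_mul_of_nonneg_left (kr n θ) (l0 n).le)))⟩
  have bd1 : ∀ n, ∀ x ∈ Body (k n), ‖x‖ ≤ R + 1 := fun n x hx => by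
    obtain ⟨θ, -, -, e⟩ := exists_polar x
    have h1 := hx θ
    rw [e, lin_smul, lin_u, sub_self, cos_zero, mul_one] at h1
    linarith [(bd n θ).2, he1 n, (abs_le.1 (abs_h_le hcn hR θ)).2]
  have bd2 : ∀ n, ∀ x ∈ Body fun θ => l n * k n θ, ‖x‖ ≤ R := fun n x hx => hR x (sub2 n hx)
  have t0 : Tendsto (fun n : ℕ => 1 / ((n : ℝ) + 1)) atTop (𝓝 0) :=
    tendsto_one_div_add_atTop_nhds_zero_nat
  have tk : ∀ θ, Tendsto (fun n => k n θ) atTop (𝓝 (h K θ)) := fun θ => by
    refine tendsto_of_tendsto_of_tendsto_of_le_of_le tendsto_const_nhds ?_ (fun n => (bd n θ).1)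
      fun n => (bd n θ).2
    simpa using t0.const_add (h K θ)
  have tl : Tendsto l atTop (𝓝 1) := by
    have := (tendsto_const_nhds (x := r)).div (t0.const_add r) (by simpa using hr.ne')
    rwa [add_zero, div_self hr.ne'] at this
  have t1 : ∀ θ, Tendsto (fun n => h (Body (k n)) θ) atTop (𝓝 (h K θ)) := fun θ => by
    simp only [fun n => (B n).2.2.1]
    exact tk θ
  have t2 : ∀ θ, Tendsto (fun n => h (Body fun θ => l n * k n θ) θ) atTop (𝓝 (h K θ)) :=
    fun θ => by
      simp only [fun n => (B' n).2.2.1]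
      simpa using tl.mul (tk θ)
  constructor
  · apply le_antisymm
    · refine ge_of_tendsto' (Ar_tendsto hcn (fun n => (B n).1) bd1 t1 0 (2 * π)) fun n => ?_
      rw [Ar, (B n).2.2.1, ← ha _ _ _ (d1 n) (d2 n) (c2 n) (pos n) (per n) (kpos n)]
      exact ENNReal.toReal_mono (B n).1.1.measure_lt_top.ne (measure_mono (sub1 n))
    · refine le_of_tendsto' (Ar_tendsto hcn (fun n => (B' n).1) bd2 t2 0 (2 * π)) fun n => ?_
      rw [Ar, (B' n).2.2.1, ← ha _ _ _ (d1' n) (d2' n) (c2' n) (pos' n) (per' n) (kpos' n)]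
      exact ENNReal.toReal_mono hK.1.measure_lt_top.ne (measure_mono (sub2 n))
  · have up : ∀ n, μH[1] (frontier K) ≤ ENNReal.ofReal (Ln 0 (2 * π) (k n)) := fun n =>
      (hm _ _ hK (B n).1.1 (sub1 n)).trans_eq
        (hp _ _ _ (d1 n) (d2 n) (c2 n) (pos n) (per n) (kpos n))
    apply le_antisymm
    · refine ge_of_tendsto' (Le_tendsto (fun n => (B n).1) bd1 t1 0 (2 * π)) fun n => ?_
      rw [Le, (B n).2.2.1]
      exact ENNReal.toReal_le_of_le_ofReal
        (intervalIntegral.integral_nonneg (by positivity) fun θ _ => (kpos n θ).le) (up n)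
    · refine le_of_tendsto' (Le_tendsto (fun n => (B' n).1) bd2 t2 0 (2 * π)) fun n => ?_
      rw [Le, (B' n).2.2.1]
      refine (ENNReal.ofReal_le_iff_le_toReal
        (ne_top_of_le_ne_top ENNReal.ofReal_ne_top (up 0))).1 ?_
      rw [← hp _ _ _ (d1' n) (d2' n) (c2' n) (pos' n) (per' n) (kpos' n)]
      exact hm _ _ (fig n) hK.1 (sub2 n)

end bridge

theorem bridge_proof (hs : smooth_stmt) (hb : body_stmt) (ha : areaS_stmt) (hp : perimS_stmt)
    (hm : perimMono_stmt) : bridge_stmt := by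
  intro K hK
  obtain ⟨c, hc⟩ := hK.2.2
  obtain ⟨r, hr, hball⟩ := Metric.nhds_basis_closedBall.mem_iff.1 (mem_interior_iff_mem_nhds.1 hc)
  have hb0 : Metric.closedBall (0 : ℂ) r ⊆ tr c K := fun x hx =>
    ⟨x + c, hball (by simpa using hx), add_sub_cancel_right x c⟩
  have e : tr c K = (fun z => z + c) ⁻¹' K := by
    ext z
    exact ⟨fun ⟨x, hx, e⟩ => by simpa [← e] using hx, fun hz => ⟨_, hz, add_sub_cancel_right z c⟩⟩
  have fig : IsFigure (tr c K) :=
    ⟨(hK.cn.tr c).1, e ▸ by simpa only [add_comm] using hK.2.1.translate_preimage_right c, 0,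
      mem_interior_iff_mem_nhds.2 (mem_of_superset (Metric.closedBall_mem_nhds 0 hr) hb0)⟩
  obtain ⟨h1, h2⟩ := bridge.core hs hb ha hp hm fig hr hb0
  have a1 := Ar_tr_period hK.cn c 0
  have a2 := Le_tr_period hK.cn c 0
  rw [zero_add] at a1 a2
  rw [← a1, ← a2, ← h1, ← h2]
  constructor
  · rw [area, area, e, measure_preimage_add_right]
  · have iso : Isometry fun z : ℂ => z - c := Isometry.of_dist_eq fun x y => dist_sub_right x y c
    have e2 : frontier (tr c K) = (fun z => z - c) '' frontier K :=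
      ((Homeomorph.subRight c).image_frontier K).symm
    rw [perimeter, perimeter, e2, iso.hausdorffMeasure_image (Or.inl zero_le_one)]

end Pool.Agent.Lib.MP_f2780a_gt
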