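import Pool.Agent.Lib.MP_f2780a_gt.Basic
import Pool.Agent.Lib.MP_f2780a_gt.StmtsC

/-! The minimisers of the finite dimensional problem are among finitely many candidates. -/

set_option autoImplicit false

noncomputable section

namespace Pool.Agent.Lib.MP_f2780a_gt

open Real MeasureTheory Set

namespace CandP

/-- regular values -/
def reg (n : ℕ) : ℝ := π / (6 * n)

lemma reg_succ (n : ℕ) : reg (n + 1) = π / (6 * (n + 1)) := by simp [reg]

lemma reg_pos {n : ℕ} (hn : 1 ≤ n) : 0 < reg n := by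
  have : (0 : ℝ) < n := by exact_mod_cast hn
  unfold reg
  positivity

lemma reg_anti {n m : ℕ} (hn : 1 ≤ n) (h : n ≤ m) : reg m ≤ reg n := by
  have h1 : (0 : ℝ) < n := by exact_mod_cast hn
  have h2 : (n : ℝ) ≤ m := by exact_mod_cast h
  unfold reg
  exact div_le_div_of_nonneg_left pi_pos.le (by positivity) (by linarith)

lemma reg_le {n : ℕ} (hn : 1 ≤ n) : reg n ≤ π / 6 := by
  have := reg_anti le_rfl hn
  simpa [reg] using this

lemma reg_mem {n : ℕ} (hn : 1 ≤ n) : reg n ∈ Icc 0 (π / 6) := ⟨(reg_pos hn).le, reg_le hn⟩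

lemma lenI_pos {a : ℝ} (h : 0 < a) : lenI a = arcLen a := if_neg h.ne'

lemma arI_pos {a : ℝ} (h : 0 < a) : arI a = arcArea a := if_neg h.ne'

lemma per_eq {n : ℕ} (hn : 1 ≤ n) : per n = 3 * lenI (reg n) := by
  have h1 : (0 : ℝ) < n := by exact_mod_cast hn
  have pp := pi_pos
  have e1 : nn (reg n) = n := by
    have : π / 6 / reg n = n := by unfold reg; field_simp
    rw [nn, this, Nat.floor_natCast]
  have e2 : rr (reg n) = 0 := by
    rw [rr, e1]; unfold reg; field_simp; ring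
  rw [lenI_pos (reg_pos hn), arcLen, e1, e2, sin_zero, per]
  unfold reg
  ring

lemma bracket {a : ℝ} (h0 : 0 < a) (h1 : a ≤ π / 6) :
    1 ≤ nn a ∧ reg (nn a + 1) < a ∧ a ≤ reg (nn a) := by
  have k1 : 1 ≤ nn a := by
    apply Nat.le_floor
    rw [Nat.cast_one, le_div_iff₀ h0]
    linarith
  have k2 : π / 6 / a < nn a + 1 := Nat.lt_floor_add_one _
  have k3 : (nn a : ℝ) ≤ π / 6 / a := Nat.floor_le (by have := pi_pos; positivity)
  have k4 : (0 : ℝ) < nn a := by exact_mod_cast k1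
  rw [div_lt_iff₀ h0] at k2
  rw [le_div_iff₀ h0] at k3
  refine ⟨k1, ?_, ?_⟩
  · rw [reg_succ, div_lt_iff₀ (by positivity)]
    linarith
  · rw [reg, le_div_iff₀ (by positivity)]
    linarith

lemma cmp (hs : slope_stmt) {a b : Fin 3 → ℝ} (ha : ∀ i, a i ∈ Icc 0 (π / 6))
    (hb : ∀ i, b i ∈ Icc 0 (π / 6)) (h : ∀ i, a i ≤ b i)
    (e : ∑ i, lenI (a i) ≤ ∑ i, lenI (b i)) : a = b := by
  have h1 : ∀ i, lenI (b i) ≤ lenI (a i) := fun i => hs.1.antitoneOn (ha i) (hb i) (h i)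
  have h2 := (Finset.sum_eq_sum_iff_of_le (s := Finset.univ) fun i _ => h1 i).1
    (le_antisymm (Finset.sum_le_sum fun i _ => h1 i) e)
  funext i
  exact hs.1.injOn (ha i) (hb i) (h2 i (Finset.mem_univ i)).symm

lemma sum_upd (f : ℝ → ℝ) (a : Fin 3 → ℝ) {i j : Fin 3} (h : i ≠ j) (x y : ℝ) :
    ∑ k, f (Function.update (Function.update a i x) j y k) =
      ∑ k, f (a k) - f (a i) - f (a j) + f x + f y := by
  fin_cases i <;> fin_cases j <;> simp [Fin.sum_univ_three] at h ⊢ <;> ring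

lemma cand_bd {n : ℕ} {l : ℝ} (hn : 1 ≤ n) {a : Fin 3 → ℝ} (ha : a ∈ Cand n l) (i : Fin 3) :
    reg (n + 1) ≤ a i ∧ a i ≤ reg n := by
  obtain ⟨⟨t, ht, h⟩, -⟩ := ha
  have h1 := reg_anti hn (Nat.le_succ n)
  rw [← reg_succ] at ht h
  rcases h i with e | e | e <;> rw [e]
  · exact ⟨h1, le_rfl⟩
  · exact ⟨le_rfl, h1⟩
  · exact ht

lemma cand_par {n : ℕ} {l : ℝ} (hn : 1 ≤ n) : Cand n l ⊆ Par l := fun _ ha =>
  ⟨fun i => ⟨(reg_pos (by omega)).trans_le (cand_bd hn ha i).1,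
    (cand_bd hn ha i).2.trans (reg_le hn)⟩, ha.2⟩

lemma par_parI {l : ℝ} {a : Fin 3 → ℝ} (ha : a ∈ Par l) : a ∈ ParI l ∧ valI a = val a := by
  refine ⟨⟨fun i => ⟨(ha.1 i).1.le, (ha.1 i).2⟩, ?_⟩, ?_⟩
  · rw [← ha.2]
    exact Finset.sum_congr rfl fun i _ => lenI_pos (ha.1 i).1
  · unfold valI val
    rw [Finset.sum_congr rfl fun i _ => arI_pos (ha.1 i).1]

lemma cand_fin (hs : slope_stmt) {n : ℕ} {l : ℝ} (hn : 1 ≤ n) : (Cand n l).Finite := by
  let F : (Fin 3 → Fin 3) → ℝ → Fin 3 → ℝ := fun c t i =>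
    if c i = 0 then π / (6 * n) else if c i = 1 then π / (6 * (n + 1)) else t
  have hF : ∀ c t t', t ≤ t' → ∀ i, F c t i ≤ F c t' i := fun c t t' h i => by
    simp only [F]
    split_ifs
    · exact le_rfl
    · exact le_rfl
    · exact h
  have sub : ∀ c, ({a | a ∈ Cand n l ∧ ∃ t, a = F c t} : Set (Fin 3 → ℝ)).Subsingleton := by
    rintro c a ⟨ha, t, e⟩ b ⟨hb, t', e'⟩
    have pa := (par_parI (cand_par hn ha)).1
    have pb := (par_parI (cand_par hn hb)).1
    rcases le_total t t' with h | h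
    · exact cmp hs pa.1 pb.1 (fun i => by rw [e, e']; exact hF c t t' h i) (by rw [pa.2, pb.2])
    · exact (cmp hs pb.1 pa.1 (fun i => by rw [e, e']; exact hF c t' t h i)
        (by rw [pa.2, pb.2])).symm
  refine (Set.finite_iUnion fun c => (sub c).finite).subset fun a ha => ?_
  obtain ⟨t, -, h⟩ := ha.1
  have : ∀ i, ∃ k : Fin 3, a i =
      if k = 0 then π / (6 * n) else if k = 1 then π / (6 * (n + 1)) else t := fun i => by
    rcases h i with e | e | e
    · exact ⟨0, by simpa using e⟩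
    · exact ⟨1, by simpa using e⟩
    · exact ⟨2, by simpa using e⟩
  choose c hc using this
  exact mem_iUnion.2 ⟨c, ha, t, funext hc⟩

lemma not_better {l μ : ℝ} (hf : ∀ l' a, l ≤ l' → a ∈ ParI l' → μ + sig * (l' - l) ≤ valI a)
    {a : Fin 3 → ℝ} (ha : a ∈ ParI l) (hp : ∀ i, 0 < a i) (e : valI a = μ) {i j : Fin 3}
    (h : i ≠ j) : ¬Better (a i) (a j) := by
  rintro ⟨x, y, x0, x1, y0, y1, hl, hA⟩
  have s1 := sum_upd lenI a h x y
  have s2 := sum_upd arI a h x y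
  rw [lenI_pos (hp i), lenI_pos (hp j), lenI_pos x0, lenI_pos y0, ha.2] at s1
  rw [arI_pos (hp i), arI_pos (hp j), arI_pos x0, arI_pos y0] at s2
  have hm : ∀ k, Function.update (Function.update a i x) j y k ∈ Icc 0 (π / 6) := fun k => by
    by_cases k1 : k = j
    · rw [k1, Function.update_self]; exact ⟨y0.le, y1⟩
    · rw [Function.update_of_ne k1]
      by_cases k2 : k = i
      · rw [k2, Function.update_self]; exact ⟨x0.le, x1⟩
      · rw [Function.update_of_ne k2]; exact ha.1 k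
  have h1 := hf _ _ (by rw [s1]; linarith) ⟨hm, rfl⟩
  have h2 : 0 ≤ sig * (∑ k, lenI (Function.update (Function.update a i x) j y k) - l) :=
    mul_nonneg (by unfold sig; positivity) (by rw [s1]; linarith)
  unfold valI at h1 e
  linarith

lemma sum_const {n : ℕ} (hn : 1 ≤ n) : ∑ _i : Fin 3, lenI (reg n) = per n := by
  rw [per_eq hn, Fin.sum_univ_three]; ring

lemma min_cand (hs : slope_stmt) (h1 : sep_stmt) (h2 : cong_stmt) {n : ℕ} {l : ℝ} (hn : 1 ≤ n)
    (l1 : per n ≤ l) (l2 : l ≤ per (n + 1)) {a : Fin 3 → ℝ} (ha : a ∈ ParI l) (hp : ∀ i, 0 < a i)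
    (nb : ∀ i j, i ≠ j → ¬Better (a i) (a j)) : a ∈ Cand n l := by
  obtain ⟨i0, hi⟩ := Finite.exists_max a
  obtain ⟨m1, m2, m3⟩ := bracket (hp i0) (ha.1 i0).2
  set m := nn (a i0)
  have hsum : ∑ i, arcLen (a i) = l := by
    rw [← ha.2]
    exact Finset.sum_congr rfl fun i _ => (lenI_pos (hp i)).symm
  have up : ∀ j, a j ≤ reg m := fun j => (hi j).trans m3
  have lo : ∀ j, reg (m + 1) ≤ a j := fun j => by
    by_contra hn
    have k := not_le.1 hn
    exact nb i0 j (fun e => by rw [e] at m2; linarith)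
      (h1 _ _ (m + 1) (by omega) (hp j) k m2 (ha.1 i0).2)
  have hr := reg_anti hn (Nat.le_succ n)
  rcases lt_trichotomy m n with hm | hm | hm
  · have e := cmp hs (a := fun _ => reg n) (fun _ => reg_mem hn) ha.1
      (fun j => (reg_anti (by omega) hm).trans (lo j)) (by rw [sum_const hn, ha.2]; exact l1)
    refine ⟨⟨reg n, by rw [← reg_succ]; exact ⟨hr, le_rfl⟩, fun i => Or.inl ?_⟩, hsum⟩
    rw [← e]; rfl
  · rw [hm] at up lo
    have eq : ∀ i j, reg (n + 1) < a i → a j < reg n → ¬a i < a j := fun i j k1 k2 k3 =>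
      nb j i (fun e => by rw [e] at k3; exact lt_irrefl _ k3)
        (h2 _ _ n hn (by rw [← reg_succ]; exact k1) k3 k2)
    refine ⟨?_, hsum⟩
    rw [← reg_succ]
    by_cases hk : ∃ k, reg (n + 1) < a k ∧ a k < reg n
    · obtain ⟨k, k1, k2⟩ := hk
      refine ⟨a k, ⟨k1.le, k2.le⟩, fun i => ?_⟩
      rcases (up i).eq_or_lt with e | e
      · exact Or.inl e
      rcases (lo i).eq_or_lt with e' | e'
      · exact Or.inr (Or.inl e'.symm)
      exact Or.inr (Or.inr (le_antisymm (not_lt.1 (eq k i k1 e)) (not_lt.1 (eq i k e' k2))))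
    · refine ⟨reg n, ⟨hr, le_rfl⟩, fun i => ?_⟩
      rcases (up i).eq_or_lt with e | e
      · exact Or.inl e
      rcases (lo i).eq_or_lt with e' | e'
      · exact Or.inr (Or.inl e'.symm)
      exact absurd ⟨i, e', e⟩ hk
  · have e := cmp hs (b := fun _ => reg (n + 1)) ha.1 (fun _ => reg_mem (by omega))
      (fun j => (up j).trans (reg_anti (by omega) hm))
      (by rw [sum_const (by omega), ha.2]; exact l2)
    refine ⟨⟨reg n, by rw [← reg_succ]; exact ⟨hr, le_rfl⟩, fun i => Or.inr (Or.inl ?_)⟩, hsum⟩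
    rw [e, ← reg_succ]

lemma per_bd (hs : slope_stmt) {n : ℕ} (hn : 1 ≤ n) : 3 ≤ per n ∧ per n < π := by
  have pp := pi_pos
  have h1 := hs.1.antitoneOn (reg_mem hn) ⟨by positivity, le_rfl⟩ (reg_le hn)
  have h2 := hs.1 ⟨le_rfl, by positivity⟩ (reg_mem hn) (reg_pos hn)
  have h3 : lenI 0 = π / 3 := if_pos rfl
  rw [hs.2.1] at h1
  rw [per_eq hn]
  constructor <;> linarith

end CandP

open CandP in
theorem cand_proof (hs : slope_stmt) (hf : fin_stmt) (h1 : sep_stmt) (h2 : cong_stmt) :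
    cand_stmt := by
  refine ⟨fun l l1 l2 => ?_, fun n hn => per_bd hs hn, fun n l hn l1 l2 => ?_⟩
  · obtain ⟨a, ha, e⟩ := hs.2.2.1 (l / 3) ⟨by linarith, by linarith⟩
    have a0 : 0 < a := lt_of_le_of_ne ha.1 fun h0 => by
      have h3 : lenI 0 = π / 3 := if_pos rfl
      rw [← h0, h3] at e
      linarith
    obtain ⟨m1, m2, m3⟩ := bracket a0 ha.2
    have k1 := hs.1.antitoneOn ha (reg_mem m1) m3
    have k2 := hs.1 (reg_mem (n := nn a + 1) (by omega)) ha m2
    refine ⟨nn a, m1, ?_, ?_⟩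
    · rw [per_eq m1]; linarith
    · rw [per_eq (by omega)]; linarith
  have b1 := (per_bd hs hn).1
  have b2 := (per_bd hs (n := n + 1) (by omega)).2
  obtain ⟨μ, hμ, f2, f3, -⟩ := hf l ⟨by linarith, by linarith⟩
  have key : ∀ a ∈ ParI l, valI a = μ → a ∈ Cand n l := fun a ha e =>
    min_cand hs h1 h2 hn l1 l2 ha (f3 (by linarith) a ha e)
      fun _ _ h => not_better f2 ha (f3 (by linarith) a ha e) e h
  refine ⟨cand_fin hs hn, cand_par hn, μ, hμ, ⟨?_, ?_⟩, key⟩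
  · obtain ⟨a, ha, e⟩ := hμ.1
    exact ⟨a, key a ha e, (par_parI (cand_par hn (key a ha e))).2.symm.trans e⟩
  · rintro _ ⟨a, ha, rfl⟩
    obtain ⟨p1, p2⟩ := par_parI (cand_par hn ha)
    rw [← p2]
    exact hμ.2 ⟨a, p1, rfl⟩

end Pool.Agent.Lib.MP_f2780a_gt
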