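import Pool.Agent.Lib.MP_f2780a_gt.Basic
import Pool.Agent.Lib.MP_f2780a_gt.StmtsB

/-! Caps over a chord of the unit circle. -/

set_option autoImplicit false

noncomputable section

namespace Pool.Agent.Lib.MP_f2780a_gt

open Real MeasureTheory Set

theorem capb_proof (hm : mono_stmt) : capb_stmt := by
  intro a b C hab hba hC
  rcases hab.eq_or_lt with rfl | hlt
  · simp [Le, Ar]
  obtain ⟨e, rfl⟩ : ∃ e, b = a + 2 * e := ⟨(b - a) / 2, by ring⟩
  have hpi := pi_pos
  have e0 : 0 < e := by linarith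
  have e1 : e ≤ π / 6 := by linarith
  have hs : 0 < sin e := sin_pos_of_pos_of_lt_pi e0 (by linarith)
  have hc : 1 / 2 ≤ cos e := by
    rw [← cos_pi_div_three]
    exact cos_le_cos_of_nonneg_of_le_pi e0.le (by linarith) (by linarith)
  have hCN := hC.1
  have hf := lip_h hCN
  let g : ℝ → ℝ := fun θ => max (lin (u a) θ) (lin (u (a + 2 * e)) θ)
  have hg : Lip g := (lip_lin _).max (lip_lin _)
  let φ : ℝ → ℝ := fun θ => h C θ - g θ
  have hφ : Lip φ := hf.sub hg
  have gl : EqOn g (lin (u a)) (Icc a (a + e)) := fun θ hθ => max_eq_left (by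
    rw [lin_u, lin_u, ← cos_neg]
    exact cos_le_cos_of_nonneg_of_le_pi (by linarith [hθ.1]) (by linarith [hθ.1]) (by linarith [hθ.2]))
  have gr : EqOn g (lin (u (a + 2 * e))) (Icc (a + e) (a + 2 * e)) := fun θ hθ => max_eq_right (by
    rw [lin_u, lin_u, ← cos_neg (θ - (a + 2 * e))]
    exact cos_le_cos_of_nonneg_of_le_pi (by linarith [hθ.2]) (by linarith [hθ.2]) (by linarith [hθ.1]))
  have p0 : ∀ θ, 0 ≤ φ θ := fun θ =>
    sub_nonneg.2 (max_le (lin_le_h hCN hC.2.1 θ) (lin_le_h hCN hC.2.2.1 θ))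
  have fa : h C a = 1 := hC.left hab
  have fb : h C (a + 2 * e) = 1 := hC.right hab
  have pa : φ a = 0 := by
    simp only [φ]
    rw [fa, gl ⟨le_rfl, by linarith⟩, lin_u_self, sub_self]
  have pb : φ (a + 2 * e) = 0 := by
    simp only [φ]
    rw [fb, gr ⟨by linarith, le_rfl⟩, lin_u_self, sub_self]
  obtain ⟨c1, c2⟩ := chord (F := g) hab (by linarith) fun θ _ => by simp only [g, lin_u]
  have v1 := hm C a (a + 2 * e) φ hCN hab hφ (fun θ _ => p0 θ) (Or.inl ⟨pa, pb⟩)
  have v2 : V a (a + 2 * e) φ g = φ (a + e) * sin e := by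
    rw [← V_split hφ hg a (a + e), V_congr (by linarith) (fun _ _ => rfl) gl,
      V_congr (by linarith) (fun _ _ => rfl) gr, V_lin hφ, V_lin hφ, pa, pb, lin'_u, lin'_u, lin'_u,
      lin'_u, add_sub_cancel_left, show a + e - (a + 2 * e) = -e by ring, sin_neg]
    ring
  have v3 := V_sub hf hg hf a (a + 2 * e)
  have v4 := V_sub hf hg hg a (a + 2 * e)
  rw [V_symm _ _ (h C) g] at v4
  have l1 := Ln_sub hf.continuous hg.continuous a (a + 2 * e)
  have l0 := Ln_mono (Lip.const 0).continuous hφ.continuous hab fun θ _ => p0 θ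
  rw [Ln_const] at l0
  have l2 : Ln a (a + e) (fun θ => sin e * φ θ) ≤
      Ln a (a + e) fun θ => φ (a + e) * lin (u' a) θ := by
    refine Ln_mono (hφ.const_mul _).continuous ((lip_lin _).const_mul _).continuous (by linarith)
      fun θ hθ => ?_
    obtain ⟨x, hx, ex⟩ := h_att hCN θ
    have k := sinus (x - u a) a θ (a + e)
    have k1 := lin_le_h hCN hx a
    have k2 := lin_le_h hCN hx (a + e)
    have k3 := sin_nonneg_of_nonneg_of_le_pi (x := a + e - θ) (by linarith [hθ.2]) (by linarith [hθ.1])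
    have k4 := sin_nonneg_of_nonneg_of_le_pi (x := θ - a) (by linarith [hθ.1]) (by linarith [hθ.2])
    simp only [φ]
    rw [gl hθ, gl ⟨by linarith, le_rfl⟩, lin_u', ← ex]
    rw [add_sub_cancel_left, lin_sub, lin_sub, lin_sub, lin_u_self] at k
    nlinarith [mul_le_mul_of_nonneg_left k1 k3, mul_le_mul_of_nonneg_left k2 k4]
  have l3 : Ln (a + e) (a + 2 * e) (fun θ => sin e * φ θ) ≤
      Ln (a + e) (a + 2 * e) fun θ => -φ (a + e) * lin (u' (a + 2 * e)) θ := by
    refine Ln_mono (hφ.const_mul _).continuous ((lip_lin _).const_mul _).continuous (by linarith)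
      fun θ hθ => ?_
    obtain ⟨x, hx, ex⟩ := h_att hCN θ
    have k := sinus (x - u (a + 2 * e)) (a + e) θ (a + 2 * e)
    have k1 := lin_le_h hCN hx (a + 2 * e)
    have k2 := lin_le_h hCN hx (a + e)
    have k3 := sin_nonneg_of_nonneg_of_le_pi (x := a + 2 * e - θ) (by linarith [hθ.2])
      (by linarith [hθ.1])
    have k4 := sin_nonneg_of_nonneg_of_le_pi (x := θ - (a + e)) (by linarith [hθ.1])
      (by linarith [hθ.2])
    simp only [φ]
    rw [gr hθ, gr ⟨le_rfl, by linarith⟩, lin_u', ← ex, ← neg_sub (a + 2 * e) θ, sin_neg]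
    rw [show a + 2 * e - (a + e) = e by ring, lin_sub, lin_sub, lin_sub, lin_u_self] at k
    nlinarith [mul_le_mul_of_nonneg_left k1 k4, mul_le_mul_of_nonneg_left k2 k3]
  rw [Ln_const_mul, Ln_const_mul, Ln_lin, lin'_u', lin'_u', sub_self, cos_zero] at l2
  rw [Ln_const_mul, Ln_const_mul, Ln_lin, lin'_u', lin'_u', sub_self, cos_zero,
    show a + e - (a + 2 * e) = -e by ring, cos_neg] at l3
  rw [add_sub_cancel_left] at l2
  have l4 := Ln_split hφ.continuous a (a + e) (a + 2 * e)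
  have l5 : 3 / 4 * Ln a (a + 2 * e) φ ≤ φ (a + e) * sin e := by
    refine le_of_mul_le_mul_left ?_ hs
    have k := mul_nonneg (mul_nonneg (p0 (a + e)) (sub_nonneg.2 (cos_le_one e))) (sub_nonneg.2 hc)
    rw [← l4]
    nlinarith [sin_sq_add_cos_sq e, p0 (a + e)]
  unfold Le Ar
  constructor <;> linarith

end Pool.Agent.Lib.MP_f2780a_gt
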