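import Pool.Agent.Lib.MP_f2780a_gt.Basic
import Pool.Agent.Lib.MP_f2780a_gt.StmtsC

/-! Two different arcs inside one piece can be improved. -/

set_option autoImplicit false

noncomputable section

namespace Pool.Agent.Lib.MP_f2780a_gt

open Real MeasureTheory Set Filter Topology

namespace Cong

lemma first {F : ℝ → ℝ} {c : ℝ} (h : HasDerivAt F c 0) (hc : 0 < c) :
    ∀ᶠ t in 𝓝[>] (0 : ℝ), F 0 < F t := by
  have h1 := (hasDerivAt_iff_tendsto_slope.1 h).eventually (lt_mem_nhds hc)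
  have h2 : ∀ᶠ t in 𝓝[>] (0 : ℝ), 0 < slope F 0 t :=
    h1.filter_mono (nhdsWithin_mono _ fun t ht => ne_of_gt ht)
  filter_upwards [h2, self_mem_nhdsWithin] with t ht ht0
  rw [slope_def_field, sub_zero] at ht
  exact sub_pos.1 ((div_pos_iff_of_pos_right ht0).1 ht)

lemma second {F F' : ℝ → ℝ} {c : ℝ} (h : ∀ t, HasDerivAt F (F' t) t) (h0 : F' 0 = 0)
    (h' : HasDerivAt F' c 0) (hc : 0 < c) : ∀ᶠ t in 𝓝[>] (0 : ℝ), F 0 < F t := by
  obtain ⟨d, hd, h1⟩ := mem_nhdsGT_iff_exists_Ioo_subset.1 (first h' hc)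
  filter_upwards [Ioo_mem_nhdsGT hd] with t ht
  obtain ⟨s, hs, e⟩ := exists_hasDerivAt_eq_slope F F' ht.1
    (fun t _ => (h t).continuousAt.continuousWithinAt) fun t _ => h t
  have h2 : F' 0 < F' s := h1 ⟨hs.1, hs.2.trans ht.2⟩
  rw [h0, e, sub_zero] at h2
  exact sub_pos.1 ((div_pos_iff_of_pos_right ht.1).1 h2)

lemma finish {L A f g : ℝ → ℝ} {U : Set ℝ} (hU : IsOpen U) (hf : Continuous f) (hg : Continuous g)
    (h1 : f 0 ∈ U) (h2 : g 0 ∈ U)
    (hL : ∀ᶠ t in 𝓝[>] (0 : ℝ), L (f 0) + L (g 0) < L (f t) + L (g t))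
    (hA : ∀ᶠ t in 𝓝[>] (0 : ℝ), -(A (f 0) + A (g 0)) < -(A (f t) + A (g t))) :
    ∃ x ∈ U, ∃ y ∈ U, L (f 0) + L (g 0) < L x + L y ∧ A x + A y < A (f 0) + A (g 0) := by
  have k1 : ∀ᶠ t in 𝓝[>] (0 : ℝ), f t ∈ U :=
    (hf.continuousAt.eventually (hU.mem_nhds h1)).filter_mono nhdsWithin_le_nhds
  have k2 : ∀ᶠ t in 𝓝[>] (0 : ℝ), g t ∈ U :=
    (hg.continuousAt.eventually (hU.mem_nhds h2)).filter_mono nhdsWithin_le_nhds
  obtain ⟨t, a, b, c, d⟩ := (k1.and (k2.and (hL.and hA))).exists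
  exact ⟨_, a, _, b, c, by linarith⟩

lemma move {L A D σ : ℝ → ℝ} (hL : ∀ r, HasDerivAt L (D r) r)
    (hA : ∀ r, HasDerivAt A (σ r * D r) r) {r1 r2 d1 d2 s1 s2 : ℝ} (hD1 : HasDerivAt D d1 r1)
    (hD2 : HasDerivAt D d2 r2) (hs1 : HasDerivAt σ s1 r1) (hs2 : HasDerivAt σ s2 r2)
    (p1 : D r1 ≠ 0) (p2 : D r2 ≠ 0) (hσ : 0 < σ r1)
    (key : σ r1 = σ r2 → D r1 * D r2 * (D r2 * s1 + D r1 * s2) < 0) {U : Set ℝ} (hU : IsOpen U)
    (h1 : r1 ∈ U) (h2 : r2 ∈ U) :
    ∃ x ∈ U, ∃ y ∈ U, L r1 + L r2 < L x + L y ∧ A x + A y < A r1 + A r2 := by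
  by_cases he : σ r1 = σ r2
  · have hk := key he
    set N := D r1 * D r2 * (D r2 * s1 + D r1 * s2) with hN
    set κ := (-N / (2 * σ r1) - D r2 ^ 2 * d1 - D r1 ^ 2 * d2) / (2 * D r2) with hκ
    let f : ℝ → ℝ := fun t => r1 - D r2 * t
    let g : ℝ → ℝ := fun t => r2 + D r1 * t + κ * t ^ 2
    have f0 : f 0 = r1 := by simp [f]
    have g0 : g 0 = r2 := by simp [g]
    have hf : ∀ t, HasDerivAt f (-D r2) t := fun t =>
      (((hasDerivAt_id t).const_mul (D r2)).const_sub r1).congr_deriv (by ring)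
    have hg : ∀ t, HasDerivAt g (D r1 + 2 * κ * t) t := fun t =>
      ((((hasDerivAt_id t).const_mul (D r1)).const_add r2).add
        ((hasDerivAt_pow 2 t).const_mul κ)).congr_deriv (by simp; ring)
    have hg' : HasDerivAt (fun t => D r1 + 2 * κ * t) (2 * κ) 0 :=
      (((hasDerivAt_id 0).const_mul (2 * κ)).const_add (D r1)).congr_deriv (by ring)
    have a1 : HasDerivAt (fun t => D (f t)) (d1 * -D r2) 0 := (f0 ▸ hD1).comp 0 (hf 0)
    have a2 : HasDerivAt (fun t => D (g t)) (d2 * (D r1 + 2 * κ * 0)) 0 := (g0 ▸ hD2).comp 0 (hg 0)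
    have b1 : HasDerivAt (fun t => σ (f t)) (s1 * -D r2) 0 := (f0 ▸ hs1).comp 0 (hf 0)
    have b2 : HasDerivAt (fun t => σ (g t)) (s2 * (D r1 + 2 * κ * 0)) 0 := (g0 ▸ hs2).comp 0 (hg 0)
    have hE : D r2 ^ 2 * d1 + D r1 ^ 2 * d2 + 2 * κ * D r2 = -N / (2 * σ r1) := by
      rw [hκ]
      field_simp
      ring
    have hE' : σ r1 * (-N / (2 * σ r1)) = -N / 2 := by field_simp
    have hE0 : 0 < -N / (2 * σ r1) := div_pos (by linarith) (by linarith)
    rw [← f0, ← g0]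
    refine finish hU (continuous_iff_continuousAt.2 fun t => (hf t).continuousAt)
      (continuous_iff_continuousAt.2 fun t => (hg t).continuousAt) (f0 ▸ h1) (g0 ▸ h2) ?_ ?_
    · refine second (F := fun t => L (f t) + L (g t))
        (fun t => ((hL _).comp t (hf t)).add ((hL _).comp t (hg t))) ?_
        ((a1.mul_const _).add (a2.mul hg')) ?_
      · simp only [f0, g0]
        ring
      · simp only [g0]
        linarith
    · refine second (F := fun t => -(A (f t) + A (g t)))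
        (fun t => (((hA _).comp t (hf t)).add ((hA _).comp t (hg t))).neg) ?_
        (((b1.mul a1).mul_const _).add ((b2.mul a2).mul hg')).neg ?_
      · simp only [f0, g0, he]
        ring
      · simp only [f0, g0, Pi.mul_apply, ← he]
        rw [← hE] at hE'
        linarith
  · have hs : 0 < (σ r1 - σ r2) ^ 2 := by positivity [sub_ne_zero.2 he]
    let f : ℝ → ℝ := fun t => r1 + -((σ r1 - σ r2) * (1 + σ r2)) / D r1 * t
    let g : ℝ → ℝ := fun t => r2 + (σ r1 - σ r2) * (1 + σ r1) / D r2 * t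
    have f0 : f 0 = r1 := by simp [f]
    have g0 : g 0 = r2 := by simp [g]
    have hf : ∀ t, HasDerivAt f (-((σ r1 - σ r2) * (1 + σ r2)) / D r1) t := fun t =>
      (((hasDerivAt_id t).const_mul _).const_add r1).congr_deriv (mul_one _)
    have hg : ∀ t, HasDerivAt g ((σ r1 - σ r2) * (1 + σ r1) / D r2) t := fun t =>
      (((hasDerivAt_id t).const_mul _).const_add r2).congr_deriv (mul_one _)
    rw [← f0, ← g0]
    refine finish hU (continuous_iff_continuousAt.2 fun t => (hf t).continuousAt)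
      (continuous_iff_continuousAt.2 fun t => (hg t).continuousAt) (f0 ▸ h1) (g0 ▸ h2) ?_ ?_
    · refine first (F := fun t => L (f t) + L (g t))
        (((hL _).comp 0 (hf 0)).add ((hL _).comp 0 (hg 0))) ?_
      rw [f0, g0, mul_div_cancel₀ _ p1, mul_div_cancel₀ _ p2]
      linarith
    · refine first (F := fun t => -(A (f t) + A (g t)))
        (((hA _).comp 0 (hf 0)).add ((hA _).comp 0 (hg 0))).neg ?_
      rw [f0, g0, mul_assoc, mul_assoc (σ r2), mul_div_cancel₀ _ p1, mul_div_cancel₀ _ p2]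
      linarith

lemma sin_mul_le {e : ℝ} (he : 0 ≤ sin e) (n : ℕ) : |sin (n * e)| ≤ n * sin e := by
  induction n with
  | zero => simp
  | succ n ih =>
    rw [Nat.cast_succ, add_mul, one_mul, sin_add, add_mul, one_mul]
    refine (abs_add_le _ _).trans (add_le_add (le_trans ?_ ih) ?_)
    · rw [abs_mul]
      exact mul_le_of_le_one_right (abs_nonneg _) (abs_cos_le_one _)
    · rw [abs_mul, abs_of_nonneg he]
      exact mul_le_of_le_one_left he (abs_cos_le_one _)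

lemma alg {n sa ca se ce sr cr sd cd : ℝ} (hn : 1 ≤ n) (h1 : 0 < sa) (h2 : 0 < ca) (h3 : 0 < se)
    (h4 : 0 < ce) (h4' : ce ≤ 1) (h5 : 0 < sr) (h6 : 1 / 2 < cr) (h6' : cr ≤ 1) (h7 : 0 < sd)
    (h8 : 0 < cd) (h9 : sd ^ 2 + cd ^ 2 = 1) (lev : sr * sd = sa * se) (hle : sd ≤ n * se)
    (hM : 0 < cr * cd - ca * ce) :
    (cr * cd - ca * ce) * (2 * sa * ce - 2 * n * sr * cd) <
      2 * sr * sd * (2 * ca * se + 2 * n * cr * sd) := by
  have k1 : sa ≤ n * sr := by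
    refine le_of_mul_le_mul_right ?_ h3
    nlinarith
  have c1 : cd ≤ 1 := by nlinarith
  have k2 : 1 - cd ≤ sd ^ 2 := by nlinarith
  have k0 : 0 < n * sr := by positivity
  have k3 : 2 * sa * ce - 2 * n * sr * cd ≤ 2 * (n * sr) * sd ^ 2 := by
    have : sa * ce ≤ n * sr := by nlinarith
    nlinarith
  have k4 : cr * cd - ca * ce ≤ 1 := by nlinarith [mul_pos h2 h4]
  have k5 : 0 < (n * sr) * sd ^ 2 := by positivity
  have k6 : (cr * cd - ca * ce) * (2 * sa * ce - 2 * n * sr * cd) ≤ 2 * (n * sr) * sd ^ 2 :=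
    (mul_le_mul_of_nonneg_left k3 hM.le).trans (mul_le_of_le_one_left (by positivity) k4)
  have k7 : 0 < sr * sd * (ca * se) := by positivity
  nlinarith

lemma keyineq {n : ℕ} (hn : 1 ≤ n) {a1 a2 r1 r2 : ℝ} (h0 : 0 < r1) (h1 : a2 < a1)
    (h2 : r2 < a2) (h3 : a1 ≤ π / 6) (e : r2 - r1 = n * (a1 - a2))
    (lev : cos a1 + cos r1 = cos a2 + cos r2) :
    (cos r2 - cos a2) * (sin a1 - n * sin r1) + (cos r1 - cos a1) * (sin a2 - n * sin r2) < 0 := by
  have hp := pi_pos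
  have hn' : (1 : ℝ) ≤ n := by exact_mod_cast hn
  obtain ⟨α, ε, rfl, rfl⟩ : ∃ α ε, a1 = α + ε ∧ a2 = α - ε :=
    ⟨(a1 + a2) / 2, (a1 - a2) / 2, by ring, by ring⟩
  obtain ⟨ρ, δ, rfl, rfl⟩ : ∃ ρ δ, r1 = ρ - δ ∧ r2 = ρ + δ :=
    ⟨(r1 + r2) / 2, (r2 - r1) / 2, by ring, by ring⟩
  have hε : 0 < ε := by linarith
  have hδ : δ = n * ε := by linarith
  have hδ0 : ε ≤ δ := by nlinarith
  have sp : ∀ x, 0 < x → x ≤ π / 6 → 0 < sin x := fun x a b =>
    sin_pos_of_pos_of_lt_pi a (by linarith)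
  have cp : ∀ x, 0 < x → x ≤ π / 6 → 1 / 2 < cos x := fun x a b => by
    rw [← cos_pi_div_three]
    exact cos_lt_cos_of_nonneg_of_le_pi a.le (by linarith) (by linarith)
  have m1 : cos (α + ε) < cos (ρ - δ) :=
    cos_lt_cos_of_nonneg_of_le_pi h0.le (by linarith) (by linarith)
  have m2 : cos (α - ε) < cos (ρ + δ) :=
    cos_lt_cos_of_nonneg_of_le_pi (by linarith) (by linarith) h2
  have se := sp ε hε (by linarith)
  have hle : sin δ ≤ n * sin ε := by
    rw [hδ]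
    exact (le_abs_self _).trans (sin_mul_le se.le n)
  rw [cos_add, cos_sub] at m1 m2
  simp only [cos_add, cos_sub, sin_add, sin_sub] at lev ⊢
  have lev' : sin ρ * sin δ = sin α * sin ε := by linarith
  have := alg hn' (sp α (by linarith) (by linarith))
    (by linarith [cp α (by linarith) (by linarith)] : 0 < cos α) se
    (by linarith [cp ε hε (by linarith)] : 0 < cos ε) (cos_le_one ε)
    (sp ρ (by linarith) (by linarith)) (cp ρ (by linarith) (by linarith)) (cos_le_one ρ)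
    (sp δ (by linarith) (by linarith)) (by linarith [cp δ (by linarith) (by linarith)] : 0 < cos δ)
    (sin_sq_add_cos_sq δ) lev' hle (by linarith)
  rw [← lev']
  linarith

lemma nn_eq {n : ℕ} (hn : 1 ≤ n) {x : ℝ} (hx : x ∈ Ioo (π / (6 * (n + 1))) (π / (6 * n))) :
    0 < x ∧ π / 6 < (n + 1) * x ∧ n * x < π / 6 ∧ x ≤ π / 6 ∧ nn x = n := by
  have hn' : (1 : ℝ) ≤ n := by exact_mod_cast hn
  have h0 : 0 < x := lt_trans (by positivity) hx.1
  have h1 := (div_lt_iff₀ (by positivity)).1 hx.1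
  have h2 := (lt_div_iff₀ (by positivity)).1 hx.2
  refine ⟨h0, by linarith, by linarith, by nlinarith, ?_⟩
  rw [nn, Nat.floor_eq_iff (by positivity)]
  exact ⟨(le_div_iff₀ h0).2 (by linarith), (div_lt_iff₀ h0).2 (by linarith)⟩

end Cong

open Cong in
theorem cong_proof : cong_stmt := by
  intro a1 a2 n hn h1 h2 h3
  have hp := pi_pos
  have hn' : (1 : ℝ) ≤ n := by exact_mod_cast hn
  have m1 : a1 ∈ Ioo (π / (6 * (n + 1))) (π / (6 * n)) := ⟨h1.trans h2, h3⟩
  have m2 : a2 ∈ Ioo (π / (6 * (n + 1))) (π / (6 * n)) := ⟨h1, h2.trans h3⟩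
  obtain ⟨p1, p2, p3, p4, p5⟩ := nn_eq hn m1
  obtain ⟨q1, q2, q3, q4, q5⟩ := nn_eq hn m2
  have hr : ∀ t : ℝ, HasDerivAt (fun s : ℝ => π / 6 - n * s) (-n) t := fun t =>
    (((hasDerivAt_id t).const_mul (n : ℝ)).const_sub _).congr_deriv (by ring)
  have c1 : cos a1 < cos (π / 6 - n * a1) :=
    cos_lt_cos_of_nonneg_of_le_pi (by linarith) (by linarith) (by linarith)
  have c2 : cos a2 < cos (π / 6 - n * a2) :=
    cos_lt_cos_of_nonneg_of_le_pi (by linarith) (by linarith) (by linarith)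
  have c3 : 0 < cos a1 := cos_pos_of_mem_Ioo ⟨by linarith, by linarith⟩
  have n0 : (0 : ℝ) < 2 * n := by linarith
  obtain ⟨x, hx, y, hy, k1, k2⟩ := move (L := fun a => 2 * (n * sin a + sin (π / 6 - n * a)))
    (A := fun a => (n * sin (2 * a) + sin (2 * (π / 6 - n * a))) / 2)
    (D := fun a => 2 * n * (cos a - cos (π / 6 - n * a)))
    (σ := fun a => cos a + cos (π / 6 - n * a))
    (fun t => ((((hasDerivAt_sin t).const_mul (n : ℝ)).add (hr t).sin).const_mul 2).congr_deriv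
      (by ring))
    (fun t => ((((((hasDerivAt_id t).const_mul 2).sin).const_mul (n : ℝ)).add
      ((hr t).const_mul 2).sin).div_const 2).congr_deriv (by simp only [id, cos_two_mul]; ring))
    (((hasDerivAt_cos a1).sub (hr a1).cos).const_mul _)
    (((hasDerivAt_cos a2).sub (hr a2).cos).const_mul _)
    ((hasDerivAt_cos a1).add (hr a1).cos) ((hasDerivAt_cos a2).add (hr a2).cos)
    (mul_ne_zero n0.ne' (sub_neg.2 c1).ne) (mul_ne_zero n0.ne' (sub_neg.2 c2).ne)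
    (by linarith) (fun he => by
      have k := keyineq hn (r1 := π / 6 - n * a1) (r2 := π / 6 - n * a2) (by linarith) h2
        (by linarith) p4 (by ring) he
      refine mul_neg_of_pos_of_neg (mul_pos_of_neg_of_neg
        (mul_neg_of_pos_of_neg n0 (sub_neg.2 c1)) (mul_neg_of_pos_of_neg n0 (sub_neg.2 c2))) ?_
      have := mul_neg_of_pos_of_neg n0 k
      linarith) isOpen_Ioo m1 m2
  obtain ⟨x1, -, -, x4, x5⟩ := nn_eq hn hx
  obtain ⟨y1, -, -, y4, y5⟩ := nn_eq hn hy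
  refine ⟨x, y, x1, x4, y1, y4, ?_, ?_⟩
  · simp only [arcLen, rr, p5, q5, x5, y5]
    exact k1.le
  · simp only [arcArea, rr, p5, q5, x5, y5]
    exact k2

end Pool.Agent.Lib.MP_f2780a_gt
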