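import Pool.Agent.Lib.MP_f2780a_gt.Basic
import Pool.Agent.Lib.MP_f2780a_gt.StmtsB

/-! Three unequal chords can be improved. -/

set_option autoImplicit false

noncomputable section

namespace Pool.Agent.Lib.MP_f2780a_gt

open Real MeasureTheory Set Filter Topology

namespace ev

lemma ev_lt {f : ℝ → ℝ} {d : ℝ} (h : HasDerivAt f d 0) (hd : 0 < d) :
    ∀ᶠ t in 𝓝[>] (0 : ℝ), f 0 < f t := by
  filter_upwards [(tendsto_order.1 h.tendsto_slope_zero_right).1 0 hd, self_mem_nhdsWithin]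
    with t h1 ht
  rw [zero_add, smul_eq_mul] at h1
  have := (mul_pos_iff_of_pos_left (inv_pos.2 ht)).1 h1
  linarith

lemma sin_pair (s e : ℝ) : sin (s - e) + sin (s + e) = 2 * cos e * sin s := by
  rw [sin_sub, sin_add]; ring

lemma sin_pair2 (s e : ℝ) :
    sin (2 * (s - e)) + sin (2 * (s + e)) = 2 * sin (2 * s) * (2 * cos e ^ 2 - 1) := by
  rw [mul_sub, mul_add, sin_pair, cos_two_mul]; ring

lemma core {s e z : ℝ} (he : 0 ≤ e) (hx : e < s) (hz : s + e < z) (hs : 2 * s + z ≤ π / 6) :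
    ∃ x' y' z' : ℝ, 0 < x' ∧ 0 < y' ∧ 0 < z' ∧ x' + y' + z' = 2 * s + z ∧
      2 * cos e * sin s + sin z ≤ sin x' + sin y' + sin z' ∧
      sin (2 * x') + sin (2 * y') + sin (2 * z') <
        2 * sin (2 * s) * (2 * cos e ^ 2 - 1) + sin (2 * z) := by
  have hπ := pi_pos
  have hS : 0 < sin s := sin_pos_of_pos_of_lt_pi (by linarith) (by linarith)
  have hX : cos z < cos (s - e) := cos_lt_cos_of_nonneg_of_le_pi (by linarith) (by linarith)
    (by linarith)
  have hY : cos z < cos (s + e) := cos_lt_cos_of_nonneg_of_le_pi (by linarith) (by linarith) hz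
  have hZ : 0 < cos z := cos_pos_of_mem_Ioo ⟨by linarith, by linarith⟩
  have hζ : 0 < cos e := cos_pos_of_mem_Ioo ⟨by linarith, by linarith⟩
  have e1 : cos (s - e) + cos (s + e) = 2 * cos e * cos s := by rw [cos_sub, cos_add]; ring
  have e2 : cos (s - e) ^ 2 + cos (s + e) ^ 2 - 1 = cos (2 * s) * (2 * cos e ^ 2 - 1) := by
    rw [cos_sub, cos_add, cos_two_mul]
    linear_combination (2 * sin e ^ 2) * sin_sq_add_cos_sq s +
      (2 - 2 * cos s ^ 2) * sin_sq_add_cos_sq e
  set X := cos (s - e)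
  set Y := cos (s + e)
  have hP : 0 < X + Y - 2 * cos z := by linarith
  have hQ : 0 < X ^ 2 + Y ^ 2 - 2 * cos z ^ 2 := by nlinarith
  have hlt : 2 * sin s / (X + Y - 2 * cos z) <
      2 * sin s * (X + Y) / (X ^ 2 + Y ^ 2 - 2 * cos z ^ 2) := by
    rw [div_lt_div_iff₀ hP hQ]
    nlinarith [mul_pos hS (mul_pos (sub_pos.2 hX) (sub_pos.2 hY))]
  obtain ⟨k, hk1, hk2⟩ := exists_between hlt
  rw [div_lt_iff₀ hP] at hk1
  rw [lt_div_iff₀ hQ] at hk2
  have d1 : HasDerivAt (fun t : ℝ => s + k * t) k 0 := by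
    simpa using ((hasDerivAt_id (0 : ℝ)).const_mul k).const_add s
  have d2 : HasDerivAt (fun t : ℝ => cos e - t) (-1) 0 := by
    simpa using (hasDerivAt_id (0 : ℝ)).const_sub (cos e)
  have d3 : HasDerivAt (fun t : ℝ => z - 2 * k * t) (-(2 * k)) 0 := by
    simpa using ((hasDerivAt_id (0 : ℝ)).const_mul (2 * k)).const_sub z
  have hL := ev_lt (((d2.const_mul 2).mul d1.sin).add d3.sin) (by
    simp only [mul_zero, add_zero, sub_zero]
    nlinarith)
  have hA := ev_lt ((((d1.const_mul 2).sin.const_mul 2).mul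
    (((d2.pow 2).const_mul 2).sub_const 1)).add (d3.const_mul 2).sin).neg (by
    simp only [mul_zero, add_zero, sub_zero, Pi.pow_apply, Nat.cast_ofNat, Nat.add_one_sub_one,
      pow_one]
    rw [cos_two_mul z, sin_two_mul s]
    have e3 : cos (2 * s) * (2 * k) * (2 * cos e ^ 2 - 1) = 2 * k * (X ^ 2 + Y ^ 2 - 1) := by
      rw [e2]; ring
    have e4 : sin s * cos s * cos e * 2 = sin s * (X + Y) := by rw [e1]; ring
    nlinarith)
  have c1 : ∀ᶠ t in 𝓝 (0 : ℝ), 0 < s + k * t - arccos (cos e - t) := by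
    refine (ContinuousAt.eventually_lt continuousAt_const (by fun_prop) ?_)
    simp only [mul_zero, add_zero, sub_zero]
    rw [arccos_cos he (by linarith)]
    linarith
  have c2 : ∀ᶠ t in 𝓝 (0 : ℝ), 0 < z - 2 * k * t := by
    refine (ContinuousAt.eventually_lt continuousAt_const (by fun_prop) ?_)
    simp only [mul_zero, sub_zero]
    linarith
  have c3 : ∀ᶠ t in 𝓝 (0 : ℝ), 0 < cos e - t := by
    refine (ContinuousAt.eventually_lt continuousAt_const (by fun_prop) ?_)
    simpa using hζ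
  obtain ⟨t, ⟨⟨h1, h2⟩, ht⟩, ⟨h3, h4⟩, h5⟩ := (((hL.and hA).and self_mem_nhdsWithin).and
    (((c1.and c2).and c3).filter_mono nhdsWithin_le_nhds)).exists
  have ht' : 0 < t := ht
  have hc : cos (arccos (cos e - t)) = cos e - t :=
    cos_arccos (by linarith) (by linarith [cos_le_one e])
  refine ⟨s + k * t - arccos (cos e - t), s + k * t + arccos (cos e - t), z - 2 * k * t, h3,
    by linarith [arccos_nonneg (cos e - t)], h4, by ring, ?_, ?_⟩
  · rw [sin_pair, hc]
    simpa using h1.le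
  · rw [sin_pair2, hc]
    simp only [Pi.neg_apply, Pi.add_apply, Pi.mul_apply, Pi.pow_apply, mul_zero, add_zero,
      sub_zero] at h2
    linarith

end ev

theorem ev_proof : ev_stmt := by
  intro x y z hx hxy hyz hs
  obtain ⟨x', y', z', h1, h2, h3, h4, h5, h6⟩ := ev.core (s := (x + y) / 2) (e := (y - x) / 2)
    (z := z) (by linarith) (by linarith) (by linarith) (by linarith)
  rw [← ev.sin_pair] at h5
  rw [← ev.sin_pair2] at h6
  have e1 : (x + y) / 2 - (y - x) / 2 = x := by ring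
  have e2 : (x + y) / 2 + (y - x) / 2 = y := by ring
  rw [e1, e2] at h5 h6
  exact ⟨x', y', z', h1, h2, h3, by linarith, h5, h6⟩

end Pool.Agent.Lib.MP_f2780a_gt
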