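import Pool.Agent.Lib.MP_f2780a_gt.Basic
import Pool.Agent.Lib.MP_f2780a_gt.StmtsB

/-! Existence of a cap of least area. -/

set_option autoImplicit false

noncomputable section

namespace Pool.Agent.Lib.MP_f2780a_gt

open Real MeasureTheory Set Filter Topology TopologicalSpace

namespace exmin

lemma cn (K : NonemptyCompacts ℂ) : CN (K : Set ℂ) := ⟨K.isCompact, K.nonempty⟩

lemma cont_h (θ : ℝ) : Continuous fun K : NonemptyCompacts ℂ => h (K : Set ℂ) θ := by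
  refine (LipschitzWith.of_le_add fun K L => h_le (cn K) fun x hx => ?_).continuous
  obtain ⟨y, hy, e⟩ := L.isCompact.exists_infDist_eq_dist L.nonempty x
  have h1 : Metric.infDist x L ≤ dist K L :=
    Metric.infDist_le_hausdorffDist_of_mem hx (edist_ne_top K L)
  have h2 := lin_le_norm (x - y) θ
  have h3 := lin_le_h (cn L) hy θ
  rw [lin_sub, ← dist_eq_norm] at h2
  linarith

lemma closed_mem (p : ℂ) : IsClosed {K : NonemptyCompacts ℂ | p ∈ (K : Set ℂ)} := by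
  have e : {K : NonemptyCompacts ℂ | p ∈ (K : Set ℂ)} =
      {K : NonemptyCompacts ℂ | Metric.infDist p (K : Set ℂ) = 0} :=
    Set.ext fun K => K.isCompact.isClosed.mem_iff_infDist_zero K.nonempty
  rw [e]
  exact isClosed_eq (Metric.lipschitz_infDist_set p).continuous continuous_const

/-- a cap can be cut down to the ball -/
lemma cut {a b : ℝ} {B : ℝ → ℝ} {p q : ℂ} {R : ℝ} {C : Set ℂ} (hab : a < b) (hp : ‖p‖ ≤ R)
    (hq : ‖q‖ ≤ R) (hx : ∀ x : ℂ, ∀ θ ∈ Ioo a b, (∀ φ ∈ Icc a b, lin x φ ≤ B φ) →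
      lin p θ ≤ lin x θ → lin q θ ≤ lin x θ → ‖x‖ ≤ R) (hC : Cl a b B p q C) :
    ∃ K : NonemptyCompacts ℂ, (K : Set ℂ) ⊆ Metric.closedBall 0 R ∧ Cl a b B p q K ∧
      Le a b K = Le a b C ∧ Ar a b K = Ar a b C := by
  have hp' : p ∈ C ∩ Metric.closedBall 0 R := ⟨hC.2.1, mem_closedBall_zero_iff.2 hp⟩
  have hq' : q ∈ C ∩ Metric.closedBall 0 R := ⟨hC.2.2.1, mem_closedBall_zero_iff.2 hq⟩
  have h1 : CN (C ∩ Metric.closedBall 0 R) :=
    ⟨hC.1.1.inter_right Metric.isClosed_closedBall, p, hp'⟩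
  have h2 := h_mono h1 hC.1 inter_subset_left
  have e : ∀ θ ∈ Icc a b, h (C ∩ Metric.closedBall 0 R) θ = h C θ := by
    intro θ hθ
    refine le_antisymm (h2 θ) ?_
    rcases hθ.1.eq_or_lt with rfl | ha
    · rw [hC.left hab.le, ← hC.2.2.2.2.1]
      exact lin_le_h h1 hp' _
    rcases hθ.2.eq_or_lt with rfl | hb
    · rw [hC.right hab.le, ← hC.2.2.2.2.2]
      exact lin_le_h h1 hq' _
    obtain ⟨x, hxC, e⟩ := h_att hC.1 θ
    rw [← e]
    refine lin_le_h h1 ⟨hxC, mem_closedBall_zero_iff.2 (hx x θ ⟨ha, hb⟩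
      (fun φ hφ => (lin_le_h hC.1 hxC φ).trans (hC.2.2.2.1 φ hφ)) ?_ ?_)⟩ θ
    · exact e ▸ lin_le_h hC.1 hC.2.1 θ
    · exact e ▸ lin_le_h hC.1 hC.2.2.1 θ
  exact ⟨⟨⟨_, h1.1⟩, h1.2⟩, inter_subset_right,
    ⟨h1, hp', hq', fun θ hθ => (h2 θ).trans (hC.2.2.2.1 θ hθ), hC.2.2.2.2⟩,
    Le_congr hab.le e, Ar_congr hab.le e⟩

end exmin

open exmin in
theorem exmin_proof : exmin_stmt := by
  intro a b B p q R l0 C0 hab hp hq hx hC0 hl0
  let S : Set (NonemptyCompacts ℂ) := {K | (K : Set ℂ) ⊆ Metric.closedBall 0 R}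
  have : CompactSpace S := isCompact_iff_compactSpace.1
    (NonemptyCompacts.isCompact_subsets_of_isCompact (isCompact_closedBall 0 R))
  have hR : ∀ K : S, ∀ x ∈ (K.1 : Set ℂ), ‖x‖ ≤ R := fun K x hx =>
    mem_closedBall_zero_iff.1 (K.2 hx)
  have hh : ∀ θ, Continuous fun K : S => h (K.1 : Set ℂ) θ := fun θ =>
    (cont_h θ).comp continuous_subtype_val
  have hL : Continuous fun K : S => Le a b (K.1 : Set ℂ) :=
    continuous_iff_seqContinuous.2 fun C K hC => Le_tendsto (fun n => cn (C n).1)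
      (fun n => hR (C n)) (fun θ => ((hh θ).tendsto K).comp hC) a b
  have hA : Continuous fun K : S => Ar a b (K.1 : Set ℂ) :=
    continuous_iff_seqContinuous.2 fun C K hC => Ar_tendsto (cn K.1) (fun n => cn (C n).1)
      (fun n => hR (C n)) (fun θ => ((hh θ).tendsto K).comp hC) a b
  have hT : IsClosed {K : S | p ∈ (K.1 : Set ℂ) ∧ q ∈ (K.1 : Set ℂ) ∧
      (∀ θ ∈ Icc a b, h (K.1 : Set ℂ) θ ≤ B θ) ∧ l0 ≤ Le a b (K.1 : Set ℂ)} := by
    refine ((closed_mem p).preimage continuous_subtype_val).inter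
      (((closed_mem q).preimage continuous_subtype_val).inter
        (IsClosed.inter ?_ (isClosed_le continuous_const hL)))
    have h1 := isClosed_biInter (s := Icc a b) fun θ _ =>
      isClosed_le (hh θ) (continuous_const (y := B θ))
    have e : {K : S | ∀ θ ∈ Icc a b, h (K.1 : Set ℂ) θ ≤ B θ} =
        ⋂ θ ∈ Icc a b, {K : S | h (K.1 : Set ℂ) θ ≤ B θ} := by
      ext K
      simp only [mem_iInter, mem_ofPred_eq]
    rwa [← e] at h1
  obtain ⟨K0, h1, h2, h3, -⟩ := cut hab hp hq hx hC0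
  obtain ⟨K, hK, hmin⟩ := hT.isCompact.exists_isMinOn
    ⟨⟨K0, h1⟩, h2.2.1, h2.2.2.1, h2.2.2.2.1, h3 ▸ hl0⟩ hA.continuousOn
  refine ⟨K.1, ⟨cn K.1, hK.1, hK.2.1, hK.2.2.1, hC0.2.2.2.2⟩, hK.2.2.2, fun C' hC' hl => ?_⟩
  obtain ⟨K', h1, h2, h3, h4⟩ := cut hab hp hq hx hC'
  exact h4 ▸ hmin (a := ⟨K', h1⟩) ⟨h2.2.1, h2.2.2.1, h2.2.2.2.1, h3 ▸ hl⟩

end Pool.Agent.Lib.MP_f2780a_gt
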