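import Pool.Agent.Lib.MP_f2780a_gt.Basic
import Pool.Agent.Lib.MP_f2780a_gt.StmtsB

/-! The finite dimensional minimisation. -/

set_option autoImplicit false

noncomputable section

namespace Pool.Agent.Lib.MP_f2780a_gt

open Real Set

theorem fin_proof (hs : slope_stmt) : fin_stmt := by
  classical
  obtain ⟨hanti, h6, hsurj, hsl⟩ := hs
  have hpi := pi_pos
  have h0 : lenI 0 = π / 3 := if_pos rfl
  have m0 : (0 : ℝ) ∈ Icc 0 (π / 6) := ⟨le_rfl, by positivity⟩
  have m6 : π / 6 ∈ Icc 0 (π / 6) := ⟨by positivity, le_rfl⟩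
  have hrange : ∀ a ∈ Icc 0 (π / 6), lenI a ∈ Icc 1 (π / 3) := fun a ha =>
    ⟨h6 ▸ hanti.antitoneOn ha m6 ha.2, h0 ▸ hanti.antitoneOn m0 ha ha.1⟩
  choose! A hA hA' using hsurj
  have hAl : ∀ a ∈ Icc 0 (π / 6), A (lenI a) = a := fun a ha =>
    hanti.injOn (hA _ (hrange a ha)) ha (hA' _ (hrange a ha))
  have hle : ∀ a ∈ Icc 0 (π / 6), ∀ b ∈ Icc 0 (π / 6), lenI b ≤ lenI a → a ≤ b :=
    fun a ha b hb h => (hanti.le_iff_ge hb ha).1 h
  have hg : ∀ x ∈ Icc 1 (π / 3), ∀ y ∈ Icc 1 (π / 3), x ≤ y →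
      sig * (y - x) ≤ arI (A y) - arI (A x) ∧ arI (A y) - arI (A x) ≤ 2 * (y - x) := by
    intro x hx y hy hxy
    obtain ⟨h1, -, h2⟩ := hsl (A y) (A x) (hA y hy).1
      (hle _ (hA y hy) _ (hA x hx) (by rwa [hA' x hx, hA' y hy])) (hA x hx).2
    rw [hA' x hx, hA' y hy] at h1 h2
    exact ⟨h1, h2.trans (mul_le_mul_of_nonneg_right (by linarith [cos_le_one (A y)])
      (by linarith))⟩
  have hsig : 0 ≤ sig := by unfold sig; positivity
  have hcont : ContinuousOn (fun x => arI (A x)) (Icc 1 (π / 3)) := by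
    refine (LipschitzOnWith.of_dist_le_mul (K := 2) fun x hx y hy => ?_).continuousOn
    rw [Real.dist_eq, Real.dist_eq, NNReal.coe_ofNat]
    rcases le_total x y with h | h
    · obtain ⟨h1, h2⟩ := hg x hx y hy h
      have := mul_nonneg hsig (sub_nonneg.2 h)
      rw [abs_of_nonpos (by linarith), abs_of_nonpos (by linarith)]
      linarith
    · obtain ⟨h1, h2⟩ := hg y hy x hx h
      have := mul_nonneg hsig (sub_nonneg.2 h)
      rw [abs_of_nonneg (by linarith), abs_of_nonneg (by linarith)]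
      linarith
  intro l hl
  have hT : IsCompact {x : Fin 3 → ℝ | (∀ i, x i ∈ Icc 1 (π / 3)) ∧ ∑ i, x i = l} :=
    (isCompact_pi_infinite fun _ => isCompact_Icc).inter_right
      (isClosed_eq (by fun_prop) continuous_const)
  obtain ⟨x, ⟨hx1, hx2⟩, hmin⟩ := hT.exists_isMinOn (f := fun x => ∑ i, arI (A (x i)))
    ⟨fun _ => l / 3, fun _ => ⟨by linarith [hl.1], by linarith [hl.2]⟩, by
      rw [Fin.sum_univ_three]; ring⟩
    (continuousOn_finsetSum _ fun i _ =>
      hcont.comp (continuous_apply i).continuousOn fun y hy => hy.1 i)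
  have hlow : ∀ a ∈ ParI l, ∑ i, arI (A (x i)) - √3 / 2 ≤ valI a := by
    intro a ha
    have := hmin (a := fun i => lenI (a i)) ⟨fun i => hrange _ (ha.1 i), ha.2⟩
    simp only [mem_ofPred_eq, fun i => hAl _ (ha.1 i)] at this
    exact sub_le_sub_right this _
  refine ⟨∑ i, arI (A (x i)) - √3 / 2, ⟨⟨fun i => A (x i), ⟨fun i => hA _ (hx1 i), ?_⟩, rfl⟩,
    ?_⟩, ?_, ?_, ?_⟩
  · simp only [fun i => hA' _ (hx1 i), hx2]
  · rintro _ ⟨a, ha, rfl⟩
    exact hlow a ha
  · intro l' a hll ha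
    rcases hll.eq_or_lt with rfl | hll
    · simpa using hlow a ha
    have h3 : 0 < l' - 3 := by linarith [hl.1]
    have t0 : 0 ≤ (l - 3) / (l' - 3) := div_nonneg (by linarith [hl.1]) h3.le
    have t1 : (l - 3) / (l' - 3) ≤ 1 := (div_le_one h3).2 (by linarith)
    have t2 : (l' - 3) * ((l - 3) / (l' - 3)) = l - 3 := mul_div_cancel₀ _ h3.ne'
    generalize (l - 3) / (l' - 3) = t at t0 t1 t2
    have r := fun i => hrange _ (ha.1 i)
    have y1 : ∀ i, 1 + (lenI (a i) - 1) * t ≤ lenI (a i) := fun i => by nlinarith [(r i).1]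
    have y2 : ∀ i, 1 + (lenI (a i) - 1) * t ∈ Icc 1 (π / 3) := fun i =>
      ⟨by nlinarith [(r i).1], (y1 i).trans (r i).2⟩
    have s1 := ha.2
    have h1 : ∑ i, arI (A (x i)) ≤ ∑ i, arI (A (1 + (lenI (a i) - 1) * t)) :=
      hmin (a := fun i => 1 + (lenI (a i) - 1) * t) ⟨y2, by
        rw [Fin.sum_univ_three] at s1 ⊢
        linear_combination t2 + t * s1⟩
    have h2 := fun i => (hg _ (y2 i) _ (r i) (y1 i)).1
    simp only [fun i => hAl _ (ha.1 i)] at h2
    unfold valI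
    rw [Fin.sum_univ_three] at s1
    rw [Fin.sum_univ_three (fun i => arI (A (1 + (lenI (a i) - 1) * t)))] at h1
    rw [Fin.sum_univ_three (fun i => arI (a i))]
    have e : sig * (l' - l) = sig * (lenI (a 0) - (1 + (lenI (a 0) - 1) * t)) +
        sig * (lenI (a 1) - (1 + (lenI (a 1) - 1) * t)) +
        sig * (lenI (a 2) - (1 + (lenI (a 2) - 1) * t)) := by
      linear_combination sig * (t - 1) * s1 + sig * t2
    linarith [h2 0, h2 1, h2 2]
  · intro hlt a ha hval i
    by_contra hi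
    have hi0 : a i = 0 := le_antisymm (not_lt.1 hi) (ha.1 i).1
    obtain ⟨j, hj⟩ : ∃ j, 0 < a j := by
      by_contra hn
      have : ∀ j, a j = 0 := fun j => le_antisymm (not_lt.1 fun h => hn ⟨j, h⟩) (ha.1 j).1
      have s1 := ha.2
      rw [Fin.sum_univ_three, this, this, this, h0] at s1
      linarith
    have hij : i ≠ j := fun h => hi (h ▸ hj)
    have j6 := (ha.1 j).2
    have mc : a j / 2 ∈ Icc 0 (π / 6) := ⟨by linarith, by linarith⟩
    have md : a j / 4 ∈ Icc 0 (π / 6) := ⟨by linarith, by linarith⟩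
    have hcos : 1 + cos (a j / 2) < 2 * cos (a j / 4) := by
      have c1 : 0 < cos (a j / 4) := cos_pos_of_mem_Ioo ⟨by linarith, by linarith⟩
      have c2 : cos (a j / 4) < 1 :=
        cos_zero ▸ cos_lt_cos_of_nonneg_of_le_pi le_rfl (by linarith) (by linarith)
      rw [show a j / 2 = 2 * (a j / 4) by ring, cos_two_mul]
      nlinarith
    have d1 : lenI (a j / 4) < π / 3 := h0 ▸ hanti m0 md (by linarith)
    have d2 : lenI (a j) < lenI (a j / 2) := hanti mc (ha.1 j) (by linarith)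
    obtain ⟨η, η0, η1, η2⟩ : ∃ η : ℝ, 0 < η ∧ η ≤ π / 3 - lenI (a j / 4) ∧
        η ≤ lenI (a j / 2) - lenI (a j) :=
      ⟨min _ _, lt_min (by linarith) (by linarith), min_le_left _ _, min_le_right _ _⟩
    have q1 : π / 3 - η ∈ Icc 1 (π / 3) := ⟨by linarith [(hrange _ md).1], by linarith⟩
    have q2 : lenI (a j) + η ∈ Icc 1 (π / 3) :=
      ⟨by linarith [(hrange _ (ha.1 j)).1], by linarith [(hrange _ mc).2]⟩
    have g1 := (hsl 0 _ le_rfl (hA _ q1).1 (hA _ q1).2).2.1
    have g2 := (hsl _ _ (hA _ q2).1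
      (hle _ (hA _ q2) _ (ha.1 j) (by rw [hA' _ q2]; linarith)) j6).2.2
    rw [hA' _ q1, h0] at g1
    rw [hA' _ q2] at g2
    have c1 : cos (a j / 4) ≤ cos (A (π / 3 - η)) :=
      cos_le_cos_of_nonneg_of_le_pi (hA _ q1).1 (by linarith)
        (hle _ (hA _ q1) _ md (by rw [hA' _ q1]; linarith))
    have c2 : cos (A (lenI (a j) + η)) ≤ cos (a j / 2) :=
      cos_le_cos_of_nonneg_of_le_pi mc.1 (by linarith [(hA _ q2).2])
        (hle _ mc _ (hA _ q2) (by rw [hA' _ q2]; linarith))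
    set b : Fin 3 → ℝ := fun k => if k = i then A (π / 3 - η) else
      if k = j then A (lenI (a j) + η) else a k with hb
    have hsum : ∀ f : ℝ → ℝ, ∑ k, f (b k) - ∑ k, f (a k) =
        f (A (π / 3 - η)) - f 0 + (f (A (lenI (a j) + η)) - f (a j)) := by
      intro f
      rw [← Finset.sum_sub_distrib, Fintype.sum_eq_add i j hij fun k hk => by
        simp [hb, hk.1, hk.2]]
      simp [hb, hij.symm, hi0]
    have hbP : b ∈ ParI l := by
      refine ⟨fun k => ?_, ?_⟩
      · simp only [hb]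
        split_ifs
        exacts [hA _ q1, hA _ q2, ha.1 k]
      · have := hsum lenI
        rw [hA' _ q1, hA' _ q2, h0, ha.2] at this
        linarith
    have := hlow b hbP
    have h2 := hsum arI
    unfold valI at this hval
    nlinarith
  · intro hlt a ha
    funext i
    have s1 := ha.2
    have r := fun i => (hrange _ (ha.1 i)).2
    have : ∑ k : Fin 3, lenI (a k) = ∑ _k : Fin 3, π / 3 := by
      rw [s1, hlt, Fin.sum_univ_three]
      ring
    have e := (Finset.sum_eq_sum_iff_of_le fun k _ => r k).1 this i (Finset.mem_univ _)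
    exact hanti.injOn (ha.1 i) m0 (e.trans h0.symm)

end Pool.Agent.Lib.MP_f2780a_gt
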