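import Pool.Agent.Lib.MP_f2780a_gt.Basic
import Pool.Agent.Lib.MP_f2780a_gt.StmtsC

/-! The first level in closed form. -/

set_option autoImplicit false

noncomputable section

namespace Pool.Agent.Lib.MP_f2780a_gt

open Real MeasureTheory Set

namespace First

lemma two_w : 2 * (π / 12) = π / 6 := by ring

lemma arc {a : ℝ} (h1 : π / 12 ≤ a) (h2 : a ≤ π / 6) :
    arcLen a = 4 * sin (π / 12) * cos (a - π / 12) ∧ arcArea a = cos (a - π / 12) ^ 2 - 1 / 2 := by
  have p := pi_pos
  have a0 : 0 < a := by linarith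
  rcases h1.eq_or_lt with rfl | h1
  · have e : nn (π / 12) = 2 := by
      rw [nn, show π / 6 / (π / 12) = (2 : ℕ) by field_simp; norm_num, Nat.floor_natCast]
    have e' : rr (π / 12) = 0 := by rw [rr, e]; push_cast; ring
    simp only [arcLen, arcArea, e, e', two_w, sin_pi_div_six, sub_self, cos_zero, mul_zero,
      sin_zero]
    constructor <;> push_cast <;> ring
  · have e : nn a = 1 := by
      rw [nn, Nat.floor_eq_iff (by positivity), le_div_iff₀ a0, div_lt_iff₀ a0]
      constructor <;> push_cast <;> linarith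
    obtain ⟨d, rfl⟩ : ∃ d, a = π / 12 + d := ⟨a - π / 12, by ring⟩
    have e' : rr (π / 12 + d) = π / 12 - d := by rw [rr, e]; push_cast; ring
    simp only [arcLen, arcArea, e, e', mul_add, mul_sub, two_w, sin_add, sin_sub, sin_pi_div_six,
      add_sub_cancel_left, cos_two_mul]
    constructor <;> push_cast <;> ring

end First

open First in
theorem first_proof : first_stmt := by
  intro l μ h1 h2 hμ
  have p := pi_pos
  have e2 : per 2 = 12 * sin (π / 12) := by
    rw [per]; push_cast; ring_nf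
  have s0 : 0 < sin (π / 12) := sin_pos_of_pos_of_lt_pi (by positivity) (by linarith)
  have sc : 2 * sin (π / 12) * cos (π / 12) = 1 / 2 := by
    rw [← sin_two_mul, two_w, sin_pi_div_six]
  have ss : sin (π / 12) ^ 2 = 1 / 2 - √3 / 4 := by
    rw [sin_sq_eq_half_sub, two_w, cos_pi_div_six]; ring
  have p0 : 0 < per 2 := by rw [e2]; positivity
  obtain ⟨x, hx⟩ : ∃ x, x = l / per 2 := ⟨_, rfl⟩
  have hl : l = 12 * sin (π / 12) * x := by rw [hx, ← e2]; field_simp
  have x1 : x ≤ 1 := hx ▸ (div_le_one p0).2 h2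
  have x2 : cos (π / 12) ≤ x := by rw [hx, le_div_iff₀ p0, e2]; linarith
  have x0 : -1 ≤ x := (neg_one_le_cos _).trans x2
  have t0 := arccos_nonneg x
  have t1 : arccos x ≤ π / 12 :=
    (arccos_le_arccos x2).trans_eq (arccos_cos (by positivity) (by linarith))
  have w1 : π / (6 * ((1 : ℕ) + 1)) = π / 12 := by push_cast; ring
  have w2 : π / (6 * (1 : ℕ)) = π / 6 := by push_cast; ring
  have key : ∀ a ∈ Cand 1 l, (∀ i, π / 12 ≤ a i ∧ a i ≤ π / 6) ∧
      val a = (2 + √3) * l ^ 2 / 12 - (3 + √3) / 2 + ∑ i, (cos (a i - π / 12) - x) ^ 2 := by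
    rintro a ⟨⟨t, ht, ha⟩, hs⟩
    rw [w1, w2] at ht ha
    have hb : ∀ i, π / 12 ≤ a i ∧ a i ≤ π / 6 := fun i => by
      rcases ha i with e | e | e <;> rw [e] <;> constructor <;> linarith [ht.1, ht.2]
    refine ⟨hb, ?_⟩
    simp only [fun i => (arc (hb i).1 (hb i).2).1, Fin.sum_univ_three, hl] at hs
    have hs' : cos (a 0 - π / 12) + cos (a 1 - π / 12) + cos (a 2 - π / 12) = 3 * x :=
      mul_left_cancel₀ (a := 4 * sin (π / 12)) (by positivity) (by linear_combination hs)
    simp only [val, fun i => (arc (hb i).1 (hb i).2).2, Fin.sum_univ_three, hl]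
    have r : √3 ^ 2 = 3 := sq_sqrt (by norm_num)
    linear_combination 2 * x * hs' - 12 * (2 + √3) * x ^ 2 * ss + 3 * x ^ 2 * r
  have m : (fun _ => π / 12 + arccos x) ∈ Cand 1 l := by
    refine ⟨⟨π / 12 + arccos x, by rw [w1, w2]; constructor <;> linarith, fun _ => by simp⟩, ?_⟩
    rw [Fin.sum_univ_three, (arc (by linarith) (by linarith)).1, add_sub_cancel_left,
      cos_arccos x0 x1, hl]
    ring
  have v : μ = (2 + √3) * l ^ 2 / 12 - (3 + √3) / 2 := by
    refine le_antisymm ((hμ.2 ⟨_, m, rfl⟩).trans_eq ?_) ?_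
    · rw [(key _ m).2]
      simp [cos_arccos x0 x1]
    · obtain ⟨a, ha, rfl⟩ := hμ.1
      rw [(key a ha).2]
      exact le_add_of_nonneg_right (by positivity)
  refine ⟨v, fun a ha => ?_⟩
  rw [(key a ha).2, v, add_eq_left, Finset.sum_eq_zero_iff_of_nonneg fun _ _ => sq_nonneg _, ← hx]
  refine forall_congr' fun i => ?_
  have hb := (key a ha).1 i
  simp only [Finset.mem_univ, forall_true_left, sq_eq_zero_iff, sub_eq_zero]
  constructor
  · intro e
    rw [← e, arccos_cos (by linarith [hb.1]) (by linarith [hb.2])]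
    ring
  · intro e
    rw [e, add_sub_cancel_left, cos_arccos x0 x1]

end Pool.Agent.Lib.MP_f2780a_gt
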