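import Pool.Agent.Lib.MP_f2780a_gt.Basic
import Pool.Agent.Lib.MP_f2780a_gt.StmtsB

/-! Closed sets whose gaps are all equal, up to one shorter gap. -/

set_option autoImplicit false

noncomputable section

namespace Pool.Agent.Lib.MP_f2780a_gt

open Real MeasureTheory Set

namespace gaps

lemma exists_gap {T : Set ℝ} {P x : ℝ} (hT : IsClosed T) (h0 : (0 : ℝ) ∈ T) (hP : P ∈ T)
    (hx : x ∈ Icc 0 P) (hxT : x ∉ T) : ∃ α β, Gap T α β ∧ α < x ∧ x < β := by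
  obtain ⟨α, hα, hα'⟩ := ((isCompact_Icc (a := 0) (b := x)).inter_left hT).exists_isGreatest
    ⟨0, h0, le_rfl, hx.1⟩
  obtain ⟨β, hβ, hβ'⟩ := ((isCompact_Icc (a := x) (b := P)).inter_left hT).exists_isLeast
    ⟨P, hP, hx.2, le_rfl⟩
  have a1 : α < x := lt_of_le_of_ne hα.2.2 fun e => hxT (e ▸ hα.1)
  have a2 : x < β := lt_of_le_of_ne hβ.2.1 fun e => hxT (e ▸ hβ.1)
  refine ⟨α, β, ⟨a1.trans a2, hα.1, hβ.1, fun t ht htT => ?_⟩, a1, a2⟩
  rcases le_total t x with h | h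
  · exact absurd (hα' ⟨htT, hα.2.1.trans ht.1.le, h⟩) (not_le.2 ht.1)
  · exact absurd (hβ' ⟨htT, h, ht.2.le.trans hβ.2.2⟩) (not_le.2 ht.2)

lemma end_le {T : Set ℝ} {α β t : ℝ} (g : Gap T α β) (ht : t ∈ T) (h : α < t) : β ≤ t :=
  not_lt.1 fun h' => g.2.2.2 t ⟨h, h'⟩ ht

lemma end_eq {T : Set ℝ} {α β β' : ℝ} (g : Gap T α β) (g' : Gap T α β') : β = β' :=
  le_antisymm (end_le g g'.2.2.1 g'.1) (end_le g' g.2.2.1 g.1)

lemma longest {T : Set ℝ} (h3 : NoThree T) {α β : ℝ} (g : Gap T α β) :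
    ∃ α' β', Gap T α' β' ∧ ∀ γ δ, Gap T γ δ → δ - γ ≤ β' - α' := by
  by_cases h : ∀ γ δ, Gap T γ δ → δ - γ ≤ β - α
  · exact ⟨α, β, g, h⟩
  push Not at h
  obtain ⟨α', β', g', hlt⟩ := h
  refine ⟨α', β', g', fun γ δ g'' => not_lt.1 (h3 α β α' β' γ δ g g' g'' ?_ hlt.le)⟩
  rintro rfl
  rw [end_eq g g'] at hlt
  exact lt_irrefl _ hlt

lemma short_unique {T : Set ℝ} (h3 : NoThree T) {α β γ δ γ' δ' : ℝ} (g : Gap T α β)
    (g1 : Gap T γ δ) (g2 : Gap T γ' δ') (h1 : δ - γ < β - α) (h2 : δ' - γ' < β - α) : γ = γ' := by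
  by_contra hne
  rcases le_total (δ - γ) (δ' - γ') with h | h
  · exact h3 γ δ γ' δ' α β g1 g2 g hne h h2
  · exact h3 γ' δ' γ δ α β g2 g1 g (Ne.symm hne) h h1

lemma starts {T : Set ℝ} {P α β θ : ℝ} (hT : IsClosed T) (hs : T ⊆ Icc 0 P) (h0 : (0 : ℝ) ∈ T)
    (hP : P ∈ T) (hA : NoArc T) (h3 : NoThree T) (g : Gap T α β) (hθ : θ ∈ T) (hlt : θ < P) :
    ∃ η, Gap T θ η := by
  by_contra hno
  have key : ∀ e, θ < e → ∃ γ δ, Gap T γ δ ∧ θ < γ ∧ γ < e := by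
    intro e he
    obtain ⟨x, hx, hxT⟩ := not_subset.1 (hA α β θ (min e P) g (lt_min he hlt))
    obtain ⟨γ, δ, g', a1, a2⟩ := exists_gap hT h0 hP
      ⟨(hs hθ).1.trans hx.1, hx.2.trans (min_le_right _ _)⟩ hxT
    have a3 : θ ≤ γ := not_lt.1 fun h => g'.2.2.2 θ ⟨h, hx.1.trans_lt a2⟩ hθ
    refine ⟨γ, δ, g', lt_of_le_of_ne a3 fun e' => hno ⟨δ, e' ▸ g'⟩,
      a1.trans_le (hx.2.trans (min_le_left _ _))⟩
  obtain ⟨γ1, δ1, g1, a1, b1⟩ := key (θ + (β - α)) (by linarith [g.1])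
  obtain ⟨γ2, δ2, g2, a2, b2⟩ := key γ1 a1
  obtain ⟨γ3, δ3, g3, a3, b3⟩ := key γ2 a2
  have c2 := end_le g2 g1.2.1 b2
  have c3 := end_le g3 g2.2.1 b3
  exact b3.ne (short_unique h3 g g3 g2 (by linarith) (by linarith))

lemma walk {T : Set ℝ} {L e : ℝ} (hL : 0 < L) (he : e ∈ T) {s : ℝ} (hs : s ∈ T) (hse : s ≤ e)
    (hg : ∀ θ ∈ T, s ≤ θ → θ < e → Gap T θ (θ + L)) :
    ∃ m : ℕ, e = s + m * L ∧ ∀ t, s ≤ t → t ≤ e → (t ∈ T ↔ ∃ j : ℕ, j ≤ m ∧ t = s + j * L) := by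
  obtain ⟨n, hn⟩ := exists_nat_ge ((e - s) / L)
  rw [div_le_iff₀ hL] at hn
  have base : ∃ m : ℕ, e = e + m * L ∧
      ∀ t, e ≤ t → t ≤ e → (t ∈ T ↔ ∃ j : ℕ, j ≤ m ∧ t = e + j * L) := by
    refine ⟨0, by simp, fun t h1 h2 => ?_⟩
    obtain rfl := le_antisymm h1 h2
    exact ⟨fun _ => ⟨0, le_rfl, by simp⟩, fun _ => he⟩
  induction n generalizing s with
  | zero =>
    obtain rfl : s = e := le_antisymm hse (by simpa using hn)
    exact base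
  | succ n ih =>
    rcases hse.eq_or_lt with rfl | hlt
    · exact base
    have g := hg s hs le_rfl hlt
    obtain ⟨m, h1, h2⟩ := ih g.2.2.1 (end_le g he hlt)
      (fun θ hθ a1 a2 => hg θ hθ (by linarith) a2) (by push_cast at hn; linarith)
    refine ⟨m + 1, by push_cast; linarith, fun t a1 a2 => ⟨fun ht => ?_, ?_⟩⟩
    · rcases a1.eq_or_lt with rfl | a3
      · exact ⟨0, Nat.zero_le _, by simp⟩
      · obtain ⟨j, b1, b2⟩ := (h2 t (end_le g ht a3) a2).1 ht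
        exact ⟨j + 1, by omega, by push_cast; linarith⟩
    · rintro ⟨j, b1, b2⟩
      rcases j with _ | j
      · have : t = s := by simpa using b2
        exact this ▸ hs
      · have b3 : t = s + L + j * L := by push_cast at b2; linarith
        have b4 : 0 ≤ (j : ℝ) * L := by positivity
        exact (h2 t (by linarith) a2).2 ⟨j, by omega, b3⟩

lemma nn_eq {a r : ℝ} {m : ℕ} (ha : 0 < a) (h0 : 0 ≤ r) (h1 : r < a) (h : π / 6 = m * a + r) :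
    nn a = m ∧ rr a = r := by
  have e : nn a = m := by
    rw [nn, Nat.floor_eq_iff (by positivity), le_div_iff₀ ha, div_lt_iff₀ ha]
    constructor <;> linarith
  exact ⟨e, by rw [rr, e]; linarith⟩

end gaps

open gaps

theorem gaps_proof : gaps_stmt := by
  intro T hT hs h0 hP hne hA h3
  obtain ⟨x, hx, hxT⟩ := not_subset.1 fun h => hne (Subset.antisymm hs h)
  obtain ⟨α0, β0, g0, -, -⟩ := exists_gap hT h0 hP hx hxT
  obtain ⟨α, β, g, hmax⟩ := longest h3 g0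
  obtain ⟨a, ha⟩ : ∃ a, β - α = 2 * a := ⟨(β - α) / 2, by ring⟩
  have ha0 : 0 < a := by linarith [g.1]
  have ha1 : a ≤ π / 6 := by linarith [(hs g.2.1).1, (hs g.2.2.1).2]
  have hst : ∀ θ ∈ T, θ < π / 3 → (∀ η, Gap T θ η → ¬η - θ < β - α) → Gap T θ (θ + 2 * a) := by
    intro θ hθ hlt hn
    obtain ⟨η, gη⟩ := starts hT hs h0 hP hA h3 g hθ hlt
    have : η = θ + 2 * a := by linarith [hmax θ η gη, not_lt.1 (hn η gη)]
    exact this ▸ gη
  by_cases hsh : ∃ γ δ, Gap T γ δ ∧ δ - γ < β - α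
  · obtain ⟨γ, δ, g1, hlt⟩ := hsh
    have hγ := hs g1.2.1
    have hδ := hs g1.2.2.1
    obtain ⟨k, k1, k2⟩ := walk (L := 2 * a) (by linarith) g1.2.1 h0 hγ.1 fun θ hθ _ a2 =>
      hst θ hθ (by linarith [g1.1, hδ.2]) fun η gη h => a2.ne (short_unique h3 g gη g1 h hlt)
    obtain ⟨m, m1, m2⟩ := walk (L := 2 * a) (by linarith) hP g1.2.2.1 hδ.2 fun θ hθ a1 a2 =>
      hst θ hθ a2 fun η gη h => (g1.1.trans_le a1).ne' (short_unique h3 g gη g1 h hlt)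
    obtain ⟨e1, e2⟩ := nn_eq (r := (δ - γ) / 2) (m := k + m) ha0 (by linarith [g1.1])
      (by linarith) (by push_cast; linarith)
    refine ⟨a, k, ha0, ha1, by omega, Set.ext fun t => ⟨fun ht => ?_, ?_⟩⟩
    · rcases le_or_gt t γ with h | h
      · obtain ⟨j, b1, b2⟩ := (k2 t (hs ht).1 h).1 ht
        exact ⟨j, Or.inl ⟨b1, by linarith⟩⟩
      · obtain ⟨j, b1, b2⟩ := (m2 t (end_le g1 ht h) (hs ht).2).1 ht
        exact ⟨k + j, Or.inr ⟨by omega, by omega, by rw [e2]; push_cast; linarith⟩⟩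
    · rintro ⟨j, ⟨b1, b2⟩ | ⟨b1, b2, b3⟩⟩
      · have b4 : (j : ℝ) * a ≤ k * a := mul_le_mul_of_nonneg_right (Nat.cast_le.2 b1) ha0.le
        have b5 : 0 ≤ (j : ℝ) * a := by positivity
        exact (k2 t (by linarith) (by linarith)).2 ⟨j, b1, by linarith⟩
      · obtain ⟨i, rfl⟩ := Nat.exists_eq_add_of_le b1
        have b6 : i ≤ m := by omega
        have b4 : (i : ℝ) * a ≤ m * a := mul_le_mul_of_nonneg_right (Nat.cast_le.2 b6) ha0.le
        have b5 : 0 ≤ (i : ℝ) * a := by positivity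
        rw [e2] at b3
        push_cast at b3
        exact (m2 t (by linarith) (by linarith)).2 ⟨i, b6, by linarith⟩
  · obtain ⟨m, m1, m2⟩ := walk (L := 2 * a) (by linarith) hP h0 (hs hP).1 fun θ hθ _ a2 =>
      hst θ hθ a2 fun η gη h => hsh ⟨θ, η, gη, h⟩
    obtain ⟨e1, e2⟩ := nn_eq (r := 0) (m := m) ha0 le_rfl ha0 (by linarith)
    refine ⟨a, 0, ha0, ha1, Nat.zero_le _, Set.ext fun t => ⟨fun ht => ?_, ?_⟩⟩
    · obtain ⟨j, b1, b2⟩ := (m2 t (hs ht).1 (hs ht).2).1 ht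
      exact ⟨j, Or.inr ⟨Nat.zero_le _, by omega, by rw [e2]; linarith⟩⟩
    · rintro ⟨j, ⟨b1, b2⟩ | ⟨-, b2, b3⟩⟩
      · obtain rfl : j = 0 := by omega
        have : t = 0 := by simpa using b2
        exact this ▸ h0
      · have b6 : j ≤ m := by omega
        have b4 : (j : ℝ) * a ≤ m * a := mul_le_mul_of_nonneg_right (Nat.cast_le.2 b6) ha0.le
        have b5 : 0 ≤ (j : ℝ) * a := by positivity
        rw [e2] at b3
        exact (m2 t (by linarith) (by linarith)).2 ⟨j, b6, by linarith⟩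

end Pool.Agent.Lib.MP_f2780a_gt
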