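import Pool.Agent.Lib.MP_f2780a_gt.Basic
import Pool.Agent.Lib.MP_f2780a_gt.StmtsB

set_option autoImplicit false

noncomputable section

namespace Pool.Agent.Lib.MP_f2780a_gt

open Real MeasureTheory Set

namespace gen

lemma dense_eq {C : Set ℂ} (hC : CN C) {g : ℝ → ℝ} (hg : Continuous g) {s t : ℝ} (hst : s < t)
    (H : ∀ θ ∈ Ioo s t, DifferentiableAt ℝ (h C) θ → h C θ = g θ) :
    ∀ θ ∈ Icc s t, h C θ = g θ := by
  intro θ hθ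
  by_contra hne
  obtain ⟨ε, ε0, hε⟩ := Metric.isOpen_iff.1 (isOpen_ne_fun (continuous_h hC) hg) θ hne
  obtain ⟨x, hx, hd⟩ := (lip_h hC).exists_diff (a := max s (θ - ε)) (b := min t (θ + ε))
    (max_lt (lt_min hst (by linarith [hθ.1])) (lt_min (by linarith [hθ.2]) (by linarith)))
  have h1 := max_lt_iff.1 hx.1
  have h2 := lt_min_iff.1 hx.2
  refine hε (a := x) ?_ (H x ⟨h1.1, h2.1⟩ hd)
  rw [Metric.mem_ball, Real.dist_eq, abs_lt]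
  constructor <;> linarith [h1.2, h2.2]

lemma two_val {C : Set ℂ} (hC : CN C) {X : ℝ → ℂ} (hX : ∀ θ, lin (X θ) θ = h C θ) {y y' : ℂ}
    (hy : y ∈ C) (hy' : y' ∈ C) {s t : ℝ} (hst : s < t)
    (H : ∀ θ ∈ Ioo s t, DifferentiableAt ℝ (h C) θ → X θ = y ∨ X θ = y') :
    ∀ θ ∈ Icc s t, h C θ = max (lin y θ) (lin y' θ) :=
  dense_eq hC ((continuous_lin y).max (continuous_lin y')) hst fun θ hθ hd =>
    le_antisymm (by
      rw [← hX θ]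
      rcases H θ hθ hd with e | e <;> rw [e]
      exacts [le_max_left _ _, le_max_right _ _])
      (max_le (lin_le_h hC hy θ) (lin_le_h hC hy' θ))

end gen

theorem gen_proof (hA : genA_stmt) (hB : genB_stmt) : gen_stmt := by
  intro a b B p q C α β hba hBc hM ha hαβ hb hlt
  have hC : CN C := hM.1.1
  choose X hXC hX using h_att hC
  let D : ℝ → Prop := fun θ => θ ∈ Ioo α β ∧ DifferentiableAt ℝ (h C) θ
  have st : ∀ θ φ, D θ → X θ ≠ X φ → lin (X φ) θ < lin (X θ) θ := fun θ φ hθ hne => by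
    rw [hX θ]
    exact lt_of_le_of_ne (lin_le_h hC (hXC φ) θ) fun e =>
      hne (support_unique hC hθ.2 (hXC θ) (hX θ) (hXC φ) e)
  have mid : ∀ {s t θ}, D s → D t → θ ∈ Icc s t → θ ∈ Ioo α β := fun hs ht hθ =>
    ⟨hs.1.1.trans_le hθ.1, hθ.2.trans_lt ht.1.2⟩
  have tight : ∀ t0 t1 t2, D t0 → D t1 → D t2 → t0 < t1 → t1 < t2 → X t0 ≠ X t1 → X t1 ≠ X t2 →
      (∀ θ, D θ → t0 < θ → θ < t1 → X t0 ≠ X θ → X θ ≠ X t1 → False) →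
      (∀ θ, D θ → t1 < θ → θ < t2 → X t1 ≠ X θ → X θ ≠ X t2 → False) → False := by
    intro t0 t1 t2 d0 d1 d2 l1 l2 n1 n2 H1 H2
    refine hB a b B p q C t0 t1 t2 (X t0) (X t1) (X t2) hba hBc hM (ha.trans_lt d0.1.1) l1 l2
      (d2.1.2.trans_le hb) (fun φ hφ => hlt φ (mid d0 d2 hφ)) (hXC _) (hXC _) (hXC _)
      (gen.two_val hC hX (hXC _) (hXC _) l1 fun θ hθ hd => ?_)
      (gen.two_val hC hX (hXC _) (hXC _) l2 fun θ hθ hd => ?_)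
      (st _ _ d0 n1) (st _ _ d1 n1.symm) (st _ _ d1 n2) (st _ _ d2 n2.symm)
    · by_contra hn
      rw [not_or] at hn
      exact H1 θ ⟨mid d0 d1 (Ioo_subset_Icc_self hθ), hd⟩ hθ.1 hθ.2 (Ne.symm hn.1) hn.2
    · by_contra hn
      rw [not_or] at hn
      exact H2 θ ⟨mid d1 d2 (Ioo_subset_Icc_self hθ), hd⟩ hθ.1 hθ.2 (Ne.symm hn.1) hn.2
  have n5 : ∀ t0 t1 t2 t3 t4, D t0 → D t1 → D t2 → D t3 → D t4 → t0 < t1 → t1 < t2 → t2 < t3 →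
      t3 < t4 → X t0 ≠ X t1 → X t1 ≠ X t2 → X t2 ≠ X t3 → X t3 ≠ X t4 → False := by
    intro t0 t1 t2 t3 t4 d0 d1 d2 d3 d4 l1 l2 l3 l4 n1 n2 n3 n4
    obtain ⟨i, hi⟩ := hA a b B p q C ![t0, t1, t2, t3, t4] ![X t0, X t1, X t2, X t3, X t4] hba hBc
      hM (ha.trans_lt d0.1.1) (d4.1.2.trans_le hb)
      (Fin.strictMono_iff_lt_succ.2 fun i => by fin_cases i <;> assumption)
      (fun φ hφ => hlt φ (mid d0 d4 hφ)) (fun i => by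
        fin_cases i
        exacts [⟨d0.2, hXC _, hX _⟩, ⟨d1.2, hXC _, hX _⟩, ⟨d2.2, hXC _, hX _⟩,
          ⟨d3.2, hXC _, hX _⟩, ⟨d4.2, hXC _, hX _⟩])
    fin_cases i
    exacts [n1 hi, n2 hi, n3 hi, n4 hi]
  have n4 : ∀ t0 t1 t2 t3, D t0 → D t1 → D t2 → D t3 → t0 < t1 → t1 < t2 → t2 < t3 →
      X t0 ≠ X t1 → X t1 ≠ X t2 → X t2 ≠ X t3 → False :=
    fun t0 t1 t2 t3 d0 d1 d2 d3 l1 l2 l3 n1 n2 n3 => tight t0 t1 t2 d0 d1 d2 l1 l2 n1 n2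
      (fun θ d k1 k2 m1 m2 => n5 _ _ _ _ _ d0 d d1 d2 d3 k1 k2 l2 l3 m1 m2 n2 n3)
      fun θ d k1 k2 m1 m2 => n5 _ _ _ _ _ d0 d1 d d2 d3 l1 k1 k2 l3 n1 m1 m2 n3
  have n3 : ∀ t0 t1 t2, D t0 → D t1 → D t2 → t0 < t1 → t1 < t2 →
      X t0 ≠ X t1 → X t1 ≠ X t2 → False :=
    fun t0 t1 t2 d0 d1 d2 l1 l2 n1 n2 => tight t0 t1 t2 d0 d1 d2 l1 l2 n1 n2
      (fun θ d k1 k2 m1 m2 => n4 _ _ _ _ d0 d d1 d2 k1 k2 l2 m1 m2 n2)
      fun θ d k1 k2 m1 m2 => n4 _ _ _ _ d0 d1 d d2 l1 k1 k2 n1 m1 m2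
  obtain ⟨s, t, ds, dt, H⟩ : ∃ s t, D s ∧ D t ∧ ∀ θ, D θ →
      (θ < s → X θ = X s) ∧ (t < θ → X θ = X t) ∧ (X θ = X s ∨ X θ = X t) := by
    by_cases hex : ∃ s t, D s ∧ D t ∧ s < t ∧ X s ≠ X t
    · obtain ⟨s, t, ds, dt, l, n⟩ := hex
      refine ⟨s, t, ds, dt, fun θ d => ?_⟩
      have k1 : θ < s → X θ = X s := fun k => by
        by_contra m; exact n3 _ _ _ d ds dt k l m n
      have k2 : t < θ → X θ = X t := fun k => by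
        by_contra m; exact n3 _ _ _ ds dt d l k n (Ne.symm m)
      refine ⟨k1, k2, ?_⟩
      by_contra m
      rw [not_or] at m
      rcases lt_trichotomy θ s with k | k | k
      · exact m.1 (k1 k)
      · exact m.1 (k ▸ rfl)
      rcases lt_trichotomy θ t with k' | k' | k'
      · exact n3 _ _ _ ds d dt k k' (Ne.symm m.1) m.2
      · exact m.2 (k' ▸ rfl)
      · exact m.2 (k2 k')
    · obtain ⟨s, hs, hd⟩ := (lip_h hC).exists_diff hαβ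
      have e : ∀ θ, D θ → X θ = X s := fun θ d => by
        by_contra m
        rcases lt_trichotomy θ s with k | k | k
        · exact hex ⟨θ, s, d, ⟨hs, hd⟩, k, m⟩
        · exact m (k ▸ rfl)
        · exact hex ⟨s, θ, ⟨hs, hd⟩, d, k, Ne.symm m⟩
      exact ⟨s, s, ⟨hs, hd⟩, ⟨hs, hd⟩, fun θ d => ⟨fun _ => e θ d, fun _ => e θ d, .inl (e θ d)⟩⟩
  refine ⟨X s, hXC _, X t, hXC _, ?_, ?_,
    gen.two_val hC hX (hXC _) (hXC _) hαβ fun θ hθ hd => (H θ ⟨hθ, hd⟩).2.2⟩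
  · exact (gen.dense_eq hC (continuous_lin _) ds.1.1 (fun θ hθ hd => by
      rw [← (H θ ⟨⟨hθ.1, hθ.2.trans ds.1.2⟩, hd⟩).1 hθ.2, hX]) α ⟨le_rfl, ds.1.1.le⟩).symm
  · exact (gen.dense_eq hC (continuous_lin _) dt.1.2 (fun θ hθ hd => by
      rw [← (H θ ⟨⟨dt.1.1.trans hθ.1, hθ.2⟩, hd⟩).2.1 hθ.1, hX]) β ⟨dt.1.2.le, le_rfl⟩).symm

end Pool.Agent.Lib.MP_f2780a_gt
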