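import Pool.Agent.Lib.MP_f2780a_gt.Basic
import Pool.Agent.Lib.MP_f2780a_gt.StmtsB

/-! No five differentiability points with consecutive distinct support points. -/

set_option autoImplicit false

noncomputable section

namespace Pool.Agent.Lib.MP_f2780a_gt

open Real MeasureTheory Set Filter Topology

namespace genA

/-- the one sided bump -/
def G (f : ℝ → ℝ) (x : ℂ) (γ φ : ℝ) : ℝ := f (max φ γ) - lin x (max φ γ)

lemma G_left {f : ℝ → ℝ} {x : ℂ} {γ φ : ℝ} (e : lin x γ = f γ) (hφ : φ ≤ γ) : G f x γ φ = 0 := by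
  rw [G, max_eq_right hφ, e, sub_self]

lemma G_right {f : ℝ → ℝ} {x : ℂ} {γ φ : ℝ} (hφ : γ ≤ φ) : G f x γ φ = f φ - lin x φ := by
  rw [G, max_eq_left hφ]

lemma lip_G {f : ℝ → ℝ} (hf : Lip f) (x : ℂ) (γ : ℝ) : Lip (G f x γ) := by
  obtain ⟨K, hK⟩ := hf.sub (lip_lin x)
  exact ⟨_, hK.comp (LipschitzWith.id.max_const γ)⟩

/-- invariant of the gluing -/
def Inv (a b : ℝ) (f F : ℝ → ℝ) (γ s : ℝ) (y : ℂ) : Prop :=
  TC a b F ∧ (∀ φ, γ ≤ φ → F φ = s * f φ + lin y φ) ∧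
    ∀ θ x, γ < θ → θ ≤ b → Sup a b f x θ → Sup a b F (s • x + y) θ

lemma Inv.step {a b : ℝ} {f F : ℝ → ℝ} {γ s : ℝ} {y : ℂ} (H : Inv a b f F γ s y) (hba : b - a ≤ π)
    (hf : TC a b f) {γ' : ℝ} {x : ℂ} (h1 : γ < γ') (h2 : γ' ∈ Icc a b) (hx : Sup a b f x γ')
    {d : ℝ} (hd : 0 ≤ s + d) :
    Inv a b f (fun φ => F φ + d * G f x γ' φ) γ' (s + d) (y - d • x) := by
  have e2 : ∀ φ, γ' ≤ φ → F φ + d * G f x γ' φ = (s + d) * f φ + lin (y - d • x) φ := fun φ hφ => by
    rw [G_right hφ, H.2.1 φ (h1.le.trans hφ), lin_sub, lin_smul]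
    ring
  have e : (fun φ => F φ + d * G f x γ' φ) =
      glue F (fun φ => (s + d) * f φ + lin (y - d • x) φ) γ' := by
    funext φ
    unfold glue
    split_ifs with hφ
    · rw [G_left hx.1 hφ, mul_zero, add_zero]
    · exact e2 φ (not_le.1 hφ).le
  have s1 := H.2.2 γ' x h1 h2.2 hx
  have s2 := hx.affine hd (y - d • x)
  rw [show (s + d) • x + (y - d • x) = s • x + y by module] at s2
  refine ⟨?_, e2, fun θ z h3 h4 hz => ?_⟩
  · rw [e]
    exact TC.glue hba h2 H.1 (hf.affine hd _) s1 s2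
  · rw [e]
    exact sup_glue_right hba h2 s1 s2 h4 h3 (hz.affine hd _)

end genA

open genA in
theorem genA_proof : genA_stmt := by
  intro a b B p q C θ x hba hB hC h0 h4 hθ hlt hx
  by_contra hne
  push Not at hne
  have hCN := hC.1.1
  have hf := lip_h hCN
  have t01 : θ 0 < θ 1 := hθ (by decide)
  have t12 : θ 1 < θ 2 := hθ (by decide)
  have t23 : θ 2 < θ 3 := hθ (by decide)
  have t34 : θ 3 < θ 4 := hθ (by decide)
  have hab : a ≤ b := by linarith
  have hm : ∀ i, θ i ∈ Icc a b := fun i =>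
    ⟨h0.le.trans (hθ.monotone (Fin.zero_le i)), (hθ.monotone (Fin.le_last i)).trans h4.le⟩
  have hs : ∀ i, Sup a b (h C) (x i) (θ i) := fun i => sup_h hCN a b (hx i).2.1 (hx i).2.2
  let g : Fin 5 → ℝ → ℝ := fun i => G (h C) (x i) (θ i)
  have hg : ∀ i, Lip (g i) := fun i => lip_G hf _ _
  obtain ⟨c, hc, i0, hi0⟩ : ∃ c : Fin 5 → ℝ,
      ∑ i, c i • (((1 : ℝ), x i, Ln a b (g i)) : ℝ × ℂ × ℝ) = 0 ∧ ∃ i, c i ≠ 0 := by
    refine Fintype.not_linearIndependent_iff.1 fun hl => ?_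
    have := hl.fintype_card_le_finrank
    simp [Module.finrank_prod] at this
  simp only [Fin.sum_univ_five, Prod.smul_mk, Prod.mk_add_mk, Prod.mk_eq_zero, smul_eq_mul,
    mul_one] at hc
  obtain ⟨c1, c2, c3⟩ := hc
  let Φ : ℝ → ℝ := fun φ => c 0 * g 0 φ + c 1 * g 1 φ + c 2 * g 2 φ + c 3 * g 3 φ + c 4 * g 4 φ
  have k : ∀ i, Lip fun φ => c i * g i φ := fun i => (hg i).const_mul _
  have hΦ : Lip Φ := ((((k 0).add (k 1)).add (k 2)).add (k 3)).add (k 4)
  have gl : ∀ i φ, φ ≤ θ i → g i φ = 0 := fun i φ hφ => G_left (hx i).2.2 hφ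
  have gr : ∀ i φ, θ i ≤ φ → g i φ = h C φ - lin (x i) φ := fun i φ hφ => G_right hφ
  have zl : ∀ φ, φ ≤ θ 0 → Φ φ = 0 := fun φ hφ => by
    have : ∀ i, g i φ = 0 := fun i => gl i φ (hφ.trans (hθ.monotone (Fin.zero_le i)))
    simp [Φ, this]
  have zr : ∀ φ, θ 4 ≤ φ → Φ φ = 0 := fun φ hφ => by
    have : ∀ i, g i φ = h C φ - lin (x i) φ := fun i =>
      gr i φ ((hθ.monotone (Fin.le_last i)).trans hφ)
    have e := congrArg (fun z => lin z φ) c2
    simp only [lin_add, lin_smul, lin_zero] at e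
    simp only [Φ, this]
    linear_combination h C φ * c1 - e
  have hL : Ln a b Φ = 0 := by
    simp only [Φ]
    rw [Ln_add ((((k 0).add (k 1)).add (k 2)).add (k 3)).continuous (k 4).continuous,
      Ln_add (((k 0).add (k 1)).add (k 2)).continuous (k 3).continuous,
      Ln_add ((k 0).add (k 1)).continuous (k 2).continuous,
      Ln_add (k 0).continuous (k 1).continuous]
    simpa only [Ln_const_mul] using c3
  have ev1 : ∀ᶠ t in 𝓝 (0 : ℝ), ∀ φ ∈ Icc (θ 0) (θ 4), h C φ + t * Φ φ < B φ := by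
    refine isCompact_Icc.eventually_forall_of_forall_eventually fun φ hφ => ?_
    have hBc : ContinuousAt B φ :=
      hB.continuousAt (Icc_mem_nhds (h0.trans_le hφ.1) (hφ.2.trans_lt h4))
    have k1 := hf.continuous
    have k2 := hΦ.continuous
    refine ContinuousAt.eventually_lt (f := fun z : ℝ × ℝ => h C z.2 + z.1 * Φ z.2)
      (g := fun z : ℝ × ℝ => B z.2) (by fun_prop) (hBc.comp_of_eq continuousAt_snd rfl) ?_
    simpa using hlt φ hφ
  have ev2 : ∀ r : ℝ, ∀ᶠ t in 𝓝 (0 : ℝ), 0 < 1 + t * r := fun r =>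
    ContinuousAt.eventually_lt (f := fun _ => (0 : ℝ)) (g := fun t : ℝ => 1 + t * r)
      continuousAt_const (by fun_prop) (by simp)
  have ev : ∀ᶠ t in 𝓝 (0 : ℝ), 0 ≤ 2 * t * V a b (h C) Φ + t ^ 2 * V a b Φ Φ := by
    filter_upwards [ev1, ev2 (c 0), ev2 (c 0 + c 1), ev2 (c 0 + c 1 + c 2),
      ev2 (c 0 + c 1 + c 2 + c 3), ev2 (c 0 + c 1 + c 2 + c 3 + c 4)] with t e0 e1 e2 e3 e4 e5
    have tc := tc_h hCN a b
    have I0 : Inv a b (h C) (h C) a 1 0 := ⟨tc, fun φ _ => by simp, fun θ x _ _ hx => by simpa using hx⟩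
    have I := (((((I0.step hba tc h0 (hm 0) (hs 0) (d := t * c 0) e1.le).step hba tc t01 (hm 1) (hs 1)
      (d := t * c 1) (by linarith)).step hba tc t12 (hm 2) (hs 2) (d := t * c 2) (by linarith)).step
      hba tc t23 (hm 3) (hs 3) (d := t * c 3) (by linarith)).step hba tc t34 (hm 4) (hs 4)
      (d := t * c 4) (by linarith)).1
    have I' : TC a b fun φ => h C φ + t * Φ φ := by
      refine (congrArg (TC a b) (funext fun φ => ?_)).mp I
      simp only [Φ, g]
      ring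
    obtain ⟨C', hC', e⟩ := hC.1.modify hba I' h0 (by linarith) h4
      (fun φ hφ => by rw [zl φ hφ.2, mul_zero, add_zero])
      (fun φ hφ => by rw [zr φ hφ.1, mul_zero, add_zero]) fun φ hφ => (e0 φ hφ).le
    have l : Le a b C' = Le a b C := by
      rw [Le, Ln_congr hab e, Ln_add hf.continuous (hΦ.const_mul t).continuous, Ln_const_mul, hL,
        mul_zero, add_zero, Le]
    have := hC.2 C' hC' l.ge
    rw [Ar, Ar, V_congr hab e e, V_sq_add hf (hΦ.const_mul t), V_const_mul_right hf hΦ,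
      V_const_mul hΦ (hΦ.const_mul t), V_const_mul_right hΦ hΦ] at this
    linarith
  have hV : 0 ≤ V a b Φ Φ := by
    have ev' := (continuous_neg.tendsto' (0 : ℝ) 0 neg_zero).eventually ev
    obtain ⟨t, ⟨e1, e2⟩, ht⟩ := (((ev.and ev').filter_mono nhdsWithin_le_nhds).and
      (self_mem_nhdsWithin (a := (0 : ℝ)) (s := {0}ᶜ))).exists
    have : 0 < t ^ 2 := pow_pos (abs_pos.2 ht) 2 |>.trans_eq (sq_abs t)
    exact le_of_mul_le_mul_left (by linarith) this
  have z : ∀ φ ∈ Icc (θ 0) (θ 4), Φ φ = 0 := by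
    by_contra hz
    push Not at hz
    have v := poincare hΦ (by linarith) (by linarith) (zl _ le_rfl) (zr _ le_rfl) hz
    have v1 : V a (θ 0) Φ Φ = 0 := by
      rw [V_congr h0.le (f' := fun _ => 0) (g' := fun _ => 0) (fun φ hφ => zl φ hφ.2)
        (fun φ hφ => zl φ hφ.2), V_const]
      simp
    have v2 : V (θ 4) b Φ Φ = 0 := by
      rw [V_congr h4.le (f' := fun _ => 0) (g' := fun _ => 0) (fun φ hφ => zr φ hφ.1)
        (fun φ hφ => zr φ hφ.1), V_const]
      simp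
    linarith [V_split hΦ hΦ a (θ 0) (θ 4), V_split hΦ hΦ a (θ 4) b]
  have n : ∀ i : Fin 4, g i.castSucc (θ i.succ) ≠ 0 := fun i e => by
    rw [gr _ _ (hθ Fin.castSucc_lt_succ).le, sub_eq_zero] at e
    exact hne i (support_unique hCN (hx _).1 (hx _).2.1 e.symm (hx _).2.1 (hx _).2.2)
  have d0 : c 0 = 0 := by
    have := z (θ 1) ⟨by linarith, by linarith⟩
    simp only [Φ] at this
    rw [gl 1 _ le_rfl, gl 2 _ (by linarith), gl 3 _ (by linarith), gl 4 _ (by linarith)] at this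
    exact (mul_eq_zero.1 (by linarith)).resolve_right
      (show g 0 (θ 1) ≠ 0 from n 0)
  have d1 : c 1 = 0 := by
    have := z (θ 2) ⟨by linarith, by linarith⟩
    simp only [Φ] at this
    rw [d0, gl 2 _ le_rfl, gl 3 _ (by linarith), gl 4 _ (by linarith)] at this
    exact (mul_eq_zero.1 (by linarith)).resolve_right
      (show g 1 (θ 2) ≠ 0 from n 1)
  have d2 : c 2 = 0 := by
    have := z (θ 3) ⟨by linarith, by linarith⟩
    simp only [Φ] at this
    rw [d0, d1, gl 3 _ le_rfl, gl 4 _ (by linarith)] at this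
    exact (mul_eq_zero.1 (by linarith)).resolve_right
      (show g 2 (θ 3) ≠ 0 from n 2)
  have d3 : c 3 = 0 := by
    have := z (θ 4) ⟨by linarith, by linarith⟩
    simp only [Φ] at this
    rw [d0, d1, d2, gl 4 _ le_rfl] at this
    exact (mul_eq_zero.1 (by linarith)).resolve_right
      (show g 3 (θ 4) ≠ 0 from n 3)
  have d4 : c 4 = 0 := by linarith
  fin_cases i0 <;> contradiction

end Pool.Agent.Lib.MP_f2780a_gt
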