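import Pool.Agent.Lib.MP_f2780a_gt.Basic
import Pool.Agent.Lib.MP_f2780a_gt.StmtsB

set_option autoImplicit false

noncomputable section

namespace Pool.Agent.Lib.MP_f2780a_gt

open Real MeasureTheory Set Filter Topology

namespace genB

lemma tri_strict {v w : ℂ} (hd : dt v w ≠ 0) : ‖v + w‖ < ‖v‖ + ‖w‖ := by
  have h1 := ip_sq_add_dt_sq v w
  have h2 : ‖v + w‖ ^ 2 = ‖v‖ ^ 2 + ‖w‖ ^ 2 + 2 * ip v w := by
    rw [← ip_self, ← ip_self, ← ip_self]
    simp [ip]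
    ring
  have h3 : ip v w < ‖v‖ * ‖w‖ := by
    refine lt_of_pow_lt_pow_left₀ 2 (by positivity) ?_
    have := sq_pos_of_ne_zero hd
    rw [mul_pow]
    linarith
  refine lt_of_pow_lt_pow_left₀ 2 (by positivity) ?_
  nlinarith

lemma small {S : Set ℂ} {w : ℂ} (hS : S ∈ 𝓝 w) (v : ℂ) :
    ∃ e : ℝ, 0 < e ∧ w + e • v ∈ S ∧ w - e • v ∈ S := by
  have h1 : Tendsto (fun e : ℝ => w + e • v) (𝓝 0) (𝓝 w) :=
    Continuous.tendsto' (by fun_prop) _ _ (by simp)
  have h2 : Tendsto (fun e : ℝ => w - e • v) (𝓝 0) (𝓝 w) :=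
    Continuous.tendsto' (by fun_prop) _ _ (by simp)
  have h3 : ∀ᶠ e : ℝ in 𝓝[>] 0, 0 < e ∧ w + e • v ∈ S ∧ w - e • v ∈ S :=
    eventually_mem_nhdsWithin.and (((h1.eventually hS).and (h2.eventually hS)).filter_mono
      nhdsWithin_le_nhds)
  exact h3.exists

/-- a vertex off the line through its neighbours can be moved -/
lemma move {x y z : ℂ} (hd : dt (y - x) (z - x) ≠ 0) {S : Set ℂ} (hS : S ∈ 𝓝 y) :
    ∃ w ∈ S, ‖y - x‖ + ‖z - y‖ ≤ ‖w - x‖ + ‖z - w‖ ∧ dt x w + dt w z < dt x y + dt y z := by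
  obtain ⟨t, ht, h1, h2⟩ := small (interior_mem_nhds.mpr hS) (z - x)
  have key : ∃ w ∈ interior S, ‖y - x‖ + ‖z - y‖ < ‖w - x‖ + ‖z - w‖ ∧
      dt x w + dt w z = dt x y + dt y z := by
    have e1 : ‖(y + t • (z - x) - x) + (y - t • (z - x) - x)‖ <
        ‖y + t • (z - x) - x‖ + ‖y - t • (z - x) - x‖ := by
      refine tri_strict ?_
      have : dt (y + t • (z - x) - x) (y - t • (z - x) - x) = -2 * t * dt (y - x) (z - x) := by
        simp [dt]
        ring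
      rw [this]
      exact mul_ne_zero (mul_ne_zero (by norm_num) ht.ne') hd
    have e2 := norm_add_le (z - (y + t • (z - x))) (z - (y - t • (z - x)))
    have e3 : (y + t • (z - x) - x) + (y - t • (z - x) - x) = (2 : ℝ) • (y - x) := by
      rw [two_smul]
      ring
    have e4 : (z - (y + t • (z - x))) + (z - (y - t • (z - x))) = (2 : ℝ) • (z - y) := by
      rw [two_smul]
      ring
    rw [e3, norm_smul, Real.norm_two] at e1
    rw [e4, norm_smul, Real.norm_two] at e2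
    by_cases hc : ‖y - x‖ + ‖z - y‖ < ‖y + t • (z - x) - x‖ + ‖z - (y + t • (z - x))‖
    · refine ⟨_, h1, hc, ?_⟩
      simp [dt]
      ring
    · refine ⟨_, h2, by linarith [not_lt.mp hc], ?_⟩
      simp [dt]
      ring
  obtain ⟨w, hw, hL, hA⟩ := key
  have hn : {v | v ∈ S ∧ ‖y - x‖ + ‖z - y‖ < ‖v - x‖ + ‖z - v‖} ∈ 𝓝 w :=
    inter_mem (mem_interior_iff_mem_nhds.mp hw)
      ((isOpen_lt (g := fun v : ℂ => ‖v - x‖ + ‖z - v‖) continuous_const (by fun_prop)).mem_nhds hL)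
  obtain ⟨e, he, h3, -⟩ := small hn (Complex.I * (z - x))
  refine ⟨_, h3.1, h3.2.le, ?_⟩
  have hz : z - x ≠ 0 := fun h0 => hd (by rw [h0]; simp [dt])
  have h4 : 0 < ip (z - x) (z - x) := by
    rw [ip_self]
    exact pow_pos (norm_pos_iff.mpr hz) 2
  have h5 : dt x (w + e • (Complex.I * (z - x))) + dt (w + e • (Complex.I * (z - x))) z =
      dt x w + dt w z - e * ip (z - x) (z - x) := by
    simp [dt, ip]
    ring
  rw [h5, hA]
  linarith [mul_pos he h4]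

/-- length and area of a cap with two edges in the window -/
lemma win {a b t0 t1 t2 : ℝ} {C : Set ℂ} {x y z : ℂ} (hC : CN C) (hba : t2 - t0 < π)
    (h01 : t0 < t1) (h12 : t1 < t2)
    (e1 : ∀ φ ∈ Icc t0 t1, h C φ = max (lin x φ) (lin y φ))
    (e2 : ∀ φ ∈ Icc t1 t2, h C φ = max (lin y φ) (lin z φ))
    (s0 : lin y t0 < lin x t0) (s1 : lin x t1 < lin y t1) (s2 : lin z t1 < lin y t1)
    (s3 : lin y t2 < lin z t2) :
    Le a b C = Le a t0 C + Le t2 b C + (lin' x t0 - lin' z t2) + (‖y - x‖ + ‖z - y‖) ∧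
    Ar a b C = Ar a t0 C + Ar t2 b C + (lin x t0 * lin' x t0 - lin z t2 * lin' z t2) / 2 +
      (dt x y + dt y z) / 2 := by
  obtain ⟨l1, a1⟩ := two h01 (by linarith) s0.le s1.le (Or.inr s0) e1
  obtain ⟨l2, a2⟩ := two h12 (by linarith) s2.le s3.le (Or.inr s2) e2
  have l3 := Le_split hC a t0 t1
  have l4 := Le_split hC a t1 t2
  have l5 := Le_split hC a t2 b
  have a3 := Ar_split hC a t0 t1
  have a4 := Ar_split hC a t1 t2
  have a5 := Ar_split hC a t2 b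
  change Le t0 t1 C = _ at l1
  change Le t1 t2 C = _ at l2
  change Ar t0 t1 C = _ at a1
  change Ar t1 t2 C = _ at a2
  constructor <;> linarith

end genB

theorem genB_proof : genB_stmt := by
  intro a b B p q C t0 t1 t2 x y z hba hB hM h0 h01 h12 h2 hlt hx hy hz e1 e2 s0 s1 s2 s3
  have hC := hM.1.1
  have hpi : t2 - t0 < π := by linarith
  have hd : dt (y - x) (z - x) ≠ 0 := by
    intro hd
    have h3 := dt_sinus (y - x) (z - y) t1 t2
    have h4 : dt (y - x) (z - y) = dt (y - x) (z - x) := by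
      simp [dt]
      ring
    rw [h4, hd, zero_mul] at h3
    have h5 : lin (y - x) t2 ≤ 0 := by
      simp only [lin_sub] at h3 ⊢
      by_contra hc
      nlinarith [mul_pos (sub_pos.mpr s1) (sub_pos.mpr s3), mul_pos (not_le.mp hc) (sub_pos.mpr s2)]
    have h6 := sinus_mid h01.le h12.le (h01.trans h12) hpi (by rw [lin_sub]; linarith) h5
    rw [lin_sub] at h6
    linarith
  obtain ⟨φ0, hφ0, hmin⟩ := (isCompact_Icc (a := t0) (b := t2)).exists_isMinOn
    ⟨t0, le_rfl, by linarith⟩ ((hB.mono (Icc_subset_Icc h0.le h2.le)).sub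
      (continuous_h hC).continuousOn)
  have hS : {w : ℂ | (lin w t0 < lin x t0 ∧ lin x t1 < lin w t1) ∧
      (lin z t1 < lin w t1 ∧ lin w t2 < lin z t2) ∧ ‖w - y‖ < B φ0 - h C φ0} ∈ 𝓝 y := by
    refine inter_mem (inter_mem ?_ ?_) (inter_mem (inter_mem ?_ ?_) ?_)
    · exact (isOpen_lt (continuous_lin_left t0) continuous_const).mem_nhds s0
    · exact (isOpen_lt continuous_const (continuous_lin_left t1)).mem_nhds s1
    · exact (isOpen_lt continuous_const (continuous_lin_left t1)).mem_nhds s2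
    · exact (isOpen_lt (continuous_lin_left t2) continuous_const).mem_nhds s3
    · refine (isOpen_lt (f := fun w : ℂ => ‖w - y‖) (by fun_prop) continuous_const).mem_nhds ?_
      change ‖y - y‖ < _
      rw [sub_self, norm_zero]
      exact sub_pos.mpr (hlt φ0 hφ0)
  obtain ⟨w, ⟨⟨r0, r1⟩, ⟨r2, r3⟩, r4⟩, hL, hA⟩ := genB.move hd hS
  have hw : ∀ φ ∈ Icc t0 t2, lin w φ ≤ B φ := by
    intro φ hφ
    have h3 : B φ0 - h C φ0 ≤ B φ - h C φ := hmin hφ
    have h4 := lin_le_norm (w - y) φ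
    rw [lin_sub] at h4
    linarith [lin_le_h hC hy φ]
  have c1 : CN {x, w} := (cn_singleton w).insert x
  have c2 : CN {w, z} := (cn_singleton z).insert w
  have m0 : t0 ∈ Icc a b := ⟨h0.le, by linarith⟩
  have m1 : t1 ∈ Icc a b := ⟨by linarith, by linarith⟩
  have m2 : t2 ∈ Icc a b := ⟨by linarith, h2.le⟩
  have p0 : Sup a b (h C) x t0 :=
    sup_h hC a b hx (by rw [e1 t0 ⟨le_rfl, h01.le⟩, max_eq_left s0.le])
  have q0 : Sup a b (h {x, w}) x t0 :=
    sup_h c1 a b (mem_insert _ _) (by rw [h_pair, max_eq_left r0.le])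
  have p1 : Sup a b (glue (h C) (h {x, w}) t0) w t1 :=
    sup_glue_right hba m0 p0 q0 m1.2 h01
      (sup_h c1 a b (mem_insert_of_mem _ rfl) (by rw [h_pair, max_eq_right r1.le]))
  have q1 : Sup a b (h {w, z}) w t1 :=
    sup_h c2 a b (mem_insert _ _) (by rw [h_pair, max_eq_left r2.le])
  have p2 : Sup a b (glue (glue (h C) (h {x, w}) t0) (h {w, z}) t1) z t2 :=
    sup_glue_right hba m1 p1 q1 m2.2 h12
      (sup_h c2 a b (mem_insert_of_mem _ rfl) (by rw [h_pair, max_eq_right r3.le]))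
  have q2 : Sup a b (h C) z t2 :=
    sup_h hC a b hz (by rw [e2 t2 ⟨h12.le, le_rfl⟩, max_eq_right s3.le])
  have hT := TC.glue hba m2 (TC.glue hba m1 (TC.glue hba m0 (tc_h hC a b) (tc_h c1 a b) p0 q0)
    (tc_h c2 a b) p1 q1) (tc_h hC a b) p2 q2
  set F := glue (glue (glue (h C) (h {x, w}) t0) (h {w, z}) t1) (h C) t2 with hF
  have f0 : ∀ θ ∈ Icc a t0, F θ = h C θ := fun θ hθ => by
    rw [hF, glue_left (by linarith [hθ.2]), glue_left (by linarith [hθ.2]), glue_left hθ.2]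
  have f1 : ∀ θ ∈ Icc t0 t1, F θ = max (lin x θ) (lin w θ) := fun θ hθ => by
    rw [hF, glue_left (by linarith [hθ.2]), glue_left hθ.2,
      glue_right (p0.1.symm.trans q0.1) hθ.1, h_pair]
  have f2 : ∀ θ ∈ Icc t1 t2, F θ = max (lin w θ) (lin z θ) := fun θ hθ => by
    rw [hF, glue_left hθ.2, glue_right (p1.1.symm.trans q1.1) hθ.1, h_pair]
  have f3 : ∀ θ ∈ Icc t2 b, F θ = h C θ := fun θ hθ => by
    rw [hF, glue_right (p2.1.symm.trans q2.1) hθ.1]
  obtain ⟨C', hC', e⟩ := hM.1.modify hba hT h0 (h01.trans h12).le h2 f0 f3 fun θ hθ => by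
    rcases le_total θ t1 with hc | hc
    · rw [f1 θ ⟨hθ.1, hc⟩]
      exact max_le ((lin_le_h hC hx θ).trans (hlt θ hθ).le) (hw θ hθ)
    · rw [f2 θ ⟨hc, hθ.2⟩]
      exact max_le (hw θ hθ) ((lin_le_h hC hz θ).trans (hlt θ hθ).le)
  obtain ⟨l1, a1⟩ := genB.win (a := a) (b := b) hC hpi h01 h12 e1 e2 s0 s1 s2 s3
  obtain ⟨l2, a2⟩ := genB.win (a := a) (b := b) hC'.1 hpi h01 h12
    (fun θ hθ => (e θ ⟨by linarith [hθ.1], by linarith [hθ.2]⟩).trans (f1 θ hθ))
    (fun θ hθ => (e θ ⟨by linarith [hθ.1], by linarith [hθ.2]⟩).trans (f2 θ hθ)) r0 r1 r2 r3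
  have g0 : ∀ θ ∈ Icc a t0, h C' θ = h C θ := fun θ hθ =>
    (e θ ⟨hθ.1, by linarith [hθ.2]⟩).trans (f0 θ hθ)
  have g3 : ∀ θ ∈ Icc t2 b, h C' θ = h C θ := fun θ hθ =>
    (e θ ⟨by linarith [hθ.1], hθ.2⟩).trans (f3 θ hθ)
  rw [Le_congr h0.le g0, Le_congr h2.le g3] at l2
  rw [Ar_congr h0.le g0, Ar_congr h2.le g3] at a2
  have := hM.2 C' hC' (by linarith)
  linarith

end Pool.Agent.Lib.MP_f2780a_gt
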