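import Pool.Agent.Lib.MP_f2780a_gt.Basic
import Pool.Agent.Lib.MP_f2780a_gt.StmtsB

/-! An inscribed affine regular hexagon with three concurrent strips. -/

set_option autoImplicit false

noncomputable section

namespace Pool.Agent.Lib.MP_f2780a_gt

open Real MeasureTheory Set Filter Topology

namespace HexA

/-- a symmetric convex body -/
structure Sym (S : Set ℂ) : Prop where
  cpt : IsCompact S
  cvx : Convex ℝ S
  neg : ∀ x ∈ S, -x ∈ S
  nhd : S ∈ 𝓝 (0 : ℂ)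

/-- the polar body -/
def Pol (S : Set ℂ) : Set ℂ := {n | ∀ x ∈ S, ip x n ≤ 1}

/-- inscribed hexagons with normals and first vertex `s` -/
def Fib (S : Set ℂ) (s : ℂ) : Set (ℂ × ℂ × ℂ × ℂ) :=
  {p | p.1 ∈ S ∧ p.2.1 ∈ Pol S ∧ p.2.2.1 ∈ Pol S ∧ p.2.2.2 ∈ Pol S ∧ s + p.1 ∈ S ∧ 0 ≤ dt s p.1 ∧
    ip s p.2.1 = 1 ∧ ip (s + p.1) p.2.2.1 = 1 ∧ ip p.1 p.2.2.2 = 1}

lemma ip_add_r (x v w : ℂ) : ip x (v + w) = ip x v + ip x w := by simp [ip]; ring
lemma ip_smul_r (t : ℝ) (x v : ℂ) : ip x (t • v) = t * ip x v := by simp [ip]; ring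
lemma ip_neg_r (x v : ℂ) : ip x (-v) = -ip x v := by simp [ip]; ring
lemma lagr (s a n m : ℂ) : ip s n * ip a m - ip s m * ip a n = dt s a * dt n m := by
  unfold ip dt; ring

lemma convex_Pol (S : Set ℂ) : Convex ℝ (Pol S) := by
  intro n hn m hm a b ha hb hab x hx
  rw [ip_add_r, ip_smul_r, ip_smul_r]
  nlinarith [hn x hx, hm x hx]

lemma isCompact_Pol {S : Set ℂ} (hS : Sym S) : IsCompact (Pol S) := by
  obtain ⟨r, hr, hb⟩ := Metric.nhds_basis_closedBall.mem_iff.1 hS.nhd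
  refine Metric.isCompact_of_isClosed_isBounded ?_ ?_
  · have : Pol S = ⋂ x ∈ S, {n | ip x n ≤ 1} := by ext n; simp [Pol]
    rw [this]
    refine isClosed_biInter fun x _ => isClosed_le ?_ continuous_const
    unfold ip; fun_prop
  · refine (Metric.isBounded_closedBall (x := (0 : ℂ)) (r := 1 / r)).subset fun n hn => ?_
    obtain ⟨θ, -, -, e⟩ := exists_polar n
    have h1 : r • u θ ∈ S := hb (by simp [abs_of_pos hr])
    have h2 := hn _ h1
    rw [e, ip_smul, ip_smul_r, ip_self, norm_u] at h2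
    rw [mem_closedBall_zero_iff, le_div_iff₀ hr]
    linarith

lemma signs {S : Set ℂ} {s a n1 n2 n3 : ℂ} (hs : s ∈ S) (h : (a, n1, n2, n3) ∈ Fib S s) :
    ip s n3 ≤ 0 ∧ 0 ≤ ip s n2 ∧ 0 ≤ ip a n2 ∧ ip a n1 ≤ 0 := by
  obtain ⟨ha, p1, p2, p3, hsa, -, e1, e2, e3⟩ := h
  dsimp only at *
  have a1 := p3 _ hsa
  have a2 := p2 _ ha
  have a3 := p2 _ hs
  have a4 := p1 _ hsa
  rw [ip_add] at a1 a4 e2
  refine ⟨?_, ?_, ?_, ?_⟩ <;> linarith

lemma dt_pos {S : Set ℂ} {s a n1 n2 n3 : ℂ} (hs : s ∈ S) (h : (a, n1, n2, n3) ∈ Fib S s) :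
    0 < dt s a := by
  obtain ⟨s1, s2, s3, s4⟩ := signs hs h
  obtain ⟨ha, p1, p2, p3, hsa, hd, e1, e2, e3⟩ := h
  dsimp only at *
  refine hd.lt_of_ne fun h0 => ?_
  have l1 := lagr s a n2 n3
  have l2 := lagr s a n1 n3
  rw [← h0, zero_mul, e3] at l1 l2
  rw [ip_add] at e2
  have k1 : ip s n2 = 0 := by nlinarith
  have k2 : ip a n2 = 1 := by linarith
  rw [k1, k2] at l1
  have k3 : ip s n3 = 0 := by linarith
  rw [k3, e1] at l2
  norm_num at l2

lemma par {s w n1 : ℂ} (e1 : ip s n1 = 1) (hw : dt s w = 0) : w = ip w n1 • s := by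
  have l1 := lagr s w n1 1
  have l2 := lagr s w n1 Complex.I
  rw [hw, e1, zero_mul] at l1 l2
  apply Complex.ext
  · simp only [ip, Complex.one_re, Complex.one_im, mul_one, mul_zero, add_zero] at l1
    simp only [Complex.smul_re, smul_eq_mul, ip]; linarith
  · simp only [ip, Complex.I_re, Complex.I_im, mul_one, mul_zero, zero_add] at l2
    simp only [Complex.smul_im, smul_eq_mul, ip]; linarith

lemma dt_not_lt {S : Set ℂ} (hS : Sym S) {s a n1 n2 n3 a' m1 m2 m3 : ℂ} (hs : s ∈ S)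
    (h : (a, n1, n2, n3) ∈ Fib S s) (h' : (a', m1, m2, m3) ∈ Fib S s) : ¬dt s a < dt s a' := by
  intro hlt
  have d0 := dt_pos hs h
  obtain ⟨s1, s2, s3, s4⟩ := signs hs h
  obtain ⟨ha, p1, p2, p3, hsa, hd, e1, e2, e3⟩ := h
  obtain ⟨ha', -, -, -, hsa', -⟩ := h'
  dsimp only at *
  have d1 : 0 < dt s a' := by linarith
  obtain ⟨τ, hτ⟩ : ∃ τ : ℝ, τ = dt s a / dt s a' := ⟨_, rfl⟩
  have t0 : 0 < τ := by rw [hτ]; positivity
  have t1 : τ < 1 := by rw [hτ, div_lt_one d1]; exact hlt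
  have hw : dt s (τ • a' - a) = 0 := by
    have : dt s (τ • a' - a) = τ * dt s a' - dt s a := by simp [dt]; ring
    rw [this, hτ]; field_simp; ring
  have hp := par e1 hw
  obtain ⟨γ, hγ⟩ : ∃ γ : ℝ, γ = ip (τ • a' - a) n1 := ⟨_, rfl⟩
  rw [← hγ] at hp
  have key : ∀ n, τ * ip a' n = ip a n + γ * ip s n := fun n => by
    have := congrArg (fun z => ip z n) hp
    simp only [ip_sub, ip_smul] at this
    linarith
  have hP := p3 _ (hS.cvx ha' (hS.neg _ hs) t0.le (sub_nonneg.2 t1.le) (by ring))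
  have hQ := p2 _ (hS.cvx hsa' hs t0.le (sub_nonneg.2 t1.le) (by ring))
  simp only [ip_add, ip_smul, ip_neg] at hP hQ e2
  have k2 := key n2
  have k3 := key n3
  have b2 := p2 _ ha'
  have b3 := p3 _ ha'
  rcases s1.eq_or_lt with z3 | z3
  · rw [z3, e3] at k3
    nlinarith
  · have g0 : 1 - τ ≤ γ := by
      by_contra hc
      have : 0 < (γ - (1 - τ)) * ip s n3 := mul_pos_of_neg_of_neg (by linarith) z3
      nlinarith
    have z2 : ip s n2 = 0 := by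
      refine le_antisymm ?_ s2
      by_contra hc
      have : 0 < γ * ip s n2 := mul_pos (by linarith) (by linarith)
      nlinarith
    rw [z2] at k2 e2
    nlinarith

lemma join_n {S : Set ℂ} {s a n1 n2 n3 m1 m2 m3 : ℂ}
    (h : (a, n1, n2, n3) ∈ Fib S s) (h' : (a, m1, m2, m3) ∈ Fib S s) :
    JoinedIn (Fib S s) (a, n1, n2, n3) (a, m1, m2, m3) := by
  refine JoinedIn.of_segment_subset ?_
  rintro _ ⟨x, y, hx, hy, hxy, rfl⟩
  obtain ⟨ha, p1, p2, p3, hsa, hd, e1, e2, e3⟩ := h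
  obtain ⟨-, q1, q2, q3, -, -, f1, f2, f3⟩ := h'
  dsimp only at *
  have e : x • a + y • a = a := by rw [← add_smul, hxy, one_smul]
  simp only [Fib, mem_ofPred_eq, Prod.smul_mk, Prod.mk_add_mk, e, ip_add_r, ip_smul_r, e1, e2, e3,
    f1, f2, f3, mul_one, hxy, and_true]
  exact ⟨ha, convex_Pol S p1 q1 hx hy hxy, convex_Pol S p2 q2 hx hy hxy,
    convex_Pol S p3 q3 hx hy hxy, hsa, hd⟩

lemma join_a {S : Set ℂ} (hS : Sym S) {s a a' n1 n2 n3 : ℂ}
    (h : (a, n1, n2, n3) ∈ Fib S s) (h' : (a', n1, n2, n3) ∈ Fib S s) :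
    JoinedIn (Fib S s) (a, n1, n2, n3) (a', n1, n2, n3) := by
  refine JoinedIn.of_segment_subset ?_
  rintro _ ⟨x, y, hx, hy, hxy, rfl⟩
  obtain ⟨ha, p1, p2, p3, hsa, hd, e1, e2, e3⟩ := h
  obtain ⟨ha', -, -, -, hsa', hd', -, f2, f3⟩ := h'
  dsimp only at *
  have e : ∀ z : ℂ, x • z + y • z = z := fun z => by rw [← add_smul, hxy, one_smul]
  have e' : s + (x • a + y • a') = x • (s + a) + y • (s + a') := by
    rw [smul_add, smul_add, add_add_add_comm, e]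
  have e'' : dt s (x • a + y • a') = x * dt s a + y * dt s a' := by simp [dt]; ring
  simp only [Fib, mem_ofPred_eq, Prod.smul_mk, Prod.mk_add_mk, e]
  refine ⟨hS.cvx ha ha' hx hy hxy, p1, p2, p3, e' ▸ hS.cvx hsa hsa' hx hy hxy, ?_, e1, ?_, ?_⟩
  · rw [e'']; positivity
  · rw [e', ip_add, ip_smul, ip_smul, e2, f2]; linarith
  · rw [ip_add, ip_smul, ip_smul, e3, f3]; linarith

lemma join_pos {S : Set ℂ} (hS : Sym S) {s a n1 n2 n3 a' m1 m2 m3 : ℂ} (hs : s ∈ S)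
    (h : (a, n1, n2, n3) ∈ Fib S s) (h' : (a', m1, m2, m3) ∈ Fib S s) {β : ℝ} (hβ : 0 < β)
    (e : a' - a = β • s) : JoinedIn (Fib S s) (a, n1, n2, n3) (a', m1, m2, m3) := by
  obtain ⟨s1, s2, s3, s4⟩ := signs hs h
  have hh := h
  have hh' := h'
  obtain ⟨ha, p1, p2, p3, hsa, hd, e1, e2, e3⟩ := hh
  obtain ⟨ha', -, -, -, hsa', hd', -⟩ := hh'
  dsimp only at *
  have k := congrArg (fun z => ip z n2) e
  simp only [ip_sub, ip_smul] at k
  have b := p2 _ hsa'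
  rw [ip_add] at b e2
  have z2 : ip s n2 = 0 := by
    refine le_antisymm ?_ s2
    by_contra hc
    have : 0 < β * ip s n2 := mul_pos hβ (by linarith)
    linarith
  rw [z2] at k e2
  have m : (a, n1, n2, n2) ∈ Fib S s :=
    ⟨ha, p1, p2, p2, hsa, hd, e1, by dsimp only; rw [ip_add]; linarith, by dsimp only; linarith⟩
  have m' : (a', n1, n2, n2) ∈ Fib S s :=
    ⟨ha', p1, p2, p2, hsa', hd', e1, by dsimp only; rw [ip_add]; linarith,
      by dsimp only; linarith⟩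
  exact ((join_n h m).trans (join_a hS m m')).trans (join_n m' h')

lemma join {S : Set ℂ} (hS : Sym S) {s : ℂ} (hs : s ∈ S) {p q : ℂ × ℂ × ℂ × ℂ}
    (h : p ∈ Fib S s) (h' : q ∈ Fib S s) : JoinedIn (Fib S s) p q := by
  obtain ⟨a, n1, n2, n3⟩ := p
  obtain ⟨a', m1, m2, m3⟩ := q
  have e : dt s a = dt s a' :=
    le_antisymm (not_lt.1 (dt_not_lt hS hs h' h)) (not_lt.1 (dt_not_lt hS hs h h'))
  have hw : dt s (a' - a) = 0 := by
    have : dt s (a' - a) = dt s a' - dt s a := by simp [dt]; ring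
    rw [this, e, sub_self]
  have hp := par (n1 := n1) h.2.2.2.2.2.2.1 hw
  rcases lt_trichotomy (ip (a' - a) n1) 0 with hβ | hβ | hβ
  · refine (join_pos hS hs h' h (neg_pos.2 hβ) ?_).symm
    rw [neg_smul, ← hp, neg_sub]
  · rw [hβ, zero_smul, sub_eq_zero] at hp
    subst hp
    exact join_n h h'
  · exact join_pos hS hs h h' hβ hp

lemma normal {S : Set ℂ} (hS : Sym S) {x : ℂ} (hx : gauge S x = 1) :
    x ∈ S ∧ ∃ n ∈ Pol S, ip x n = 1 := by
  refine ⟨?_, ?_⟩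
  · rw [← hS.cpt.isClosed.closure_eq, ← gauge_le_one_iff_mem_closure hS.cvx hS.nhd]
    exact hx.le
  · have h1 : x ∉ interior S := by
      rw [← gauge_lt_one_iff_mem_interior hS.cvx hS.nhd, hx]; exact lt_irrefl _
    obtain ⟨θ, hθ⟩ := exists_normal ⟨hS.cpt, hS.cvx, 0, mem_interior_iff_mem_nhds.2 hS.nhd⟩ h1
    obtain ⟨r, hr, hb⟩ := Metric.nhds_basis_closedBall.mem_iff.1 hS.nhd
    have h2 := hθ (r • u θ) (hb (by simp [abs_of_pos hr]))
    rw [lin_smul, lin_u_self] at h2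
    have h3 : 0 < lin x θ := by linarith
    refine ⟨(lin x θ)⁻¹ • u θ, fun y hy => ?_, ?_⟩
    · rw [ip_smul_r, inv_mul_le_iff₀ h3, mul_one]; exact hθ y hy
    · rw [ip_smul_r]; exact inv_mul_cancel₀ h3.ne'

lemma exists_fib {S : Set ℂ} (hS : Sym S) (φ : ℝ) :
    ∃ s ∈ S, dt (u φ) s = 0 ∧ 0 ≤ ip s (u φ) ∧ ∃ p, p ∈ Fib S s := by
  have hc := continuous_gauge hS.cvx hS.nhd
  have hpos : ∀ ψ, 0 < gauge S (u ψ) := fun ψ =>
    (gauge_pos (absorbent_nhds_zero hS.nhd)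
      ((NormedSpace.isVonNBounded_iff ℝ).2 hS.cpt.isBounded)).2 (u_ne_zero ψ)
  set b : ℝ → ℂ := fun ψ => (gauge S (u ψ))⁻¹ • u ψ with hb
  have hb1 : ∀ ψ, gauge S (b ψ) = 1 := fun ψ => by
    rw [hb, gauge_smul_of_nonneg (inv_pos.2 (hpos ψ)).le, smul_eq_mul,
      inv_mul_cancel₀ (hpos ψ).ne']
  have hbc : Continuous b :=
    ((hc.comp continuous_u).inv₀ fun ψ => (hpos ψ).ne').smul continuous_u
  have hG : Continuous fun ψ => gauge S (b φ + b ψ) := hc.comp (continuous_const.add hbc)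
  have G0 : gauge S (b φ + b φ) = 2 := by
    rw [← two_smul ℝ, gauge_smul_of_nonneg (by norm_num : (0 : ℝ) ≤ 2), hb1]; simp
  have G1 : gauge S (b φ + b (φ + π)) = 0 := by
    simp only [hb, u_add_pi, gauge_neg hS.neg, smul_neg, add_neg_cancel, gauge_zero]
  obtain ⟨ψ, hψ, e⟩ := intermediate_value_Icc' (show φ ≤ φ + π by linarith [pi_pos])
    hG.continuousOn (show (1 : ℝ) ∈ Icc _ _ by rw [G0, G1]; constructor <;> norm_num)
  obtain ⟨h1, n1, p1, e1⟩ := normal hS (hb1 φ)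
  obtain ⟨h2, n2, p2, e2⟩ := normal hS e
  obtain ⟨h3, n3, p3, e3⟩ := normal hS (hb1 ψ)
  refine ⟨b φ, h1, by simp [hb, dt]; ring, ?_, (b ψ, n1, n2, n3), h3, p1, p2, p3, h2, ?_, e1, e2, e3⟩
  · rw [hb]; dsimp only; rw [ip_smul, ip_self, norm_u]; have := hpos φ; positivity
  · have : dt (b φ) (b ψ) = (gauge S (u φ))⁻¹ * (gauge S (u ψ))⁻¹ * sin (ψ - φ) := by
      simp [hb, dt, sin_sub]; ring
    dsimp only
    rw [this]
    have := hpos φ
    have := hpos ψ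
    have := sin_nonneg_of_nonneg_of_le_pi (x := ψ - φ) (by linarith [hψ.1]) (by linarith [hψ.2])
    positivity

lemma s_unique {S : Set ℂ} {φ : ℝ} {s s' : ℂ} (hs : s ∈ S) (hs' : s' ∈ S)
    (d : dt (u φ) s = 0) (d' : dt (u φ) s' = 0) (i : 0 ≤ ip s (u φ)) (i' : 0 ≤ ip s' (u φ))
    {p q : ℂ × ℂ × ℂ × ℂ} (h : p ∈ Fib S s) (h' : q ∈ Fib S s') : s = s' := by
  have uu : ip (u φ) (u φ) = 1 := by rw [ip_self, norm_u]; norm_num
  have e := par uu d
  have e' := par uu d'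
  have a1 := h.2.2.2.2.2.2.1
  have a2 := h.2.1 _ hs'
  have a3 := h'.2.2.2.2.2.2.1
  have a4 := h'.2.1 _ hs
  generalize ip s (u φ) = t at *
  generalize ip s' (u φ) = t' at *
  rw [e, ip_smul] at a1 a4
  rw [e', ip_smul] at a2 a3
  have : t = t' := by
    apply le_antisymm <;> nlinarith
  rw [e, e', this]

/-- the obstruction -/
def del (o : ℂ → ℝ) (p : ℂ × ℂ × ℂ × ℂ) : ℝ :=
  o p.2.1 * dt p.2.2.1 p.2.2.2 - o p.2.2.1 * dt p.2.1 p.2.2.2 + o p.2.2.2 * dt p.2.1 p.2.2.1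

lemma continuous_del {o : ℂ → ℝ} (ho : Continuous o) : Continuous (del o) := by
  unfold del dt; fun_prop

/-- the total space -/
def Tot (S : Set ℂ) : Set (ℝ × ℂ × ℂ × ℂ × ℂ × ℂ) :=
  {z | z.1 ∈ Icc 0 π ∧ z.2.1 ∈ S ∧ dt (u z.1) z.2.1 = 0 ∧ 0 ≤ ip z.2.1 (u z.1) ∧
    z.2.2 ∈ Fib S z.2.1}

lemma isCompact_Tot {S : Set ℂ} (hS : Sym S) : IsCompact (Tot S) := by
  have hP := isCompact_Pol hS
  have hu := continuous_u
  refine (isCompact_Icc (a := (0 : ℝ)) (b := π)).prod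
    (hS.cpt.prod (hS.cpt.prod (hP.prod (hP.prod hP)))) |>.of_isClosed_subset ?_ ?_
  · have c1 := hS.cpt.isClosed
    have c2 := hP.isClosed
    unfold Tot Fib
    simp only [mem_ofPred_eq]
    refine (isClosed_Icc.preimage continuous_fst).and ((c1.preimage (by fun_prop)).and
      ((isClosed_eq ?_ continuous_const).and ((isClosed_le continuous_const ?_).and
      ((c1.preimage (by fun_prop)).and ((c2.preimage (by fun_prop)).and
      ((c2.preimage (by fun_prop)).and ((c2.preimage (by fun_prop)).and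
      ((c1.preimage (by fun_prop)).and ((isClosed_le continuous_const ?_).and
      ((isClosed_eq ?_ continuous_const).and ((isClosed_eq ?_ continuous_const).and
      (isClosed_eq ?_ continuous_const)))))))))))) <;> simp only [dt, ip] <;> fun_prop
  · rintro z ⟨h1, h2, -, -, h3, h4, h5, h6, -⟩
    exact ⟨h1, h2, h3, h4, h5, h6⟩

lemma zero {S : Set ℂ} (hS : Sym S) {o : ℂ → ℝ} (ho : Continuous o) (hodd : ∀ n, o (-n) = -o n) :
    ∃ s ∈ S, ∃ p ∈ Fib S s, del o p = 0 := by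
  have hT := isCompact_Tot hS
  have hd : Continuous fun z : ℝ × ℂ × ℂ × ℂ × ℂ × ℂ => del o z.2.2 :=
    (continuous_del ho).comp (by fun_prop)
  have cP : IsClosed {z : ℝ × ℂ × ℂ × ℂ × ℂ × ℂ | 0 ≤ del o z.2.2} :=
    isClosed_le continuous_const hd
  have cN : IsClosed {z : ℝ × ℂ × ℂ × ℂ × ℂ × ℂ | del o z.2.2 ≤ 0} :=
    isClosed_le hd continuous_const
  have hP := ((hT.inter_right cP).image continuous_fst).isClosed
  have hN := ((hT.inter_right cN).image continuous_fst).isClosed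
  obtain ⟨s0, hs0, d0, i0, p0, hp0⟩ := exists_fib hS 0
  have pi0 := pi_pos.le
  have t0 : (0, s0, p0) ∈ Tot S := ⟨⟨le_rfl, pi0⟩, hs0, d0, i0, hp0⟩
  have np : ∀ n ∈ Pol S, -n ∈ Pol S := fun n hn x hx => by
    rw [ip_neg_r, ← ip_neg]; exact hn _ (hS.neg x hx)
  have upi : u π = -u 0 := by rw [← u_add_pi, zero_add]
  have t1 : (π, -s0, -p0) ∈ Tot S := by
    obtain ⟨ha, p1, p2, p3, hsa, hd, e1, e2, e3⟩ := hp0
    refine ⟨⟨pi0, le_rfl⟩, hS.neg _ hs0, ?_, ?_, hS.neg _ ha, np _ p1, np _ p2, np _ p3, ?_, ?_,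
      ?_, ?_, ?_⟩ <;> simp only [upi, Prod.fst_neg, Prod.snd_neg]
    · simpa [dt] using d0
    · rw [ip_neg, ip_neg_r, neg_neg]; exact i0
    · rw [← neg_add]; exact hS.neg _ hsa
    · refine hd.trans_eq ?_; simp [dt]
    · rw [ip_neg, ip_neg_r, neg_neg]; exact e1
    · rw [← neg_add, ip_neg, ip_neg_r, neg_neg]; exact e2
    · rw [ip_neg, ip_neg_r, neg_neg]; exact e3
  have dn : del o (-p0) = -del o p0 := by
    simp only [del, Prod.fst_neg, Prod.snd_neg, hodd, dt, Complex.neg_re, Complex.neg_im]; ring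
  obtain ⟨φ, -, ⟨z, ⟨hz, z0⟩, rfl⟩, ⟨w, ⟨hw, w0⟩, e⟩⟩ :=
    isPreconnected_closed_iff.1 (isPreconnected_Icc (a := (0 : ℝ)) (b := π)) _ _ hP hN
      (fun φ hφ => by
        obtain ⟨s, hs, d, i, p, hp⟩ := exists_fib hS φ
        rcases le_total 0 (del o p) with h | h
        · exact Or.inl ⟨(φ, s, p), ⟨⟨hφ, hs, d, i, hp⟩, h⟩, rfl⟩
        · exact Or.inr ⟨(φ, s, p), ⟨⟨hφ, hs, d, i, hp⟩, h⟩, rfl⟩)
      (by
        rcases le_total 0 (del o p0) with h | h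
        · exact ⟨0, t0.1, _, ⟨t0, h⟩, rfl⟩
        · exact ⟨π, t1.1, _, ⟨t1, by simp only [mem_ofPred_eq, dn]; linarith⟩, rfl⟩)
      (by
        rcases le_total 0 (del o p0) with h | h
        · exact ⟨π, t1.1, _, ⟨t1, by simp only [mem_ofPred_eq, dn]; linarith⟩, rfl⟩
        · exact ⟨0, t0.1, _, ⟨t0, h⟩, rfl⟩)
  obtain ⟨-, hs, d, i, hp⟩ := hz
  obtain ⟨-, hs', d', i', hp'⟩ := hw
  rw [e] at d' i'
  have es := s_unique hs hs' d d' i i' hp hp'
  rw [← es] at hp'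
  have hc : IsPreconnected (Fib S z.2.1) :=
    (isPathConnected_iff.2 ⟨⟨_, hp⟩, fun p hp q hq => join hS hs hp hq⟩).isConnected.isPreconnected
  obtain ⟨p, h1, h2⟩ := hc.intermediate_value hp' hp (continuous_del ho).continuousOn
    (show (0 : ℝ) ∈ Icc _ _ from ⟨w0, z0⟩)
  exact ⟨_, hs, p, h1, h2⟩

lemma solve {n m : ℂ} (hd : dt n m ≠ 0) (p q : ℝ) : ∃ c : ℂ, ip c n = p ∧ ip c m = q := by
  refine ⟨⟨(p * m.im - q * n.im) / dt n m, (q * n.re - p * m.re) / dt n m⟩, ?_, ?_⟩ <;>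
    simp only [ip] <;> field_simp <;> simp only [dt] <;> ring

lemma centre {S : Set ℂ} {s a n1 n2 n3 : ℂ} (h : (a, n1, n2, n3) ∈ Fib S s)
    (hs : s ∈ S) {o : ℂ → ℝ} (hd : del o (a, n1, n2, n3) = 0) :
    ∃ c : ℂ, ip c n1 = o n1 ∧ ip c n2 = o n2 ∧ ip c n3 = o n3 := by
  obtain ⟨s1, s2, s3, s4⟩ := signs hs h
  obtain ⟨-, -, -, -, -, -, e1, e2, e3⟩ := h
  simp only [del] at *
  have id : ∀ c : ℂ, ip c n1 * dt n2 n3 - ip c n2 * dt n1 n3 + ip c n3 * dt n1 n2 = 0 :=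
    fun c => by unfold ip dt; ring
  by_cases h12 : dt n1 n2 = 0
  · have h23 : dt n2 n3 ≠ 0 := by
      intro h23
      have l1 := lagr s a n1 n2
      have l2 := lagr s a n2 n3
      rw [h12, e1] at l1
      rw [h23, e3] at l2
      rw [ip_add] at e2
      have k : ip a n2 = 0 := by nlinarith
      rw [k] at l2 e2
      linarith
    obtain ⟨c, c2, c3⟩ := solve h23 (o n2) (o n3)
    refine ⟨c, mul_right_cancel₀ h23 ?_, c2, c3⟩
    have := id c
    rw [c2, c3] at this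
    linarith
  · obtain ⟨c, c1, c2⟩ := solve h12 (o n1) (o n2)
    refine ⟨c, c1, c2, mul_right_cancel₀ h12 ?_⟩
    have := id c
    rw [c1, c2] at this
    linarith

lemma strip {K : Set ℂ} (hK : CN K) {n z c : ℂ} (hn : n ∈ Pol (Dif K)) (hz : z ∈ Dif K)
    (e : ip z n = 1) (hc : ip c n = (H K n - H K (-n)) / 2) {x : ℂ} (hx : x ∈ K) :
    |ip (x - c) n| ≤ 1 / 2 := by
  have h1 : H (Dif K) n = 1 := by
    rw [H_eq_of hz fun y hy => e ▸ hn y hy, e]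
  rw [H_Dif hK] at h1
  have h2 := le_H hK hx n
  have h3 := le_H hK hx (-n)
  rw [ip_neg_r] at h3
  rw [ip_sub, hc, abs_le]
  constructor <;> linarith

lemma sym_Dif {K : Set ℂ} (hK : IsFigure K) : Sym (Dif K) := by
  refine ⟨hK.cn.dif.1, convex_Dif hK.2.1, fun x hx => neg_mem_Dif hx, ?_⟩
  obtain ⟨x, hx⟩ := hK.2.2
  have h1 : K ∈ 𝓝 (x + 0) := by rw [add_zero]; exact mem_interior_iff_mem_nhds.1 hx
  have h2 : ContinuousAt (fun z : ℂ => x + z) 0 := by fun_prop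
  filter_upwards [h2.preimage_mem_nhds h1] with z hz
  exact ⟨x + z, hz, x, interior_subset hx, by ring⟩

end HexA

theorem hexA_proof : hexA_stmt := by
  intro K hK
  have hS := HexA.sym_Dif hK
  have hH := continuous_H hK.cn
  obtain ⟨s, hs, ⟨a, n1, n2, n3⟩, hp, hd⟩ := HexA.zero hS (o := fun n => (H K n - H K (-n)) / 2)
    (by fun_prop) (fun n => by rw [neg_neg]; ring)
  obtain ⟨c, c1, c2, c3⟩ := HexA.centre hp hs hd
  have d0 := HexA.dt_pos hs hp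
  obtain ⟨ha, p1, p2, p3, hsa, -, e1, e2, e3⟩ := hp
  exact ⟨s, a, n1, n2, n3, c, hs, ha, hsa, d0, e1, e2, e3,
    fun x hx => ⟨p1 x hx, p2 x hx, p3 x hx⟩, fun x hx =>
    ⟨HexA.strip hK.cn p1 hs e1 c1 hx, HexA.strip hK.cn p2 hsa e2 c2 hx,
      HexA.strip hK.cn p3 ha e3 c3 hx⟩⟩

end Pool.Agent.Lib.MP_f2780a_gt
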