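import Pool.Agent.Lib.MP_f2780a_gt.Basic
import Pool.Agent.Lib.MP_f2780a_gt.StmtsB

/-! The mixed area of `K` and `-K` is bounded through a circumscribed zonogon. -/

set_option autoImplicit false

noncomputable section

namespace Pool.Agent.Lib.MP_f2780a_gt

open Real MeasureTheory Set

namespace HexB

lemma exl {x y c : ℝ} (x0 : 0 ≤ x) (x1 : x ≤ 1) (y0 : 0 ≤ y) (y1 : y ≤ 1) (c0 : 0 ≤ c)
    (c1 : c ≤ 1) {A B C : ℝ} (hA : A = 1 - c + x * c) (hB : B = c + y - y * c)
    (hC : C = 1 - x * y) : 0 ≤ A ∧ 0 ≤ B ∧ 0 ≤ C ∧ ∃ l1 l2 l3 : ℝ, 0 ≤ l1 ∧ 0 ≤ l2 ∧ 0 ≤ l3 ∧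
      l2 * A + l3 * C = 1 ∧ l1 * A + l3 * B = 1 ∧ l1 * C + l2 * B = 1 ∧ l1 + l2 + l3 ≤ 2 := by
  have x2 := sub_nonneg.2 x1
  have y2 := sub_nonneg.2 y1
  have c2 := sub_nonneg.2 c1
  have p1 := mul_nonneg x0 c0
  have p2 := mul_nonneg y0 c2
  have p3 := mul_nonneg x0 y2
  have A0 : 0 ≤ A := by linarith
  have B0 : 0 ≤ B := by linarith
  have C0 : 0 ≤ C := by linarith
  refine ⟨A0, B0, C0, ?_⟩
  rcases A0.eq_or_lt with a | a
  · have e1 : c = 1 := by linarith
    have e2 : x = 0 := by rw [e1] at hA; linarith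
    subst e1 e2
    exact ⟨1, 0, 1, by norm_num, by norm_num, by norm_num, by linarith, by linarith, by linarith,
      by norm_num⟩
  rcases B0.eq_or_lt with b | b
  · have e1 : c = 0 := by linarith
    have e2 : y = 0 := by rw [e1] at hB; linarith
    subst e1 e2
    exact ⟨1, 0, 1, by norm_num, by norm_num, by norm_num, by linarith, by linarith, by linarith,
      by norm_num⟩
  rcases C0.eq_or_lt with d | d
  · have e1 : x = 1 := by linarith
    have e2 : y = 1 := by rw [e1] at hC; linarith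
    subst e1 e2
    exact ⟨1, 1, 0, by norm_num, by norm_num, by norm_num, by linarith, by linarith, by linarith,
      by norm_num⟩
  have q1 := mul_nonneg x2 c2
  have q2 := mul_nonneg y2 c2
  have q3 := mul_nonneg x2 y2
  have q4 := mul_nonneg x0 y0
  have q5 := mul_nonneg y0 c0
  have q6 := mul_nonneg x2 c0
  have q7 := mul_nonneg x2 y0
  have q8 := mul_nonneg y2 c0
  have q9 := mul_nonneg x0 c2
  refine ⟨(A + C - B) / (2 * A * C), (A + B - C) / (2 * A * B), (B + C - A) / (2 * B * C),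
    div_nonneg (by linarith) (by positivity), div_nonneg (by linarith) (by positivity),
    div_nonneg (by linarith) (by positivity), by field_simp; ring, by field_simp; ring,
    by field_simp; ring, ?_⟩
  have e : (A + C - B) / (2 * A * C) + (A + B - C) / (2 * A * B) + (B + C - A) / (2 * B * C)
      = 2 - ((1 - c) * y * (1 - x) - c * x * (1 - y)) ^ 2 / (2 * A * B * C) := by
    have : ((1 - c) * y * (1 - x) - c * x * (1 - y)) ^ 2
        = 4 * A * B * C - 2 * (A * B + B * C + C * A) + A ^ 2 + B ^ 2 + C ^ 2 := by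
      rw [hA, hB, hC]; ring
    rw [this]
    field_simp
    ring
  rw [e]
  exact sub_le_self _ (by positivity)

lemma cone {A W Z d e t t' L : ℝ} (hA : 0 < A) (h1 : A * W = t * d - t' * e) (h2 : |t| ≤ 1 / 2)
    (h3 : |t'| ≤ 1 / 2) (h4 : d * e ≤ 0) (h5 : A * L = d - e) (h6 : |L| ≤ Z) : W ≤ Z / 2 := by
  obtain ⟨a1, a2⟩ := abs_le.1 h2
  obtain ⟨b1, b2⟩ := abs_le.1 h3
  obtain ⟨c1, c2⟩ := abs_le.1 h6
  refine le_of_mul_le_mul_left ?_ hA
  have k1 := mul_le_mul_of_nonneg_left c1 hA.le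
  have k2 := mul_le_mul_of_nonneg_left c2 hA.le
  rcases mul_nonpos_iff.1 h4 with ⟨d0, e0⟩ | ⟨d0, e0⟩ <;> nlinarith

lemma zon {A B C l1 l2 l3 d1 d2 d3 t1 t2 t3 W : ℝ} (A0 : 0 ≤ A) (B0 : 0 ≤ B) (C0 : 0 ≤ C)
    (p1 : 0 ≤ l1) (p2 : 0 ≤ l2) (p3 : 0 ≤ l3) (e1 : l2 * A + l3 * C = 1)
    (e2 : l1 * A + l3 * B = 1) (e3 : l1 * C + l2 * B = 1) (r : B * d1 - C * d2 + A * d3 = 0)
    (w1 : A * W = t2 * d1 - t1 * d2) (w2 : B * W = t3 * d2 - t2 * d3)
    (w3 : C * W = t3 * d1 - t1 * d3) (s1 : |t1| ≤ 1 / 2) (s2 : |t2| ≤ 1 / 2) (s3 : |t3| ≤ 1 / 2) :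
    W ≤ (l1 * |d1| + l2 * |d2| + l3 * |d3|) / 2 := by
  have a1 := mul_le_mul_of_nonneg_left (le_abs_self d1) p1
  have a2 := mul_le_mul_of_nonneg_left (le_abs_self d2) p2
  have a3 := mul_le_mul_of_nonneg_left (le_abs_self d3) p3
  have b1 := mul_le_mul_of_nonneg_left (neg_abs_le d1) p1
  have b2 := mul_le_mul_of_nonneg_left (neg_abs_le d2) p2
  have b3 := mul_le_mul_of_nonneg_left (neg_abs_le d3) p3
  have k1 : 0 < A → d1 * d2 ≤ 0 → W ≤ (l1 * |d1| + l2 * |d2| + l3 * |d3|) / 2 := fun a h =>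
    cone (L := l1 * d1 - l2 * d2 - l3 * d3) a w1 s2 s1 h
      (by linear_combination d1 * e2 - d2 * e1 - l3 * r) (abs_le.2 ⟨by linarith, by linarith⟩)
  have k2 : 0 < B → d2 * d3 ≤ 0 → W ≤ (l1 * |d1| + l2 * |d2| + l3 * |d3|) / 2 := fun a h =>
    cone (L := l1 * d1 + l2 * d2 - l3 * d3) a w2 s3 s2 h
      (by linear_combination d2 * e3 - d3 * e2 + l1 * r) (abs_le.2 ⟨by linarith, by linarith⟩)
  have k3 : 0 < C → 0 ≤ d1 * d3 → W ≤ (l1 * |d1| + l2 * |d2| + l3 * |d3|) / 2 := fun a h =>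
    cone (L := l1 * d1 + l2 * d2 + l3 * d3) (d := d1) (e := -d3) (t' := -t1) a (by linear_combination w3) s3
      (by rwa [abs_neg]) (by linarith)
      (by linear_combination d1 * e3 + d3 * e1 - l2 * r) (abs_le.2 ⟨by linarith, by linarith⟩)
  have pos : ∀ {l a : ℝ}, 0 ≤ a → l * a = 1 → 0 < a := fun h e =>
    h.lt_of_ne fun z => by rw [← z, mul_zero] at e; exact zero_ne_one e
  rcases A0.eq_or_lt with a | a
  · subst a
    have b := pos B0 (l := l3) (by linarith)
    have c := pos C0 (l := l3) (by linarith)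
    rcases le_total (d2 * d3) 0 with h | h
    · exact k2 b h
    · refine k3 c ((mul_nonneg_iff_of_pos_left b).1 ?_)
      have := mul_nonneg C0 h
      linear_combination this - d3 * r
  rcases B0.eq_or_lt with b | b
  · subst b
    have c := pos C0 (l := l1) (by linarith)
    rcases le_total (d1 * d2) 0 with h | h
    · exact k1 a h
    · refine k3 c ((mul_nonneg_iff_of_pos_left a).1 ?_)
      have := mul_nonneg C0 h
      linear_combination this - d1 * r
  rcases le_total (d1 * d2) 0 with h | h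
  · exact k1 a h
  rcases le_or_gt (d2 * d3) 0 with h' | h'
  · exact k2 b h'
  rcases C0.eq_or_lt with c | c
  · subst c
    have u1 := mul_nonneg b.le h
    have u2 := mul_pos a h'
    exact absurd (by linear_combination u1 + d2 * r) u2.not_ge
  refine k3 c ?_
  have u1 := mul_nonneg h h'.le
  have u2 : 0 < d2 * d2 := mul_self_pos.2 (left_ne_zero_of_mul h'.ne')
  exact (mul_nonneg_iff_of_pos_left u2).1 (by linear_combination u1)

lemma dt_u (n : ℂ) (θ : ℝ) : dt n (u θ) = lin (Complex.I * n) θ := by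
  simp [dt, lin_def, u_re, u_im]
  ring

lemma lip_dt (n : ℂ) : Lip fun θ => |dt n (u θ)| := by
  simp only [dt_u]
  exact (lip_lin _).abs

lemma V_dt {K : Set ℂ} (hK : CN K) (n : ℂ) :
    V 0 (2 * π) (fun θ => |dt n (u θ)|) (h K) = H (Dif K) n := by
  obtain ⟨ν, -, -, hn⟩ := exists_polar n
  have r0 := norm_nonneg n
  generalize ‖n‖ = r at hn r0
  have e : ∀ θ, dt n (u θ) = r * sin (θ - ν) := fun θ => by
    simp [hn, dt, u_re, u_im, sin_sub]
    ring
  have hp : Function.Periodic (fun θ => |dt n (u θ)|) (2 * π) := fun θ => by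
    simp only [u_add_two_pi]
  have h1 := V_period hp (h_periodic K) 0 ν
  have h2 : V ν (ν + π) (fun θ => |dt n (u θ)|) (h K) = V ν (ν + π) (lin (r • u' ν)) (h K) :=
    V_congr (by linarith [pi_pos]) (fun θ hθ => by
      simp only [e, lin_smul, lin_u']
      exact abs_of_nonneg (mul_nonneg r0 (sin_nonneg_of_nonneg_of_le_pi (by linarith [hθ.1])
        (by linarith [hθ.2])))) fun _ _ => rfl
  have h3 : V (ν + π) (ν + 2 * π) (fun θ => |dt n (u θ)|) (h K)
      = V (ν + π) (ν + 2 * π) (lin (r • u' (ν + π))) (h K) :=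
    V_congr (by linarith [pi_pos]) (fun θ hθ => by
      have : sin (θ - ν) = -sin (θ - (ν + π)) := by rw [← sub_sub, sin_sub_pi, neg_neg]
      simp only [e, lin_smul, lin_u', this, mul_neg, abs_neg]
      exact abs_of_nonneg (mul_nonneg r0 (sin_nonneg_of_nonneg_of_le_pi (by linarith [hθ.1])
        (by linarith [hθ.2])))) fun _ _ => rfl
  rw [zero_add] at h1
  rw [h1, ← V_split (lip_dt n) (lip_h hK) ν (ν + π), h2, h3, V_symm, V_lin (lip_h hK), V_symm,
    V_lin (lip_h hK), hn, H_smul hK.dif r0, ← h, h_Dif hK, hb, h_periodic K ν]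
  simp only [lin'_smul, lin'_u', sub_self, add_sub_cancel_left, cos_zero, cos_pi,
    show ν + 2 * π - (ν + π) = π by ring]
  ring

end HexB

open HexB in
theorem hexB_proof (hm : mono_stmt) : hexB_stmt := by
  rintro K s a n1 n2 n3 c hK ⟨hs, ha, hsa, hD, e1, e2, e3, hn, hc⟩
  have k1 := hn _ hs
  have k2 := hn _ ha
  have k3 := hn _ hsa
  have k4 := hn _ (neg_mem_Dif hs)
  have k5 := hn _ (neg_mem_Dif ha)
  simp only [ip_add, ip_neg] at e2 k3 k4 k5
  obtain ⟨A0, B0, C0, l1, l2, l3, p1, p2, p3, f1, f2, f3, hl⟩ :=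
    exl (x := -ip a n1) (y := -ip s n3) (c := ip s n2) (by linarith [k3.1]) (by linarith [k5.1])
      (by linarith [k3.2.2]) (by linarith [k4.2.2]) (by linarith [k2.2.1]) k1.2.1
      (A := dt s a * dt n1 n2) (B := dt s a * dt n2 n3) (C := dt s a * dt n1 n3)
      (by simp only [ip, dt] at e1 e2 ⊢
          linear_combination (a.re * n2.re + a.im * n2.im) * e1 + e2)
      (by simp only [ip, dt] at e2 e3 ⊢
          linear_combination (s.re * n2.re + s.im * n2.im) * e3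
            - (s.re * n3.re + s.im * n3.im) * e2)
      (by simp only [ip, dt] at e1 e3 ⊢
          linear_combination (a.re * n3.re + a.im * n3.im) * e1 + e3)
  generalize dt s a = D at *
  have hz : ∀ θ, hb K θ + lin c θ ≤ D * l1 / 2 * |dt n1 (u θ)| + D * l2 / 2 * |dt n2 (u θ)|
      + D * l3 / 2 * |dt n3 (u θ)| := fun θ => by
    obtain ⟨x, hx, ex⟩ := h_att hK (θ + π)
    obtain ⟨s1, s2, s3⟩ := hc x hx
    have := zon (W := ip (x - c) (-u θ)) (d1 := D * dt n1 (-u θ)) (d2 := D * dt n2 (-u θ))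
      (d3 := D * dt n3 (-u θ)) A0 B0 C0 p1 p2 p3 f1 f2 f3 (by simp only [dt]; ring)
      (by simp only [ip, dt]; ring) (by simp only [ip, dt]; ring) (by simp only [ip, dt]; ring)
      s1 s2 s3
    have e : ∀ n, |D * dt n (-u θ)| = D * |dt n (u θ)| := fun n => by
      rw [abs_mul, abs_of_pos hD, ← abs_neg]
      simp only [dt, Complex.neg_re, Complex.neg_im]
      ring_nf
    rw [e, e, e, ← u_add_pi, ← lin, lin_sub, ex, lin_add_pi] at this
    rw [hb]
    linarith
  have L1 := (lip_dt n1).const_mul (D * l1 / 2)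
  have L2 := (lip_dt n2).const_mul (D * l2 / 2)
  have L3 := (lip_dt n3).const_mul (D * l3 / 2)
  have L4 := (lip_hb hK).add (lip_lin c)
  have f := lip_h hK
  have m := hm K 0 (2 * π) _ hK (by positivity) (((L1.add L2).add L3).sub L4)
    (fun θ _ => sub_nonneg.2 (hz θ)) (Or.inr ⟨(zero_add _).symm, by
      have g1 := hb_periodic K 0
      have g2 := lin_add_two_pi c 0
      have g3 := u_add_two_pi 0
      rw [zero_add] at g1 g2 g3
      simp only [g1, g2, g3]⟩)
  have v0 : V 0 (2 * π) (lin c) (h K) = 0 := by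
    have g1 := h_periodic K 0
    have g2 := lin'_add_two_pi c 0
    rw [zero_add] at g1 g2
    rw [V_symm, V_lin f, g1, g2, sub_self, neg_zero, zero_div]
  rw [V_sub ((L1.add L2).add L3) L4 f, V_add (L1.add L2) L3 f, V_add L1 L2 f,
    V_add (lip_hb hK) (lip_lin c) f, V_const_mul (lip_dt _) f, V_const_mul (lip_dt _) f,
    V_const_mul (lip_dt _) f, V_dt hK, V_dt hK, V_dt hK, v0, V_symm,
    H_eq_of (v := n1) hs fun y hy => e1 ▸ (hn y hy).1,
    H_eq_of (v := n3) ha fun y hy => e3 ▸ (hn y hy).2.2,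
    H_eq_of (v := n2) hsa fun y hy => (by rw [ip_add, e2]; exact (hn y hy).2.1), e1, e3, ip_add,
    e2] at m
  nlinarith [mul_le_mul_of_nonneg_left hl hD.le]

theorem hex_proof (hA : hexA_stmt) (hB : hexB_stmt) : hex_stmt := fun K hK => by
  obtain ⟨s, a, n1, n2, n3, c, h⟩ := hA K hK
  exact ⟨s, a, h.1, h.2.1, h.2.2.1, hB K s a n1 n2 n3 c hK.cn h⟩

end Pool.Agent.Lib.MP_f2780a_gt
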