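import Pool.Agent.Lib.MP_f2780a_gt.Basic
import Pool.Agent.Lib.MP_f2780a_gt.StmtsB

/-! Area and perimeter of the isosceles triangles. -/

set_option autoImplicit false

noncomputable section

namespace Pool.Agent.Lib.MP_f2780a_gt

open Real MeasureTheory Set

namespace isotri

lemma calc3 (α : ℝ) {γ : ℝ} (h0 : 0 < γ) (h1 : γ < π) :
    Le α (α + 2 * π) {0, u α, u (α + γ)} = 2 * sin (γ / 2) + 2 ∧
      Ar α (α + 2 * π) {0, u α, u (α + γ)} = sin γ / 2 := by
  have hC : CN {0, u α, u (α + γ)} := ((cn_singleton _).insert _).insert _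
  have hs : 0 ≤ sin (γ / 2) := sin_nonneg_of_nonneg_of_le_pi (by linarith) (by linarith)
  have hc : 0 ≤ cos (γ / 2) := cos_nonneg_of_mem_Icc ⟨by linarith, by linarith⟩
  have hd : ∀ θ, cos (θ - α) - cos (θ - (α + γ)) = -2 * sin (θ - α - γ / 2) * sin (γ / 2) := by
    intro θ
    rw [cos_sub_cos, show (θ - α + (θ - (α + γ))) / 2 = θ - α - γ / 2 by ring,
      show (θ - α - (θ - (α + γ))) / 2 = γ / 2 by ring]
  have a1 := chord (F := h {0, u α, u (α + γ)}) (a := α) (b := α + γ) (by linarith) (by linarith)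
    fun θ hθ => by
      rw [h_triple, lin_zero, lin_u, lin_u]
      refine max_eq_right ?_
      rcases le_total (θ - α) (π / 2) with h | h
      · exact le_max_of_le_left (cos_nonneg_of_mem_Icc ⟨by linarith [hθ.1], h⟩)
      · exact le_max_of_le_right (cos_nonneg_of_mem_Icc ⟨by linarith, by linarith [hθ.2]⟩)
  have a2 := two (F := h {0, u α, u (α + γ)}) (y := u (α + γ)) (z := 0) (a := α + γ)
    (b := α + π + γ / 2) (by linarith) (by linarith) (by simp)
    (by
      rw [lin_zero, lin_u, show α + π + γ / 2 - (α + γ) = π - γ / 2 by ring, cos_pi_sub]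
      linarith) (Or.inl (by linarith)) fun θ hθ => by
      have h2 : 0 ≤ sin (θ - α - γ / 2) :=
        sin_nonneg_of_nonneg_of_le_pi (by linarith [hθ.1]) (by linarith [hθ.2])
      have h3 : cos (θ - α) ≤ cos (θ - (α + γ)) := by nlinarith [hd θ, mul_nonneg h2 hs]
      rw [h_triple, lin_zero, lin_u, lin_u, max_eq_right h3, max_comm]
  have a3 := two (F := h {0, u α, u (α + γ)}) (y := 0) (z := u α) (a := α + π + γ / 2)
    (b := α + 2 * π) (by linarith) (by linarith)
    (by
      rw [lin_zero, lin_u, show α + π + γ / 2 - α = γ / 2 + π by ring, cos_add_pi]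
      linarith) (by simp [lin_add_two_pi]) (Or.inl (by linarith)) fun θ hθ => by
      have h2 : 0 ≤ sin (θ - α - γ / 2 - π) :=
        sin_nonneg_of_nonneg_of_le_pi (by linarith [hθ.1]) (by linarith [hθ.2])
      rw [sin_sub_pi] at h2
      have h3 : cos (θ - (α + γ)) ≤ cos (θ - α) := by nlinarith [hd θ, mul_nonneg h2 hs]
      rw [h_triple, lin_zero, lin_u, lin_u, max_eq_left h3]
  have l1 := Le_split hC α (α + γ) (α + π + γ / 2)
  have l2 := Le_split hC α (α + π + γ / 2) (α + 2 * π)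
  have r1 := Ar_split hC α (α + γ) (α + π + γ / 2)
  have r2 := Ar_split hC α (α + π + γ / 2) (α + 2 * π)
  simp only [add_sub_cancel_left, lin'_add_two_pi, lin'_u_self, lin'_zero, lin_zero, zero_sub,
    sub_zero, norm_neg, norm_u, dt, Complex.zero_re, Complex.zero_im, mul_zero, zero_mul, sub_self,
    add_zero, zero_add, zero_div] at a1 a2 a3
  unfold Le at l1 l2 ⊢
  unfold Ar at r1 r2 ⊢
  constructor
  · linarith [a1.1, a2.1, a3.1]
  · linarith [a1.2, a2.2, a3.2]

lemma core (hb : bridge_stmt) (A : ℂ) (α : ℝ) {γ : ℝ} (h0 : 0 < γ) (h1 : γ < π) :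
    IsFigure (convexHull ℝ {A, A + u α, A + u (α + γ)}) ∧
      perimeter (convexHull ℝ {A, A + u α, A + u (α + γ)}) = 2 * sin (γ / 2) + 2 ∧
      area (convexHull ℝ {A, A + u α, A + u (α + γ)}) = iso (2 * sin (γ / 2)) := by
  have hC : CN {A, A + u α, A + u (α + γ)} := ((cn_singleton _).insert _).insert _
  have hs : 0 < sin γ := sin_pos_of_pos_of_lt_pi h0 h1
  have hF : IsFigure (convexHull ℝ {A, A + u α, A + u (α + γ)}) := by
    refine ⟨(Set.toFinite _).isCompact_convexHull ℝ, convex_convexHull ℝ _, ?_⟩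
    rw [interior_convexHull_nonempty_iff_affineSpan_eq_top,
      AffineSubspace.affineSpan_eq_top_iff_vectorSpan_eq_top_of_nonempty ℝ ℂ ℂ hC.2, eq_top_iff]
    intro z _
    have m1 : u α ∈ vectorSpan ℝ ({A, A + u α, A + u (α + γ)} : Set ℂ) := by
      have := vsub_mem_vectorSpan ℝ (s := ({A, A + u α, A + u (α + γ)} : Set ℂ)) (p₁ := A + u α)
        (p₂ := A) (by simp) (by simp)
      rwa [vsub_eq_sub, add_sub_cancel_left] at this
    have m2 : u (α + γ) ∈ vectorSpan ℝ ({A, A + u α, A + u (α + γ)} : Set ℂ) := by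
      have := vsub_mem_vectorSpan ℝ (s := ({A, A + u α, A + u (α + γ)} : Set ℂ))
        (p₁ := A + u (α + γ)) (p₂ := A) (by simp) (by simp)
      rwa [vsub_eq_sub, add_sub_cancel_left] at this
    have e : z = (lin z α - lin' z α * cos γ / sin γ) • u α + (lin' z α / sin γ) • u (α + γ) := by
      refine lin_ext (θ := α) ?_ ?_
      · rw [lin_add, lin_smul, lin_smul, lin_u_self, lin_u, show α - (α + γ) = -γ by ring, cos_neg]
        field_simp
        ring
      · rw [lin'_add, lin'_smul, lin'_smul, lin'_u_self, lin'_u, show α - (α + γ) = -γ by ring,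
          sin_neg]
        field_simp
        ring
    rw [e]
    exact Submodule.add_mem _ (Submodule.smul_mem _ _ m1) (Submodule.smul_mem _ _ m2)
  obtain ⟨b1, b2⟩ := hb _ hF
  obtain ⟨c1, c2⟩ := calc3 α h0 h1
  have et : tr A {A, A + u α, A + u (α + γ)} = {0, u α, u (α + γ)} := by
    simp [tr, image_insert_eq]
  rw [← et, Le_tr_period hC] at c1
  rw [← et, Ar_tr_period hC] at c2
  have p1 := Ln_period (h_periodic {A, A + u α, A + u (α + γ)}) α 0
  have p2 := V_period (h_periodic {A, A + u α, A + u (α + γ)})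
    (h_periodic {A, A + u α, A + u (α + γ)}) α 0
  rw [zero_add] at p1 p2
  refine ⟨hF, ?_, ?_⟩
  · rw [b2, Le, h_convexHull hC, ← p1]
    exact c1
  · rw [b1, Ar, h_convexHull hC, ← p2]
    have hc : 0 ≤ cos (γ / 2) := cos_nonneg_of_mem_Icc ⟨by linarith, by linarith⟩
    have e1 : √(4 - (2 * sin (γ / 2)) ^ 2) = 2 * cos (γ / 2) := by
      rw [sqrt_eq_iff_mul_self_eq (by nlinarith [sin_sq_le_one (γ / 2)]) (by linarith)]
      nlinarith [sin_sq_add_cos_sq (γ / 2)]
    have e2 := sin_two_mul (γ / 2)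
    rw [show 2 * (γ / 2) = γ by ring] at e2
    rw [iso, e1]
    unfold Ar at c2
    linarith

end isotri

theorem isotri_proof (hb : bridge_stmt) (_hp : place_stmt) : isotri_stmt := by
  intro A B C t h0 h1 hB hC hBC
  have hd : Metric.diam (convexHull ℝ ({A, B, C} : Set ℂ)) = 1 := by
    rw [convexHull_diam, Metric.diam_triple, hB, hC, hBC, max_self, max_eq_left h1]
  rw [dist_comm, dist_eq_norm] at hB hC
  obtain ⟨α, -, -, e1⟩ := exists_polar (B - A)
  obtain ⟨γ, g1, g2, e2⟩ := exists_polar ((C - A) * u (-α))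
  rw [hB, one_smul] at e1
  rw [norm_mul, hC, norm_u, one_mul, one_smul] at e2
  obtain rfl : B = A + u α := by rw [← e1]; ring
  obtain rfl : C = A + u (α + γ) := by
    rw [u_add, ← e2, mul_left_comm, u_mul_neg]
    ring
  rw [dist_eq_norm, add_sub_add_left_eq_sub, norm_u_sub_u, show (α - (α + γ)) / 2 = -(γ / 2) by ring,
    sin_neg, abs_neg] at hBC
  rcases lt_trichotomy γ 0 with h | h | h
  · obtain ⟨c1, c2, c3⟩ := isotri.core hb A (α + γ) (γ := -γ) (by linarith) (by linarith)
    have hs : sin (γ / 2) ≤ 0 := sin_nonpos_of_nonpos_of_neg_pi_le (by linarith) (by linarith)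
    rw [abs_of_nonpos hs, ← sin_neg, ← neg_div] at hBC
    rw [add_neg_cancel_right, pair_comm] at c1 c2 c3
    rw [hBC] at c2 c3
    exact ⟨⟨c1, c2, hd⟩, c3⟩
  · rw [h, zero_div, sin_zero, abs_zero] at hBC
    linarith
  · have hs : 0 ≤ sin (γ / 2) := sin_nonneg_of_nonneg_of_le_pi (by linarith) (by linarith)
    rw [abs_of_nonneg hs] at hBC
    have g3 : γ < π := lt_of_le_of_ne g2 fun e => by
      rw [e, sin_pi_div_two] at hBC
      linarith
    obtain ⟨c1, c2, c3⟩ := isotri.core hb A α h g3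
    rw [hBC] at c2 c3
    exact ⟨⟨c1, c2, hd⟩, c3⟩

end Pool.Agent.Lib.MP_f2780a_gt
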