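import Pool.Agent.Lib.MP_f2780a_gt.Basic
import Pool.Agent.Lib.MP_f2780a_gt.StmtsB

/-! Least area for perimeter at most three times the diameter. -/

set_option autoImplicit false

noncomputable section

namespace Pool.Agent.Lib.MP_f2780a_gt

open Real MeasureTheory Set

namespace kubota

/-- triangles with sides `1, 1, t` -/
def Tri (t : ℝ) (K : Set ℂ) : Prop :=
  ∃ A B C : ℂ, dist A B = 1 ∧ dist A C = 1 ∧ dist B C = t ∧ K = convexHull ℝ {A, B, C}

lemma Tri.image {t : ℝ} {K : Set ℂ} (hK : Tri t K) (c : ℂ) {a : ℂ} (ha : ‖a‖ = 1) :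
    Tri t ((fun z => c + a * z) '' K) := by
  obtain ⟨A, B, C, h1, h2, h3, rfl⟩ := hK
  have hd : ∀ x y, dist (c + a * x) (c + a * y) = dist x y := fun x y => by
    rw [dist_add_left, dist_eq_norm, dist_eq_norm, ← mul_sub, norm_mul, ha, one_mul]
  refine ⟨c + a * A, c + a * B, c + a * C, by rwa [hd], by rwa [hd], by rwa [hd], ?_⟩
  have := AffineMap.image_convexHull
    (AffineMap.const ℝ ℂ c + (LinearMap.mulLeft ℝ a).toAffineMap) {A, B, C}
  simpa [image_insert_eq] using this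

/-- compact convex sets of diameter one containing `0` and `1` -/
structure Good (K : Set ℂ) : Prop where
  cn : CN K
  cv : Convex ℝ K
  zero : (0 : ℂ) ∈ K
  one : (1 : ℂ) ∈ K
  diam : Diam1 K

/-- the point reflection exchanging `0` and `1` -/
def fl (K : Set ℂ) : Set ℂ := (fun z => 1 + -1 * z) '' K

lemma fl_fl (K : Set ℂ) : fl (fl K) = K := by simp [fl, image_image]

lemma Good.fl {K : Set ℂ} (hK : Good K) : Good (fl K) where
  cn := hK.cn.image (by fun_prop)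
  cv := by
    have := hK.cv.affine_image
      (AffineMap.const ℝ ℂ (1 : ℂ) + (LinearMap.mulLeft ℝ (-1 : ℂ)).toAffineMap)
    simpa [kubota.fl] using this
  zero := ⟨1, hK.one, by simp⟩
  one := ⟨0, hK.zero, by simp⟩
  diam := by
    rintro _ ⟨x, hx, rfl⟩ _ ⟨y, hy, rfl⟩
    have := hK.diam y hy x hx
    rwa [show (1 + -1 * x) - (1 + -1 * y) = y - x by ring]

lemma h_fl {K : Set ℂ} (hK : CN K) (θ : ℝ) : h (fl K) θ = lin 1 θ + h K (θ + π) := by
  obtain ⟨x, hx, e⟩ := h_att hK (θ + π)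
  have h1 : ∀ y : ℂ, lin (1 + -1 * y) θ = lin 1 θ + lin y (θ + π) := fun y => by
    rw [lin_add, neg_one_mul, lin_neg, lin_add_pi]
  rw [h_eq_of (K := fl K) ⟨x, hx, rfl⟩, h1, e]
  rintro _ ⟨y, hy, rfl⟩
  rw [h1, h1, e]
  linarith [lin_le_h hK hy (θ + π)]

lemma Good.cl {K : Set ℂ} (hK : Good K) : Cl 0 π lensB 1 0 K := by
  have hp := pi_pos
  refine ⟨hK.cn, hK.one, hK.zero, fun θ _ => h_le hK.cn fun z hz => ?_, ?_, ?_⟩
  · have h1 : ∀ φ, lin z φ ≤ 1 := fun φ =>
      (lin_le_norm z φ).trans (by simpa using hK.diam z hz 0 hK.zero)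
    have h2 : ∀ φ, lin z φ ≤ 1 + cos φ := fun φ => by
      have := (lin_le_norm (z - 1) φ).trans (hK.diam z hz 1 hK.one)
      rw [lin_sub, lin_one] at this
      linarith
    unfold lensB
    split_ifs with h3 h4
    · exact h1 θ
    · have := sinus_mid (d := z - u (π / 3)) (not_le.1 h3).le h4 (by linarith) (by linarith)
        (by rw [lin_sub, lin_u_self]; linarith [h1 (π / 3)]) (by
          have := h2 (2 * π / 3)
          rw [show 2 * π / 3 = π - π / 3 by ring, cos_pi_sub, cos_pi_div_three] at this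
          rw [lin_sub, lin_u, show 2 * π / 3 - π / 3 = π / 3 by ring, cos_pi_div_three,
            show 2 * π / 3 = π - π / 3 by ring]
          linarith)
      rw [lin_sub] at this
      linarith
    · exact h2 θ
  · rw [lensB, if_pos (by linarith), lin_one, cos_zero]
  · rw [lensB, if_neg (by linarith), if_neg (by linarith), lin_zero, cos_pi, add_neg_cancel]

lemma Le_eq {K : Set ℂ} (hK : CN K) : Le 0 (2 * π) K = Le 0 π K + Le 0 π (fl K) := by
  rw [← Le_split hK 0 π, Le, Le, Le, funext (h_fl hK),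
    Ln_add (continuous_lin 1) ((lip_h hK).shift π).continuous, Ln_lin, Ln_shift]
  simp [lin'_one, two_mul]

lemma Ar_eq {K : Set ℂ} (hK : CN K) : Ar 0 (2 * π) K = Ar 0 π K + Ar 0 π (fl K) := by
  rw [← Ar_split hK 0 π, Ar, Ar, Ar, funext (h_fl hK),
    V_sq_add (lip_lin 1) ((lip_h hK).shift π), V_lin (lip_lin 1), V_symm 0 π (lin 1),
    V_lin ((lip_h hK).shift π), V_shift]
  simp [lin'_one, two_mul]

lemma tri_of {K : Set ℂ} (hK : Good K) {s : ℝ} (hs : s ≤ 1) {z w : ℂ} (hz : 0 ≤ z.im)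
    (h1 : (‖z‖ = 1 ∧ ‖z - 1‖ = s) ∨ (‖z - 1‖ = 1 ∧ ‖z‖ = s))
    (h2 : ∀ θ ∈ Icc 0 π, h K θ = h {0, 1, z} θ)
    (h3 : (‖w‖ = 1 ∧ ‖w - 1‖ = 0) ∨ (‖w - 1‖ = 1 ∧ ‖w‖ = 0))
    (h4 : ∀ θ ∈ Icc 0 π, h (fl K) θ = h {0, 1, w} θ) : Tri s K := by
  have hfin : ({0, 1, z} : Set ℂ).Finite := toFinite _
  have hz1 : z.re ≤ 1 := (Complex.re_le_norm z).trans (by rcases h1 with h | h <;> linarith [h.1, h.2])
  have hz0 : 0 ≤ z.re := by
    have := ((neg_le_abs _).trans (Complex.abs_re_le_norm (z - 1))).trans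
      (show _ ≤ 1 by rcases h1 with h | h <;> linarith [h.1, h.2])
    simpa using this
  have e : K = convexHull ℝ {0, 1, z} := by
    refine eq_of_h_eq hK.cn hK.cv ⟨hfin.isCompact_convexHull ℝ, by simp⟩ (convex_convexHull ℝ _) ?_
    rw [h_convexHull (cn_finite hfin (by simp))]
    refine forall_of_period 0 (fun θ => by rw [h_periodic, h_periodic]) fun θ hθ => ?_
    rcases le_total θ π with h5 | h5
    · exact h2 θ ⟨hθ.1, h5⟩
    obtain ⟨φ, rfl⟩ : ∃ φ, θ = φ + π := ⟨θ - π, by ring⟩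
    have hφ : φ ∈ Icc 0 π := ⟨by linarith, by linarith [hθ.2]⟩
    have h6 := h4 φ hφ
    have h7 : h {0, 1, w} φ = max 0 (cos φ) := by
      rw [h_triple, lin_zero, lin_one]
      rcases h3 with h | h
      · rw [sub_eq_zero.1 (norm_eq_zero.1 h.2), lin_one, max_self]
      · rw [norm_eq_zero.1 h.2, lin_zero, max_comm (cos φ), ← max_assoc, max_self]
    have h8 := mul_nonneg hz (sin_nonneg_of_mem_Icc hφ)
    rw [h_fl hK.cn, h7, lin_one] at h6
    rw [h_triple, lin_zero, lin_add_pi, lin_add_pi, lin_one, lin_def]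
    rcases le_total 0 (cos φ) with h9 | h9
    · rw [max_eq_right h9] at h6
      rw [max_eq_left (max_le (by linarith) (by nlinarith))]
      linarith
    · rw [max_eq_left h9] at h6
      rw [max_eq_left (a := -cos φ) (by nlinarith), max_eq_right (by linarith)]
      linarith
  rcases h1 with h | h
  · exact ⟨0, 1, z, by simp, by simp [h.1], by rw [dist_comm, dist_eq_norm, h.2], e⟩
  · exact ⟨1, 0, z, by simp, by rw [dist_comm, dist_eq_norm, h.1], by simp [h.2],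
      by rw [e, insert_comm]⟩

lemma core (hl : lens_stmt) (ht : tri_stmt) {K : Set ℂ} (hK : Good K) (hL : Le 0 (2 * π) K ≤ 3) :
    iso (Le 0 (2 * π) K - 2) ≤ Ar 0 (2 * π) K ∧
      (Ar 0 (2 * π) K ≤ iso (Le 0 (2 * π) K - 2) → Tri (Le 0 (2 * π) K - 2) K) := by
  obtain ⟨a1, a2⟩ := hl K hK.cl
  obtain ⟨b1, b2⟩ := hl _ hK.fl.cl
  rw [Le_eq hK.cn] at hL ⊢
  rw [Ar_eq hK.cn]
  obtain ⟨a3, a4⟩ := a2 (by linarith)
  obtain ⟨b3, b4⟩ := b2 (by linarith)
  obtain ⟨c1, c2⟩ := ht.1 (Le 0 π K - 1) (Le 0 π (fl K) - 1) (by linarith) (by linarith)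
    (by linarith)
  rw [show Le 0 π K + Le 0 π (fl K) - 2 = Le 0 π K - 1 + (Le 0 π (fl K) - 1) by ring]
  refine ⟨by linarith, fun hA => ?_⟩
  obtain ⟨z, z1, z2, z3⟩ := a4 (by linarith)
  obtain ⟨w, w1, w2, w3⟩ := b4 (by linarith)
  rcases c2 (by linarith) with h0 | h0
  · rw [h0] at z2
    rw [h0, zero_add]
    have := (tri_of hK.fl (by linarith) w1 w2 w3 z2 (by rwa [fl_fl])).image 1 (a := -1) (by simp)
    rwa [show (fun z : ℂ => 1 + -1 * z) '' fl K = K from fl_fl K] at this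
  · rw [h0] at w2
    rw [h0, add_zero]
    exact tri_of hK (by linarith) z1 z2 z3 w2 w3

end kubota

theorem kubota_proof (hb : bridge_stmt) (hp : place_stmt) (hl : lens_stmt) (ht : tri_stmt) :
    kubota_stmt := by
  intro K hK hd hL
  obtain ⟨⟨x, y⟩, ⟨hx, hy⟩, hm⟩ := (hK.1.prod hK.1).exists_isMaxOn (hK.cn.2.prod hK.cn.2)
    (continuous_dist (α := ℂ)).continuousOn
  have hxy : ‖y - x‖ = 1 := by
    rw [← dist_eq_norm, dist_comm, ← hd]
    exact le_antisymm (Metric.dist_le_diam_of_mem hK.1.isBounded hx hy)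
      (Metric.diam_le_of_forall_dist_le dist_nonneg fun a ha b hb => hm (mk_mem_prod ha hb))
  obtain ⟨φ, -, -, hφ⟩ := exists_polar (y - x)
  rw [hxy, one_smul] at hφ
  obtain ⟨p1, p2, p3, p4⟩ := hp (-(u (-φ) * x)) (-φ) 1 K one_pos hK
  obtain ⟨q1, q2⟩ := hb _ p1
  have hG : kubota.Good (place (-(u (-φ) * x)) (-φ) 1 K) :=
    ⟨p1.cn, p1.2.1, ⟨x, hx, by simp⟩,
      ⟨y, hy, by simp only [Complex.ofReal_one]; linear_combination u (-φ) * hφ + u_mul_neg φ⟩,
      fun a ha b hb => by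
        rw [← dist_eq_norm]
        exact (Metric.dist_le_diam_of_mem p1.1.isBounded ha hb).trans_eq (by rw [p4, hd, one_mul])⟩
  rw [one_pow, one_mul] at p2
  rw [one_mul] at p3
  have := kubota.core hl ht hG (by rwa [← q2, p3])
  rw [← q1, ← q2, p2, p3] at this
  refine ⟨this.1, fun hA => ?_⟩
  have h1 := (this.2 hA).image x (norm_u φ)
  have h2 : ∀ z, x + u φ * (-(u (-φ) * x) + ((1 : ℝ) : ℂ) * u (-φ) * z) = z := fun z => by
    rw [Complex.ofReal_one]
    linear_combination (z - x) * u_mul_neg φ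
  rwa [place, image_image, funext h2, image_id'] at h1

end Pool.Agent.Lib.MP_f2780a_gt
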