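import Pool.Agent.Lib.MP_f2780a_gt.Basic
import Pool.Agent.Lib.MP_f2780a_gt.StmtsB

set_option autoImplicit false

noncomputable section

namespace Pool.Agent.Lib.MP_f2780a_gt

open Real MeasureTheory Set

namespace lens

lemma bound (x : ℂ) (θ : ℝ) (hθ : θ ∈ Ioo 0 π) (h1 : ∀ φ ∈ Icc 0 π, lin x φ ≤ lensB φ)
    (h2 : lin 1 θ ≤ lin x θ) (h3 : lin 0 θ ≤ lin x θ) : ‖x‖ ≤ 2 := by
  have hp := pi_pos
  have e1 := h1 0 ⟨le_rfl, hp.le⟩
  have e2 := h1 π ⟨hp.le, le_rfl⟩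
  have e3 := h1 (π / 2) ⟨by linarith, by linarith⟩
  rw [lensB, if_pos (by linarith), lin_def, cos_zero, sin_zero] at e1
  rw [lensB, if_neg (by linarith), if_neg (by linarith), lin_def, cos_pi, sin_pi] at e2
  rw [lensB, if_neg (by linarith), if_pos (by linarith), lin_u, lin_def, cos_pi_div_two,
    sin_pi_div_two] at e3
  have e4 := cos_le_one (π / 2 - π / 3)
  rw [lin_one, lin_def] at h2
  rw [lin_zero, lin_def] at h3
  have s1 : 0 < sin θ := sin_pos_of_pos_of_lt_pi hθ.1 hθ.2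
  have r0 : 0 ≤ x.re := by linarith
  have r1 : x.re ≤ 1 := by linarith
  have i1 : x.im ≤ 1 := by linarith
  have i0 : 0 ≤ x.im := by
    refine le_of_mul_le_mul_right (a := sin θ) ?_ s1
    rcases le_total 0 (cos θ) with c | c
    · nlinarith [mul_nonneg (sub_nonneg.2 r1) c]
    · nlinarith [mul_nonneg r0 (neg_nonneg.2 c)]
  have := Complex.norm_le_abs_re_add_abs_im x
  rw [abs_of_nonneg r0, abs_of_nonneg i0] at this
  linarith

lemma len {C : Set ℂ} (hC : Cl 0 π lensB 1 0 C) : 1 ≤ Le 0 π C := by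
  have hp := pi_pos
  have e := (two (F := fun θ => max (lin 1 θ) (lin 0 θ)) (y := 1) (z := 0) hp (by linarith)
    (by simp [lin_one]) (by simp [lin_one]) (Or.inr (by simp [lin_one])) fun _ _ => rfl).1
  refine le_trans (by rw [e]; simp [lin'_one]) (Ln_mono
    ((continuous_lin _).max (continuous_lin _)) (continuous_h hC.1) hp.le
    fun θ _ => max_le (lin_le_h hC.1 hC.2.1 θ) (lin_le_h hC.1 hC.2.2.1 θ))

lemma low (hx : exmin_stmt) (hA : lensA_stmt) (hC : lensC_stmt) {C : Set ℂ} {T : ℝ}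
    (h0 : Cl 0 π lensB 1 0 C) (t0 : 0 ≤ T) (t1 : T ≤ 1) (hl : T ≤ Le 0 π C - 1) :
    iso T ≤ Ar 0 π C := by
  obtain ⟨M, hM, l1, mn⟩ := hx 0 π lensB 1 0 2 (Le 0 π C) C pi_pos (by simp) (by simp) bound h0
    le_rfl
  obtain ⟨α, β, hd⟩ := hA M ⟨hM, fun C' h1 h2 => mn C' h1 (l1.trans h2)⟩
  exact ((hC M α β hM hd).1 T t0 t1 (by linarith)).trans (mn C h0 le_rfl)

end lens

theorem lens_proof (hx : exmin_stmt) (hA : lensA_stmt) (hC : lensC_stmt) : lens_stmt := by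
  intro C h0
  have l0 := lens.len h0
  refine ⟨l0, fun l1 => ⟨lens.low hx hA hC h0 (by linarith) (by linarith) le_rfl, fun he => ?_⟩⟩
  obtain ⟨α, β, hd⟩ := hA C ⟨h0, fun C' h1 h2 =>
    he.trans (lens.low hx hA hC h1 (by linarith) (by linarith) (by linarith))⟩
  exact (hC C α β h0 hd).2 l1 he

end Pool.Agent.Lib.MP_f2780a_gt
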