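import Pool.Agent.Lib.MP_f2780a_gt.Basic
import Pool.Agent.Lib.MP_f2780a_gt.StmtsB

/-! Structure of the minimal caps in the half lens. -/

set_option autoImplicit false

noncomputable section

namespace Pool.Agent.Lib.MP_f2780a_gt

open Real MeasureTheory Set

namespace lensA

lemma touch {y : ℂ} {α : ℝ} (hy : ∀ φ ∈ Icc 0 π, lin y φ ≤ 1) (hα : α ∈ Icc 0 π)
    (e : lin y α = 1) :
    (0 < α → α < π → y = u α) ∧ ∀ θ ∈ Icc 0 π, lin y θ ≤ lin (u α) θ := by
  rcases lt_or_ge 0 y.im with h | h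
  · obtain ⟨φ, h1, h2, h3⟩ := exists_polar y
    have h4 : 0 ≤ φ := by
      by_contra hc
      have h5 : sin φ ≤ 0 := sin_nonpos_of_nonpos_of_neg_pi_le (not_le.1 hc).le h1.le
      have h6 : y.im = ‖y‖ * sin φ := by
        conv_lhs => rw [h3]
        simp [u]
      nlinarith [norm_nonneg y]
    have h5 := hy φ ⟨h4, h2⟩
    have h6 : lin y φ = ‖y‖ := by
      conv_lhs => rw [h3]
      rw [lin_smul, lin_u, sub_self, cos_zero, mul_one]
    have := eq_u_of_lin (h6 ▸ h5) e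
    exact ⟨fun _ _ => this, fun θ _ => this ▸ le_rfl⟩
  · have h0 := hy 0 ⟨le_rfl, pi_pos.le⟩
    have h1 := hy π ⟨pi_pos.le, le_rfl⟩
    simp only [lin_def, cos_zero, sin_zero, cos_pi, sin_pi] at h0 h1
    have key : ¬ (0 < α ∧ α < π) := by
      rintro ⟨a1, a2⟩
      have s := sin_pos_of_pos_of_lt_pi a1 a2
      have s2 := sin_sq_add_cos_sq α
      rw [lin_def] at e
      have h3 : 1 ≤ y.re * cos α := by nlinarith
      have h4 : cos α ^ 2 < 1 := by nlinarith
      have h5 : y.re ^ 2 ≤ 1 := by nlinarith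
      nlinarith [sq_nonneg (y.re - cos α)]
    refine ⟨fun a1 a2 => absurd ⟨a1, a2⟩ key, fun θ hθ => ?_⟩
    have s := sin_nonneg_of_nonneg_of_le_pi hθ.1 hθ.2
    have s3 := mul_nonpos_of_nonpos_of_nonneg h s
    rcases hα.1.eq_or_lt with rfl | a1
    · simp only [lin_def, cos_zero, sin_zero, mul_one, mul_zero, add_zero] at e
      rw [lin_u, sub_zero, lin_def, e]
      linarith
    · obtain rfl : α = π := le_antisymm hα.2 (not_lt.1 fun a2 => key ⟨a1, a2⟩)
      simp only [lin_def, cos_pi, sin_pi, mul_zero, add_zero] at e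
      rw [lin_u, cos_sub_pi, lin_def, show y.re = -1 by linarith]
      linarith

lemma w_eq : 1 + u (2 * π / 3) = u (π / 3) := by
  have e : 2 * π / 3 = π - π / 3 := by ring
  apply Complex.ext <;> simp [u, e, cos_pi_div_three]
  norm_num

lemma lin_w (θ : ℝ) : lin (u (π / 3)) θ = cos θ + cos (θ - 2 * π / 3) := by
  rw [← w_eq, lin_add, lin_one, lin_u]

lemma B1 {θ : ℝ} (h : θ ≤ π / 3) : lensB θ = 1 := if_pos h

lemma B2 {θ : ℝ} (h : θ ∈ Icc (π / 3) (2 * π / 3)) : lensB θ = lin (u (π / 3)) θ := by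
  rcases h.1.eq_or_lt with rfl | h1
  · rw [B1 le_rfl, lin_u, sub_self, cos_zero]
  · rw [lensB, if_neg (not_le.2 h1), if_pos h.2]

lemma B3 {θ : ℝ} (h : 2 * π / 3 ≤ θ) : lensB θ = 1 + cos θ := by
  rcases h.eq_or_lt with rfl | h1
  · rw [B2 ⟨by linarith [pi_pos], le_rfl⟩, lin_w, sub_self, cos_zero, add_comm]
  · rw [lensB, if_neg (by linarith [pi_pos]), if_neg (not_le.2 h1)]

lemma B_le {θ : ℝ} (h : θ ∈ Icc 0 π) : lensB θ ≤ 1 ∧ lensB θ ≤ 1 + cos θ := by
  have := pi_pos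
  rcases le_total θ (π / 3) with h1 | h1
  · rw [B1 h1]
    have := cos_nonneg_of_mem_Icc (x := θ) ⟨by linarith [h.1], by linarith⟩
    constructor <;> linarith
  rcases le_total θ (2 * π / 3) with h2 | h2
  · rw [B2 ⟨h1, h2⟩]
    refine ⟨by rw [lin_u]; exact cos_le_one _, ?_⟩
    rw [lin_w]
    linarith [cos_le_one (θ - 2 * π / 3)]
  · rw [B3 h2]
    have := cos_nonpos_of_pi_div_two_le_of_le (x := θ) (by linarith) (by linarith [h.2])
    constructor <;> linarith

lemma B_cont : Continuous lensB := by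
  refine Continuous.if_le continuous_const (Continuous.if_le (continuous_lin _) (by fun_prop)
    continuous_id continuous_const ?_) continuous_id continuous_const ?_
  · rintro x rfl
    rw [lin_w, sub_self, cos_zero, add_comm]
  · rintro x rfl
    rw [if_pos (by linarith [pi_pos]), lin_u, sub_self, cos_zero]

end lensA

open lensA in
theorem lensA_proof (hg : gen_stmt) : lensA_stmt := by
  intro C hM
  have hp := pi_pos
  obtain ⟨hC, h1, h0, hB, -, -⟩ := id hM.1
  have l1 : ∀ y ∈ C, ∀ φ ∈ Icc 0 π, lin y φ ≤ 1 := fun y hy φ hφ =>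
    (lin_le_h hC hy φ).trans ((hB φ hφ).trans (B_le hφ).1)
  have l2 : ∀ y ∈ C, ∀ φ ∈ Icc 0 π, lin (y - 1) φ ≤ 1 := fun y hy φ hφ => by
    have := (lin_le_h hC hy φ).trans ((hB φ hφ).trans (B_le hφ).2)
    rw [lin_sub, lin_one]
    linarith
  by_cases hw : u (π / 3) ∈ C
  · refine ⟨π / 3, 2 * π / 3, ⟨by linarith, le_rfl⟩, ⟨le_rfl, by linarith⟩, hw, w_eq ▸ hw,
      fun θ hθ => ?_⟩
    rw [w_eq, max_self]
    exact le_antisymm ((hB θ ⟨by linarith [hθ.1], by linarith [hθ.2]⟩).trans (B2 hθ).le)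
      (lin_le_h hC hw θ)
  have hmid : ∀ θ ∈ Icc (π / 3) (2 * π / 3), h C θ ≠ lensB θ := by
    intro θ hθ e
    obtain ⟨x, hx, ex⟩ := h_att hC θ
    rw [e, B2 hθ] at ex
    have a1 : lin (x - u (π / 3)) (π / 3) ≤ 0 := by
      rw [lin_sub, lin_u, sub_self, cos_zero]
      linarith [l1 x hx (π / 3) ⟨by linarith, by linarith⟩]
    have a2 : lin (x - u (π / 3)) (2 * π / 3) ≤ 0 := by
      have := l2 x hx (2 * π / 3) ⟨by linarith, by linarith⟩
      rw [lin_sub, lin_one] at this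
      rw [lin_sub, lin_w, sub_self, cos_zero]
      linarith
    have a3 : 0 ≤ lin (x - u (π / 3)) θ := by rw [lin_sub, ex, sub_self]
    rcases hθ.2.eq_or_lt with rfl | h2
    · have a4 : lin (x - 1) (2 * π / 3) = 1 := by
        rw [lin_sub, ex, lin_one, lin_w, sub_self, cos_zero]
        ring
      have := (touch (l2 x hx) ⟨by linarith, by linarith⟩ a4).1 (by linarith) (by linarith)
      exact hw (by rw [← w_eq, ← this, add_sub_cancel]; exact hx)
    · have a4 : lin (-(x - u (π / 3))) (π / 3) ≤ 0 :=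
        sinus_left hθ.1 h2 (by linarith) (by linarith [hθ.1]) (by rw [lin_neg]; linarith)
          (by rw [lin_neg]; linarith)
      rw [lin_neg, lin_sub, lin_u, sub_self, cos_zero] at a4
      have a5 := le_antisymm (l1 x hx (π / 3) ⟨by linarith, by linarith⟩) (by linarith)
      exact hw ((touch (l1 x hx) ⟨by linarith, by linarith⟩ a5).1 (by linarith) (by linarith) ▸ hx)
  have cl : IsClosed {θ | h C θ = lensB θ} := isClosed_eq (continuous_h hC) B_cont
  obtain ⟨α, ⟨⟨α0, α1⟩, α2⟩, α3⟩ := (isCompact_Icc.inter_right cl).exists_isGreatest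
    ⟨0, ⟨le_rfl, (by linarith : (0 : ℝ) ≤ π / 3)⟩, hM.1.left hp.le⟩
  obtain ⟨β, ⟨⟨β0, β1⟩, β2⟩, β3⟩ := (isCompact_Icc.inter_right cl).exists_isLeast
    ⟨π, ⟨(by linarith : 2 * π / 3 ≤ π), le_rfl⟩, hM.1.right hp.le⟩
  obtain ⟨y, hy, y', hy', e1, e2, e3⟩ := hg 0 π lensB 1 0 C α β (by linarith) B_cont.continuousOn
    hM α0 (by linarith) β1 fun θ hθ => by
      refine lt_of_le_of_ne (hB θ ⟨by linarith [hθ.1], by linarith [hθ.2]⟩) fun e => ?_
      rcases le_total θ (π / 3) with h1 | h1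
      · exact absurd (α3 ⟨⟨by linarith [hθ.1], h1⟩, e⟩) (not_le.2 hθ.1)
      rcases le_total θ (2 * π / 3) with h2 | h2
      · exact hmid θ ⟨h1, h2⟩ e
      · exact absurd (β3 ⟨⟨h2, by linarith [hθ.2]⟩, e⟩) (not_le.2 hθ.2)
  have t1 := touch (l1 y hy) ⟨α0, by linarith⟩ (e1.trans (α2.trans (B1 α1)))
  have t2 := touch (α := β) (l2 y' hy') ⟨by linarith, β1⟩ (by
    rw [lin_sub, lin_one, e2, β2.trans (B3 β0)]
    ring)
  have m1 : u α ∈ C := by
    rcases α0.eq_or_lt with rfl | a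
    · simpa using h1
    · exact t1.1 a (by linarith) ▸ hy
  have m2 : 1 + u β ∈ C := by
    rcases β1.eq_or_lt with rfl | a
    · have : 1 + u π = 0 := by apply Complex.ext <;> simp [u]
      exact this ▸ h0
    · rw [← t2.1 (by linarith) a, add_sub_cancel]
      exact hy'
  refine ⟨α, β, ⟨α0, α1⟩, ⟨β0, β1⟩, m1, m2, fun θ hθ => le_antisymm ?_
    (max_le (lin_le_h hC m1 θ) (lin_le_h hC m2 θ))⟩
  have hθ' : θ ∈ Icc 0 π := ⟨by linarith [hθ.1], by linarith [hθ.2]⟩
  rw [e3 θ hθ]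
  refine max_le_max (t1.2 θ hθ') ?_
  have := t2.2 θ hθ'
  rw [lin_sub] at this
  rw [lin_add]
  linarith

end Pool.Agent.Lib.MP_f2780a_gt
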