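import Pool.Agent.Lib.MP_f2780a_gt.Basic
import Pool.Agent.Lib.MP_f2780a_gt.StmtsB

set_option autoImplicit false

noncomputable section

namespace Pool.Agent.Lib.MP_f2780a_gt

open Real MeasureTheory Set

namespace lensC

lemma upi : u π = -1 := by
  apply Complex.ext <;> simp [u]

lemma B_left {θ : ℝ} (h1 : θ ≤ π / 3) : lensB θ = 1 := if_pos h1

lemma B_right {θ : ℝ} (h1 : 2 * π / 3 ≤ θ) : lensB θ = 1 + cos θ := by
  have := pi_pos
  rw [lensB, if_neg (by linarith)]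
  split_ifs with h2
  · obtain rfl : θ = 2 * π / 3 := le_antisymm h2 h1
    rw [lin_u, show 2 * π / 3 - π / 3 = π / 3 by ring, show 2 * π / 3 = π - π / 3 by ring,
      cos_pi_sub, cos_pi_div_three]
    norm_num
  · rfl

lemma sin_half {a : ℝ} (h0 : 0 ≤ a) (h1 : a ≤ π / 3) : 0 ≤ sin (a / 2) ∧ 2 * sin (a / 2) ≤ 1 := by
  have := pi_pos
  refine ⟨sin_nonneg_of_nonneg_of_le_pi (by linarith) (by linarith), ?_⟩
  have h2 : sin (a / 2) ≤ sin (π / 6) :=
    sin_le_sin_of_le_of_le_pi_div_two (by linarith) (by linarith) (by linarith)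
  rw [sin_pi_div_six] at h2
  linarith

lemma iso_sin {a : ℝ} (h0 : 0 ≤ a) (h1 : a ≤ π / 3) : iso (2 * sin (a / 2)) = sin a / 2 := by
  have := pi_pos
  have h2 : 0 ≤ cos (a / 2) := cos_nonneg_of_mem_Icc ⟨by linarith, by linarith⟩
  have h3 : 4 - (2 * sin (a / 2)) ^ 2 = (2 * cos (a / 2)) ^ 2 := by
    nlinarith [sin_sq_add_cos_sq (a / 2)]
  have h4 := sin_two_mul (a / 2)
  rw [show 2 * (a / 2) = a by ring] at h4
  rw [iso, h3, sqrt_sq (by positivity), h4]
  ring

lemma zform (b : ℝ) : 1 + u (2 * b) = ⟨2 * cos b ^ 2, 2 * sin b * cos b⟩ := by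
  apply Complex.ext
  · simp [u, cos_two_mul]
  · simp [u, sin_two_mul]

/-- a cap of the least length is the chord -/
lemma chord_eq {a b : ℝ} {C : Set ℂ} (hab : a ≤ b) (hba : b - a < π) (hC : Arc a b C)
    (hL : Le a b C ≤ 2 * sin ((b - a) / 2)) {θ : ℝ} (hθ : θ ∈ Icc a b) :
    h C θ = max (lin (u a) θ) (lin (u b) θ) := by
  rcases hab.eq_or_lt with rfl | hlt
  · obtain rfl : θ = a := le_antisymm hθ.2 hθ.1
    rw [Cl.left hC le_rfl, lin_u]
    simp
  refine (eqOn_of_Ln_le ((continuous_lin _).max (continuous_lin _)) (continuous_h hC.1) hlt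
    (fun x _ => max_le (lin_le_h hC.1 hC.2.1 x) (lin_le_h hC.1 hC.2.2.1 x)) ?_ hθ).symm
  exact hL.trans_eq (chord (F := fun θ => max (lin (u a) θ) (lin (u b) θ)) hab hba
    fun θ _ => by rw [lin_u, lin_u]).1.symm

end lensC

open lensC in
theorem lensC_proof (hc : capb_stmt) (ht : tri_stmt) : lensC_stmt := by
  rintro C α β hC ⟨⟨a0, a1⟩, ⟨b0, b1⟩, hx, hz, hmid⟩
  obtain ⟨t1, t2, t3⟩ := ht
  obtain ⟨b, rfl⟩ : ∃ b, β = 2 * b := ⟨β / 2, by ring⟩
  have hpi := pi_pos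
  have hcn := hC.1
  have hA1 : Arc 0 α C := ⟨hcn, u_zero ▸ hC.2.1, hx,
    fun θ hθ => (hC.2.2.2.1 θ ⟨hθ.1, by linarith [hθ.2]⟩).trans_eq (B_left (hθ.2.trans a1)),
    lin_u_self 0, lin_u_self α⟩
  have hA3 : Arc (2 * b) π (tr 1 C) := ⟨hcn.tr 1, ⟨_, hz, by simp⟩, ⟨_, hC.2.2.1, by simp [upi]⟩,
    fun θ hθ => by
      have := (hC.2.2.2.1 θ ⟨by linarith [hθ.1], hθ.2⟩).trans_eq (B_right (b0.trans hθ.1))
      rw [h_tr hcn, lin_one]
      linarith, lin_u_self _, lin_u_self _⟩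
  obtain ⟨l1, r1⟩ := hc 0 α C a0 (by linarith) hA1
  obtain ⟨l3, r3⟩ := hc (2 * b) π (tr 1 C) b1 (by linarith) hA3
  have hzb : lin (1 + u (2 * b)) (2 * b) = 1 + cos (2 * b) := by
    rw [lin_add, lin_one, lin_u, sub_self, cos_zero, add_comm]
  have hb2 : h C (2 * b) = 1 + cos (2 * b) :=
    le_antisymm ((hC.2.2.2.1 _ ⟨by linarith, b1⟩).trans_eq (B_right b0))
      (hzb ▸ lin_le_h hcn hz _)
  have hxa : lin (u α) α = 1 := lin_u_self α
  obtain ⟨l2, r2⟩ := two (F := h C) (y := u α) (z := 1 + u (2 * b)) (a := α) (b := 2 * b)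
    (by linarith) (by linarith)
    (hxa ▸ (lin_le_h hcn hz _).trans ((hC.2.2.2.1 _ ⟨a0, by linarith⟩).trans_eq (B_left a1)))
    (by rw [hzb, ← hb2]; exact lin_le_h hcn hx _)
    (by
      by_cases h1 : 2 * b - α < π
      · exact Or.inl h1
      · have h2 : 2 * b = π := by linarith
        right
        rw [hxa, h2, upi]
        simp [lin_def]) hmid
  have c0 : 0 ≤ cos b := cos_nonneg_of_mem_Icc ⟨by linarith, by linarith⟩
  have s0 : 0 ≤ sin (b - α) := sin_nonneg_of_nonneg_of_le_pi (by linarith) (by linarith)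
  have hdt : dt (u α) (1 + u (2 * b)) = 2 * cos b * sin (b - α) := by
    rw [zform, sin_sub]
    simp only [dt, u]
    ring
  have hn2 : ‖u α - (1 + u (2 * b))‖ ≤ 1 := by
    have h1 : cos b ≤ cos (b - α) :=
      cos_le_cos_of_nonneg_of_le_pi (by linarith) (by linarith) (by linarith)
    rw [cos_sub] at h1
    refine abs_le_one_iff_mul_self_le_one.2 ?_ |> (le_abs_self _).trans
    rw [← sq, ← ip_self, zform]
    simp only [ip, u, Complex.sub_re, Complex.sub_im]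
    have h2 := sin_sq_add_cos_sq α
    have h3 := sin_sq_add_cos_sq b
    have h4 : (2 * cos b ^ 2) ^ 2 + (2 * sin b * cos b) ^ 2 = 4 * cos b ^ 2 := by
      linear_combination 4 * cos b ^ 2 * h3
    nlinarith [mul_le_mul_of_nonneg_left h1 c0]
  obtain ⟨p1, q1⟩ := sin_half a0 a1
  obtain ⟨p3, q3⟩ := sin_half (a := π - 2 * b) (by linarith) (by linarith)
  have hn1 : ‖u α - 1‖ = 2 * sin (α / 2) := by
    rw [← u_zero, norm_u_sub_u, sub_zero, abs_of_nonneg p1]
  have hn3 : ‖1 + u (2 * b)‖ = 2 * sin ((π - 2 * b) / 2) := by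
    rw [← norm_neg, neg_add, ← sub_eq_add_neg, ← upi, norm_u_sub_u, abs_of_nonneg p3]
  have hux : ‖u α‖ = 1 := by simp
  obtain ⟨k0, k1, k2⟩ := t3 (u α) (1 + u (2 * b)) hux (hn3 ▸ q3) hn2
  rw [abs_of_nonneg (hdt ▸ by positivity)] at k1 k2
  have hL := Le_split hcn 0 α (2 * b)
  have hL' := Le_split hcn 0 (2 * b) π
  have hR := Ar_split hcn 0 α (2 * b)
  have hR' := Ar_split hcn 0 (2 * b) π
  have eL := Le_tr hcn 1 (2 * b) π
  have eR := Ar_tr hcn 1 (2 * b) π
  rw [norm_sub_rev] at l2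
  simp only [lin'_one, lin_one, sin_pi, hb2, hzb, hxa, lin'_add, lin'_u, sub_self, sin_zero,
    sub_zero, sin_pi_sub] at eL eR l2 r2 l1 r1 r3
  change Le α (2 * b) C = _ at l2
  change Ar α (2 * b) C = _ at r2
  rw [← iso_sin a0 a1] at r1
  rw [← hn3] at l3 r3 q3
  set s1 := 2 * sin (α / 2)
  set s2 := ‖u α - (1 + u (2 * b))‖
  set s3 := ‖1 + u (2 * b)‖
  set D := dt (u α) (1 + u (2 * b))
  set d1 := Le 0 α C - s1 with hd1
  set d3 := Le (2 * b) π (tr 1 C) - s3 with hd3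
  have e1 : Le 0 π C - 1 = s1 + (s3 + s2 - 1) + d1 + d3 := by linarith
  have e2 : iso s1 + D / 2 + 3 / 4 * (d1 + d3) ≤ Ar 0 π C := by linarith
  have g1 : 0 ≤ d1 := by linarith
  have g3 : 0 ≤ d3 := by linarith
  have g0 : 0 ≤ s1 := by positivity
  refine ⟨fun T T0 T1 T2 => ?_, fun hle hA => ?_⟩
  · by_cases h1 : s1 + (s3 + s2 - 1) ≤ 1
    · have h2 := (t1 _ _ g0 k0 h1).1
      rcases le_total T (s1 + (s3 + s2 - 1)) with h3 | h3
      · linarith [(t2 _ _ T0 h3 h1).1]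
      · linarith [(t2 _ _ (by linarith) h3 T1).2.1]
    · have h2 := (t1 s1 (1 - s1) g0 (by linarith) (by linarith)).1
      have h3 := (t2 (1 - s1) (s3 + s2 - 1) (by linarith) (by linarith) (by linarith)).1
      have h4 := (t2 T (s1 + (1 - s1)) T0 (by linarith) (by linarith)).1
      linarith
  have h1 : s1 + (s3 + s2 - 1) ≤ 1 := by linarith
  obtain ⟨h2, h3⟩ := t1 _ _ g0 k0 h1
  have h4 := (t2 (s1 + (s3 + s2 - 1)) (Le 0 π C - 1) (by linarith) (by linarith)
    (by linarith)).2.1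
  have z1 : d1 = 0 := by linarith
  have z3 : d3 = 0 := by linarith
  have key : ∀ w ∈ C, u α ∈ ({0, 1, w} : Set ℂ) → 1 + u (2 * b) ∈ ({0, 1, w} : Set ℂ) →
      ∀ θ ∈ Icc 0 π, h C θ = h {0, 1, w} θ := fun w hw m1 m2 θ hθ => by
    have hcw : CN ({0, 1, w} : Set ℂ) := ((cn_singleton w).insert 1).insert 0
    refine le_antisymm ?_ (h_mono hcw hcn (by
      rintro _ (rfl | rfl | rfl)
      exacts [hC.2.2.1, hC.2.1, hw]) θ)
    have n0 := lin_le_h hcw (x := 0) (by simp) θ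
    have n1 := lin_le_h hcw (x := 1) (by simp) θ
    have n2 := lin_le_h hcw m1 θ
    have n3 := lin_le_h hcw m2 θ
    rcases le_total θ α with h5 | h5
    · rw [chord_eq a0 (by linarith) hA1 (by rw [sub_zero]; linarith) ⟨hθ.1, h5⟩, u_zero]
      exact max_le n1 n2
    rcases le_total θ (2 * b) with h6 | h6
    · rw [hmid θ ⟨h5, h6⟩]
      exact max_le n2 n3
    · have h7 := chord_eq b1 (by linarith) hA3 (by rw [← hn3]; linarith) ⟨h6, hθ.2⟩
      rw [h_tr hcn, upi, lin_neg, sub_eq_iff_eq_add] at h7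
      rw [lin_add] at n3
      rw [h7, ← le_sub_iff_add_le]
      simp only [lin_def, Complex.zero_re, Complex.zero_im, zero_mul, add_zero] at n0
      exact max_le (by linarith) (by linarith)
  by_cases h5 : s3 + s2 - 1 = 0
  · refine ⟨u α, sin_nonneg_of_nonneg_of_le_pi a0 (by linarith), Or.inl ⟨hux, by linarith⟩,
      key _ hx (by simp) ?_⟩
    have h6 : iso (s3 + s2 - 1) = 0 := by simp [h5, iso]
    rw [h5, add_zero] at h4
    have h7 : 2 * cos b * sin (b - α) = 0 := le_antisymm (by linarith) (by positivity)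
    rw [zform]
    rcases mul_eq_zero.1 h7 with h8 | h8
    · left
      have h9 : cos b = 0 := by linarith
      apply Complex.ext <;> simp [h9]
    · right
      right
      have h9 : b - α = 0 := (sin_eq_zero_iff_of_lt_of_lt (by linarith) (by linarith)).1 h8
      obtain rfl : α = π / 3 := by linarith
      obtain rfl : b = π / 3 := by linarith
      apply Complex.ext <;> simp [u] <;> ring
  have h6 : s1 = 0 := (h3 (by linarith)).resolve_right h5
  have h7 : u α = 1 := sub_eq_zero.1 (norm_eq_zero.1 (hn1.trans h6))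
  have h8 : ‖1 + u (2 * b) - 1‖ = s2 := by
    rw [norm_sub_rev]
    exact congrArg (fun w => ‖w - (1 + u (2 * b))‖) h7.symm
  refine ⟨1 + u (2 * b), ?_, ?_, key _ hz (by simp [h7]) (by simp)⟩
  · simpa [u] using sin_nonneg_of_nonneg_of_le_pi (x := 2 * b) (by linarith) b1
  · rcases k2 (by linarith) with h9 | h9 | h9
    · exact Or.inl ⟨h9, by linarith⟩
    · exact Or.inr ⟨h8.trans h9, by linarith⟩
    · exact absurd (by linarith) h5

end Pool.Agent.Lib.MP_f2780a_gt
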