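import Pool.Agent.Lib.MP_f2780a_gt.Basic
import Pool.Agent.Lib.MP_f2780a_gt.StmtsB

/-! The main inequality: reduction to three arcs of the difference body. -/

set_option autoImplicit false

noncomputable section

namespace Pool.Agent.Lib.MP_f2780a_gt

open Real MeasureTheory Set

namespace main

lemma Le_dif {K : Set ℂ} (hK : CN K) (φ : ℝ) : Le φ (φ + π) (Dif K) = Le 0 (2 * π) K := by
  have e : h (Dif K) = fun θ => h K θ + h K (θ + π) := funext fun θ => h_Dif hK θ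
  have h1 := Ln_shift (h K) π φ (φ + π)
  have h2 := Ln_split (continuous_h hK) φ (φ + π) (φ + π + π)
  have h3 := Ln_period (h_periodic K) φ 0
  have h4 := Ln_add (continuous_h hK) ((lip_h hK).shift π).continuous φ (φ + π)
  rw [zero_add, show φ + 2 * π = φ + π + π by ring] at h3
  unfold Le
  rw [e, h4, h1, h2, h3]

lemma Ar_dif {K : Set ℂ} (hK : CN K) (φ : ℝ) :
    Ar φ (φ + π) (Dif K) = Ar 0 (2 * π) K + V 0 (2 * π) (h K) (hb K) := by
  have e : h (Dif K) = fun θ => h K θ + hb K θ := funext fun θ => h_Dif hK θ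
  have e2 : (fun θ => hb K (θ + π)) = h K := funext fun θ => by
    rw [hb, show θ + π + π = θ + 2 * π by ring, h_periodic K θ]
  have h1 : V φ (φ + π) (hb K) (hb K) = V (φ + π) (φ + π + π) (h K) (h K) :=
    V_shift (h K) (h K) π φ (φ + π)
  have h2 := V_split (lip_h hK) (lip_h hK) φ (φ + π) (φ + π + π)
  have h3 := V_period (h_periodic K) (h_periodic K) φ 0
  have h4 := V_shift (h K) (hb K) π φ (φ + π)
  have h5 := V_split (lip_h hK) (lip_hb hK) φ (φ + π) (φ + π + π)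
  have h6 := V_period (h_periodic K) (hb_periodic K) φ 0
  have h7 : V φ (φ + π) (fun x => h K (x + π)) (h K) = V φ (φ + π) (h K) (hb K) :=
    V_symm φ (φ + π) (hb K) (h K)
  rw [zero_add, show φ + 2 * π = φ + π + π by ring] at h3 h6
  rw [e2] at h4
  unfold Ar
  rw [e, V_sq_add (lip_h hK) (lip_hb hK)]
  linarith

lemma Le_le {S : Set ℂ} (hS : CN S) {a b : ℝ} (hab : a ≤ b) (h1 : ∀ θ ∈ Icc a b, h S θ ≤ 1) :
    Le a b S ≤ b - a := by
  have := Ln_mono (continuous_h hS) (continuous_const (y := (1 : ℝ))) hab h1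
  rwa [Ln_const, mul_one] at this

lemma one (hp : pen_stmt) (ha : arc_stmt) {S : Set ℂ} (hS : CN S) (h1 : ∀ x ∈ S, ‖x‖ ≤ 1) (a0 : ℝ)
    {s s' : ℂ} (hs : s ∈ S) (hs' : s' ∈ S) : ∃ a ∈ Icc 0 (π / 6), lenI a ≤ π / 3 ∧
      Le a0 (a0 + π / 3) S ≤ lenI a ∧
      lenI a ≤ Le a0 (a0 + π / 3) S + π / 6 * (‖u a0 - s‖ + ‖u (a0 + π / 3) - s'‖) ∧
      arI a ≤ Ar a0 (a0 + π / 3) S + 2 * (lenI a - Le a0 (a0 + π / 3) S) := by
  obtain ⟨C, hC, c1, c2, c3⟩ := hp S a0 s s' hS h1 hs hs'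
  obtain ⟨a, a1, a2, a3, -⟩ := ha a0 C hC
  have h2 := Le_le hC.1 (a := a0) (b := a0 + π / 3) (by linarith [pi_pos]) hC.2.2.2.1
  refine ⟨a, a1, ?_, ?_, ?_, ?_⟩ <;> linarith

lemma three (hp : pen_stmt) (ha : arc_stmt) {S : Set ℂ} (hS : CN S) (h1 : ∀ x ∈ S, ‖x‖ ≤ 1)
    (φ : ℝ) {s0 s1 s2 : ℂ} (m0 : s0 ∈ S) (m1 : s1 ∈ S) (m2 : s2 ∈ S) (m3 : -s0 ∈ S) :
    ∃ l a, a ∈ ParI l ∧ l ≤ π ∧ Le φ (φ + π) S ≤ l ∧
      l ≤ Le φ (φ + π) S +
        π / 3 * (‖u φ - s0‖ + ‖u (φ + π / 3) - s1‖ + ‖u (φ + 2 * π / 3) - s2‖) ∧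
      valI a ≤ Ar φ (φ + π) S + 2 * (l - Le φ (φ + π) S) - √3 / 2 := by
  obtain ⟨a, a1, a2, a3, a4, a5⟩ := one hp ha hS h1 φ m0 m1
  obtain ⟨b, b1, b2, b3, b4, b5⟩ := one hp ha hS h1 (φ + π / 3) m1 m2
  obtain ⟨c, c1, c2, c3, c4, c5⟩ := one hp ha hS h1 (φ + 2 * π / 3) m2 m3
  rw [show φ + π / 3 + π / 3 = φ + 2 * π / 3 by ring] at b3 b4 b5
  rw [show φ + 2 * π / 3 + π / 3 = φ + π by ring] at c3 c4 c5
  rw [u_add_pi, show -u φ - -s0 = -(u φ - s0) by ring, norm_neg] at c4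
  have l1 := Le_split hS φ (φ + π / 3) (φ + 2 * π / 3)
  have l2 := Le_split hS φ (φ + 2 * π / 3) (φ + π)
  have r1 := Ar_split hS φ (φ + π / 3) (φ + 2 * π / 3)
  have r2 := Ar_split hS φ (φ + 2 * π / 3) (φ + π)
  refine ⟨lenI a + lenI b + lenI c, ![a, b, c], ⟨fun i => ?_, ?_⟩, ?_, ?_, ?_, ?_⟩
  · fin_cases i
    exacts [a1, b1, c1]
  · simp [Fin.sum_univ_three]
  · linarith
  · linarith
  · linarith
  · have : valI ![a, b, c] = arI a + arI b + arI c - √3 / 2 := by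
      simp [valI, Fin.sum_univ_three]
    linarith

end main

theorem main_proof (hh : hex_stmt) (hp : pen_stmt) (hs : stab_stmt) (ha : arc_stmt)
    (hf : fin_stmt) : main_stmt := by
  intro K hK hD h3
  have hc := hK.cn
  have h1 : ∀ x ∈ Dif K, ‖x‖ ≤ 1 := by
    rintro _ ⟨x, hx, y, hy, rfl⟩
    exact hD x hx y hy
  have hL : Le 0 (2 * π) K ≤ π := by
    have := main.Le_le hc.dif (a := 0) (b := 0 + π) (by linarith [pi_pos])
      fun θ _ => h_le hc.dif fun y hy => (lin_le_norm y θ).trans (h1 y hy)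
    rw [main.Le_dif hc] at this
    linarith
  refine ⟨hL, fun μ hμ => ?_⟩
  obtain ⟨μ', f1, f2, -⟩ := hf _ ⟨h3, hL⟩
  obtain rfl := hμ.unique f1
  obtain ⟨s, t, m0, m2, m1, hV⟩ := hh K hK
  have hsq : (1.732 : ℝ) < √3 := lt_sqrt_of_sq_lt (by norm_num)
  have key : ∀ φ, ∃ d, 0 ≤ d ∧ d ≤ π - 3 ∧
      d ≤ π / 3 * (‖u φ - s‖ + ‖u (φ + π / 3) - (s + t)‖ + ‖u (φ + 2 * π / 3) - t‖) ∧
      μ + (√3 / 2 - V 0 (2 * π) (h K) (hb K)) - 0.134 * d ≤ Ar 0 (2 * π) K := by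
    intro φ
    obtain ⟨l, a, a1, a2, a3, a4, a5⟩ := main.three hp ha hc.dif h1 φ m0 m1 m2 (neg_mem_Dif m0)
    rw [main.Le_dif hc] at a3 a4 a5
    rw [main.Ar_dif hc] at a5
    have a6 := f2 l a a3 a1
    unfold sig at a6
    refine ⟨l - Le 0 (2 * π) K, by linarith, by linarith, by linarith, ?_⟩
    nlinarith [mul_nonneg (sub_nonneg.2 a3) (sub_nonneg.2 hsq.le)]
  have hpi := pi_lt_d4
  by_cases hη : √3 / 2 - dt s t ≤ 19 / 1000
  · obtain ⟨φ, hφ⟩ := hs s t (h1 s m0) (h1 t m2) (h1 _ m1) hη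
    obtain ⟨d, d1, -, d3, d4⟩ := key φ
    have e0 : 0 ≤ √3 / 2 - dt s t := by
      have : 0 ≤ ‖u φ - s‖ + ‖u (φ + π / 3) - (s + t)‖ + ‖u (φ + 2 * π / 3) - t‖ := by positivity
      linarith
    have e1 : d ≤ π / 3 * (7 * (√3 / 2 - dt s t)) :=
      d3.trans (mul_le_mul_of_nonneg_left hφ (by positivity))
    have e2 : d ≤ 7.34 * (√3 / 2 - dt s t) := by
      nlinarith [mul_nonneg e0 (sub_nonneg.2 hpi.le)]
    constructor
    · linarith
    · intro h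
      linarith
  · obtain ⟨d, -, d2, -, d4⟩ := key 0
    constructor
    · linarith
    · intro h
      linarith

end Pool.Agent.Lib.MP_f2780a_gt
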