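import Pool.Agent.Lib.MP_f2780a_gt.Basic
import Pool.Agent.Lib.MP_f2780a_gt.StmtsB

set_option autoImplicit false

noncomputable section

namespace Pool.Agent.Lib.MP_f2780a_gt

open Real MeasureTheory Set Filter Topology

namespace Mono

lemma smooth_case {k k1 k2 φ : ℝ → ℝ} {a b : ℝ} (h1 : ∀ θ, HasDerivAt k (k1 θ) θ)
    (h2 : ∀ θ, HasDerivAt k1 (k2 θ) θ) (h3 : Continuous k2) (h4 : ∀ θ, 0 < k θ + k2 θ)
    (h5 : Function.Periodic k (2 * π)) (hab : a ≤ b) (hφ : Lip φ) (h0 : ∀ θ ∈ Icc a b, 0 ≤ φ θ)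
    (he : (φ a = 0 ∧ φ b = 0) ∨ (b = a + 2 * π ∧ φ b = φ a)) : 0 ≤ V a b φ k := by
  rw [V_ibp hφ h1 h2 h3]
  have e : φ b * k1 b - φ a * k1 a = 0 := by
    rcases he with ⟨e1, e2⟩ | ⟨e1, e2⟩
    · rw [e1, e2]; ring
    · have d : HasDerivAt k (k1 (a + 2 * π)) a := by
        have := (h1 (a + 2 * π)).comp_add_const a (2 * π)
        rwa [show (fun x => k (x + 2 * π)) = k from funext h5] at this
      rw [e2, e1, d.unique (h1 a)]; ring
  have : 0 ≤ ∫ θ in a..b, φ θ * (k θ + k2 θ) :=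
    intervalIntegral.integral_nonneg hab fun θ hθ => mul_nonneg (h0 θ hθ) (h4 θ).le
  rw [e]; linarith

end Mono

theorem mono_proof (hs : smooth_stmt) (hb : body_stmt) : mono_stmt := by
  intro K a b φ hK hab hφ h0 he
  obtain ⟨x, hx⟩ := hK.2
  have hK' := hK.tr x
  have hz : (0 : ℂ) ∈ tr x K := ⟨x, hx, sub_self x⟩
  have e1 : V a b φ (h (tr x K)) = V a b φ (h K) := by
    rw [show h (tr x K) = fun θ => h K θ - lin x θ from funext (h_tr hK x),
      V_sub_right hφ (lip_h hK) (lip_lin x), V_lin hφ]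
    rcases he with ⟨e1, e2⟩ | ⟨e1, e2⟩
    · rw [e1, e2]; ring
    · rw [e2, e1, lin'_add_two_pi]; ring
  rw [← e1]
  obtain ⟨R, -, hR⟩ := hK'.bdd
  choose k k1 k2 h1 h2 h3 h4 h5 h6 using fun n : ℕ =>
    hs (tr x K) (1 / ((n : ℝ) + 1)) hK' hz (by positivity)
  have hB := fun n => hb (k n) (k1 n) (k2 n) (h1 n) (h2 n) (h3 n) (h4 n) (h5 n)
  have hlim : ∀ θ, Tendsto (fun n => h (Body (k n)) θ) atTop (𝓝 (h (tr x K) θ)) := by
    intro θ
    have t := (tendsto_one_div_add_atTop_nhds_zero_nat (𝕜 := ℝ)).const_add (h (tr x K) θ)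
    rw [add_zero] at t
    refine tendsto_of_tendsto_of_tendsto_of_le_of_le tendsto_const_nhds t (fun n => ?_) fun n => ?_
    · show _ ≤ h (Body (k n)) θ
      rw [(hB n).2.2.1]; exact (h6 n θ).1
    · show h (Body (k n)) θ ≤ _
      rw [(hB n).2.2.1]; exact (h6 n θ).2
  have hbd : ∀ n, ∀ y ∈ Body (k n), ‖y‖ ≤ R + 1 := by
    intro n y hy
    obtain ⟨θ, -, -, e⟩ := exists_polar y
    have a1 : lin y θ = ‖y‖ := by
      conv_lhs => rw [e]
      rw [lin_smul, lin_u_self, mul_one]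
    have a2 := (abs_le.1 (abs_h_le hK' hR θ)).2
    have a3 : 1 / ((n : ℝ) + 1) ≤ 1 := by
      rw [div_le_one (by positivity)]; linarith [Nat.cast_nonneg (α := ℝ) n]
    linarith [hy θ, (h6 n θ).2]
  refine ge_of_tendsto' (V_h_tendsto hK' (fun n => (hB n).1) hbd hlim hφ hab) fun n => ?_
  rw [(hB n).2.2.1]
  exact Mono.smooth_case (h1 n) (h2 n) (h3 n) (h4 n) (h5 n) hab hφ h0 he

end Pool.Agent.Lib.MP_f2780a_gt
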