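import Pool.Agent.Lib.MP_f2780a_gt.Basic
import Pool.Agent.Lib.MP_f2780a_gt.StmtsB

/-! The equality case of the hexagon bound: a unit equilateral triangle in the set. -/

set_option autoImplicit false

noncomputable section

namespace Pool.Agent.Lib.MP_f2780a_gt

open Real MeasureTheory Set

namespace pal

lemma s3 : √3 * √3 = 3 := Real.mul_self_sqrt (by norm_num)

lemma lin_third (q : ℂ) (a : ℝ) : lin q (a + π / 3) = lin q a / 2 + √3 / 2 * lin' q a := by
  rw [lin_expand q a, add_sub_cancel_left, cos_pi_div_three, sin_pi_div_three]; ring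

lemma lin_third' (q : ℂ) (a : ℝ) :
    lin q a = lin q (a + π / 3) / 2 - √3 / 2 * lin' q (a + π / 3) := by
  rw [lin_expand q (a + π / 3) a, sub_add_cancel_left, cos_neg, sin_neg, cos_pi_div_three,
    sin_pi_div_three]; ring

lemma lin_mid (q : ℂ) (a : ℝ) : √3 * lin q (a + π / 6) = lin q a + lin q (a + π / 3) := by
  have := sinus q a (a + π / 6) (a + π / 3)
  rw [add_sub_cancel_left, add_sub_cancel_left, show a + π / 3 - (a + π / 6) = π / 6 by ring,
    sin_pi_div_three, sin_pi_div_six] at this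
  linarith

lemma exists_lin (a x y : ℝ) : ∃ q : ℂ, lin q a = x ∧ lin q (a + π / 3) = y := by
  refine ⟨x • u a + ((2 * y - x) * √3 / 3) • u' a, ?_, ?_⟩
  · simp [-Complex.real_smul, lin_add, lin_smul, lin_u']
  · rw [lin_add, lin_smul, lin_smul, lin_u, lin_u', add_sub_cancel_left, cos_pi_div_three,
      sin_pi_div_three]
    linear_combination (2 * y - x) / 6 * s3

lemma u_two (a : ℝ) : u (a + π / 3 + π / 3) = u (a + π / 3) - u a := by
  refine lin_ext (θ := a + π / 3) ?_ ?_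
  · rw [lin_sub, lin_u, lin_u, lin_u, sub_add_cancel_left, add_sub_cancel_left, sub_self, cos_neg,
      cos_zero, cos_pi_div_three]; norm_num
  · rw [lin'_sub, lin'_u, lin'_u, lin'_u, sub_add_cancel_left, add_sub_cancel_left, sub_self,
      sin_neg, sin_zero]; ring

lemma lin_two (q : ℂ) (a : ℝ) : lin q (a + π / 3 + π / 3) = lin q (a + π / 3) - lin q a := by
  unfold lin
  rw [u_two, ip_comm, ip_sub, ip_comm _ q, ip_comm _ q]

lemma gap_nonneg {M : Set ℂ} (hM : CN M) {q : ℂ} {a : ℝ} (h1 : lin q a = h M a)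
    (h2 : lin q (a + π / 3) = h M (a + π / 3)) {θ : ℝ} (hθ : θ ∈ Icc a (a + π / 3)) :
    0 ≤ lin q θ - h M θ := by
  obtain ⟨z, hz, e⟩ := h_att hM θ
  have := sinus_mid (d := z - q) hθ.1 hθ.2 (by linarith [pi_pos]) (by linarith [pi_pos])
    (by rw [lin_sub, h1]; linarith [lin_le_h hM hz a])
    (by rw [lin_sub, h2]; linarith [lin_le_h hM hz (a + π / 3)])
  rw [lin_sub] at this
  linarith

lemma mem_of_gap {M : Set ℂ} (hM : CN M) {q : ℂ} {a : ℝ} (h1 : lin q a = h M a)
    (h2 : lin q (a + π / 3) = h M (a + π / 3)) (h3 : lin q (a + π / 6) - h M (a + π / 6) = 0) :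
    q ∈ M := by
  obtain ⟨z, hz, e⟩ := h_att hM (a + π / 6)
  have a1 := lin_le_h hM hz a
  have a2 := lin_le_h hM hz (a + π / 3)
  have a3 := lin_mid z a
  have a4 := lin_mid q a
  rw [e, ← sub_eq_zero.1 h3] at a3
  have a5 := lin_third z a
  have a6 := lin_third q a
  have a7 : lin q a = lin z a := by linarith
  have a8 : √3 / 2 * lin' q a = √3 / 2 * lin' z a := by linarith
  rwa [lin_ext a7 (mul_left_cancel₀ (by positivity) a8)]

lemma sector (hm : mono_stmt) {K M : Set ℂ} (hK : CN K) (hM : CN M) {q : ℂ} {a x y : ℝ}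
    (q1 : lin q a = x) (q2 : lin q (a + π / 3) = y) (k1 : h K a = x) (k2 : h K (a + π / 3) = y)
    (m1 : h M a = x) (m2 : h M (a + π / 3) = y) :
    √3 * V a (a + π / 3) (h M) (h K) ≤ 2 * x * y - (x ^ 2 + y ^ 2) / 2 ∧
      (2 * x * y - (x ^ 2 + y ^ 2) / 2 ≤ √3 * V a (a + π / 3) (h M) (h K) → q ∈ K ∨ q ∈ M) := by
  have hp := pi_pos
  have hγ : a + π / 6 ∈ Icc a (a + π / 3) := ⟨by linarith, by linarith⟩
  have p0 := gap_nonneg hM (q1.trans m1.symm) (q2.trans m2.symm) hγ
  have r0 := gap_nonneg hK (q1.trans k1.symm) (q2.trans k2.symm) hγ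
  set P := lin q (a + π / 6) - h M (a + π / 6) with hP
  set R := lin q (a + π / 6) - h K (a + π / 6) with hR
  set t1 : ℂ := (2 * P) • u' a with ht1
  set t2 : ℂ := (-(2 * P)) • u' (a + π / 3) with ht2
  have l1 : ∀ θ, lin t1 θ = 2 * P * sin (θ - a) := fun θ => by rw [ht1, lin_smul, lin_u']
  have l2 : ∀ θ, lin t2 θ = 2 * P * sin (a + π / 3 - θ) := fun θ => by
    rw [ht2, lin_smul, lin_u', ← neg_sub (a + π / 3), sin_neg]; ring
  have e6 : a + π / 3 - (a + π / 6) = π / 6 := by ring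
  have s0 : 0 ≤ 2 * P * sin (π / 3) := by rw [sin_pi_div_three]; positivity
  have T1 : EqOn (fun θ => min (lin t1 θ) (lin t2 θ)) (lin t1) (Icc a (a + π / 6)) := fun θ hθ => by
    have := sinus_mid (d := t1 - t2) hθ.1 hθ.2 (by linarith) (by linarith)
      (by rw [lin_sub, l1, l2, sub_self, sin_zero, add_sub_cancel_left]; linarith)
      (by rw [lin_sub, l1, l2, add_sub_cancel_left, e6]; linarith)
    rw [lin_sub] at this
    exact min_eq_left (by linarith)
  have T2 : EqOn (fun θ => min (lin t1 θ) (lin t2 θ)) (lin t2) (Icc (a + π / 6) (a + π / 3)) :=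
    fun θ hθ => by
    have := sinus_mid (d := t2 - t1) hθ.1 hθ.2 (by linarith) (by linarith)
      (by rw [lin_sub, l1, l2, add_sub_cancel_left, e6]; linarith)
      (by rw [lin_sub, l1, l2, sub_self, sin_zero, add_sub_cancel_left]; linarith)
    rw [lin_sub] at this
    exact min_eq_right (by linarith)
  have LT : Lip fun θ => min (lin t1 θ) (lin t2 θ) := (lip_lin t1).min (lip_lin t2)
  have Lφ : Lip fun θ => lin q θ - h M θ := (lip_lin q).sub (lip_h hM)
  have key := hm K a (a + π / 3) _ hK (by linarith) (Lφ.sub LT) (fun θ hθ => by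
    obtain ⟨z, hz, e⟩ := h_att hM θ
    have b1 := lin_le_h hM hz a
    have b2 := lin_le_h hM hz (a + π / 3)
    have b3 := lin_le_h hM hz (a + π / 6)
    rcases le_total θ (a + π / 6) with c | c
    · have := sinus (q - z) a θ (a + π / 6)
      rw [add_sub_cancel_left, sin_pi_div_six, lin_sub, lin_sub, lin_sub] at this
      have c1 : 0 ≤ sin (a + π / 6 - θ) :=
        sin_nonneg_of_nonneg_of_le_pi (by linarith) (by linarith [hθ.1])
      have c2 : 0 ≤ sin (θ - a) :=
        sin_nonneg_of_nonneg_of_le_pi (by linarith [hθ.1]) (by linarith)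
      have c3 := mul_nonneg c1 (show 0 ≤ lin q a - lin z a by linarith)
      have c4 := mul_le_mul_of_nonneg_left
        (show P ≤ lin q (a + π / 6) - lin z (a + π / 6) by linarith) c2
      have c5 := min_le_left (lin t1 θ) (lin t2 θ)
      rw [l1 θ] at c5
      simp only [l1 θ]
      linarith
    · have := sinus (q - z) (a + π / 6) θ (a + π / 3)
      rw [e6, sin_pi_div_six, lin_sub, lin_sub, lin_sub] at this
      have c1 : 0 ≤ sin (a + π / 3 - θ) :=
        sin_nonneg_of_nonneg_of_le_pi (by linarith [hθ.2]) (by linarith)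
      have c2 : 0 ≤ sin (θ - (a + π / 6)) :=
        sin_nonneg_of_nonneg_of_le_pi (by linarith) (by linarith [hθ.2])
      have c3 := mul_nonneg c2 (show 0 ≤ lin q (a + π / 3) - lin z (a + π / 3) by linarith)
      have c4 := mul_le_mul_of_nonneg_left
        (show P ≤ lin q (a + π / 6) - lin z (a + π / 6) by linarith) c1
      have c5 := min_le_right (lin t1 θ) (lin t2 θ)
      rw [l2 θ] at c5
      simp only [l2 θ]
      linarith) (.inl ⟨by
        have := T1 (left_mem_Icc.2 (by linarith))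
        simp only at this ⊢
        rw [this, l1, sub_self, sin_zero, q1, m1]; ring, by
        have := T2 (right_mem_Icc.2 (by linarith))
        simp only at this ⊢
        rw [this, l2, sub_self, sin_zero, q2, m2]; ring⟩)
  rw [V_sub Lφ LT (lip_h hK), V_sub (lip_lin q) (lip_h hM) (lip_h hK),
    ← V_split LT (lip_h hK) a (a + π / 6), V_congr (by linarith) T1 (fun _ _ => rfl),
    V_congr (by linarith) T2 (fun _ _ => rfl), V_symm _ _ (lin q), V_symm _ _ (lin t1),
    V_symm _ _ (lin t2), V_lin (lip_h hK), V_lin (lip_h hK), V_lin (lip_h hK), ht1, ht2] at key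
  simp only [lin'_smul, lin'_u', add_sub_cancel_left, sub_self, cos_zero, cos_pi_div_six, k1, k2,
    show a + π / 6 - (a + π / 3) = -(π / 6) by ring, cos_neg] at key
  have d1 := lin_third q a
  have d2 := lin_third' q a
  have d3 := lin_mid q a
  rw [q1, q2] at d1 d2 d3
  have d4 : h K (a + π / 6) = lin q (a + π / 6) - R := by rw [hR]; ring
  have d5 : 0 ≤ 2 * x * y - (x ^ 2 + y ^ 2) / 2 - √3 * V a (a + π / 3) (h M) (h K) -
      3 * (P * R) := by
    have := mul_nonneg (Real.sqrt_nonneg 3) key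
    rw [d4] at this
    refine this.trans_eq ?_
    linear_combination (-x) * d1 - y * d2 + √3 * P * d3 - P * R * s3
  have d6 := mul_nonneg p0 r0
  refine ⟨by linarith, fun H => ?_⟩
  rcases mul_eq_zero.1 (show P * R = 0 by linarith) with c | c
  · exact .inr (mem_of_gap hM (q1.trans m1.symm) (q2.trans m2.symm) c)
  · exact .inl (mem_of_gap hK (q1.trans k1.symm) (q2.trans k2.symm) c)

/-- vertices of the regular hexagon of width one -/
def Q (a : ℝ) : ℂ := (1 / 3 : ℝ) • (u a + u (a + π / 3))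

lemma Q_left (a : ℝ) : lin (Q a) a = 1 / 2 := by
  rw [Q, lin_smul, lin_add, lin_u, lin_u, sub_self, sub_add_cancel_left, cos_neg, cos_zero,
    cos_pi_div_three]; norm_num

lemma Q_right (a : ℝ) : lin (Q a) (a + π / 3) = 1 / 2 := by
  rw [Q, lin_smul, lin_add, lin_u, lin_u, sub_self, add_sub_cancel_left, cos_zero,
    cos_pi_div_three]; norm_num

lemma Q_pi (a : ℝ) : Q (a + π) = -Q a := by
  rw [Q, Q, add_right_comm, u_add_pi, u_add_pi]; module

lemma not_both {K : Set ℂ} (hK : CN K) (hD : Diam1 K) {a : ℝ}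
    (e : hb K (a + π / 3) = 1 / 2) (h1 : Q a ∈ K) (h2 : Q (a + π / 3) ∈ K) : False := by
  obtain ⟨x, hx, ex⟩ := h_att hK (a + π / 3 + π)
  rw [lin_add_pi, ← hb.eq_1, e] at ex
  have a1 := eq_u_of_lin (θ := a + π / 3) (hD _ h1 _ hx) (by rw [lin_sub, Q_right]; linarith)
  have a2 := eq_u_of_lin (θ := a + π / 3) (hD _ h2 _ hx) (by rw [lin_sub, Q_left]; linarith)
  have a3 : Q a = Q (a + π / 3) := sub_left_injective (a1.trans a2.symm)
  have a4 := lin_two (Q a) a
  rw [Q_left, Q_right, a3, Q_right] at a4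
  norm_num at a4

lemma triangle {K : Set ℂ} {a : ℝ} (h1 : Q a ∈ K) (h2 : Q (a + π / 3 + π / 3) ∈ K)
    (h3 : -Q (a + π / 3) ∈ K) :
    ∃ (c : ℂ) (φ : ℝ), c ∈ K ∧ c + u φ ∈ K ∧ c + u (φ + π / 3) ∈ K := by
  refine ⟨Q a, a + π, h1, ?_, ?_⟩
  · have : Q (a + π / 3 + π / 3) = Q a + u (a + π) := by
      rw [Q, Q, u_two (a + π / 3), u_two, u_add_pi]; module
    rwa [← this]
  · have : -Q (a + π / 3) = Q a + u (a + π + π / 3) := by
      rw [Q, Q, u_two, add_right_comm a π, u_add_pi]; module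
    rwa [← this]

lemma hb_pi (K : Set ℂ) (θ : ℝ) : hb K (θ + π) = h K θ := by
  rw [hb, show θ + π + π = θ + 2 * π by ring, h_periodic]

lemma half {K : Set ℂ} (hK : CN K) (hD : Diam1 K) {θ : ℝ} (e : hb K θ = h K θ) :
    0 ≤ h K θ ∧ h K θ ≤ 1 / 2 := by
  obtain ⟨x, hx, ex⟩ := h_att hK θ
  obtain ⟨y, hy, ey⟩ := h_att hK (θ + π)
  have a1 := lin_le_h hK hx (θ + π)
  have a2 := (lin_le_norm (x - y) θ).trans (hD x hx y hy)
  rw [lin_add_pi, ← hb.eq_1, e] at ey a1
  rw [lin_sub] at a2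
  constructor <;> linarith

lemma centred (hm : mono_stmt) {K : Set ℂ} (hK : CN K) (hD : Diam1 K) {a : ℝ}
    (e0 : hb K a = h K a) (e1 : hb K (a + π / 3) = h K (a + π / 3))
    (e2 : hb K (a + π / 3 + π / 3) = h K (a + π / 3 + π / 3))
    (hV : √3 / 2 ≤ V a (a + 2 * π) (hb K) (h K)) :
    ∃ (c : ℂ) (φ : ℝ), c ∈ K ∧ c + u φ ∈ K ∧ c + u (φ + π / 3) ∈ K := by
  have hM : CN ((fun z => -z) '' K) := hK.image continuous_neg
  have S : ∀ {b x y : ℝ} {q : ℂ}, lin q b = x → lin q (b + π / 3) = y → h K b = x →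
      h K (b + π / 3) = y → hb K b = x → hb K (b + π / 3) = y →
      √3 * V b (b + π / 3) (hb K) (h K) ≤ 2 * x * y - (x ^ 2 + y ^ 2) / 2 ∧
      (2 * x * y - (x ^ 2 + y ^ 2) / 2 ≤ √3 * V b (b + π / 3) (hb K) (h K) →
        q ∈ K ∨ -q ∈ K) := fun q1 q2 k1 k2 m1 m2 => by
    have := sector hm hK hM q1 q2 k1 k2 (by rwa [h_neg hK]) (by rwa [h_neg hK])
    rw [h_neg hK] at this
    refine ⟨this.1, fun H => (this.2 H).imp_right ?_⟩
    rintro ⟨z, hz, rfl⟩
    simpa using hz
  have S' : ∀ b : ℝ, hb K b = h K b → hb K (b + π / 3) = h K (b + π / 3) →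
      √3 * V b (b + π / 3) (hb K) (h K) ≤
        2 * h K b * h K (b + π / 3) - (h K b ^ 2 + h K (b + π / 3) ^ 2) / 2 := fun b m1 m2 => by
    obtain ⟨q, q1, q2⟩ := exists_lin b (h K b) (h K (b + π / 3))
    exact (S q1 q2 rfl rfl m1 m2).1
  have e3 : a + π / 3 + π / 3 + π / 3 = a + π := by ring
  have f : ∀ {b : ℝ}, hb K b = h K b → h K (b + π) = h K b := fun e => e
  have hs : V (a + π) (a + 2 * π) (hb K) (h K) = V a (a + π) (hb K) (h K) := by
    rw [show a + 2 * π = a + π + π by ring, ← V_shift, V_symm]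
    simp only [hb_pi]
    rfl
  have s0 := S' _ e0 e1
  have s1 := S' _ e1 e2
  have s2 := S' _ e2 (by rw [e3, hb_pi, f e0])
  have t1 := V_split (lip_hb hK) (lip_h hK) a (a + π) (a + 2 * π)
  have t2 := V_split (lip_hb hK) (lip_h hK) a (a + π / 3) (a + π / 3 + π / 3)
  have t3 := V_split (lip_hb hK) (lip_h hK) a (a + π / 3 + π / 3) (a + π / 3 + π / 3 + π / 3)
  have t4 : 3 / 4 ≤ √3 * V a (a + π / 3) (hb K) (h K) +
      √3 * V (a + π / 3) (a + π / 3 + π / 3) (hb K) (h K) +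
      √3 * V (a + π / 3 + π / 3) (a + π / 3 + π / 3 + π / 3) (hb K) (h K) := by
    rw [← mul_add, ← mul_add, t2, t3, e3]
    have := mul_le_mul_of_nonneg_left hV (Real.sqrt_nonneg 3)
    rw [← t1, hs] at this
    linarith [s3]
  have g3 : h K (a + π / 3 + π / 3 + π / 3) = h K a := by rw [e3, f e0]
  rw [g3] at s2
  obtain ⟨x0, x1⟩ := half hK hD e0
  obtain ⟨y0, y1⟩ := half hK hD e1
  obtain ⟨z0, z1⟩ := half hK hD e2
  have w : (1 / 2 - h K a) ^ 2 + (1 / 2 - h K (a + π / 3)) ^ 2 +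
      (1 / 2 - h K (a + π / 3 + π / 3)) ^ 2 ≤ 0 := by
    nlinarith [mul_nonneg (sub_nonneg.2 x1) y0, mul_nonneg (sub_nonneg.2 y1) z0,
      mul_nonneg (sub_nonneg.2 z1) x0]
  have w0 : h K a = 1 / 2 := by
    nlinarith [sq_nonneg (1 / 2 - h K (a + π / 3)), sq_nonneg (1 / 2 - h K (a + π / 3 + π / 3))]
  have w1 : h K (a + π / 3) = 1 / 2 := by
    nlinarith [sq_nonneg (1 / 2 - h K a), sq_nonneg (1 / 2 - h K (a + π / 3 + π / 3))]
  have w2 : h K (a + π / 3 + π / 3) = 1 / 2 := by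
    nlinarith [sq_nonneg (1 / 2 - h K a), sq_nonneg (1 / 2 - h K (a + π / 3))]
  rw [w0] at e0 g3 s0 s2
  rw [w1] at e1 s0 s1
  rw [w2] at e2 s1 s2
  have g3' : hb K (a + π / 3 + π / 3 + π / 3) = 1 / 2 := by rw [e3, hb_pi, w0]
  have A0 := (S (Q_left _) (Q_right _) w0 w1 e0 e1).2 (by linarith)
  have A1 := (S (Q_left _) (Q_right _) w1 w2 e1 e2).2 (by linarith)
  have A2 := (S (Q_left _) (Q_right _) w2 g3 e2 g3').2 (by linarith)
  have N : ∀ {b : ℝ}, h K (b + π / 3) = 1 / 2 → -Q b ∈ K → -Q (b + π / 3) ∈ K → False :=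
    fun {b} e h1 h2 => not_both hK hD (a := b + π) (by rw [add_right_comm, hb_pi, e])
      (by rwa [Q_pi]) (by rwa [add_right_comm, Q_pi])
  have Q3 : Q (a + π / 3 + π / 3 + π / 3) = -Q a := by rw [e3, Q_pi]
  rcases A0 with A0 | A0
  · exact triangle A0 (A2.resolve_right fun H => N g3 H (by rwa [Q3, neg_neg]))
      (A1.resolve_left (not_both hK hD e1 A0))
  · exact triangle (A1.resolve_right (N w1 A0)) (by rwa [Q3])
      (A2.resolve_left fun H => not_both hK hD g3' H (by rwa [Q3]))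

end pal

open pal in
theorem pal_proof (hm : mono_stmt) : pal_stmt := by
  intro K hK hD hV
  let o : ℝ → ℝ := fun θ => (h K θ - hb K θ) / 2
  have o1 : ∀ θ, o (θ + π) = -o θ := fun θ => by
    simp only [o, hb_pi]; rw [← hb.eq_1]; ring
  have oc : Continuous o := ((continuous_h hK).sub (lip_hb hK).continuous).div_const 2
  let δ : ℝ → ℝ := fun ν => o ν - o (ν + π / 3) + o (ν + π / 3 + π / 3)
  have δc : Continuous δ := by fun_prop
  have δ1 : δ (0 + π) = -δ 0 := by
    simp only [δ]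
    rw [add_right_comm 0 π, add_right_comm _ π, o1, o1, o1]; ring
  obtain ⟨a, -, ha⟩ : (0 : ℝ) ∈ δ '' uIcc 0 (0 + π) := intermediate_value_uIcc δc.continuousOn (by
    rw [δ1, mem_uIcc]
    rcases le_total (δ 0) 0 with c | c
    · left; constructor <;> linarith
    · right; constructor <;> linarith)
  obtain ⟨c, c1, c2⟩ := exists_lin a (o a) (o (a + π / 3))
  have c3 : lin c (a + π / 3 + π / 3) = o (a + π / 3 + π / 3) := by
    rw [lin_two, c1, c2]; simp only [δ] at ha; linarith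
  have e1 : h (tr c K) = fun θ => h K θ - lin c θ := funext (h_tr hK c)
  have e2 : hb (tr c K) = fun θ => hb K θ + lin c θ := funext fun θ => by
    rw [hb, h_tr hK, lin_add_pi, hb]; ring
  have e3 : ∀ θ, lin c θ = o θ → hb (tr c K) θ = h (tr c K) θ := fun θ e => by
    rw [e1, e2]; simp only [e, o]; ring
  have z : ∀ f : ℝ → ℝ, Lip f → Function.Periodic f (2 * π) → V 0 (0 + 2 * π) f (lin c) = 0 :=
    fun f hf hp => by rw [V_lin hf, hp, lin'_add_two_pi]; ring
  obtain ⟨x, φ, x1, x2, x3⟩ := centred hm (hK.tr c) (by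
      rintro _ ⟨x, hx, rfl⟩ _ ⟨y, hy, rfl⟩
      simpa using hD x hx y hy) (e3 _ c1) (e3 _ c2) (e3 _ c3) (by
      rw [V_period (hb_periodic _) (h_periodic _) a 0, e1,
        V_sub_right (lip_hb (hK.tr c)) (lip_h hK) (lip_lin c),
        z _ (lip_hb (hK.tr c)) (hb_periodic _), e2, V_symm,
        V_add_right (lip_h hK) (lip_hb hK) (lip_lin c), z _ (lip_h hK) (h_periodic _), zero_add]
      linarith)
  have m : ∀ w, w ∈ tr c K → w + c ∈ K := by
    rintro _ ⟨y, hy, rfl⟩
    simpa using hy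
  exact ⟨x + c, φ, m _ x1, by rw [add_right_comm]; exact m _ x2,
    by rw [add_right_comm]; exact m _ x3⟩

end Pool.Agent.Lib.MP_f2780a_gt
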