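import Pool.Agent.Lib.MP_f2780a_gt.Basic
import Pool.Agent.Lib.MP_f2780a_gt.StmtsB

set_option autoImplicit false

noncomputable section

namespace Pool.Agent.Lib.MP_f2780a_gt

open Real MeasureTheory Set

namespace Pen

lemma point {S C : Set ℂ} (hS : CN S) (hC : CN C) (hSC : S ⊆ C) (h1 : ∀ x ∈ S, ‖x‖ ≤ 1)
    (h2 : ∀ x ∈ C, x ∈ S ∨ ‖x‖ = 1) {θ : ℝ} (d1 : DifferentiableAt ℝ (h S) θ)
    (d2 : DifferentiableAt ℝ (h C) θ) :
    h C θ * h C θ - deriv (h C) θ * deriv (h C) θ - 4 * h C θ ≤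
      h S θ * h S θ - deriv (h S) θ * deriv (h S) θ - 4 * h S θ := by
  obtain ⟨x, hx, ex⟩ := h_att hC θ
  have hm := h_mono hS hC hSC θ
  rw [deriv_h hC d2 hx ex]
  rcases h2 x hx with hxS | hn
  · have e : lin x θ = h S θ := le_antisymm (lin_le_h hS hxS θ) (ex ▸ hm)
    rw [deriv_h hS d1 hxS e, ← ex, ← e]
  · obtain ⟨y, hy, ey⟩ := h_att hS θ
    rw [deriv_h hS d1 hy ey]
    rw [← ex, ← ey] at hm ⊢
    have a1 := lin_sq_add x θ
    have a2 := lin_sq_add y θ
    have a3 := lin_le_norm x θ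
    have a4 : ‖y‖ ^ 2 ≤ 1 := pow_le_one₀ (norm_nonneg y) (h1 y hy)
    rw [hn] at a1 a3
    nlinarith

lemma area {S C : Set ℂ} (hS : CN S) (hC : CN C) (hSC : S ⊆ C) (h1 : ∀ x ∈ S, ‖x‖ ≤ 1)
    (h2 : ∀ x ∈ C, x ∈ S ∨ ‖x‖ = 1) {a b : ℝ} (hab : a ≤ b) :
    Ar a b C - 2 * Le a b C ≤ Ar a b S - 2 * Le a b S := by
  have e : ∀ K, CN K → Ar a b K - 2 * Le a b K =
      (∫ θ in a..b, (h K θ * h K θ - deriv (h K) θ * deriv (h K) θ - 4 * h K θ)) / 2 :=
    fun K hK => by
      rw [intervalIntegral.integral_sub (ii_V (lip_h hK) (lip_h hK) a b)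
        (((lip_h hK).const_mul 4).ii a b), intervalIntegral.integral_const_mul, Ar, V, Le, Ln]
      ring
  rw [e C hC, e S hS]
  refine div_le_div_of_nonneg_right (intervalIntegral.integral_mono_ae hab
    ((ii_V (lip_h hC) (lip_h hC) a b).sub (((lip_h hC).const_mul 4).ii a b))
    ((ii_V (lip_h hS) (lip_h hS) a b).sub (((lip_h hS).const_mul 4).ii a b)) ?_) zero_le_two
  filter_upwards [(lip_h hS).ae_diff, (lip_h hC).ae_diff] with θ d1 d2
  exact point hS hC hSC h1 h2 d1 d2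

lemma near {S : Set ℂ} (hS : CN S) {s : ℂ} (hs : s ∈ S) (x : ℂ) (θ : ℝ) :
    lin x θ ≤ h S θ + ‖x - s‖ := by
  have h1 := lin_le_norm (x - s) θ
  have h2 := lin_le_h hS hs θ
  rw [lin_sub] at h1
  linarith

lemma len {S C : Set ℂ} (hS : CN S) (hC : CN C) {a b c : ℝ} (hab : a ≤ b)
    (e : ∀ θ ∈ Icc a b, h C θ ≤ h S θ + c) : Le a b C ≤ Le a b S + (b - a) * c := by
  rw [← Ln_const, Le, Le, ← Ln_add (continuous_h hS) continuous_const]
  exact Ln_mono (continuous_h hC) ((continuous_h hS).add continuous_const) hab e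

end Pen

theorem pen_proof : pen_stmt := by
  intro S a0 s s' hS h1 hs hs'
  have hp := pi_pos
  have hC : CN (insert (u a0) (insert (u (a0 + π / 3)) S)) := (hS.insert _).insert _
  have hSC : S ⊆ insert (u a0) (insert (u (a0 + π / 3)) S) :=
    (subset_insert _ _).trans (subset_insert _ _)
  have h2 : ∀ x ∈ insert (u a0) (insert (u (a0 + π / 3)) S), x ∈ S ∨ ‖x‖ = 1 := by
    rintro x (rfl | rfl | hx)
    · exact Or.inr (norm_u _)
    · exact Or.inr (norm_u _)
    · exact Or.inl hx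
  refine ⟨_, ⟨hC, mem_insert _ _, mem_insert_of_mem _ (mem_insert _ _), fun θ _ => ?_,
    lin_u_self _, lin_u_self _⟩, Pen.area hS hC hSC h1 h2 (by linarith),
    Ln_mono (continuous_h hS) (continuous_h hC) (by linarith) fun θ _ => h_mono hS hC hSC θ, ?_⟩
  · exact h_le hC fun y hy => (lin_le_norm y θ).trans ((h2 y hy).elim (h1 y) le_of_eq)
  · have l1 := Pen.len hS hC (a := a0) (b := a0 + π / 6) (c := ‖u a0 - s‖) (by linarith)
      fun θ hθ => by
        have n1 := Pen.near hS hs (u a0) θ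
        rw [h_insert (hS.insert _), h_insert hS]
        refine max_le n1 (max_le (le_trans ?_ n1) (le_add_of_nonneg_right (norm_nonneg _)))
        rw [lin_u, lin_u, ← cos_neg]
        exact cos_le_cos_of_nonneg_of_le_pi (by linarith [hθ.1]) (by linarith [hθ.1])
          (by linarith [hθ.2])
    have l2 := Pen.len hS hC (a := a0 + π / 6) (b := a0 + π / 3) (c := ‖u (a0 + π / 3) - s'‖)
      (by linarith) fun θ hθ => by
        have n1 := Pen.near hS hs' (u (a0 + π / 3)) θ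
        rw [h_insert (hS.insert _), h_insert hS]
        refine max_le (le_trans ?_ n1) (max_le n1 (le_add_of_nonneg_right (norm_nonneg _)))
        rw [lin_u, lin_u, ← cos_neg (θ - (a0 + π / 3))]
        exact cos_le_cos_of_nonneg_of_le_pi (by linarith [hθ.2]) (by linarith [hθ.2])
          (by linarith [hθ.1])
    rw [← Le_split hC a0 (a0 + π / 6), ← Le_split hS a0 (a0 + π / 6)]
    linarith

end Pool.Agent.Lib.MP_f2780a_gt
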