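import Pool.Agent.Lib.MP_f2780a_gt.Basic
import Pool.Agent.Lib.MP_f2780a_gt.StmtsB

set_option autoImplicit false

noncomputable section

namespace Pool.Agent.Lib.MP_f2780a_gt

open Real MeasureTheory Set

namespace PerimMono

lemma key {y z a b : ℂ} (h1 : inner ℝ (y - a) (b - a) ≤ 0) (h2 : inner ℝ (z - b) (a - b) ≤ 0) :
    ‖a - b‖ ≤ ‖y - z‖ := by
  have e : inner ℝ (y - z) (a - b) =
      ‖a - b‖ ^ 2 - inner ℝ (y - a) (b - a) - inner ℝ (z - b) (a - b) := by
    rw [← real_inner_self_eq_norm_sq, ← neg_sub a b, inner_neg_right, sub_neg_eq_add,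
      ← inner_add_left, ← inner_sub_left]
    congr 1
    ring
  have h3 := real_inner_le_norm (y - z) (a - b)
  by_contra hc
  have hc' := not_le.1 hc
  have h4 := norm_nonneg (y - z)
  nlinarith

lemma proj {K : Set ℂ} (hK : IsFigure K) (y : ℂ) :
    ∃ a ∈ K, ∀ w ∈ K, inner ℝ (y - a) (w - a) ≤ 0 := by
  obtain ⟨a, ha, e⟩ := exists_norm_eq_iInf_of_complete_convex (hK.2.2.mono interior_subset)
    hK.1.isComplete hK.2.1 y
  exact ⟨a, ha, (norm_eq_iInf_iff_real_inner_le_zero hK.2.1 ha).1 e⟩

lemma ray {K : Set ℂ} (hK : IsCompact K) {x : ℂ} (hx : x ∈ K) (θ : ℝ) :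
    ∃ t : ℝ, 0 ≤ t ∧ x + t • u θ ∈ frontier K := by
  by_contra hc
  have hg : Continuous fun t : ℝ => x + t • u θ := by fun_prop
  have hs := (isPreconnected_Ici (a := (0 : ℝ))).subset_or_subset (isOpen_interior.preimage hg)
    (hK.isClosed.isOpen_compl.preimage hg)
    ((disjoint_compl_right.mono_left (interior_subset (s := K))).preimage _) (fun t ht => by
      by_cases h1 : x + t • u θ ∈ K
      · left
        by_contra h2
        exact hc ⟨t, ht, subset_closure h1, h2⟩
      · exact Or.inr h1)
  rcases hs with hs | hs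
  · obtain ⟨R, hR⟩ := hK.isBounded.exists_norm_le
    have h0 : 0 ≤ R := (norm_nonneg x).trans (hR x hx)
    have h1 := hR _ (interior_subset (hs (show 2 * R + 1 ∈ Ici (0 : ℝ) by
      rw [mem_Ici]; positivity)))
    have h2 := hR x hx
    have h3 := norm_sub_le (x + (2 * R + 1) • u θ) x
    rw [add_sub_cancel_left, norm_smul, norm_u, Real.norm_of_nonneg (by positivity)] at h3
    linarith
  · have := hs (mem_Ici.2 le_rfl)
    simp only [mem_preimage, zero_smul, add_zero] at this
    exact this hx

end PerimMono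

theorem perimMono_proof : perimMono_stmt := by
  intro K K' hK hK' hs
  choose P hP hP' using PerimMono.proj hK
  have hL : LipschitzWith 1 P := LipschitzWith.of_dist_le_mul fun y z => by
    rw [NNReal.coe_one, one_mul, dist_eq_norm, dist_eq_norm]
    exact PerimMono.key (hP' y _ (hP z)) (hP' z _ (hP y))
  have hsub : frontier K ⊆ P '' frontier K' := fun x hx => by
    have hxK : x ∈ K := hK.1.isClosed.frontier_subset hx
    obtain ⟨θ, hθ⟩ := exists_normal hK hx.2
    obtain ⟨t, ht, hy⟩ := PerimMono.ray hK' (hs hxK) θ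
    refine ⟨_, hy, ?_⟩
    have h1 : inner ℝ (x + t • u θ - x) (P (x + t • u θ) - x) ≤ 0 := by
      rw [add_sub_cancel_left, real_inner_smul_left]
      refine mul_nonpos_of_nonneg_of_nonpos ht ?_
      have := hθ _ (hP (x + t • u θ))
      simp only [lin, ip] at this
      simp only [Complex.inner, Complex.mul_re, Complex.sub_re, Complex.sub_im, Complex.conj_re,
        Complex.conj_im]
      linarith
    have h2 := PerimMono.key (hP' (x + t • u θ) x hxK) h1
    rw [sub_self, norm_zero, norm_le_zero_iff, sub_eq_zero] at h2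
    exact h2
  refine (measure_mono hsub).trans ?_
  have := hL.hausdorffMeasure_image_le zero_le_one (frontier K')
  simpa using this

end Pool.Agent.Lib.MP_f2780a_gt
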