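import Pool.Agent.Lib.MP_f2780a_gt.Basic
import Pool.Agent.Lib.MP_f2780a_gt.StmtsB

/-! The perimeter of a smooth strictly convex body. -/

set_option autoImplicit false

noncomputable section

namespace Pool.Agent.Lib.MP_f2780a_gt

open Real MeasureTheory Set Filter Topology

namespace perimS

lemma hasDerivAt_u (θ : ℝ) : HasDerivAt u (u' θ) θ := by
  have e : u = fun θ : ℝ => cos θ • (1 : ℂ) + sin θ • Complex.I := by
    funext θ; apply Complex.ext <;> simp [u, Complex.cos_ofReal_re, Complex.sin_ofReal_re]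
  have e' : u' θ = (-sin θ) • (1 : ℂ) + cos θ • Complex.I := by
    apply Complex.ext <;> simp [u', Complex.cos_ofReal_re, Complex.sin_ofReal_re]
  rw [e, e']
  exact ((hasDerivAt_cos θ).smul_const _).add ((hasDerivAt_sin θ).smul_const _)

lemma hasDerivAt_u' (θ : ℝ) : HasDerivAt u' (-u θ) θ := by
  have e : u' = fun θ : ℝ => (-sin θ) • (1 : ℂ) + cos θ • Complex.I := by
    funext θ; apply Complex.ext <;> simp [u', Complex.cos_ofReal_re, Complex.sin_ofReal_re]
  have e' : -u θ = (-cos θ) • (1 : ℂ) + (-sin θ) • Complex.I := by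
    apply Complex.ext <;> simp [u, Complex.cos_ofReal_re, Complex.sin_ofReal_re]
  rw [e, e']
  exact ((hasDerivAt_sin θ).neg.smul_const _).add ((hasDerivAt_cos θ).smul_const _)

lemma norm_u1 (θ : ℝ) : ‖u θ‖ = 1 := by
  rw [u_eq_exp]; exact Complex.norm_exp_ofReal_mul_I θ

lemma upper {γ : ℝ → ℂ} {s : ℝ → ℝ} (hs : StrictMono s)
    (hl : ∀ a b, a ≤ b → ‖γ b - γ a‖ ≤ s b - s a) (a b : ℝ) :
    μH[1] (γ '' Icc a b) ≤ ENNReal.ofReal (s b - s a) := by
  have hinv : ∀ x, Function.invFun s (s x) = x := Function.leftInverse_invFun hs.injective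
  have hL : LipschitzOnWith 1 (γ ∘ Function.invFun s) (s '' Icc a b) := by
    refine LipschitzOnWith.of_dist_le_mul ?_
    rintro _ ⟨x, -, rfl⟩ _ ⟨y, -, rfl⟩
    simp only [Function.comp, hinv, NNReal.coe_one, one_mul, dist_eq_norm, Real.norm_eq_abs]
    rcases le_total x y with h | h
    · rw [norm_sub_rev, abs_sub_comm]; exact (hl x y h).trans (le_abs_self _)
    · exact (hl y x h).trans (le_abs_self _)
  have e : γ '' Icc a b = (γ ∘ Function.invFun s) '' (s '' Icc a b) := by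
    rw [image_image]; simp only [Function.comp, hinv]
  have h1 := hL.hausdorffMeasure_image_le (d := 1) zero_le_one
  rw [e]
  refine h1.trans ?_
  rw [ENNReal.coe_one, ENNReal.one_rpow, one_mul, hausdorffMeasure_real, ← volume_Icc]
  refine measure_mono ?_
  rintro _ ⟨x, hx, rfl⟩
  exact ⟨hs.monotone hx.1, hs.monotone hx.2⟩

lemma lower1 {γ : ℝ → ℂ} {s ρ : ℝ → ℝ} (hγ : ∀ θ, HasDerivAt γ (ρ θ • u' θ) θ)
    (hs : ∀ θ, HasDerivAt s (ρ θ) θ) (hρ : ∀ θ, 0 < ρ θ) {a δ : ℝ} (h0 : 0 ≤ δ) (hπ : δ ≤ π) :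
    ENNReal.ofReal (cos δ * (s (a + δ) - s a)) ≤ μH[1] (γ '' Ico a (a + δ)) := by
  have hP : LipschitzWith 1 fun z : ℂ => lin' z a := by
    refine LipschitzWith.of_dist_le_mul fun x y => ?_
    rw [NNReal.coe_one, one_mul, dist_eq_norm, dist_eq_norm, Real.norm_eq_abs, ← lin'_sub]
    exact abs_lin'_le _ _
  have hW : ∀ θ, HasDerivAt (fun θ => lin' (γ θ) a) (ρ θ * cos (a - θ)) θ := fun θ => by
    have h1 := (Complex.reCLM.hasFDerivAt.comp_hasDerivAt θ (hγ θ)).mul_const (-sin a)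
    have h2 := (Complex.imCLM.hasFDerivAt.comp_hasDerivAt θ (hγ θ)).mul_const (cos a)
    have h3 := h1.add h2
    rw [← lin'_u', ← lin'_smul, lin'_def]
    simp only [lin'_def]
    exact h3
  have hD : ∀ θ, HasDerivAt (fun θ => lin' (γ θ) a - cos δ * s θ)
      (ρ θ * cos (a - θ) - cos δ * ρ θ) θ := fun θ => (hW θ).sub ((hs θ).const_mul _)
  have hm : MonotoneOn (fun θ => lin' (γ θ) a - cos δ * s θ) (Icc a (a + δ)) := by
    refine monotoneOn_of_deriv_nonneg (convex_Icc _ _)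
      (fun θ _ => (hD θ).continuousAt.continuousWithinAt)
      (fun θ _ => (hD θ).differentiableAt.differentiableWithinAt) fun θ hθ => ?_
    rw [interior_Icc] at hθ
    rw [(hD θ).deriv, ← cos_neg (a - θ)]
    have := cos_le_cos_of_nonneg_of_le_pi (x := -(a - θ)) (y := δ) (by linarith [hθ.1]) hπ
      (by linarith [hθ.2])
    nlinarith [hρ θ]
  have h1 := hm (left_mem_Icc.2 (by linarith)) (right_mem_Icc.2 (by linarith)) (by linarith)
  have h2 := intermediate_value_Ioo (a := a) (b := a + δ) (by linarith)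
    (f := fun θ => lin' (γ θ) a) fun θ _ => (hW θ).continuousAt.continuousWithinAt
  have h3 := hP.hausdorffMeasure_image_le (d := 1) zero_le_one (γ '' Ico a (a + δ))
  rw [ENNReal.coe_one, ENNReal.one_rpow, one_mul, hausdorffMeasure_real, image_image] at h3
  refine le_trans ?_ ((measure_mono (h2.trans (image_mono Ioo_subset_Ico_self))).trans h3)
  rw [volume_Ioo]
  refine ENNReal.ofReal_le_ofReal ?_
  simp only at h1
  linarith

lemma lower {γ : ℝ → ℂ} {s ρ : ℝ → ℝ} (hγ : ∀ θ, HasDerivAt γ (ρ θ • u' θ) θ)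
    (hs : ∀ θ, HasDerivAt s (ρ θ) θ) (hρ : ∀ θ, 0 < ρ θ) (hi : InjOn γ (Ico 0 (2 * π)))
    {δ : ℝ} (h0 : 0 ≤ δ) (hπ : δ ≤ π) (n : ℕ) (hn : n * δ ≤ 2 * π) :
    ENNReal.ofReal (cos δ * (s (n * δ) - s 0)) ≤ μH[1] (γ '' Ico 0 (n * δ)) := by
  induction n with
  | zero => simp
  | succ n ih =>
    have hn0 : 0 ≤ (n : ℝ) * δ := by positivity
    have e : ((n + 1 : ℕ) : ℝ) * δ = n * δ + δ := by push_cast; ring
    rw [e] at hn ⊢
    have s1 : Ico 0 (n * δ) ⊆ Ico 0 (2 * π) := Ico_subset_Ico le_rfl (by linarith)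
    have s2 : Ico (n * δ) (n * δ + δ) ⊆ Ico 0 (2 * π) := Ico_subset_Ico hn0 hn
    have hd : Disjoint (γ '' Ico 0 (n * δ)) (γ '' Ico (n * δ) (n * δ + δ)) := by
      rw [Set.disjoint_left]
      rintro _ ⟨x, hx, rfl⟩ ⟨y, hy, hxy⟩
      have := hi (s2 hy) (s1 hx) hxy
      linarith [hx.2, hy.1]
    have hme : MeasurableSet (γ '' Ico (n * δ) (n * δ + δ)) :=
      measurableSet_Ico.image_of_continuousOn_injOn
        (fun θ _ => (hγ θ).continuousAt.continuousWithinAt) (hi.mono s2)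
    rw [← Ico_union_Ico_eq_Ico hn0 (by linarith : (n : ℝ) * δ ≤ n * δ + δ), image_union,
      measure_union hd hme]
    refine le_trans ?_ (add_le_add (ih (by linarith)) (lower1 hγ hs hρ h0 hπ))
    refine le_trans (le_of_eq ?_) ENNReal.ofReal_add_le
    rw [← mul_add, add_comm (s _ - s 0), sub_add_sub_cancel]

end perimS

open perimS in
theorem perimS_proof (hb : body_stmt) : perimS_stmt := by
  intro k k1 k2 h1 h2 h3 h4 hp _
  obtain ⟨hcn, -, -, heq, hlt⟩ := hb k k1 k2 h1 h2 h3 h4 hp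
  have hkc : Continuous k := continuous_iff_continuousAt.2 fun θ => (h1 θ).continuousAt
  obtain ⟨γ, hγd⟩ : ∃ γ : ℝ → ℂ, γ = fun θ => k θ • u θ + k1 θ • u' θ := ⟨_, rfl⟩
  have heq' : ∀ θ, lin (γ θ) θ = k θ := by rw [hγd]; exact heq
  have hlt' : ∀ θ φ, 0 < |φ - θ| → |φ - θ| < 2 * π → lin (γ θ) φ < k φ := by rw [hγd]; exact hlt
  have hγ : ∀ θ, HasDerivAt γ ((k θ + k2 θ) • u' θ) θ := fun θ => by
    have := ((h1 θ).smul (hasDerivAt_u θ)).add ((h2 θ).smul (hasDerivAt_u' θ))
    rw [hγd]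
    refine this.congr_deriv ?_
    rw [add_smul, smul_neg]
    abel
  obtain ⟨s, hsd⟩ : ∃ s : ℝ → ℝ, s = fun θ => (∫ x in (0 : ℝ)..θ, k x) + k1 θ := ⟨_, rfl⟩
  have hs : ∀ θ, HasDerivAt s (k θ + k2 θ) θ := fun θ => by
    rw [hsd]
    exact (hkc.integral_hasStrictDerivAt 0 θ).hasDerivAt.add (h2 θ)
  have hk1 : k1 (2 * π) = k1 0 := by
    have e : (fun x => k (x + 2 * π)) = k := funext hp
    have h5 : HasDerivAt (fun x => k (x + 2 * π)) (k1 (0 + 2 * π)) 0 :=
      HasDerivAt.comp_add_const 0 (2 * π) (h1 _)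
    rw [e, zero_add] at h5
    exact h5.unique (h1 0)
  have hL : s (2 * π) - s 0 = Ln 0 (2 * π) k := by
    rw [hsd]; simp only [Ln, hk1, intervalIntegral.integral_same]; ring
  have hper : ∀ (x : ℂ) (c θ : ℝ),
      lin x (θ + 2 * π) + c ≤ k (θ + 2 * π) ↔ lin x θ + c ≤ k θ := fun x c θ => by
    rw [lin_add_two_pi, hp]
  have hsub : frontier (Body k) ⊆ γ '' Icc 0 (2 * π) := by
    intro x hx
    have hx1 : x ∈ Body k := hcn.1.isClosed.frontier_subset hx
    obtain ⟨θ, hθ, hmin⟩ := isCompact_Icc.exists_isMinOn (nonempty_Icc.2 (by positivity))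
      (f := fun θ => k θ - lin x θ) (s := Icc 0 (2 * π))
      (hkc.sub (continuous_lin x)).continuousOn
    have he : lin x θ = k θ := by
      by_contra hne
      have hδ : 0 < k θ - lin x θ := sub_pos.2 (lt_of_le_of_ne (hx1 θ) hne)
      refine hx.2 (mem_interior.2 ⟨Metric.ball x (k θ - lin x θ), fun y hy φ => ?_,
        Metric.isOpen_ball, Metric.mem_ball_self hδ⟩)
      have h5 : lin x φ + (k θ - lin x θ) ≤ k φ := by
        refine forall_of_period (P := fun φ => lin x φ + (k θ - lin x θ) ≤ k φ) 0 (hper x _)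
          (fun ψ hψ => ?_) φ
        rw [zero_add] at hψ
        have : k θ - lin x θ ≤ k ψ - lin x ψ := hmin hψ
        linarith
      have h6 := lin_le_norm (y - x) φ
      rw [lin_sub] at h6
      rw [Metric.mem_ball, dist_eq_norm] at hy
      linarith
    have h7 := deriv_eq_of_touch (h1 θ).differentiableAt he (Eventually.of_forall hx1)
    rw [(h1 θ).deriv] at h7
    refine ⟨θ, hθ, ?_⟩
    rw [hγd]
    simp only
    rw [h7, ← he]
    exact (eq_frame x θ).symm
  have hsup : γ '' Ico 0 (2 * π) ⊆ frontier (Body k) := by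
    rintro _ ⟨θ, -, rfl⟩
    refine ⟨subset_closure fun φ => ?_, fun hin => ?_⟩
    · have := forall_of_period (P := fun φ => lin (γ θ) φ + 0 ≤ k φ) θ (hper _ _)
        (fun ψ hψ => ?_) φ
      · simpa using this
      rcases hψ.1.eq_or_lt with rfl | h5
      · rw [heq', add_zero]
      rcases hψ.2.eq_or_lt with rfl | h6
      · rw [lin_add_two_pi, hp, heq', add_zero]
      · rw [add_zero]
        refine (hlt' θ ψ (abs_pos.2 (by linarith)) ?_).le
        rw [abs_of_pos (by linarith)]; linarith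
    · obtain ⟨ε, hε, hball⟩ := Metric.isOpen_iff.1 isOpen_interior _ hin
      have h5 : γ θ + (ε / 2) • u θ ∈ Body k := by
        refine interior_subset (hball ?_)
        rw [Metric.mem_ball, dist_eq_norm, add_sub_cancel_left, norm_smul, norm_u1,
          Real.norm_eq_abs, abs_of_pos (by linarith)]
        linarith
      have h6 := h5 θ
      rw [lin_add, lin_smul, lin_u, sub_self, cos_zero, heq'] at h6
      linarith
  have hi : InjOn γ (Ico 0 (2 * π)) := by
    intro a ha b hb' hab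
    by_contra hne
    have h5 := hlt' a b (abs_pos.2 (sub_ne_zero.2 (Ne.symm hne)))
      (abs_lt.2 ⟨by linarith [ha.2, hb'.1], by linarith [ha.1, hb'.2]⟩)
    rw [hab, heq'] at h5
    exact lt_irrefl _ h5
  have hρc : Continuous fun θ => k θ + k2 θ := hkc.add h3
  refine le_antisymm ((measure_mono hsub).trans ?_) (le_trans ?_ (measure_mono hsup))
  · rw [← hL]
    refine upper (strictMono_of_deriv_pos fun θ => by rw [(hs θ).deriv]; exact h4 θ)
      (fun a b hab => ?_) _ _
    rw [← intervalIntegral.integral_eq_sub_of_hasDerivAt (fun θ _ => hγ θ)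
        ((hρc.smul continuous_u').intervalIntegrable _ _),
      ← intervalIntegral.integral_eq_sub_of_hasDerivAt (fun θ _ => hs θ)
        (hρc.intervalIntegrable _ _)]
    refine (intervalIntegral.norm_integral_le_integral_norm hab).trans (le_of_eq ?_)
    refine intervalIntegral.integral_congr fun θ _ => ?_
    rw [norm_smul, u'_eq, norm_u1, mul_one, Real.norm_eq_abs, abs_of_pos (h4 θ)]
  · have ht : Tendsto (fun n : ℕ => 2 * π / ((n + 2 : ℕ) : ℝ)) atTop (𝓝 0) :=
      (tendsto_const_div_atTop_nhds_zero_nat (2 * π)).comp (tendsto_add_atTop_nat 2)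
    have ht2 := ENNReal.tendsto_ofReal
      (((continuous_cos.tendsto 0).comp ht).mul_const (Ln 0 (2 * π) k))
    rw [cos_zero, one_mul] at ht2
    refine le_of_tendsto' ht2 fun n => ?_
    have hn : (2 : ℝ) ≤ ((n + 2 : ℕ) : ℝ) := by exact_mod_cast Nat.le_add_left 2 n
    have e : ((n + 2 : ℕ) : ℝ) * (2 * π / ((n + 2 : ℕ) : ℝ)) = 2 * π := by field_simp
    have h5 := lower hγ hs h4 hi (δ := 2 * π / ((n + 2 : ℕ) : ℝ)) (by positivity)
      (by rw [div_le_iff₀ (by linarith)]; nlinarith [pi_pos]) (n + 2) e.le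
    rw [e, hL] at h5
    exact h5

end Pool.Agent.Lib.MP_f2780a_gt
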