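import Pool.Agent.Lib.MP_f2780a_gt.Basic
import Pool.Agent.Lib.MP_f2780a_gt.StmtsB

set_option autoImplicit false

noncomputable section

namespace Pool.Agent.Lib.MP_f2780a_gt

open Real MeasureTheory Set
open scoped Pointwise

namespace Place

/-- the rotation by `φ` -/
def R (φ : ℝ) : ℂ ≃ₗᵢ[ℝ] ℂ := rotation ⟨u φ, mem_sphere_zero_iff_norm.2 (norm_u φ)⟩

lemma R_apply (φ : ℝ) (z : ℂ) : R φ z = u φ * z := rfl

lemma place_eq (c : ℂ) (φ D : ℝ) (S : Set ℂ) : place c φ D S = c +ᵥ D • (R φ '' S) := by
  rw [place, ← image_smul, ← image_vadd, image_image, image_image]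
  refine image_congr fun z _ => ?_
  rw [R_apply, vadd_eq_add, Complex.real_smul, mul_assoc]

/-- the similarity as a homeomorphism -/
def T (c : ℂ) (φ : ℝ) {D : ℝ} (hD : D ≠ 0) : ℂ ≃ₜ ℂ :=
  ((R φ).toHomeomorph.trans (Homeomorph.smulOfNeZero D hD)).trans (Homeomorph.addLeft c)

lemma T_image (c : ℂ) (φ : ℝ) {D : ℝ} (hD : D ≠ 0) (S : Set ℂ) :
    T c φ hD '' S = place c φ D S := by
  refine image_congr fun z _ => ?_
  show c + D • (u φ * z) = _
  rw [Complex.real_smul, mul_assoc]

end Place

open Place in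
theorem place_proof : place_stmt := by
  intro c φ D K hD ⟨h1, h2, h3⟩
  refine ⟨⟨?_, ?_, ?_⟩, ?_, ?_, ?_⟩
  · rw [← T_image c φ hD.ne']
    exact h1.image (T c φ hD.ne').continuous
  · rw [place_eq]
    exact ((h2.linear_image (R φ).toLinearEquiv.toLinearMap).smul D).vadd c
  · rw [← T_image c φ hD.ne', ← Homeomorph.image_interior]
    exact h3.image _
  · have e : volume (R φ '' K) = volume K := by
      have e1 : R φ '' K = (R φ).symm ⁻¹' K := (R φ).toEquiv.image_eq_preimage_symm K
      rw [e1]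
      exact (R φ).symm.measurePreserving.measure_preimage h1.measurableSet.nullMeasurableSet
    rw [area, area, place_eq, measure_vadd, Measure.addHaar_smul, e, Complex.finrank_real_complex,
      ENNReal.toReal_mul, ENNReal.toReal_ofReal (abs_nonneg _), abs_of_pos (by positivity)]
  · rw [perimeter, perimeter, ← T_image c φ hD.ne', ← Homeomorph.image_frontier, T_image, place_eq,
      hausdorffMeasure_vadd _ (Or.inl zero_le_one),
      Measure.hausdorffMeasure_smul₀ zero_le_one hD.ne',
      (R φ).isometry.hausdorffMeasure_image (Or.inl zero_le_one)]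
    simp [abs_of_pos hD]
  · rw [place_eq, diam_vadd, diam_smul₀, (R φ).isometry.diam_image, Real.norm_eq_abs,
      abs_of_pos hD]

end Pool.Agent.Lib.MP_f2780a_gt
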