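import Pool.Agent.Lib.MP_f2780a_gt.Basic
import Pool.Agent.Lib.MP_f2780a_gt.StmtsB

set_option autoImplicit false

noncomputable section

namespace Pool.Agent.Lib.MP_f2780a_gt

open Real MeasureTheory Set

namespace Polyarc

/-- on one step of a monotone chain the support function is the larger of two cosines -/
lemma h_step {τ : ℕ → ℝ} (hm : Monotone τ) {N : ℕ} (h0 : 0 ≤ τ 0) (hN : τ N ≤ π / 3) {a0 : ℝ}
    {P : Set ℂ} (hP : CN P) (h1 : ∀ j ≤ N, u (a0 + τ j) ∈ P)
    (h2 : ∀ y ∈ P, ∃ j ≤ N, y = u (a0 + τ j)) {j : ℕ} (hj : j < N) :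
    ∀ θ ∈ Icc (a0 + τ j) (a0 + τ (j + 1)),
      h P θ = max (cos (θ - (a0 + τ j))) (cos (θ - (a0 + τ (j + 1)))) := by
  intro θ hθ
  obtain ⟨l, r⟩ := hθ
  have hpi := pi_pos
  apply le_antisymm
  · apply h_le hP
    intro y hy
    obtain ⟨i, hi, rfl⟩ := h2 y hy
    rw [lin_u]
    have a1 := hm (Nat.zero_le i)
    have a2 := hm hi
    have a3 := hm (show j + 1 ≤ N from hj)
    have a4 := hm (Nat.zero_le j)
    rcases le_or_gt i j with hij | hij
    · have := hm hij
      exact le_max_of_le_left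
        (cos_le_cos_of_nonneg_of_le_pi (by linarith) (by linarith) (by linarith))
    · have := hm (show j + 1 ≤ i from hij)
      refine le_max_of_le_right ?_
      rw [← cos_neg, ← cos_neg (θ - (a0 + τ (j + 1)))]
      exact cos_le_cos_of_nonneg_of_le_pi (by linarith) (by linarith) (by linarith)
  · apply max_le
    · rw [← lin_u]; exact lin_le_h hP (h1 j hj.le) θ
    · rw [← lin_u]; exact lin_le_h hP (h1 (j + 1) hj) θ

lemma chain {τ : ℕ → ℝ} (hm : Monotone τ) {N : ℕ} (h0 : τ 0 = 0) (hN : τ N ≤ π / 3) {a0 : ℝ}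
    {P : Set ℂ} (hP : CN P) (h1 : ∀ j ≤ N, u (a0 + τ j) ∈ P)
    (h2 : ∀ y ∈ P, ∃ j ≤ N, y = u (a0 + τ j)) (m : ℕ) (hmN : m ≤ N) :
    Le a0 (a0 + τ m) P = ∑ j ∈ Finset.range m, 2 * sin ((τ (j + 1) - τ j) / 2) ∧
    Ar a0 (a0 + τ m) P = ∑ j ∈ Finset.range m, sin (τ (j + 1) - τ j) / 2 := by
  induction m with
  | zero => simp [h0, Le, Ln, Ar, V]
  | succ m ih =>
    obtain ⟨e1, e2⟩ := ih (by omega)
    have hpi := pi_pos
    have a1 := hm (Nat.zero_le m)
    have a2 := hm hmN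
    have a3 := hm (Nat.le_succ m)
    obtain ⟨c1, c2⟩ := chord (F := h P) (a := a0 + τ m) (b := a0 + τ (m + 1)) (by linarith)
      (by linarith) (h_step hm h0.ge hN hP h1 h2 hmN)
    rw [add_sub_add_left_eq_sub] at c1 c2
    rw [Finset.sum_range_succ, Finset.sum_range_succ, ← e1, ← e2, ← c1, ← c2]
    exact ⟨(Le_split hP _ _ _).symm, (Ar_split hP _ _ _).symm⟩

/-- the division points in increasing order -/
def τ (a : ℝ) (k j : ℕ) : ℝ := if j ≤ k then 2 * j * a else 2 * (j - 1) * a + 2 * rr a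

lemma τ_step (a : ℝ) (k j : ℕ) :
    τ a k (j + 1) - τ a k j = if j = k then 2 * rr a else 2 * a := by
  unfold τ
  rcases lt_trichotomy j k with hj | rfl | hj
  · rw [if_pos (by omega), if_pos hj.le, if_neg hj.ne]; push_cast; ring
  · rw [if_neg (by omega), if_pos le_rfl, if_pos rfl]; push_cast; ring
  · rw [if_neg (by omega), if_neg (by omega), if_neg hj.ne']; push_cast; ring

lemma sum_step {k n : ℕ} (hk : k ≤ n) (A B : ℝ) :
    ∑ j ∈ Finset.range (n + 1), (if j = k then A else B) = A + n * B := by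
  rw [← Finset.add_sum_erase _ _ (Finset.mem_range.2 (Nat.lt_succ_of_le hk)), if_pos rfl,
    Finset.sum_congr rfl fun j hj => if_neg (Finset.ne_of_mem_erase hj), Finset.sum_const,
    Finset.card_erase_of_mem (Finset.mem_range.2 (Nat.lt_succ_of_le hk))]
  simp

end Polyarc

open Polyarc in
theorem polyarc_proof : polyarc_stmt := by
  intro a0 a k ha _ hk
  have hpi := pi_pos
  have hr : 0 ≤ rr a := by
    have := Nat.floor_le (show 0 ≤ π / 6 / a by positivity)
    rw [le_div_iff₀ ha] at this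
    unfold rr nn; linarith
  have hm : Monotone (τ a k) := monotone_nat_of_le_succ fun j => by
    have := τ_step a k j
    split_ifs at this <;> linarith
  have h0 : τ a k 0 = 0 := by simp [τ]
  have hN : τ a k (nn a + 1) = π / 3 := by
    unfold τ
    rw [if_neg (by omega)]
    unfold rr; push_cast; ring
  have hA : angles a k = τ a k '' Iic (nn a + 1) := by
    ext t
    constructor
    · rintro ⟨j, ⟨hj, rfl⟩ | ⟨hj, hj', rfl⟩⟩
      · exact ⟨j, by simp only [mem_Iic]; omega, if_pos hj⟩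
      · refine ⟨j + 1, by simp only [mem_Iic]; omega, ?_⟩
        unfold τ
        rw [if_neg (by omega)]; push_cast; ring
    · rintro ⟨j, hj, rfl⟩
      simp only [mem_Iic] at hj
      by_cases hjk : j ≤ k
      · exact ⟨j, Or.inl ⟨hjk, if_pos hjk⟩⟩
      · obtain ⟨i, rfl⟩ : ∃ i, j = i + 1 := ⟨j - 1, by omega⟩
        refine ⟨i, Or.inr ⟨by omega, by omega, ?_⟩⟩
        unfold τ
        rw [if_neg hjk]; push_cast; ring
  have hfin : (angles a k).Finite := hA ▸ (finite_Iic _).image _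
  have h1 : ∀ j ≤ nn a + 1, u (a0 + τ a k j) ∈ pts a0 a k := fun j hj =>
    ⟨_, hA ▸ ⟨j, hj, rfl⟩, rfl⟩
  have h2 : ∀ y ∈ pts a0 a k, ∃ j ≤ nn a + 1, y = u (a0 + τ a k j) := by
    rintro _ ⟨t, ht, rfl⟩
    rw [hA] at ht
    obtain ⟨j, hj, rfl⟩ := ht
    exact ⟨j, hj, rfl⟩
  have hP : CN (pts a0 a k) := cn_finite (hfin.image _) ⟨_, h1 0 (Nat.zero_le _)⟩
  obtain ⟨e1, e2⟩ := chain hm h0 hN.le hP h1 h2 _ le_rfl
  rw [hN] at e1 e2
  refine ⟨hfin, ?_, ⟨hP, ?_, ?_, fun θ _ => h_le hP ?_, lin_u_self _, lin_u_self _⟩, ?_, ?_⟩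
  · rw [hA]
    rintro _ ⟨j, hj, rfl⟩
    exact ⟨h0 ▸ hm (Nat.zero_le j), hN ▸ hm hj⟩
  · simpa [h0] using h1 0 (Nat.zero_le _)
  · exact hN ▸ h1 _ le_rfl
  · intro y hy
    obtain ⟨j, -, rfl⟩ := h2 y hy
    rw [lin_u]; exact cos_le_one _
  · rw [e1, Finset.sum_congr rfl (g := fun j => if j = k then 2 * sin (rr a) else 2 * sin a),
      sum_step hk]
    · unfold arcLen; ring
    · intro j _
      rw [τ_step]
      split_ifs <;> simp
  · rw [e2, Finset.sum_congr rfl
      (g := fun j => if j = k then sin (2 * rr a) / 2 else sin (2 * a) / 2), sum_step hk]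
    · unfold arcArea; ring
    · intro j _
      rw [τ_step]
      split_ifs <;> rfl

end Pool.Agent.Lib.MP_f2780a_gt
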