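import Pool.Agent.Lib.MP_f2780a_gt.Basic
import Pool.Agent.Lib.MP_f2780a_gt.StmtsB

/-! Sets between the unit triangle and the Reuleaux triangle. -/

set_option autoImplicit false

noncomputable section

namespace Pool.Agent.Lib.MP_f2780a_gt

open Real MeasureTheory Set

namespace reul

lemma lin_nonneg_of {v : ℂ} {a : ℝ} (hv : ‖v - u a‖ ≤ 1) : 0 ≤ lin v a := by
  have h1 : ‖v - u a‖ ^ 2 ≤ 1 := by nlinarith [norm_nonneg (v - u a)]
  rw [← ip_self] at h1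
  simp only [ip, Complex.sub_re, Complex.sub_im, u_re, u_im] at h1
  rw [lin_def]
  nlinarith [sin_sq_add_cos_sq a, sq_nonneg v.re, sq_nonneg v.im]

lemma key {v : ℂ} {a θ : ℝ} (h1 : ‖v - u a‖ ≤ 1) (h2 : ‖v - u (a + π / 3)‖ ≤ 1)
    (hθ : θ ∈ Icc a (a + π / 3)) : 0 ≤ lin v θ := by
  have := sinus_mid (d := -v) hθ.1 hθ.2 (by linarith [pi_pos]) (by linarith [pi_pos])
    (by rw [lin_neg]; linarith [lin_nonneg_of h1]) (by rw [lin_neg]; linarith [lin_nonneg_of h2])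
  rw [lin_neg] at this
  linarith

lemma c2 : cos (2 * π / 3) = -(1 / 2) := by
  rw [show 2 * π / 3 = π - π / 3 by ring, cos_pi_sub, cos_pi_div_three]
lemma s2 : sin (2 * π / 3) = √3 / 2 := by
  rw [show 2 * π / 3 = π - π / 3 by ring, sin_pi_sub, sin_pi_div_three]
lemma c4 : cos (4 * π / 3) = -(1 / 2) := by
  rw [show 4 * π / 3 = π / 3 + π by ring, cos_add_pi, cos_pi_div_three]
lemma s4 : sin (4 * π / 3) = -(√3 / 2) := by
  rw [show 4 * π / 3 = π / 3 + π by ring, sin_add_pi, sin_pi_div_three]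
lemma c5 : cos (5 * π / 3) = 1 / 2 := by
  rw [show 5 * π / 3 = 2 * π - π / 3 by ring, cos_two_pi_sub, cos_pi_div_three]
lemma s5 : sin (5 * π / 3) = -(√3 / 2) := by
  rw [show 5 * π / 3 = 2 * π - π / 3 by ring, sin_two_pi_sub, sin_pi_div_three]

lemma ctr0 : ctr 0 = 0 := rfl
lemma ctr1 : ctr 1 = 1 := rfl
lemma ctr2 : ctr 2 = u (π / 3) := rfl

/-- the two other vertices seen from `ctr i` -/
lemma others (i : Fin 3) : (∃ j, ctr j - ctr i = u (2 * π * (i : ℕ) / 3)) ∧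
    ∃ j, ctr j - ctr i = u (2 * π * (i : ℕ) / 3 + π / 3) := by
  fin_cases i
  · refine ⟨⟨1, ?_⟩, ⟨2, ?_⟩⟩ <;> simp [ctr0, ctr1, ctr2]
  · refine ⟨⟨2, ?_⟩, ⟨0, ?_⟩⟩
    · show u (π / 3) - 1 = u (2 * π * ((1 : ℕ) : ℝ) / 3)
      rw [show 2 * π * ((1 : ℕ) : ℝ) / 3 = 2 * π / 3 by push_cast; ring]
      apply Complex.ext <;> simp [c2, s2]
      norm_num
    · show (0 : ℂ) - 1 = u (2 * π * ((1 : ℕ) : ℝ) / 3 + π / 3)
      rw [show 2 * π * ((1 : ℕ) : ℝ) / 3 + π / 3 = π by push_cast; ring]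
      apply Complex.ext <;> simp
  · refine ⟨⟨0, ?_⟩, ⟨1, ?_⟩⟩
    · show (0 : ℂ) - u (π / 3) = u (2 * π * ((2 : ℕ) : ℝ) / 3)
      rw [show 2 * π * ((2 : ℕ) : ℝ) / 3 = 4 * π / 3 by push_cast; ring]
      apply Complex.ext <;> simp [c4, s4]
    · show (1 : ℂ) - u (π / 3) = u (2 * π * ((2 : ℕ) : ℝ) / 3 + π / 3)
      rw [show 2 * π * ((2 : ℕ) : ℝ) / 3 + π / 3 = 5 * π / 3 by push_cast; ring]
      apply Complex.ext <;> simp [c5, s5]
      norm_num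

lemma norm_le {y : ℂ} (hy : y ∈ reuleaux) (i : Fin 3) : ‖y - ctr i‖ ≤ 1 := by
  have := mem_iInter.mp hy i
  rwa [Metric.mem_closedBall, dist_eq_norm] at this

lemma lin_nonneg {y : ℂ} (hy : y ∈ reuleaux) (i : Fin 3) {θ : ℝ}
    (hθ : θ ∈ Icc (2 * π * (i : ℕ) / 3) (2 * π * (i : ℕ) / 3 + π / 3)) :
    0 ≤ lin (y - ctr i) θ := by
  obtain ⟨⟨j, hj⟩, ⟨k, hk⟩⟩ := others i
  refine key ?_ ?_ hθ
  · rw [← hj, show y - ctr i - (ctr j - ctr i) = y - ctr j by ring]; exact norm_le hy j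
  · rw [← hk, show y - ctr i - (ctr k - ctr i) = y - ctr k by ring]; exact norm_le hy k

lemma lin_le_one {y : ℂ} (hy : y ∈ reuleaux) (i : Fin 3) (θ : ℝ) : lin (y - ctr i) θ ≤ 1 :=
  le_trans (lin_le_norm _ _) (norm_le hy i)

/-- the six pieces of a period -/
lemma cover {P : ℝ → Prop} (hP : ∀ θ, P (θ + 2 * π) ↔ P θ)
    (h1 : ∀ i : Fin 3, ∀ θ ∈ Icc (2 * π * (i : ℕ) / 3) (2 * π * (i : ℕ) / 3 + π / 3), P θ)
    (h2 : ∀ i : Fin 3, ∀ θ ∈ Icc (2 * π * (i : ℕ) / 3) (2 * π * (i : ℕ) / 3 + π / 3), P (θ + π))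
    (θ : ℝ) : P θ := by
  refine forall_of_period 0 hP (fun θ hθ => ?_) θ
  obtain ⟨l, r⟩ := hθ
  rcases le_total θ (π / 3) with a1 | a1
  · exact h1 0 θ ⟨by simpa using l, by simpa using a1⟩
  rcases le_total θ (2 * π / 3) with a2 | a2
  · have := h2 2 (θ + π) ⟨by simp; linarith, by simp; linarith⟩
    rwa [show θ + π + π = θ + 2 * π by ring, hP] at this
  rcases le_total θ π with a3 | a3
  · exact h1 1 θ ⟨by simp; linarith, by simp; linarith⟩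
  rcases le_total θ (4 * π / 3) with a4 | a4
  · have := h2 0 (θ - π) ⟨by simp; linarith, by simp; linarith⟩
    rwa [sub_add_cancel] at this
  rcases le_total θ (5 * π / 3) with a5 | a5
  · exact h1 2 θ ⟨by simp; linarith, by simp; linarith⟩
  · have := h2 1 (θ - π) ⟨by simp; linarith, by simp; linarith⟩
    rwa [sub_add_cancel] at this

lemma h_opp {K : Set ℂ} (hc : ∀ i, ctr i ∈ K) (hK : K ⊆ reuleaux) (i : Fin 3) {θ : ℝ}
    (hθ : θ ∈ Icc (2 * π * (i : ℕ) / 3) (2 * π * (i : ℕ) / 3 + π / 3)) :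
    h K (θ + π) = lin (ctr i) (θ + π) := by
  apply h_eq_of (hc i)
  intro y hy
  have := lin_nonneg (hK hy) i hθ
  rw [lin_sub] at this
  rw [lin_add_pi, lin_add_pi]
  linarith

lemma diam {K : Set ℂ} (hK : K ⊆ reuleaux) : Diam1 K := by
  have k : ∀ θ, ∀ x ∈ K, ∀ y ∈ K, lin (x - y) θ ≤ 1 := by
    have k1 : ∀ i : Fin 3, ∀ θ ∈ Icc (2 * π * (i : ℕ) / 3) (2 * π * (i : ℕ) / 3 + π / 3),
        ∀ x ∈ K, ∀ y ∈ K, lin (x - y) θ ≤ 1 := by
      intro i θ hθ x hx y hy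
      have a := lin_le_one (hK hx) i θ
      have b := lin_nonneg (hK hy) i hθ
      rw [lin_sub] at a b ⊢
      linarith
    refine cover (P := fun θ => ∀ x ∈ K, ∀ y ∈ K, lin (x - y) θ ≤ 1)
      (fun θ => by simp only [lin_add_two_pi]) k1 ?_
    intro i θ hθ x hx y hy
    have := k1 i θ hθ y hy x hx
    rw [lin_add_pi, ← lin_neg, neg_sub]
    exact this
  intro x hx y hy
  obtain ⟨θ, -, -, e⟩ := exists_polar (x - y)
  have := k θ x hx y hy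
  rw [e, lin_smul, lin_u_self, mul_one] at this
  exact this

lemma arc {K : Set ℂ} (hcn : CN K) (hc : ∀ i, ctr i ∈ K) (hK : K ⊆ reuleaux) (i : Fin 3) :
    Arc (2 * π * (i : ℕ) / 3) (2 * π * (i : ℕ) / 3 + π / 3) (tr (ctr i) K) := by
  obtain ⟨⟨j, hj⟩, ⟨k, hk⟩⟩ := others i
  refine ⟨hcn.tr _, ⟨ctr j, hc j, hj⟩, ⟨ctr k, hc k, hk⟩, fun θ _ => ?_, by simp, by simp⟩
  apply h_le (hcn.tr _)
  rintro _ ⟨y, hy, rfl⟩
  exact lin_le_one (hK hy) i θ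

lemma o0 {K : Set ℂ} (hc : ∀ i, ctr i ∈ K) (hK : K ⊆ reuleaux) :
    EqOn (h K) (lin 0) (Icc π (4 * π / 3)) := by
  intro θ hθ
  have := h_opp hc hK 0 (θ := θ - π)
    ⟨by simp; linarith [hθ.1], by simp; linarith [hθ.2]⟩
  rwa [sub_add_cancel] at this

lemma o1 {K : Set ℂ} (hc : ∀ i, ctr i ∈ K) (hK : K ⊆ reuleaux) :
    EqOn (h K) (lin 1) (Icc (5 * π / 3) (2 * π)) := by
  intro θ hθ
  have := h_opp hc hK 1 (θ := θ - π)
    ⟨by simp; linarith [hθ.1], by simp; linarith [hθ.2]⟩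
  rwa [sub_add_cancel] at this

lemma o2 {K : Set ℂ} (hc : ∀ i, ctr i ∈ K) (hK : K ⊆ reuleaux) :
    EqOn (h K) (lin (u (π / 3))) (Icc (π / 3) (2 * π / 3)) := by
  intro θ hθ
  have := h_opp hc hK 2 (θ := θ + π)
    ⟨by simp; linarith [hθ.1], by simp; linarith [hθ.2]⟩
  rwa [show θ + π + π = θ + 2 * π by ring, h_periodic K θ, lin_add_two_pi] at this

lemma sum3 (F : ℝ → ℝ → ℂ → ℝ) :
    ∑ i : Fin 3, F (2 * π * (i : ℕ) / 3) (2 * π * (i : ℕ) / 3 + π / 3) (ctr i) =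
      F 0 (π / 3) 0 + F (2 * π / 3) π 1 + F (4 * π / 3) (5 * π / 3) (u (π / 3)) := by
  rw [Fin.sum_univ_three]
  have e0 : 2 * π * (((0 : Fin 3) : ℕ) : ℝ) / 3 = 0 := by simp
  have e1 : 2 * π * (((1 : Fin 3) : ℕ) : ℝ) / 3 = 2 * π / 3 := by simp
  have e2 : 2 * π * (((2 : Fin 3) : ℕ) : ℝ) / 3 = 4 * π / 3 := by simp; ring
  rw [e0, e1, e2, zero_add, show 2 * π / 3 + π / 3 = π by ring,
    show 4 * π / 3 + π / 3 = 5 * π / 3 by ring, ctr0, ctr1, ctr2]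

lemma area_eq {K : Set ℂ} (hcn : CN K) (hc : ∀ i, ctr i ∈ K) (hK : K ⊆ reuleaux) :
    Ar 0 (2 * π) K =
      ∑ i : Fin 3, Ar (2 * π * (i : ℕ) / 3) (2 * π * (i : ℕ) / 3 + π / 3) (tr (ctr i) K) - √3 / 2 := by
  have p := pi_pos
  rw [sum3 (fun a b c => Ar a b (tr c K))]
  rw [← Ar_split hcn 0 (π / 3), ← Ar_split hcn (π / 3) (2 * π / 3), ← Ar_split hcn (2 * π / 3) π,
    ← Ar_split hcn π (4 * π / 3), ← Ar_split hcn (4 * π / 3) (5 * π / 3)]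
  have v0 : Ar π (4 * π / 3) K = _ :=
    (V_congr (by linarith) (o0 hc hK) (o0 hc hK)).trans (V_lin (lip_lin _) _ _ _)
  have v1 : Ar (5 * π / 3) (2 * π) K = _ :=
    (V_congr (by linarith) (o1 hc hK) (o1 hc hK)).trans (V_lin (lip_lin _) _ _ _)
  have v2 : Ar (π / 3) (2 * π / 3) K = _ :=
    (V_congr (by linarith) (o2 hc hK) (o2 hc hK)).trans (V_lin (lip_lin _) _ _ _)
  have w2 := o2 hc hK (x := 2 * π / 3) ⟨by linarith, le_rfl⟩
  have w3 := o0 hc hK (x := π) ⟨le_rfl, by linarith⟩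
  have w4 := o0 hc hK (x := 4 * π / 3) ⟨by linarith, le_rfl⟩
  have w5 := o1 hc hK (x := 5 * π / 3) ⟨le_rfl, by linarith⟩
  rw [v0, v1, v2, Ar_tr hcn, Ar_tr hcn, Ar_tr hcn, w2, w3, w4, w5]
  simp only [lin_def, lin'_def, u_re, u_im, c2, s2, c4, s4, c5, s5, cos_pi_div_three,
    sin_pi_div_three, cos_pi, sin_pi, cos_two_pi, sin_two_pi, cos_zero, sin_zero, Complex.zero_re,
    Complex.zero_im, Complex.one_re, Complex.one_im]
  have q : √3 * √3 = 3 := Real.mul_self_sqrt (by norm_num)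
  linear_combination (-√3 / 8) * q

lemma len_eq {K : Set ℂ} (hcn : CN K) (hc : ∀ i, ctr i ∈ K) (hK : K ⊆ reuleaux) :
    Le 0 (2 * π) K =
      ∑ i : Fin 3, Le (2 * π * (i : ℕ) / 3) (2 * π * (i : ℕ) / 3 + π / 3) (tr (ctr i) K) := by
  have p := pi_pos
  rw [sum3 (fun a b c => Le a b (tr c K))]
  rw [← Le_split hcn 0 (π / 3), ← Le_split hcn (π / 3) (2 * π / 3), ← Le_split hcn (2 * π / 3) π,
    ← Le_split hcn π (4 * π / 3), ← Le_split hcn (4 * π / 3) (5 * π / 3)]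
  have v0 : Le π (4 * π / 3) K = _ :=
    (Ln_congr (by linarith) (o0 hc hK)).trans (Ln_lin _ _ _)
  have v1 : Le (5 * π / 3) (2 * π) K = _ :=
    (Ln_congr (by linarith) (o1 hc hK)).trans (Ln_lin _ _ _)
  have v2 : Le (π / 3) (2 * π / 3) K = _ :=
    (Ln_congr (by linarith) (o2 hc hK)).trans (Ln_lin _ _ _)
  rw [v0, v1, v2, Le_tr hcn, Le_tr hcn, Le_tr hcn]
  simp only [lin'_def, u_re, u_im, c2, s2, c4, s4, c5, s5, cos_pi_div_three,
    sin_pi_div_three, cos_pi, sin_pi, cos_two_pi, sin_two_pi, cos_zero, sin_zero, Complex.zero_re,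
    Complex.zero_im, Complex.one_re, Complex.one_im]
  ring

end reul

theorem reul_proof : reul_stmt := by
  intro K hK hc hs
  have hcn : CN K := ⟨hK, _, hc 0⟩
  refine ⟨reul.diam hs, reul.arc hcn hc hs, reul.area_eq hcn hc hs, reul.len_eq hcn hc hs, ?_⟩
  intro K' hK' hc' hs' cv cv' e
  have hcn' : CN K' := ⟨hK', _, hc' 0⟩
  refine eq_of_h_eq hcn cv hcn' cv' (reul.cover (P := fun θ => h K θ = h K' θ)
    (fun θ => by rw [h_periodic K θ, h_periodic K' θ]) (fun i θ hθ => ?_) (fun i θ hθ => ?_))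
  · have := e i θ hθ
    rw [h_tr hcn, h_tr hcn'] at this
    show h K θ = h K' θ
    linarith
  · show h K (θ + π) = h K' (θ + π)
    rw [reul.h_opp hc hs i hθ, reul.h_opp hc' hs' i hθ]

end Pool.Agent.Lib.MP_f2780a_gt
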