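import Pool.Agent.Lib.MP_f2780a_gt.PSlope
import Pool.Agent.Lib.MP_f2780a_gt.StmtsC

/-! Two arcs separated by a regular value can be improved. -/

set_option autoImplicit false

noncomputable section

namespace Pool.Agent.Lib.MP_f2780a_gt

open Real MeasureTheory Set

namespace Sep

open Slope

/-- the long chord parameter as a function of the short one -/
def c (n r : ℝ) : ℝ := (π / 6 - r) / n

def G (n α β r : ℝ) : ℝ := n * g α β (c n r) + g α β r

lemma gsub (α β s t : ℝ) :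
    g' α β s - g' α β t = 2 * (cos s - cos t) * (α * (cos s + cos t) + β) := by
  simp only [g', cos_two_mul]
  ring

lemma hG {n : ℝ} (hn : n ≠ 0) (α β r : ℝ) :
    HasDerivAt (G n α β) (g' α β r - g' α β (c n r)) r := by
  have h1 : HasDerivAt (c n) (-1 / n) r :=
    (((hasDerivAt_id r).const_sub (π / 6)).div_const n)
  have h2 := (((hd α β (c n r)).comp r h1).const_mul n).add (hd α β r)
  exact h2.congr_deriv (by field_simp; ring)

lemma mvt {f f' : ℝ → ℝ} (h : ∀ s, HasDerivAt f (f' s) s) {x y : ℝ} (hxy : x < y) :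
    ∃ s, x < s ∧ s < y ∧ f y - f x = (y - x) * f' s := by
  obtain ⟨s, hs, e⟩ := exists_hasDerivAt_eq_slope f f' hxy
    (fun s _ => (h s).continuousAt.continuousWithinAt) fun s _ => h s
  refine ⟨s, hs.1, hs.2, ?_⟩
  rw [e, mul_div_cancel₀ _ (sub_pos.2 hxy).ne']

lemma up {f f' : ℝ → ℝ} (h : ∀ s, HasDerivAt f (f' s) s) {x y : ℝ} (hxy : x ≤ y)
    (H : ∀ s, x < s → s < y → 0 ≤ f' s) : f x ≤ f y := by
  rcases hxy.eq_or_lt with rfl | hlt
  · exact le_rfl
  obtain ⟨s, h1, h2, e⟩ := mvt h hlt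
  linarith [mul_nonneg (sub_pos.2 hlt).le (H s h1 h2)]

lemma cos_le {x y : ℝ} (h0 : 0 ≤ x) (h : x ≤ y) (h1 : y ≤ π / 6) : cos y ≤ cos x :=
  cos_le_cos_of_nonneg_of_le_pi h0 (by linarith [pi_pos]) h

lemma cos_lt {x y : ℝ} (h0 : 0 ≤ x) (h : x < y) (h1 : y ≤ π / 6) : cos y < cos x :=
  cos_lt_cos_of_nonneg_of_le_pi h0 (by linarith [pi_pos]) h

lemma c_le {n s : ℝ} (hn : 1 ≤ n) (h0 : 0 ≤ s) : c n s ≤ π / 6 := by
  rw [c, div_le_iff₀ (by linarith)]
  nlinarith [pi_pos]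

lemma le_c {n s : ℝ} (hn : 1 ≤ n) (h : (n + 1) * s ≤ π / 6) : s ≤ c n s := by
  rw [c, le_div_iff₀ (by linarith)]
  linarith

lemma lt_c {n s : ℝ} (hn : 1 ≤ n) (h : (n + 1) * s < π / 6) : s < c n s := by
  rw [c, lt_div_iff₀ (by linarith)]
  linarith

lemma c_pos {n s : ℝ} (hn : 1 ≤ n) (h0 : 0 ≤ s) (h : (n + 1) * s ≤ π / 6) : 0 < c n s :=
  div_pos (by nlinarith [pi_pos]) (by linarith)

lemma c_anti {n s t : ℝ} (hn : 1 ≤ n) (h : s ≤ t) : c n t ≤ c n s :=
  div_le_div_of_nonneg_right (by linarith) (by linarith)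

lemma c_lt {n s t : ℝ} (hn : 1 ≤ n) (h : s < t) : c n t < c n s :=
  div_lt_div_of_pos_right (by linarith) (by linarith)

lemma c_lt' {p q s : ℝ} (hp : 1 ≤ p) (hq : p + 1 ≤ q) (h : s < π / 6) : c q s < c p s :=
  div_lt_div_of_pos_left (by linarith) (by linarith) (by linarith)

/-- the length is strictly increasing on a piece -/
lemma len_lt {n x y : ℝ} (hn : 1 ≤ n) (h0 : 0 ≤ x) (hxy : x < y) (h : (n + 1) * y ≤ π / 6) :
    G n 0 1 x < G n 0 1 y := by
  obtain ⟨s, h1, h2, e⟩ := mvt (hG (n := n) (by linarith) 0 1) hxy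
  have h3 := cos_lt (by linarith) (lt_c hn (s := s) (by nlinarith)) (c_le hn (by linarith))
  rw [gsub] at e
  nlinarith [mul_pos (sub_pos.2 hxy) (sub_pos.2 h3)]

lemma F_eq (α β : ℝ) (n : ℕ) (hn : (1 : ℝ) ≤ n) {s : ℝ} (h0 : 0 ≤ s)
    (h : (n + 1) * s ≤ π / 6) :
    α * arcArea (c n s) + β * arcLen (c n s) = G n α β s := by
  have hp := c_pos hn h0 h
  have e : n * c n s = π / 6 - s := mul_div_cancel₀ _ (by linarith)
  have h1 := F_piece α β n hp (by linarith [le_c hn h]) (by linarith)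
  rw [e, sub_sub_cancel] at h1
  rw [G, ← h1, F, arI, lenI, if_neg hp.ne', if_neg hp.ne']

lemma fin (p q : ℕ) (hp : (1 : ℝ) ≤ p) (hq : (1 : ℝ) ≤ q) {r' r x y : ℝ} (l : ℝ) (a0 : 0 ≤ r')
    (a1 : (p + 1) * r' ≤ π / 6) (b0 : 0 ≤ r) (b1 : (q + 1) * r ≤ π / 6) (x0 : 0 ≤ x)
    (x1 : (p + 1) * x ≤ π / 6) (y0 : 0 ≤ y) (y1 : (q + 1) * y ≤ π / 6)
    (hL : G p 0 1 x + G q 0 1 y = G p 0 1 r' + G q 0 1 r)
    (hB : G p 1 (-l) x + G q 1 (-l) y < G p 1 (-l) r' + G q 1 (-l) r) :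
    Better (c p r') (c q r) := by
  rw [← F_eq _ _ p hp x0 x1, ← F_eq _ _ q hq y0 y1, ← F_eq _ _ p hp a0 a1,
    ← F_eq _ _ q hq b0 b1] at hL hB
  simp only [zero_mul, one_mul, zero_add] at hL hB
  refine ⟨c p x, c q y, c_pos hp x0 x1, c_le hp x0, c_pos hq y0 y1, c_le hq y0, hL.ge, ?_⟩
  have : l * (arcLen (c p x) + arcLen (c q y)) = l * (arcLen (c p r') + arcLen (c q r)) := by
    rw [hL]
  linarith

lemma cont {n : ℝ} (hn : 1 ≤ n) : Continuous (G n 0 1) :=
  continuous_iff_continuousAt.2 fun s => (hG (by linarith) 0 1 s).continuousAt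

lemma case1 (p q : ℕ) (hp : (1 : ℝ) ≤ p) (hpq : (p : ℝ) + 1 ≤ q) {r' r : ℝ}
    (a1 : (p + 1) * r' < π / 6) (b0 : 0 < r) (b1 : (q + 1) * r ≤ π / 6) (h : r ≤ r') :
    Better (c p r') (c q r) := by
  have hq : (1 : ℝ) ≤ q := by linarith
  have a0 : 0 ≤ r' := by linarith
  obtain ⟨z, hz⟩ : ∃ z, (p + 1 : ℝ) * z = π / 6 :=
    ⟨π / 6 / (p + 1), mul_div_cancel₀ _ (by linarith)⟩
  have hrz : r' < z := lt_of_mul_lt_mul_left (hz ▸ a1) (by linarith)
  have hc : Continuous fun t : ℝ => G p 0 1 (r' + t * (z - r')) + G q 0 1 (t * r) :=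
    ((cont hp).comp (by fun_prop)).add ((cont hq).comp (by fun_prop))
  have h0 := len_lt hq le_rfl b0 b1
  have h1 := len_lt hp a0 hrz hz.le
  obtain ⟨t, ⟨t0, t1⟩, e⟩ := intermediate_value_Icc zero_le_one hc.continuousOn
    (show G p 0 1 r' + G q 0 1 r ∈ Icc _ _ from ⟨by simp; linarith, by simp; linarith⟩)
  simp only at e
  have tp : 0 < t := t0.lt_of_ne fun h => by
    rw [← h] at e
    simp at e
    linarith
  have u0 : 0 < t * (z - r') := mul_pos tp (sub_pos.2 hrz)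
  have u1 : r' + t * (z - r') ≤ z := by nlinarith
  have v0 : 0 ≤ t * r := by positivity
  have v1 : t * r ≤ r := by nlinarith
  refine fin p q hp hq (cos (c q 0) + cos r) a0 a1.le b0.le b1 (by linarith) (by nlinarith) v0
    (by nlinarith) e ?_
  have k1 : G q 1 (-(cos (c q 0) + cos r)) (t * r) ≤ G q 1 (-(cos (c q 0) + cos r)) r := by
    refine up (hG (by linarith) _ _) v1 fun s s0 s1 => ?_
    have s2 : 0 ≤ s := by linarith
    have s3 : (q + 1) * s ≤ π / 6 := by nlinarith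
    have c1 := cos_le s2 (le_c hq s3) (c_le hq s2)
    have c2 := cos_le s2 s1.le (by nlinarith)
    have c3 := cos_le (c_pos hq s2 s3).le (c_anti hq s2) (c_le hq le_rfl)
    rw [gsub]
    exact mul_nonneg (by linarith) (by linarith)
  obtain ⟨s, s0, s1, k2⟩ := mvt (hG (n := p) (by linarith) 1 (-(cos (c q 0) + cos r)))
    (show r' < r' + t * (z - r') by linarith)
  have s2 : 0 ≤ s := by linarith
  have s3 : (p + 1) * s < π / 6 := by nlinarith
  have c1 := cos_lt s2 (lt_c hp s3) (c_le hp s2)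
  have c2 := cos_le b0.le (show r ≤ s by linarith) (by nlinarith)
  have c3 : c q 0 < c p s := by
    rw [c, c, div_lt_div_iff₀ (by linarith) (by linarith)]
    nlinarith [pi_pos, mul_le_mul_of_nonneg_left hpq (show 0 ≤ π / 6 - s by nlinarith)]
  have c4 := cos_lt (c_pos hq le_rfl (by linarith [pi_pos])).le c3 (c_le hp s2)
  rw [gsub] at k2
  have k3 : 0 < t * (z - r') * ((cos s - cos (c p s))
      * (cos (c q 0) + cos r - (cos s + cos (c p s)))) :=
    mul_pos u0 (mul_pos (by linarith) (by linarith))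
  linarith

lemma case2 (p q : ℕ) (hp : (1 : ℝ) ≤ p) (hpq : (p : ℝ) + 1 ≤ q) {r' r : ℝ}
    (a0 : 0 ≤ r') (b1 : (q + 1) * r ≤ π / 6) (h : r' < r) : Better (c p r') (c q r) := by
  have hq : (1 : ℝ) ≤ q := by linarith
  have b0 : 0 < r := by linarith
  have b2 : (p + 1) * r ≤ π / 6 := by nlinarith
  have b3 : r < π / 6 := by nlinarith
  have hD := fun α β s => (hG (n := p) (by linarith) α β s).sub (hG (n := q) (by linarith) α β s)
  have h0 := len_lt hq a0 h b1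
  have h1 : (G p 0 1 - G q 0 1) r' ≤ (G p 0 1 - G q 0 1) r := by
    refine up (hD 0 1) h.le fun s s0 s1 => ?_
    have s2 : 0 ≤ s := by linarith
    have c1 := cos_lt (c_pos hq s2 (by nlinarith)).le (c_lt' hp hpq (s1.trans b3)) (c_le hp s2)
    rw [gsub, gsub]
    linarith
  simp only [Pi.sub_apply] at h1
  obtain ⟨x, ⟨x0, x1⟩, e⟩ := intermediate_value_Icc h.le (cont hp).continuousOn
    (show G p 0 1 r' + G q 0 1 r - G q 0 1 r' ∈ Icc _ _ from ⟨by linarith, by linarith⟩)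
  have xp : r' < x := x0.lt_of_ne fun hx => by
    rw [← hx] at e
    linarith
  have x2 : 0 ≤ x := by linarith
  have x3 : (p + 1) * x ≤ π / 6 := by nlinarith
  refine fin p q hp hq (cos (c p x) + cos (c q x)) a0 (by nlinarith) b0.le b1 x2 x3 a0
    (by nlinarith) (by linarith) ?_
  have k1 : G q 1 (-(cos (c p x) + cos (c q x))) x ≤ G q 1 (-(cos (c p x) + cos (c q x))) r := by
    refine up (hG (by linarith) _ _) x1 fun s s0 s1 => ?_
    have s2 : 0 ≤ s := by linarith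
    have s3 : (q + 1) * s ≤ π / 6 := by nlinarith
    have c1 := cos_le s2 (le_c hq s3) (c_le hq s2)
    have c2 := cos_le (c_pos hq s2 s3).le (c_anti hq s0.le) (c_le hq x2)
    have c3 := cos_le s2 (s1.le.trans ((le_c hp b2).trans (c_anti hp x1))) (c_le hp x2)
    rw [gsub]
    exact mul_nonneg (by linarith) (by linarith)
  obtain ⟨s, s0, s1, k2⟩ := mvt (hD 1 (-(cos (c p x) + cos (c q x)))) xp
  have s2 : 0 ≤ s := by linarith
  have c1 := cos_lt (c_pos hq s2 (by nlinarith)).le (c_lt' hp hpq (by linarith)) (c_le hp s2)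
  have c2 := cos_lt (c_pos hp x2 x3).le (c_lt hp s1) (c_le hp s2)
  have c3 := cos_lt (c_pos hq x2 (by nlinarith)).le (c_lt hq s1) (c_le hq s2)
  simp only [Pi.sub_apply] at k2
  rw [sub_sub_sub_cancel_left, gsub] at k2
  have k3 : 0 < (x - r') * ((cos (c q s) - cos (c p s))
      * (cos (c p x) + cos (c q x) - (cos (c q s) + cos (c p s)))) :=
    mul_pos (by linarith) (mul_pos (by linarith) (by linarith))
  linarith

end Sep

theorem sep_proof : sep_stmt := by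
  intro a1 a2 m hm h2 h2m h1m h1
  have hm' : (0 : ℝ) < m := by exact_mod_cast hm
  rw [lt_div_iff₀ (by positivity)] at h2m
  rw [div_lt_iff₀ (by positivity)] at h1m
  have h0 : 0 < a1 := by nlinarith [pi_pos]
  have p1 := Slope.nn_le h0
  have p2 := Slope.lt_nn h0
  have hp : (1 : ℝ) ≤ nn a1 := by exact_mod_cast Slope.one_le_nn h0 h1
  have hpm : nn a1 < m := by
    have : (nn a1 : ℝ) < m := lt_of_mul_lt_mul_right (by linarith) h0.le
    exact_mod_cast this
  have hmq : m < ⌈π / 6 / a2⌉₊ := Nat.lt_ceil.2 ((lt_div_iff₀ h2).2 (by linarith))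
  obtain ⟨q, hq⟩ : ∃ q, ⌈π / 6 / a2⌉₊ = q + 1 := ⟨⌈π / 6 / a2⌉₊ - 1, by omega⟩
  have q1 : π / 6 ≤ (q + 1) * a2 := by
    have := Nat.le_ceil (π / 6 / a2)
    rw [hq, div_le_iff₀ h2] at this
    exact_mod_cast this
  have q2 : q * a2 < π / 6 := (lt_div_iff₀ h2).1 (Nat.lt_ceil.1 (by omega))
  have hpq : (nn a1 : ℝ) + 1 ≤ q := by exact_mod_cast (by omega : nn a1 + 1 ≤ q)
  have e1 : a1 = Sep.c (nn a1) (π / 6 - nn a1 * a1) := by
    rw [Sep.c, sub_sub_cancel, mul_div_cancel_left₀ _ (by linarith)]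
  have e2 : a2 = Sep.c q (π / 6 - q * a2) := by
    rw [Sep.c, sub_sub_cancel, mul_div_cancel_left₀ _ (by linarith)]
  have b1 : (q + 1) * (π / 6 - q * a2) ≤ π / 6 := by nlinarith
  have key : Better (Sep.c (nn a1) (π / 6 - nn a1 * a1)) (Sep.c q (π / 6 - q * a2)) := by
    rcases le_or_gt (π / 6 - q * a2) (π / 6 - nn a1 * a1) with h | h
    · exact Sep.case1 _ _ hp hpq (by nlinarith) (by linarith) b1 h
    · exact Sep.case2 _ _ hp hpq (by linarith) b1 h
  rwa [← e1, ← e2] at key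

end Pool.Agent.Lib.MP_f2780a_gt
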