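import Pool.Agent.Lib.MP_f2780a_gt.Basic
import Pool.Agent.Lib.MP_f2780a_gt.StmtsB

/-! The inscribed polygons and the Reuleaux triangle. -/

set_option autoImplicit false

noncomputable section

namespace Pool.Agent.Lib.MP_f2780a_gt

open Real MeasureTheory Set

namespace Shape

lemma w_sq : u (π / 3) * u (π / 3) = u (π / 3) - 1 := by
  have h3 : √3 * √3 = 3 := Real.mul_self_sqrt (by norm_num)
  apply Complex.ext
  · simp only [Complex.mul_re, Complex.sub_re, Complex.one_re, u_re, u_im, cos_pi_div_three,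
      sin_pi_div_three]
    nlinarith
  · simp only [Complex.mul_im, Complex.sub_im, Complex.one_im, u_re, u_im, cos_pi_div_three,
      sin_pi_div_three]
    ring

lemma u_two : u (2 * π / 3) = u (π / 3) - 1 := by
  have e : 2 * π / 3 = π / 3 + π / 3 := by ring
  rw [e, u_add, w_sq]

lemma u_four : u (4 * π / 3) = -u (π / 3) := by
  have e : 4 * π / 3 = π / 3 + π := by ring
  rw [e, u_add_pi]

lemma al0 : u (2 * π * ((0 : Fin 3) : ℕ) / 3) = 1 := by simp
lemma al1 : u (2 * π * ((1 : Fin 3) : ℕ) / 3) = u (π / 3) - 1 := by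
  rw [← u_two]; simp
lemma al2 : u (2 * π * ((2 : Fin 3) : ℕ) / 3) = -u (π / 3) := by
  have e : 2 * π * ((2 : Fin 3) : ℕ) / 3 = 4 * π / 3 := by
    have : (((2 : Fin 3) : ℕ) : ℝ) = 2 := by simp
    rw [this]; ring
  rw [e, u_four]

lemma c0 : ctr 0 = 0 := rfl
lemma c1 : ctr 1 = 1 := rfl
lemma c2 : ctr 2 = u (π / 3) := rfl

lemma fin3 (i : Fin 3) : i = 0 ∨ i = 1 ∨ i = 2 := by
  fin_cases i <;> simp

/-- position of a point of arc `j` seen from the vertex `i` -/
lemma struct (i j : Fin 3) (t : ℝ) :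
    (j = i) ∨
    ctr j + u (2 * π * (j : ℕ) / 3 + t) - ctr i =
      u (2 * π * (i : ℕ) / 3) + u (2 * π * (i : ℕ) / 3 + 2 * π / 3 + t) ∨
    ctr j + u (2 * π * (j : ℕ) / 3 + t) - ctr i =
      u (2 * π * (i : ℕ) / 3 + π / 3) + u (2 * π * (i : ℕ) / 3 + 4 * π / 3 + t) := by
  have hw := w_sq
  simp only [u_add, u_two, u_four]
  rcases fin3 i with rfl | rfl | rfl <;> rcases fin3 j with rfl | rfl | rfl <;>
    simp only [al0, al1, al2, c0, c1, c2]
  · left; trivial
  · right; left; ring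
  · right; right; ring
  · right; right; linear_combination (u t - 1) * hw
  · left; trivial
  · right; left; linear_combination (-u t) * hw
  · right; left; linear_combination (u t) * hw
  · right; right; linear_combination (1 - u t) * hw
  · left; trivial

lemma nrm {a b : ℝ} (h : |a - b| ≤ π / 3) : ‖u a - u b‖ ≤ 1 := by
  have hp := pi_pos
  have h1 : |(a - b) / 2| ≤ π / 6 := by rw [abs_div, abs_two]; linarith
  rw [norm_u_sub_u, abs_sin_eq_sin_abs_of_abs_le_pi (by linarith)]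
  have := sin_le_sin_of_le_of_le_pi_div_two (x := |(a - b) / 2|) (y := π / 6)
    (by linarith [abs_nonneg ((a - b) / 2)]) (by linarith) h1
  rw [sin_pi_div_six] at this
  linarith

lemma mem_reul (j : Fin 3) {t : ℝ} (ht : t ∈ Icc 0 (π / 3)) :
    ctr j + u (2 * π * (j : ℕ) / 3 + t) ∈ reuleaux := by
  unfold reuleaux
  rw [mem_iInter]
  intro i
  rw [mem_closedBall_iff_norm]
  rcases struct i j t with rfl | e | e
  · simp
  · rw [e]
    have e2 : 2 * π * (i : ℕ) / 3 + 2 * π / 3 + t = (2 * π * (i : ℕ) / 3 - π / 3 + t) + π := by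
      ring
    rw [e2, u_add_pi, ← sub_eq_add_neg]
    apply nrm
    rw [abs_le]; constructor <;> linarith [ht.1, ht.2]
  · rw [e]
    have e2 : 2 * π * (i : ℕ) / 3 + 4 * π / 3 + t = (2 * π * (i : ℕ) / 3 + π / 3 + t) + π := by
      ring
    rw [e2, u_add_pi, ← sub_eq_add_neg]
    apply nrm
    rw [abs_le]; constructor <;> linarith [ht.1, ht.2]

lemma key1 {α t θ : ℝ} (ht : t ∈ Icc 0 (π / 3)) (hθ : θ ∈ Icc α (α + π / 3)) :
    lin (u α + u (α + 2 * π / 3 + t)) θ ≤ lin (u (α + π / 3)) θ := by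
  have hp := pi_pos
  have e : u (α + π / 3) = u α + u (α + 2 * π / 3) := by
    rw [u_add, u_add, u_two]; ring
  rw [e, lin_add, lin_add, lin_u (α + 2 * π / 3 + t), lin_u (α + 2 * π / 3),
    ← cos_neg (θ - (α + 2 * π / 3 + t)), ← cos_neg (θ - (α + 2 * π / 3))]
  have := cos_le_cos_of_nonneg_of_le_pi (x := -(θ - (α + 2 * π / 3)))
    (y := -(θ - (α + 2 * π / 3 + t))) (by linarith [hθ.2]) (by linarith [hθ.1, ht.2])
    (by linarith [ht.1])
  linarith

lemma key2 {α t θ : ℝ} (ht : t ∈ Icc 0 (π / 3)) (hθ : θ ∈ Icc α (α + π / 3)) :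
    lin (u (α + π / 3) + u (α + 4 * π / 3 + t)) θ ≤ lin (u (α + 0)) θ := by
  have hp := pi_pos
  have e : u (α + 0) = u (α + π / 3) + u (α - π / 3) := by
    have e1 : α - π / 3 = (α + 2 * π / 3) + π - 2 * π := by ring
    have e2 : u (α - π / 3) = u ((α + 2 * π / 3) + π) := by
      rw [← u_add_two_pi (α - π / 3)]; congr 1; ring
    rw [e2, u_add_pi, u_add, u_add, u_add, u_two, u_zero]; ring
  have e3 : u (α + 4 * π / 3 + t) = u (α - 2 * π / 3 + t) := by
    rw [← u_add_two_pi (α - 2 * π / 3 + t)]; congr 1; ring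
  rw [e, e3, lin_add, lin_add, lin_u (α - 2 * π / 3 + t), lin_u (α - π / 3)]
  have := cos_le_cos_of_nonneg_of_le_pi (x := θ - (α - π / 3))
    (y := θ - (α - 2 * π / 3 + t)) (by linarith [hθ.1]) (by linarith [hθ.2, ht.1])
    (by linarith [ht.2])
  linarith

lemma zero_mem_angles (a : ℝ) (k : ℕ) : (0 : ℝ) ∈ angles a k :=
  ⟨0, Or.inl ⟨Nat.zero_le _, by simp⟩⟩

lemma top_mem_angles {a : ℝ} {k : ℕ} (hk : k ≤ nn a) : π / 3 ∈ angles a k :=
  ⟨nn a, Or.inr ⟨hk, le_rfl, by unfold rr; ring⟩⟩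

lemma ctr_eq (i : Fin 3) : ∃ j : Fin 3, ctr i = ctr j + u (2 * π * (j : ℕ) / 3 + 0) := by
  rcases fin3 i with rfl | rfl | rfl
  · exact ⟨2, by rw [add_zero, al2, c0, c2]; ring⟩
  · exact ⟨0, by rw [add_zero, al0, c0, c1]; ring⟩
  · exact ⟨1, by rw [add_zero, al1, c1, c2]; ring⟩

lemma int_ne {K : Set ℂ} (hK : Convex ℝ K) (hc : ∀ i, ctr i ∈ K) : (interior K).Nonempty := by
  rw [hK.interior_nonempty_iff_affineSpan_eq_top,
    AffineSubspace.affineSpan_eq_top_iff_vectorSpan_eq_top_of_nonempty ℝ ℂ ℂ ⟨_, hc 0⟩,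
    eq_top_iff]
  intro z _
  have h1 := vsub_mem_vectorSpan ℝ (hc 1) (hc 0)
  have h2 := vsub_mem_vectorSpan ℝ (hc 2) (hc 0)
  rw [c0, vsub_eq_sub, sub_zero] at h1 h2
  have h3 : √3 ≠ 0 := by positivity
  have e : z = (z.re - z.im / √3) • ctr 1 + (2 * z.im / √3) • ctr 2 := by
    rw [c1, c2]
    apply Complex.ext
    · simp only [Complex.add_re, Complex.smul_re, Complex.one_re, u_re, cos_pi_div_three,
        smul_eq_mul]
      ring
    · simp only [Complex.add_im, Complex.smul_im, Complex.one_im, u_im, sin_pi_div_three,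
        smul_eq_mul]
      field_simp
      ring
  rw [e]
  exact Submodule.add_mem _ (Submodule.smul_mem _ _ h1) (Submodule.smul_mem _ _ h2)

lemma convex_reul : Convex ℝ reuleaux := convex_iInter fun _ => convex_closedBall _ _

lemma compact_reul : IsCompact reuleaux :=
  (isCompact_closedBall (ctr 0) 1).of_isClosed_subset
    (isClosed_iInter fun _ => Metric.isClosed_closedBall) (iInter_subset _ 0)

lemma ctr_mem_reul (i : Fin 3) : ctr i ∈ reuleaux := by
  obtain ⟨j, e⟩ := ctr_eq i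
  rw [e]
  exact mem_reul j ⟨le_rfl, by positivity⟩

end Shape

open Shape in
theorem shape_proof (hp : polyarc_stmt) : shape_stmt := by
  refine ⟨fun a k ha hk => ?_, ⟨compact_reul, convex_reul, int_ne convex_reul ctr_mem_reul⟩,
    ctr_mem_reul, fun i θ hθ => ?_⟩
  · have hf : ∀ i, (angles (a i) (k i)).Finite := fun i => (hp 0 _ _ (ha i).1 (ha i).2 (hk i)).1
    have hs : ∀ i, angles (a i) (k i) ⊆ Icc 0 (π / 3) := fun i =>
      (hp 0 _ _ (ha i).1 (ha i).2 (hk i)).2.1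
    obtain ⟨S, hS⟩ : ∃ S : Set ℂ, S = {z | ∃ i : Fin 3, ∃ t ∈ angles (a i) (k i),
      z = ctr i + u (2 * π * (i : ℕ) / 3 + t)} := ⟨_, rfl⟩
    have hP : poly a k = convexHull ℝ S := by rw [hS]; rfl
    have hSf : S.Finite := by
      refine (finite_iUnion fun i : Fin 3 =>
        (hf i).image (fun t => ctr i + u (2 * π * (i : ℕ) / 3 + t))).subset ?_
      rw [hS]
      rintro z ⟨i, t, ht, rfl⟩
      exact mem_iUnion.mpr ⟨i, t, ht, rfl⟩
    have hcS : ∀ i, ctr i ∈ S := by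
      intro i
      obtain ⟨j, e⟩ := ctr_eq i
      rw [hS]
      exact ⟨j, 0, zero_mem_angles _ _, e⟩
    have hc : ∀ i, ctr i ∈ convexHull ℝ S := fun i => subset_convexHull ℝ S (hcS i)
    have hcn : CN S := cn_finite hSf ⟨_, hcS 0⟩
    have hcomp : IsCompact (convexHull ℝ S) := hSf.isCompact_convexHull ℝ
    rw [hP]
    refine ⟨⟨hcomp, convex_convexHull ℝ S, int_ne (convex_convexHull ℝ S) hc⟩, hc, ?_,
      fun i θ hθ => ?_⟩
    · apply convexHull_min _ convex_reul
      rw [hS]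
      rintro z ⟨i, t, ht, rfl⟩
      exact mem_reul i (hs i ht)
    · have hpc : CN (pts (2 * π * (i : ℕ) / 3) (a i) (k i)) :=
        cn_finite ((hf i).image _) ⟨_, 0, zero_mem_angles _ _, rfl⟩
      rw [h_tr ⟨hcomp, _, hc 0⟩, h_convexHull hcn, ← h_tr hcn]
      apply le_antisymm
      · apply h_le (hcn.tr _)
        rw [hS]
        rintro _ ⟨z, ⟨j, t, ht, rfl⟩, rfl⟩
        rcases struct i j t with rfl | e | e
        · apply lin_le_h hpc
          exact ⟨t, ht, by simp⟩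
        · show lin (ctr j + u (2 * π * (j : ℕ) / 3 + t) - ctr i) θ ≤ _
          rw [e]
          exact le_trans (key1 (hs j ht) hθ) (lin_le_h hpc ⟨_, top_mem_angles (hk i), rfl⟩ θ)
        · show lin (ctr j + u (2 * π * (j : ℕ) / 3 + t) - ctr i) θ ≤ _
          rw [e]
          exact le_trans (key2 (hs j ht) hθ) (lin_le_h hpc ⟨_, zero_mem_angles _ _, rfl⟩ θ)
      · apply h_mono hpc (hcn.tr _)
        rintro _ ⟨t, ht, rfl⟩
        refine ⟨ctr i + u (2 * π * (i : ℕ) / 3 + t), ?_, by simp⟩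
        rw [hS]
        exact ⟨i, t, ht, rfl⟩
  · have hm : u θ ∈ tr (ctr i) reuleaux := by
      have := mem_reul i (t := θ - 2 * π * (i : ℕ) / 3) ⟨by linarith [hθ.1], by linarith [hθ.2]⟩
      refine ⟨_, this, ?_⟩
      simp
    rw [h_eq_of hm, lin_u_self]
    rintro _ ⟨y, hy, rfl⟩
    rw [lin_u_self]
    refine le_trans (lin_le_norm _ _) ?_
    exact mem_closedBall_iff_norm.mp (mem_iInter.mp hy i)

end Pool.Agent.Lib.MP_f2780a_gt
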