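import Pool.Agent.Lib.MP_f2780a_gt.Basic
import Pool.Agent.Lib.MP_f2780a_gt.StmtsB

/-! Monotonicity and slopes of the length and area of inscribed chains of chords. -/

set_option autoImplicit false

noncomputable section

namespace Pool.Agent.Lib.MP_f2780a_gt

open Real MeasureTheory Set

namespace Slope

def g (α β x : ℝ) : ℝ := α * (sin (2 * x) / 2) + β * (2 * sin x)

def g' (α β x : ℝ) : ℝ := α * cos (2 * x) + β * (2 * cos x)

def F (α β a : ℝ) : ℝ := α * arI a + β * lenI a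

lemma hd (α β x : ℝ) : HasDerivAt (g α β) (g' α β x) x := by
  have h1 : HasDerivAt (fun y : ℝ => sin (2 * y)) (cos (2 * x) * (2 * 1)) x :=
    ((hasDerivAt_id x).const_mul 2).sin
  have h2 := ((h1.div_const 2).const_mul α).add (((hasDerivAt_sin x).const_mul 2).const_mul β)
  exact h2.congr_deriv (by unfold g'; ring)

lemma g_zero (α β : ℝ) : g α β 0 = 0 := by simp [g]

lemma F_zero (α β : ℝ) : F α β 0 = g' α β 0 * (π / 6) := by
  simp only [F, g', arI, lenI, if_true, mul_zero, cos_zero]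
  ring

lemma F_pos (α β : ℝ) {a : ℝ} (ha : 0 < a) : F α β a = nn a * g α β a + g α β (rr a) := by
  simp only [F, g, arI, lenI, if_neg ha.ne', arcLen, arcArea]
  ring

lemma nn_le {a : ℝ} (ha : 0 < a) : nn a * a ≤ π / 6 :=
  (le_div_iff₀ ha).1 (Nat.floor_le (by positivity))

lemma lt_nn {a : ℝ} (ha : 0 < a) : π / 6 < (nn a + 1) * a :=
  (div_lt_iff₀ ha).1 (Nat.lt_floor_add_one _)

lemma one_le_nn {a : ℝ} (ha : 0 < a) (h : a ≤ π / 6) : 1 ≤ nn a :=
  Nat.le_floor (by rw [Nat.cast_one, le_div_iff₀ ha, one_mul]; exact h)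

lemma F_piece (α β : ℝ) (n : ℕ) {x : ℝ} (hx : 0 < x) (h1 : π / 6 ≤ (n + 1) * x)
    (h2 : n * x ≤ π / 6) : F α β x = n * g α β x + g α β (π / 6 - n * x) := by
  rw [F_pos α β hx, rr]
  rcases h1.eq_or_lt with h | h
  · have e : nn x = n + 1 := by
      rw [nn, h, mul_div_assoc, div_self hx.ne', mul_one, ← Nat.cast_succ, Nat.floor_natCast]
    have e1 : π / 6 - ((n + 1 : ℕ) : ℝ) * x = 0 := by rw [h]; push_cast; ring
    have e2 : π / 6 - n * x = x := by rw [h]; ring
    rw [e, e1, e2, g_zero]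
    push_cast
    ring
  · have e : nn x = n := by
      rw [nn, Nat.floor_eq_iff (by positivity)]
      exact ⟨(le_div_iff₀ hx).2 h2, (div_lt_iff₀ hx).2 h⟩
    rw [e]

lemma step (α β : ℝ) (n : ℕ) (hn : 1 ≤ n) {x y : ℝ} (hx : 0 < x) (hxy : x < y)
    (h1 : π / 6 ≤ (n + 1) * x) (h2 : n * y ≤ π / 6) :
    ∃ t r, x < t ∧ t < y ∧ 0 ≤ r ∧ r < t ∧ r + t ≤ π / 6 ∧ n * t ≤ π / 6 ∧
      F α β y - F α β x = (y - x) * n * (g' α β t - g' α β r) := by
  have hn' : (1 : ℝ) ≤ n := by exact_mod_cast hn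
  have hD : ∀ t, HasDerivAt (fun s => n * g α β s + g α β (π / 6 - n * s))
      (n * (g' α β t - g' α β (π / 6 - n * t))) t := fun t => by
    have h3 : HasDerivAt (fun s : ℝ => π / 6 - n * s) (-(n * 1)) t :=
      ((hasDerivAt_id t).const_mul (n : ℝ)).const_sub _
    exact (((hd α β t).const_mul (n : ℝ)).add ((hd α β _).comp t h3)).congr_deriv (by ring)
  obtain ⟨t, ⟨ht1, ht2⟩, ht⟩ := exists_hasDerivAt_eq_slope _ _ hxy
    (fun t _ => (hD t).continuousAt.continuousWithinAt) fun t _ => hD t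
  refine ⟨t, π / 6 - n * t, ht1, ht2, by nlinarith, by nlinarith, by nlinarith, by nlinarith, ?_⟩
  rw [F_piece α β n hx h1 (by nlinarith), F_piece α β n (hx.trans hxy) (by nlinarith) h2,
    mul_assoc, ht]
  field_simp [(sub_pos.2 hxy).ne']

lemma chain (R : ℝ → ℝ → Prop) (lo hi : ℝ) (h0 : 0 < lo) (h6 : hi ≤ π / 6)
    (tr : ∀ x y z, R x y → R y z → R x z)
    (pc : ∀ n : ℕ, 1 ≤ n → ∀ x y, lo ≤ x → x < y → y ≤ hi → π / 6 ≤ (n + 1) * x →
      n * y ≤ π / 6 → R x y) (hlt : lo < hi) : R lo hi := by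
  have key : ∀ k : ℕ, ∀ x y, lo ≤ x → x < y → y ≤ hi → π / 6 ≤ (k + 1) * x → R x y := by
    intro k
    induction k with
    | zero =>
      intro x y _ h2 h3 h4
      rw [Nat.cast_zero, zero_add, one_mul] at h4
      linarith
    | succ k ih =>
      intro x y h1 h2 h3 h4
      by_cases h5 : π / 6 ≤ (k + 1) * x
      · exact ih x y h1 h2 h3 h5
      have hk : (0 : ℝ) < k + 1 := by positivity
      by_cases h7 : ((k + 1 : ℕ) : ℝ) * y ≤ π / 6
      · exact pc (k + 1) (by omega) x y h1 h2 h3 h4 h7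
      have e : (k + 1) * (π / 6 / (k + 1)) = π / 6 := mul_div_cancel₀ _ hk.ne'
      have h8 : x < π / 6 / (k + 1) := by
        rw [lt_div_iff₀ hk, mul_comm]
        exact not_le.1 h5
      have h9 : π / 6 / (k + 1) < y := by
        rw [div_lt_iff₀ hk, mul_comm]
        push_cast at h7
        exact not_le.1 h7
      exact tr _ _ _ (pc (k + 1) (by omega) x _ h1 h8 (h9.le.trans h3) h4 (by push_cast; exact e.le))
        (ih _ y (h1.trans h8.le) h9 h3 e.ge)
  exact key (nn lo) lo hi le_rfl hlt le_rfl (lt_nn h0).le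

lemma chord (α β : ℝ) {x : ℝ} (hx : 0 < x) :
    ∃ t, 0 < t ∧ t < x ∧ g α β x - g' α β 0 * x = x * (g' α β t - g' α β 0) := by
  obtain ⟨t, ⟨ht1, ht2⟩, ht⟩ := exists_hasDerivAt_eq_slope _ _ hx
    (fun t _ => (hd α β t).continuousAt.continuousWithinAt) fun t _ => hd α β t
  refine ⟨t, ht1, ht2, ?_⟩
  rw [ht, g_zero, sub_zero, sub_zero, mul_sub, mul_div_cancel₀ _ hx.ne', mul_comm]

lemma F_sub_zero (α β : ℝ) {a : ℝ} (ha : 0 < a) : F α β a - F α β 0 =
    nn a * (g α β a - g' α β 0 * a) + (g α β (rr a) - g' α β 0 * rr a) := by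
  rw [F_pos α β ha, F_zero, rr]
  ring

lemma key (S : ℝ → Prop) (hadd : ∀ u v, S u → S v → S (u + v))
    (hmul : ∀ c u, 0 < c → S u → S (c * u)) (α β : ℝ) {a a' : ℝ} (h0 : 0 ≤ a) (h1 : a < a')
    (h2 : a' ≤ π / 6) (H : ∀ t r, a < t → t < a' → 0 ≤ r → r < t → r + t ≤ π / 6 →
      S (g' α β t - g' α β r)) : S (F α β a' - F α β a) := by
  rcases h0.eq_or_lt with rfl | h0
  · have hn : (0 : ℝ) < nn a' := by exact_mod_cast one_le_nn h1 h2
    have hc : ∀ x, 0 < x → x ≤ a' → S (g α β x - g' α β 0 * x) := fun x hx hxa => by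
      obtain ⟨t, ht1, ht2, e⟩ := chord α β hx
      rw [e]
      exact hmul _ _ hx (H t 0 ht1 (ht2.trans_le hxa) le_rfl ht1 (by linarith))
    rw [F_sub_zero α β h1]
    have hr : 0 ≤ rr a' := sub_nonneg.2 (nn_le h1)
    rcases hr.eq_or_lt with h | h
    · rw [← h, g_zero, mul_zero, sub_zero, add_zero]
      exact hmul _ _ hn (hc _ h1 le_rfl)
    · refine hadd _ _ (hmul _ _ hn (hc _ h1 le_rfl)) (hc _ h ?_)
      have := lt_nn h1
      unfold rr
      linarith
  · refine chain (fun x y => S (F α β y - F α β x)) a a' h0 h2 (fun x y z u v => ?_)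
      (fun n hn x y h3 h4 h5 h6 h7 => ?_) h1
    · have := hadd _ _ u v
      rwa [show F α β y - F α β x + (F α β z - F α β y) = F α β z - F α β x by ring] at this
    · obtain ⟨t, r, b1, b2, b3, b4, b5, -, e⟩ := step α β n hn (h0.trans_le h3) h4 h6 h7
      have hn' : (0 : ℝ) < n := by exact_mod_cast hn
      rw [e]
      exact hmul _ _ (mul_pos (sub_pos.2 h4) hn') (H t r (h3.trans_lt b1) (b2.trans_le h5) b3 b4 b5)

lemma key_le (α β : ℝ) {a a' : ℝ} (h0 : 0 ≤ a) (h1 : a ≤ a')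
    (h2 : a' ≤ π / 6) (H : ∀ t r, a < t → t < a' → 0 ≤ r → r < t → r + t ≤ π / 6 →
      0 ≤ α * (cos t + cos r) + β) : F α β a' ≤ F α β a := by
  rcases h1.eq_or_lt with rfl | h1
  · exact le_rfl
  refine sub_nonpos.1 (key (· ≤ 0) (fun u v => add_nonpos)
    (fun c u hc hu => mul_nonpos_of_nonneg_of_nonpos hc.le hu) α β h0 h1 h2
    fun t r b1 b2 b3 b4 b5 => ?_)
  have e : g' α β t - g' α β r = 2 * (α * (cos t + cos r) + β) * (cos t - cos r) := by
    simp only [g', cos_two_mul]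
    ring
  have hc : cos t ≤ cos r := cos_le_cos_of_nonneg_of_le_pi b3 (by linarith [pi_pos]) b4.le
  show _ ≤ (0 : ℝ)
  rw [e]
  exact mul_nonpos_of_nonneg_of_nonpos (mul_nonneg zero_le_two (H t r b1 b2 b3 b4 b5))
    (sub_nonpos.2 hc)

lemma F_len (a : ℝ) : F 0 1 a = lenI a := by simp [F]

lemma strict : StrictAntiOn lenI (Icc 0 (π / 6)) := by
  intro a ha a' ha' h
  rw [← F_len, ← F_len]
  refine sub_neg.1 (key (· < 0) (fun u v => add_neg) (fun c u hc hu => mul_neg_of_pos_of_neg hc hu)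
    0 1 ha.1 h ha'.2 fun t r _ _ b3 b4 b5 => ?_)
  have hc : cos t < cos r := cos_lt_cos_of_nonneg_of_le_pi b3 (by linarith [pi_pos]) b4
  show _ < (0 : ℝ)
  unfold g'
  linarith

lemma cos_sub_le {t r : ℝ} (h : 0 ≤ r) (h' : r ≤ t) : cos r - cos t ≤ t := by
  have h1 := abs_cos_sub_cos_le r t
  rw [abs_sub_comm r t, abs_of_nonneg (sub_nonneg.2 h')] at h1
  linarith [le_abs_self (cos r - cos t)]

lemma lip {a a' : ℝ} (h0 : 0 ≤ a) (h1 : a < a') (h2 : a' ≤ π / 6) :
    lenI a - lenI a' ≤ 2 * (a' - a) := by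
  have hp := pi_le_four
  rw [← F_len, ← F_len]
  rcases h0.eq_or_lt with rfl | h0
  · have hc : ∀ x, 0 ≤ x → x ≤ a' → -(x * (2 * a')) ≤ g 0 1 x - g' 0 1 0 * x := fun x hx hxa => by
      rcases hx.eq_or_lt with rfl | hx
      · simp [g_zero]
      obtain ⟨t, ht1, ht2, e⟩ := chord 0 1 hx
      have := cos_sub_le (le_refl 0) ht1.le
      rw [e, ← mul_neg]
      refine mul_le_mul_of_nonneg_left ?_ hx.le
      unfold g'
      linarith
    have e := F_sub_zero 0 1 h1
    have b1 := mul_le_mul_of_nonneg_left (hc _ h1.le le_rfl) (Nat.cast_nonneg (α := ℝ) (nn a'))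
    have b2 := hc (rr a') (sub_nonneg.2 (nn_le h1)) (by
      have := lt_nn h1
      unfold rr
      linarith)
    have b3 : nn a' * (a' * (2 * a')) + rr a' * (2 * a') = π / 6 * (2 * a') := by
      unfold rr
      ring
    nlinarith
  · refine chain (fun x y => F 0 1 x - F 0 1 y ≤ 2 * (y - x)) a a' h0 h2
      (fun x y z u v => by linarith) (fun n hn x y h3 h4 h5 h6 h7 => ?_) h1
    obtain ⟨t, r, -, -, b3, b4, -, b6, e⟩ := step 0 1 n hn (h0.trans_le h3) h4 h6 h7
    have b7 := mul_le_mul_of_nonneg_left (cos_sub_le b3 b4.le) (Nat.cast_nonneg (α := ℝ) n)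
    have b8 : n * (cos r - cos t) ≤ 1 := by linarith
    have b9 := mul_le_mul_of_nonneg_left b8 (sub_pos.2 h4).le
    have e' : F 0 1 x - F 0 1 y = 2 * ((y - x) * (n * (cos r - cos t))) := by
      rw [← neg_sub, e]
      unfold g'
      ring
    show F 0 1 x - F 0 1 y ≤ 2 * (y - x)
    linarith

lemma len_cont : ContinuousOn lenI (Icc 0 (π / 6)) := by
  refine (LipschitzOnWith.of_dist_le_mul (K := 2) fun x hx y hy => ?_).continuousOn
  rw [Real.dist_eq, Real.dist_eq, NNReal.coe_ofNat]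
  rcases lt_trichotomy x y with h | rfl | h
  · rw [abs_of_pos (sub_pos.2 (strict hx hy h)), abs_of_neg (sub_neg.2 h), neg_sub]
    exact lip hx.1 h hy.2
  · simp
  · rw [abs_of_neg (sub_neg.2 (strict hy hx h)), abs_of_pos (sub_pos.2 h), neg_sub]
    exact lip hy.1 h hx.2

lemma len_end : lenI (π / 6) = 1 := by
  have hp : 0 < π / 6 := by positivity
  have := F_piece 0 1 1 hp (by push_cast; linarith) (by push_cast; linarith)
  rw [F_len, Nat.cast_one, one_mul, one_mul, sub_self, g_zero] at this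
  rw [this, g, sin_pi_div_six]
  ring

lemma sig_le {t r : ℝ} (h0 : 0 ≤ r) (h1 : r < t) (h2 : r + t ≤ π / 6) : sig ≤ cos t + cos r := by
  have hp := pi_pos
  have b1 : cos (π / 6) ≤ cos (r + t) :=
    cos_le_cos_of_nonneg_of_le_pi (by linarith) (by linarith) h2
  have b2 : 1 - cos r ≤ sin r := by
    have s0 : 0 ≤ sin r := sin_nonneg_of_nonneg_of_le_pi h0 (by linarith)
    have c0 : 0 ≤ cos r := cos_nonneg_of_mem_Icc ⟨by linarith, by linarith⟩
    nlinarith [sin_sq_add_cos_sq r, cos_le_one r, sin_le_one r]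
  have s0 : 0 ≤ sin r := sin_nonneg_of_nonneg_of_le_pi h0 (by linarith)
  have b3 : sin r ≤ sin t := sin_le_sin_of_le_of_le_pi_div_two (by linarith) (by linarith) h1.le
  have c1 : cos t ≤ cos r := cos_le_cos_of_nonneg_of_le_pi h0 (by linarith) h1.le
  rw [cos_add, cos_pi_div_six] at b1
  have b4 : (1 - cos r) * (1 - cos t) ≤ sin r * sin t := by
    have b5 : 1 - cos t ≤ sin t := by
      have s1 : 0 ≤ sin t := s0.trans b3
      have c0 : 0 ≤ cos t := cos_nonneg_of_mem_Icc ⟨by linarith, by linarith⟩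
      nlinarith [sin_sq_add_cos_sq t, cos_le_one t, sin_le_one t]
    exact mul_le_mul b2 b5 (sub_nonneg.2 (cos_le_one t)) s0
  unfold sig
  nlinarith

end Slope

open Slope in
theorem slope_proof : slope_stmt := by
  have hp := pi_pos
  refine ⟨strict, len_end, fun l hl => ?_, fun a a' h0 h1 h2 => ⟨?_, ?_, ?_⟩⟩
  · have := intermediate_value_Icc' (by positivity : (0 : ℝ) ≤ π / 6) len_cont
    rw [len_end] at this
    exact this ⟨hl.1, by simpa [lenI] using hl.2⟩
  · have := key_le 1 (-sig) h0 h1 h2 fun t r _ _ b3 b4 b5 => by linarith [sig_le b3 b4 b5]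
    unfold F at this
    linarith
  · have := key_le 1 (-(2 * cos a')) h0 h1 h2 fun t r b1 b2 b3 b4 b5 => by
      have c1 : cos a' ≤ cos t := cos_le_cos_of_nonneg_of_le_pi (by linarith) (by linarith) b2.le
      have c2 : cos t ≤ cos r := cos_le_cos_of_nonneg_of_le_pi b3 (by linarith) b4.le
      linarith
    unfold F at this
    linarith
  · have := key_le (-1) (1 + cos a) h0 h1 h2 fun t r b1 b2 b3 b4 b5 => by
      have c1 : cos t ≤ cos a := cos_le_cos_of_nonneg_of_le_pi h0 (by linarith) b1.le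
      linarith [cos_le_one r]
    unfold F at this
    linarith

end Pool.Agent.Lib.MP_f2780a_gt
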