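import Pool.Agent.Lib.MP_f2780a_gt.Basic
import Pool.Agent.Lib.MP_f2780a_gt.StmtsB

/-! Smooth strictly convex approximation of a support function. -/

set_option autoImplicit false

noncomputable section

namespace Pool.Agent.Lib.MP_f2780a_gt

open Real MeasureTheory Set Filter Topology intervalIntegral

namespace Smooth

/-- average over a window of half width `e` -/
def av (e : ℝ) (g : ℝ → ℝ) (θ : ℝ) : ℝ := (∫ s in (θ - e)..(θ + e), g s) / (2 * e)

lemma av_deriv {g : ℝ → ℝ} (hg : Continuous g) (e θ : ℝ) :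
    HasDerivAt (av e g) ((g (θ + e) - g (θ - e)) / (2 * e)) θ := by
  have hP : ∀ x, HasDerivAt (fun x => ∫ s in (0 : ℝ)..x, g s) (g x) x := fun x =>
    (hg.integral_hasStrictDerivAt 0 x).hasDerivAt
  have e1 : av e g = fun θ =>
      ((∫ s in (0 : ℝ)..(θ + e), g s) - ∫ s in (0 : ℝ)..(θ - e), g s) / (2 * e) := by
    funext θ
    rw [av, integral_interval_sub_left (hg.intervalIntegrable _ _) (hg.intervalIntegrable _ _)]
  rw [e1]
  exact (((hP (θ + e)).comp_add_const θ e).sub ((hP (θ - e)).comp_sub_const θ e)).div_const _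

lemma av_cont {g : ℝ → ℝ} (hg : Continuous g) (e : ℝ) : Continuous (av e g) :=
  continuous_iff_continuousAt.2 fun θ => (av_deriv hg e θ).continuousAt

lemma av_near {g : ℝ → ℝ} (hg : Continuous g) {e c r : ℝ} (he : 0 < e) (θ : ℝ)
    (hr : ∀ s, |s - θ| ≤ e → |g s - c| ≤ r) : |av e g θ - c| ≤ r := by
  have e1 : av e g θ - c = (∫ s in (θ - e)..(θ + e), (g s - c)) / (2 * e) := by
    rw [integral_sub (hg.intervalIntegrable _ _) (continuous_const.intervalIntegrable _ _),
      intervalIntegral.integral_const, av, smul_eq_mul]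
    field_simp
    ring
  have h1 := norm_integral_le_of_norm_le_const (a := θ - e) (b := θ + e) (C := r)
    (f := fun s => g s - c) (fun s hs => by
      rw [uIoc_of_le (by linarith)] at hs
      exact hr s (abs_le.2 ⟨by linarith [hs.1], by linarith [hs.2]⟩))
  rw [e1, abs_div, abs_of_pos (by positivity : 0 < 2 * e), div_le_iff₀ (by positivity)]
  rw [show θ + e - (θ - e) = 2 * e by ring, abs_of_pos (by positivity : 0 < 2 * e)] at h1
  exact h1

lemma av_per {g : ℝ → ℝ} {T : ℝ} (hg : Function.Periodic g T) (e : ℝ) :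
    Function.Periodic (av e g) T := fun θ => by
  unfold av
  rw [show θ + T - e = θ - e + T by ring, show θ + T + e = θ + e + T by ring,
    ← integral_comp_add_right g T]
  simp only [hg _]

end Smooth

open Smooth in
theorem smooth_proof : smooth_stmt := by
  intro K ε hK h0 hε
  obtain ⟨R, hR0, hR⟩ := hK.bdd
  have hf := continuous_h hK
  have hL : ∀ s t, |h K s - h K t| ≤ R * |s - t| := fun s t =>
    (h_lipschitz hK (R := ⟨R, hR0⟩) hR).dist_le_mul s t
  have hpos : ∀ θ, 0 ≤ h K θ := fun θ => by simpa using lin_le_h hK h0 θ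
  set e := ε / (4 * R + 1) with he
  have he0 : 0 < e := by positivity
  have hee : (4 * R + 1) * e = ε := by rw [he]; field_simp
  have h1 : ∀ θ, |av e (av e (h K)) θ - h K θ| ≤ 2 * R * e := fun θ =>
    av_near (av_cont hf e) he0 θ fun s hs => av_near hf he0 s fun t ht => by
      have a1 := hL t θ
      have a2 : |t - θ| ≤ 2 * e := by
        have := abs_sub_le t s θ
        linarith
      nlinarith
  refine ⟨fun θ => av e (av e (h K)) θ + (2 * R + 1) * e,
    fun θ => (av e (h K) (θ + e) - av e (h K) (θ - e)) / (2 * e),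
    fun θ => ((h K (θ + e + e) - h K (θ + e - e)) / (2 * e) -
      (h K (θ - e + e) - h K (θ - e - e)) / (2 * e)) / (2 * e),
    fun θ => (av_deriv (av_cont hf e) e θ).add_const _,
    fun θ => (((av_deriv hf e (θ + e)).comp_add_const θ e).sub
      ((av_deriv hf e (θ - e)).comp_sub_const θ e)).div_const _,
    by fun_prop, fun θ => ?_, fun θ => by simp only [av_per (av_per (h_periodic K) e) e θ],
    fun θ => ?_⟩
  · obtain ⟨x, hx, ex⟩ := h_att hK θ
    have a1 := lin_le_h hK hx (θ + e + e)
    have a2 := lin_le_h hK hx (θ - e - e)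
    rw [lin_expand x θ, show θ + e + e - θ = 2 * e by ring] at a1
    rw [lin_expand x θ, show θ - e - e - θ = -(2 * e) by ring, cos_neg, sin_neg] at a2
    have a3 := one_sub_sq_div_two_le_cos (x := 2 * e)
    have a4 := (abs_le.1 (h1 θ)).1
    have a5 := hpos θ
    have a6 : -h K θ ≤ ((h K (θ + e + e) - h K (θ + e - e)) / (2 * e) -
        (h K (θ - e + e) - h K (θ - e - e)) / (2 * e)) / (2 * e) := by
      rw [← sub_div, div_div, le_div_iff₀ (by positivity), add_sub_cancel_right,
        sub_add_cancel]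
      rw [ex] at a1 a2
      nlinarith [mul_le_mul_of_nonneg_left a3 a5]
    linarith
  · have a4 := abs_le.1 (h1 θ)
    constructor <;> linarith [a4.1, a4.2]

end Pool.Agent.Lib.MP_f2780a_gt
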