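import Pool.Agent.Lib.MP_f2780a_gt.Basic
import Pool.Agent.Lib.MP_f2780a_gt.StmtsB

set_option autoImplicit false

noncomputable section

namespace Pool.Agent.Lib.MP_f2780a_gt

open Real

namespace stab

lemma key {a x y w : ℝ} (hw : w ^ 2 = 3) (w0 : 0 ≤ w) (a0 : 0 ≤ a) (a1 : a ≤ 1)
    (h1 : x ^ 2 + y ^ 2 ≤ 1) (h2 : (a + x) ^ 2 + y ^ 2 ≤ 1) (h3 : w / 2 - a * y ≤ 19 / 1000) :
    1 - a + (|1 / 2 - (a + x)| + |w / 2 - y|) + (|-(1 / 2) - x| + |w / 2 - y|) ≤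
      7 * (w / 2 - a * y) := by
  have w1 : 1732 / 1000 ≤ w := by nlinarith
  have w2 : w ≤ 1733 / 1000 := by nlinarith
  have y1 : y ≤ 1 := by nlinarith
  have a2 : 84 / 100 ≤ a := by nlinarith
  obtain ⟨r, rfl⟩ : ∃ r, y = w / 2 - r := ⟨w / 2 - y, by ring⟩
  have e1 : -(w * r) ≤ x + 1 / 2 := by nlinarith [sq_nonneg (x + 1 / 2), sq_nonneg r]
  have e2 : a + x - 1 / 2 ≤ w * r := by nlinarith [sq_nonneg (a + x - 1 / 2), sq_nonneg r]
  have e3 : 1732 / 1000 * (1 - a) ≤ w * (1 - a) := by gcongr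
  rw [sub_sub_cancel]
  rcases le_total 0 r with h | h
  · have e4 : w * r ≤ 1733 / 1000 * r := by gcongr
    have e5 : 84 / 100 * r ≤ a * r := by gcongr
    rw [abs_of_nonneg h]
    cases abs_cases (1 / 2 - (a + x)) <;> cases abs_cases (-(1 / 2) - x) <;> nlinarith
  · have e4 : w * r ≤ 1732 / 1000 * r := mul_le_mul_of_nonpos_right w1 h
    have e5 : 1 * r ≤ a * r := mul_le_mul_of_nonpos_right a1 h
    rw [abs_of_nonpos h]
    cases abs_cases (1 / 2 - (a + x)) <;> cases abs_cases (-(1 / 2) - x) <;> nlinarith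

lemma norm_le (z : ℂ) (θ : ℝ) : ‖z‖ ≤ |lin z θ| + |lin' z θ| := by
  conv_lhs => rw [eq_frame z θ]
  exact (norm_add_le _ _).trans (by simp)

end stab

theorem stab_proof : stab_stmt := by
  intro s t h1 h2 h3 h4
  obtain ⟨φ, -, -, e⟩ := exists_polar s
  have a1 : lin s φ = ‖s‖ := by rw [e, lin_smul]; simp
  have a2 : lin' s φ = 0 := by rw [e, lin'_smul]; simp
  have a3 : dt s t = ‖s‖ * lin' t φ := by rw [dt_frame s t φ, a1, a2]; ring
  have b1 := stab.norm_le (u φ - s) φ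
  have b2 := stab.norm_le (u (φ + π / 3) - (s + t)) φ
  have b3 := stab.norm_le (u (φ + 2 * π / 3) - t) φ
  have c1 := lin_sq_add t φ
  have c2 := lin_sq_add (s + t) φ
  have d : 2 * π / 3 = π - π / 3 := by ring
  simp only [lin_sub, lin'_sub, lin_add, lin'_add, lin_u, lin'_u, a1, a2, sub_add_cancel_left, d,
    cos_neg, sin_neg, neg_neg, cos_pi_sub, sin_pi_sub, cos_pi_div_three, sin_pi_div_three,
    zero_add, sub_self, cos_zero, sin_zero, neg_zero, abs_zero, add_zero] at b1 b2 b3 c2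
  rw [abs_of_nonneg (sub_nonneg.2 h1)] at b1
  rw [a3] at h4 ⊢
  exact ⟨φ, (add_le_add (add_le_add b1 b2) (d ▸ b3)).trans (stab.key (sq_sqrt (by norm_num))
    (sqrt_nonneg _) (norm_nonneg s) h1 (c1 ▸ pow_le_one₀ (norm_nonneg _) h2)
    (c2 ▸ pow_le_one₀ (norm_nonneg _) h3) h4)⟩

end Pool.Agent.Lib.MP_f2780a_gt
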