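import Pool.Agent.Lib.MP_f2780a_gt.Basic
import Pool.Agent.Lib.MP_f2780a_gt.StmtsB

set_option autoImplicit false

noncomputable section

namespace Pool.Agent.Lib.MP_f2780a_gt

open Real MeasureTheory Set

namespace tri

lemma g_lt {s t : ℝ} (hs : 0 ≤ s) (h : s < t) (ht : t ≤ 1) : √(4 - t ^ 2) < √(4 - s ^ 2) :=
  sqrt_lt_sqrt (by nlinarith) (by nlinarith)

lemma g_le {s t : ℝ} (hs : 0 ≤ s) (h : s ≤ t) : √(4 - t ^ 2) ≤ √(4 - s ^ 2) :=
  sqrt_le_sqrt (by nlinarith)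

lemma g_two (t : ℝ) : √(4 - t ^ 2) ≤ 2 := by
  rw [sqrt_le_left (by norm_num)]
  nlinarith [sq_nonneg t]

lemma iso_nonneg {t : ℝ} (ht : 0 ≤ t) : 0 ≤ iso t := by
  unfold iso
  positivity

lemma iso_sq {t : ℝ} (h0 : 0 ≤ t) (h1 : t ≤ 1) : 16 * iso t ^ 2 = t ^ 2 * (4 - t ^ 2) := by
  have h : √(4 - t ^ 2) ^ 2 = 4 - t ^ 2 := sq_sqrt (by nlinarith)
  unfold iso
  rw [div_pow, mul_pow, h]
  ring

lemma iso_lt {s t : ℝ} (hs : 0 ≤ s) (h : s < t) (ht : t ≤ 1) : iso s < iso t := by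
  have h1 := iso_sq hs (h.le.trans ht)
  have h2 := iso_sq (hs.trans h.le) ht
  have h3 : 0 < (t ^ 2 - s ^ 2) * (4 - s ^ 2 - t ^ 2) := mul_pos (by nlinarith) (by nlinarith)
  apply lt_of_pow_lt_pow_left₀ 2 (iso_nonneg (hs.trans h.le))
  nlinarith

lemma heron (x y : ℂ) (hx : ‖x‖ = 1) :
    4 * dt x y ^ 2 = 4 * ‖y‖ ^ 2 - (1 + ‖y‖ ^ 2 - ‖x - y‖ ^ 2) ^ 2 := by
  have h1 : x.re ^ 2 + x.im ^ 2 = 1 := by
    have := Complex.sq_norm x
    rw [hx, Complex.normSq_apply] at this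
    nlinarith
  have h2 : ‖y‖ ^ 2 = y.re ^ 2 + y.im ^ 2 := by
    rw [Complex.sq_norm, Complex.normSq_apply]
    ring
  have h3 : ‖x - y‖ ^ 2 = (x.re - y.re) ^ 2 + (x.im - y.im) ^ 2 := by
    rw [Complex.sq_norm, Complex.normSq_apply, Complex.sub_re, Complex.sub_im]
    ring
  have h4 : 1 + ‖y‖ ^ 2 - ‖x - y‖ ^ 2 = 2 * (x.re * y.re + x.im * y.im) := by
    rw [h2, h3]
    linarith
  rw [h4, h2]
  unfold dt
  linear_combination (4 * (y.re ^ 2 + y.im ^ 2)) * h1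

end tri

theorem tri_proof : tri_stmt := by
  refine ⟨fun s t hs ht hst => ⟨?_, fun h => ?_⟩, fun s t hs hst ht => ⟨?_, ?_, fun h => ?_⟩,
    fun x y hx hy hxy => ?_⟩
  · have h1 := mul_le_mul_of_nonneg_left (tri.g_le hs (le_add_of_nonneg_right ht)) hs
    have h2 := mul_le_mul_of_nonneg_left (tri.g_le ht (le_add_of_nonneg_left hs)) ht
    unfold iso
    linarith
  · by_contra hc
    rw [not_or] at hc
    have hs' : 0 < s := lt_of_le_of_ne hs (Ne.symm hc.1)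
    have ht' : 0 < t := lt_of_le_of_ne ht (Ne.symm hc.2)
    have h1 := mul_lt_mul_of_pos_left (tri.g_lt hs (lt_add_of_pos_right s ht') hst) hs'
    have h2 := mul_le_mul_of_nonneg_left (tri.g_le ht (le_add_of_nonneg_left hs)) ht
    unfold iso at h
    linarith
  · rcases hst.eq_or_lt with rfl | h
    · exact le_rfl
    · exact (tri.iso_lt hs h ht).le
  · have h1 := mul_le_mul_of_nonneg_left (tri.g_le hs hst) hs
    have h2 := mul_le_mul_of_nonneg_left (tri.g_two t) (sub_nonneg.2 hst)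
    unfold iso
    linarith
  · by_contra hc
    exact absurd (tri.iso_lt hs (lt_of_le_of_ne hst hc) ht) (not_lt.2 h)
  · have h0 : 1 ≤ ‖y‖ + ‖x - y‖ := by
      have := norm_add_le y (x - y)
      rwa [add_sub_cancel, hx] at this
    have hh := tri.heron x y hx
    have hb := norm_nonneg y
    have hc := norm_nonneg (x - y)
    generalize ‖y‖ = b at *
    generalize ‖x - y‖ = c at *
    have h1 : 0 ≤ b + c - 1 := by linarith
    have h2 := tri.iso_sq h1 (by linarith)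
    have h3 := tri.iso_nonneg h1
    have h4 : (|dt x y| / 2) ^ 2 - iso (b + c - 1) ^ 2 =
        (b + c - 1) * (b + c + 1) * ((1 - b) * (1 - c)) / 4 := by
      rw [div_pow, sq_abs]
      linear_combination (1 / 16 : ℝ) * hh - (1 / 16 : ℝ) * h2
    have h5 : 0 ≤ |dt x y| / 2 := by positivity
    refine ⟨h1, ?_, fun h => ?_⟩
    · apply le_of_sq_le_sq _ h5
      have : 0 ≤ (b + c - 1) * (b + c + 1) * ((1 - b) * (1 - c)) :=
        mul_nonneg (mul_nonneg h1 (by linarith)) (mul_nonneg (by linarith) (by linarith))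
      linarith
    · by_contra hn
      rw [not_or, not_or] at hn
      have a1 : 0 < 1 - b := sub_pos.2 (lt_of_le_of_ne hy hn.1)
      have a2 : 0 < 1 - c := sub_pos.2 (lt_of_le_of_ne hxy hn.2.1)
      have a3 : 0 < b + c - 1 := sub_pos.2 (lt_of_le_of_ne h0 (Ne.symm hn.2.2))
      have : 0 < (b + c - 1) * (b + c + 1) * ((1 - b) * (1 - c)) :=
        mul_pos (mul_pos a3 (by linarith)) (mul_pos a1 a2)
      have a4 := pow_le_pow_left₀ h5 h 2
      linarith

end Pool.Agent.Lib.MP_f2780a_gt
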