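import Mathlib

/-! Public definitions for the least area of a plane convex figure with given perimeter and
diameter. The Euclidean plane is `ℂ`. -/

set_option autoImplicit false

noncomputable section

namespace Pool.Agent.Lib.MP_f2780a_gt

open Real MeasureTheory Set

/-- plane convex figure: compact convex set with nonempty interior -/
def IsFigure (K : Set ℂ) : Prop := IsCompact K ∧ Convex ℝ K ∧ (interior K).Nonempty

/-- area: Lebesgue measure -/
def area (K : Set ℂ) : ℝ := (volume K).toReal

/-- perimeter: length (one-dimensional Hausdorff measure) of the boundary -/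
def perimeter (K : Set ℂ) : ℝ := (μH[1] (frontier K)).toReal

/-- figures with perimeter `L` and diameter `D` -/
def Adm (L D : ℝ) (K : Set ℂ) : Prop := IsFigure K ∧ perimeter K = L ∧ Metric.diam K = D

/-- the unit vector of argument `θ` -/
def u (θ : ℝ) : ℂ := ⟨cos θ, sin θ⟩

/-- number of long chords (half-angle `a`) on an arc of half-angle `π / 6` -/
def nn (a : ℝ) : ℕ := ⌊π / 6 / a⌋₊

/-- half-angle of the short chord -/
def rr (a : ℝ) : ℝ := π / 6 - nn a * a

/-- total length of the chords -/
def arcLen (a : ℝ) : ℝ := 2 * (nn a * sin a + sin (rr a))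

/-- area of the polygon formed by the centre of the arc and the chords -/
def arcArea (a : ℝ) : ℝ := (nn a * sin (2 * a) + sin (2 * rr a)) / 2

/-- division points of `[0, π / 3]`: `k` steps `2a`, one step `2 rr a`, `nn a - k` steps `2a` -/
def angles (a : ℝ) (k : ℕ) : Set ℝ :=
  {t | ∃ j : ℕ, (j ≤ k ∧ t = 2 * j * a) ∨ (k ≤ j ∧ j ≤ nn a ∧ t = 2 * j * a + 2 * rr a)}

/-- vertices of the equilateral triangle of side one -/
def ctr : Fin 3 → ℂ := ![0, 1, u (π / 3)]

/-- the Reuleaux triangle of width one -/
def reuleaux : Set ℂ := ⋂ i, Metric.closedBall (ctr i) 1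

/-- the polygon inscribed in the Reuleaux triangle whose vertices on the arc centred at `ctr i`
are given by `angles (a i) (k i)` -/
def poly (a : Fin 3 → ℝ) (k : Fin 3 → ℕ) : Set ℂ :=
  convexHull ℝ {z | ∃ i : Fin 3, ∃ t ∈ angles (a i) (k i), z = ctr i + u (2 * π * (i : ℕ) / 3 + t)}

/-- image under the rotation by `φ`, the dilation by `D` and the translation by `c` -/
def place (c : ℂ) (φ D : ℝ) (S : Set ℂ) : Set ℂ := (fun z => c + D * u φ * z) '' S

/-- parameters of total length `l` -/
def Par (l : ℝ) : Set (Fin 3 → ℝ) := {a | (∀ i, 0 < a i ∧ a i ≤ π / 6) ∧ ∑ i, arcLen (a i) = l}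

/-- area of `poly a k` -/
def val (a : Fin 3 → ℝ) : ℝ := ∑ i, arcArea (a i) - √3 / 2

end Pool.Agent.Lib.MP_f2780a_gt
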