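import Pool.Agent.Lib.MP_f2780a_gt.Defs

/-! Statements of the lemmas (each is proved in its own file). -/

set_option autoImplicit false

noncomputable section

namespace Pool.Agent.Lib.MP_f2780a_gt

open Real MeasureTheory Set

/-- smooth strictly convex approximation from outside -/
def smooth_stmt : Prop :=
  ∀ (K : Set ℂ) (ε : ℝ), CN K → (0 : ℂ) ∈ K → 0 < ε → ∃ k k1 k2 : ℝ → ℝ,
    (∀ θ, HasDerivAt k (k1 θ) θ) ∧ (∀ θ, HasDerivAt k1 (k2 θ) θ) ∧ Continuous k2 ∧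
    (∀ θ, 0 < k θ + k2 θ) ∧ Function.Periodic k (2 * π) ∧
    (∀ θ, h K θ ≤ k θ ∧ k θ ≤ h K θ + ε)

/-- the body of a smooth function with positive curvature radius -/
def body_stmt : Prop :=
  ∀ k k1 k2 : ℝ → ℝ, (∀ θ, HasDerivAt k (k1 θ) θ) → (∀ θ, HasDerivAt k1 (k2 θ) θ) →
    Continuous k2 → (∀ θ, 0 < k θ + k2 θ) → Function.Periodic k (2 * π) →
    CN (Body k) ∧ Convex ℝ (Body k) ∧ h (Body k) = k ∧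
    (∀ θ, lin (k θ • u θ + k1 θ • u' θ) θ = k θ) ∧
    ∀ θ φ, 0 < |φ - θ| → |φ - θ| < 2 * π → lin (k θ • u θ + k1 θ • u' θ) φ < k φ

def mono_stmt : Prop :=
  ∀ (K : Set ℂ) (a b : ℝ) (φ : ℝ → ℝ), CN K → a ≤ b → Lip φ → (∀ θ ∈ Icc a b, 0 ≤ φ θ) →
    ((φ a = 0 ∧ φ b = 0) ∨ (b = a + 2 * π ∧ φ b = φ a)) → 0 ≤ V a b φ (h K)

def areaS_stmt : Prop :=
  ∀ k k1 k2 : ℝ → ℝ, (∀ θ, HasDerivAt k (k1 θ) θ) → (∀ θ, HasDerivAt k1 (k2 θ) θ) →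
    Continuous k2 → (∀ θ, 0 < k θ + k2 θ) → Function.Periodic k (2 * π) → (∀ θ, 0 < k θ) →
    area (Body k) = V 0 (2 * π) k k

def perimS_stmt : Prop :=
  ∀ k k1 k2 : ℝ → ℝ, (∀ θ, HasDerivAt k (k1 θ) θ) → (∀ θ, HasDerivAt k1 (k2 θ) θ) →
    Continuous k2 → (∀ θ, 0 < k θ + k2 θ) → Function.Periodic k (2 * π) → (∀ θ, 0 < k θ) →
    μH[1] (frontier (Body k)) = ENNReal.ofReal (Ln 0 (2 * π) k)

def perimMono_stmt : Prop :=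
  ∀ K K' : Set ℂ, IsFigure K → IsCompact K' → K ⊆ K' → μH[1] (frontier K) ≤ μH[1] (frontier K')

def bridge_stmt : Prop :=
  ∀ K : Set ℂ, IsFigure K → area K = Ar 0 (2 * π) K ∧ perimeter K = Le 0 (2 * π) K

def hex_stmt : Prop :=
  ∀ K : Set ℂ, IsFigure K → ∃ s t : ℂ, s ∈ Dif K ∧ t ∈ Dif K ∧ s + t ∈ Dif K ∧
    V 0 (2 * π) (h K) (hb K) ≤ dt s t

def pal_stmt : Prop :=
  ∀ K : Set ℂ, CN K → Diam1 K → √3 / 2 ≤ V 0 (2 * π) (h K) (hb K) →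
    ∃ (c : ℂ) (φ : ℝ), c ∈ K ∧ c + u φ ∈ K ∧ c + u (φ + π / 3) ∈ K

def exmin_stmt : Prop :=
  ∀ (a b : ℝ) (B : ℝ → ℝ) (p q : ℂ) (R l0 : ℝ) (C0 : Set ℂ), a < b → ‖p‖ ≤ R → ‖q‖ ≤ R →
    (∀ x : ℂ, ∀ θ ∈ Ioo a b, (∀ φ ∈ Icc a b, lin x φ ≤ B φ) → lin p θ ≤ lin x θ →
      lin q θ ≤ lin x θ → ‖x‖ ≤ R) →
    Cl a b B p q C0 → l0 ≤ Le a b C0 →
    ∃ C, Cl a b B p q C ∧ l0 ≤ Le a b C ∧
      ∀ C', Cl a b B p q C' → l0 ≤ Le a b C' → Ar a b C ≤ Ar a b C'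

/-- five differentiability points with consecutive distinct support points -/
def genA_stmt : Prop :=
  ∀ (a b : ℝ) (B : ℝ → ℝ) (p q : ℂ) (C : Set ℂ) (θ : Fin 5 → ℝ) (x : Fin 5 → ℂ), b - a ≤ π →
    ContinuousOn B (Icc a b) → MinCl a b B p q C → a < θ 0 → θ 4 < b → StrictMono θ →
    (∀ φ ∈ Icc (θ 0) (θ 4), h C φ < B φ) →
    (∀ i, DifferentiableAt ℝ (h C) (θ i) ∧ x i ∈ C ∧ lin (x i) (θ i) = h C (θ i)) →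
    ∃ i : Fin 4, x i.castSucc = x i.succ

/-- a free vertex can be moved -/
def genB_stmt : Prop :=
  ∀ (a b : ℝ) (B : ℝ → ℝ) (p q : ℂ) (C : Set ℂ) (t0 t1 t2 : ℝ) (x y z : ℂ), b - a ≤ π →
    ContinuousOn B (Icc a b) → MinCl a b B p q C → a < t0 → t0 < t1 → t1 < t2 → t2 < b →
    (∀ φ ∈ Icc t0 t2, h C φ < B φ) → x ∈ C → y ∈ C → z ∈ C →
    (∀ φ ∈ Icc t0 t1, h C φ = max (lin x φ) (lin y φ)) →
    (∀ φ ∈ Icc t1 t2, h C φ = max (lin y φ) (lin z φ)) →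
    lin y t0 < lin x t0 → lin x t1 < lin y t1 → lin z t1 < lin y t1 → lin y t2 < lin z t2 → False

def gen_stmt : Prop :=
  ∀ (a b : ℝ) (B : ℝ → ℝ) (p q : ℂ) (C : Set ℂ) (α β : ℝ), b - a ≤ π →
    ContinuousOn B (Icc a b) → MinCl a b B p q C → a ≤ α → α < β → β ≤ b →
    (∀ θ ∈ Ioo α β, h C θ < B θ) →
    ∃ y ∈ C, ∃ y' ∈ C, lin y α = h C α ∧ lin y' β = h C β ∧
      ∀ θ ∈ Icc α β, h C θ = max (lin y θ) (lin y' θ)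

/-- three chords with `x ≤ y < z` can be improved -/
def ev_stmt : Prop :=
  ∀ x y z : ℝ, 0 < x → x ≤ y → y < z → x + y + z ≤ π / 6 → ∃ x' y' z' : ℝ, 0 < x' ∧ 0 < y' ∧
    0 < z' ∧ x' + y' + z' = x + y + z ∧ sin x + sin y + sin z ≤ sin x' + sin y' + sin z' ∧
    sin (2 * x') + sin (2 * y') + sin (2 * z') < sin (2 * x) + sin (2 * y) + sin (2 * z)

/-- a chord and a piece of arc can be improved -/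
def ac_stmt : Prop :=
  ∀ c b : ℝ, 0 < c → c ≤ π / 6 → 0 < b → ∃ c' t b' : ℝ, 0 < c' ∧ 0 < t ∧ 0 ≤ b' ∧
    c' + t + b' = c + b ∧ sin c + b ≤ sin c' + sin t + b' ∧
    sin (2 * c') + sin (2 * t) + 2 * b' < sin (2 * c) + 2 * b

def polyarc_stmt : Prop :=
  ∀ (a0 a : ℝ) (k : ℕ), 0 < a → a ≤ π / 6 → k ≤ nn a →
    (angles a k).Finite ∧ angles a k ⊆ Icc 0 (π / 3) ∧ Arc a0 (a0 + π / 3) (pts a0 a k) ∧
    Le a0 (a0 + π / 3) (pts a0 a k) = arcLen a ∧ Ar a0 (a0 + π / 3) (pts a0 a k) = arcArea a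

/-- structure of the minimal caps in an arc -/
def arcmin_stmt : Prop :=
  ∀ (a0 : ℝ) (C : Set ℂ), MinCl a0 (a0 + π / 3) (fun _ => 1) (u a0) (u (a0 + π / 3)) C →
    (∀ θ ∈ Icc a0 (a0 + π / 3), h C θ = 1) ∨
    ∃ (a : ℝ) (k : ℕ), 0 < a ∧ a ≤ π / 6 ∧ k ≤ nn a ∧
      ∀ θ ∈ Icc a0 (a0 + π / 3), h C θ = h (pts a0 a k) θ

def slope_stmt : Prop :=
  StrictAntiOn lenI (Icc 0 (π / 6)) ∧ lenI (π / 6) = 1 ∧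
  (∀ l ∈ Icc 1 (π / 3), ∃ a ∈ Icc 0 (π / 6), lenI a = l) ∧
  ∀ a a' : ℝ, 0 ≤ a → a ≤ a' → a' ≤ π / 6 →
    sig * (lenI a - lenI a') ≤ arI a - arI a' ∧ 2 * cos a' * (lenI a - lenI a') ≤ arI a - arI a' ∧
    arI a - arI a' ≤ (1 + cos a) * (lenI a - lenI a')

def arc_stmt : Prop :=
  ∀ (a0 : ℝ) (C : Set ℂ), Arc a0 (a0 + π / 3) C → ∃ a ∈ Icc 0 (π / 6),
    lenI a = Le a0 (a0 + π / 3) C ∧ arI a ≤ Ar a0 (a0 + π / 3) C ∧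
    (Ar a0 (a0 + π / 3) C ≤ arI a → (a = 0 ∧ ∀ θ ∈ Icc a0 (a0 + π / 3), h C θ = 1) ∨
      (0 < a ∧ ∃ k ≤ nn a, ∀ θ ∈ Icc a0 (a0 + π / 3), h C θ = h (pts a0 a k) θ))

def fin_stmt : Prop :=
  ∀ l ∈ Icc 3 π, ∃ μ, IsLeast (valI '' ParI l) μ ∧
    (∀ l' a, l ≤ l' → a ∈ ParI l' → μ + sig * (l' - l) ≤ valI a) ∧
    (l < π → ∀ a ∈ ParI l, valI a = μ → ∀ i, 0 < a i) ∧ (l = π → ∀ a ∈ ParI l, a = 0)

def stab_stmt : Prop :=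
  ∀ s t : ℂ, ‖s‖ ≤ 1 → ‖t‖ ≤ 1 → ‖s + t‖ ≤ 1 → √3 / 2 - dt s t ≤ 19 / 1000 →
    ∃ φ, ‖u φ - s‖ + ‖u (φ + π / 3) - (s + t)‖ + ‖u (φ + 2 * π / 3) - t‖ ≤ 7 * (√3 / 2 - dt s t)

def pen_stmt : Prop :=
  ∀ (S : Set ℂ) (a0 : ℝ) (s s' : ℂ), CN S → (∀ x ∈ S, ‖x‖ ≤ 1) → s ∈ S → s' ∈ S →
    ∃ C, Arc a0 (a0 + π / 3) C ∧
      Ar a0 (a0 + π / 3) C - 2 * Le a0 (a0 + π / 3) C ≤
        Ar a0 (a0 + π / 3) S - 2 * Le a0 (a0 + π / 3) S ∧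
      Le a0 (a0 + π / 3) S ≤ Le a0 (a0 + π / 3) C ∧
      Le a0 (a0 + π / 3) C ≤
        Le a0 (a0 + π / 3) S + π / 6 * (‖u a0 - s‖ + ‖u (a0 + π / 3) - s'‖)

def main_stmt : Prop :=
  ∀ K : Set ℂ, IsFigure K → Diam1 K → 3 ≤ Le 0 (2 * π) K → Le 0 (2 * π) K ≤ π ∧
    ∀ μ, IsLeast (valI '' ParI (Le 0 (2 * π) K)) μ → μ ≤ Ar 0 (2 * π) K ∧
      (Ar 0 (2 * π) K ≤ μ → √3 / 2 ≤ V 0 (2 * π) (h K) (hb K))

/-- sets between the unit triangle and the Reuleaux triangle -/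
def reul_stmt : Prop :=
  ∀ K : Set ℂ, IsCompact K → (∀ i, ctr i ∈ K) → K ⊆ reuleaux →
    Diam1 K ∧ (∀ i : Fin 3, Arc (2 * π * (i : ℕ) / 3) (2 * π * (i : ℕ) / 3 + π / 3) (tr (ctr i) K)) ∧
    Ar 0 (2 * π) K =
      ∑ i : Fin 3, Ar (2 * π * (i : ℕ) / 3) (2 * π * (i : ℕ) / 3 + π / 3) (tr (ctr i) K) - √3 / 2 ∧
    Le 0 (2 * π) K =
      ∑ i : Fin 3, Le (2 * π * (i : ℕ) / 3) (2 * π * (i : ℕ) / 3 + π / 3) (tr (ctr i) K) ∧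
    ∀ K' : Set ℂ, IsCompact K' → (∀ i, ctr i ∈ K') → K' ⊆ reuleaux → Convex ℝ K → Convex ℝ K' →
      (∀ i : Fin 3, ∀ θ ∈ Icc (2 * π * (i : ℕ) / 3) (2 * π * (i : ℕ) / 3 + π / 3),
        h (tr (ctr i) K) θ = h (tr (ctr i) K') θ) → K = K'

/-- the polygons and the Reuleaux triangle -/
def shape_stmt : Prop :=
  (∀ (a : Fin 3 → ℝ) (k : Fin 3 → ℕ), (∀ i, 0 < a i ∧ a i ≤ π / 6) → (∀ i, k i ≤ nn (a i)) →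
    IsFigure (poly a k) ∧ (∀ i, ctr i ∈ poly a k) ∧ poly a k ⊆ reuleaux ∧
    ∀ i : Fin 3, ∀ θ ∈ Icc (2 * π * (i : ℕ) / 3) (2 * π * (i : ℕ) / 3 + π / 3),
      h (tr (ctr i) (poly a k)) θ = h (pts (2 * π * (i : ℕ) / 3) (a i) (k i)) θ) ∧
  IsFigure reuleaux ∧ (∀ i, ctr i ∈ reuleaux) ∧
    ∀ i : Fin 3, ∀ θ ∈ Icc (2 * π * (i : ℕ) / 3) (2 * π * (i : ℕ) / 3 + π / 3),
      h (tr (ctr i) reuleaux) θ = 1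

def place_stmt : Prop :=
  ∀ (c : ℂ) (φ D : ℝ) (K : Set ℂ), 0 < D → IsFigure K →
    IsFigure (place c φ D K) ∧ area (place c φ D K) = D ^ 2 * area K ∧
    perimeter (place c φ D K) = D * perimeter K ∧ Metric.diam (place c φ D K) = D * Metric.diam K

/-- obstacle of the upper half of the lens over the segment from `0` to `1` -/
def lensB (θ : ℝ) : ℝ :=
  if θ ≤ π / 3 then 1 else if θ ≤ 2 * π / 3 then lin (u (π / 3)) θ else 1 + cos θ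

/-- caps over a chord of the unit circle: area gain against length gain -/
def capb_stmt : Prop :=
  ∀ (a b : ℝ) (C : Set ℂ), a ≤ b → b - a ≤ π / 3 → Arc a b C →
    2 * sin ((b - a) / 2) ≤ Le a b C ∧
    sin (b - a) / 2 + 3 / 4 * (Le a b C - 2 * sin ((b - a) / 2)) ≤ Ar a b C

/-- elementary facts on triangles with sides at most one -/
def tri_stmt : Prop :=
  (∀ s t : ℝ, 0 ≤ s → 0 ≤ t → s + t ≤ 1 →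
    iso (s + t) ≤ iso s + iso t ∧ (iso s + iso t ≤ iso (s + t) → s = 0 ∨ t = 0)) ∧
  (∀ s t : ℝ, 0 ≤ s → s ≤ t → t ≤ 1 → iso s ≤ iso t ∧ iso t ≤ iso s + (t - s) / 2 ∧
    (iso t ≤ iso s → s = t)) ∧
  ∀ x y : ℂ, ‖x‖ = 1 → ‖y‖ ≤ 1 → ‖x - y‖ ≤ 1 →
    0 ≤ ‖y‖ + ‖x - y‖ - 1 ∧ iso (‖y‖ + ‖x - y‖ - 1) ≤ |dt x y| / 2 ∧
    (|dt x y| / 2 ≤ iso (‖y‖ + ‖x - y‖ - 1) → ‖y‖ = 1 ∨ ‖x - y‖ = 1 ∨ ‖y‖ + ‖x - y‖ = 1)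

/-- the cap problem in the half lens; the boundary length of the cap is `Le 0 π C` -/
def lens_stmt : Prop :=
  ∀ C : Set ℂ, Cl 0 π lensB 1 0 C → 1 ≤ Le 0 π C ∧ (Le 0 π C ≤ 2 →
    iso (Le 0 π C - 1) ≤ Ar 0 π C ∧
    (Ar 0 π C ≤ iso (Le 0 π C - 1) → ∃ z : ℂ, 0 ≤ z.im ∧
      ((‖z‖ = 1 ∧ ‖z - 1‖ = Le 0 π C - 1) ∨ (‖z - 1‖ = 1 ∧ ‖z‖ = Le 0 π C - 1)) ∧
      ∀ θ ∈ Icc 0 π, h C θ = h {0, 1, z} θ))

def kubota_stmt : Prop :=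
  ∀ K : Set ℂ, IsFigure K → Metric.diam K = 1 → perimeter K ≤ 3 →
    iso (perimeter K - 2) ≤ area K ∧ (area K ≤ iso (perimeter K - 2) →
      ∃ A B C : ℂ, dist A B = 1 ∧ dist A C = 1 ∧ dist B C = perimeter K - 2 ∧
        K = convexHull ℝ {A, B, C})

def isotri_stmt : Prop :=
  ∀ (A B C : ℂ) (t : ℝ), 0 < t → t ≤ 1 → dist A B = 1 → dist A C = 1 → dist B C = t →
    Adm (t + 2) 1 (convexHull ℝ {A, B, C}) ∧ area (convexHull ℝ {A, B, C}) = iso t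

end Pool.Agent.Lib.MP_f2780a_gt
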